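import Mathlib
import Pool.Agent.Work.MP_3e01db_pr.Objects

/-! Bundle of small proof modules (one section per former module). -/

section

/-!
# MP_3e01db_pr: two independent continuum random trees are not quasisymmetrically equivalent
Basic definitions shared by all blocks (captain: helper35).
-/

open Set MeasureTheory ProbabilityTheory
open scoped ENNReal NNReal

namespace MP3e01

/-! ## paths and the tree pseudo-distance -/

/-- minimum of `h` on the interval spanned by `s` and `t` -/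
noncomputable def mn (h : ℝ → ℝ) (s t : ℝ) : ℝ := sInf (h '' Set.uIcc s t)

/-- the pseudo-distance on times coded by `h` -/
noncomputable def dT (h : ℝ → ℝ) (s t : ℝ) : ℝ := h s + h t - 2 * mn h s t

/-- the path of a process, as a function on `ℝ` -/
def pathR {Ω : Type*} (B : ℝ≥0 → Ω → ℝ) (ω : Ω) : ℝ → ℝ := fun t => B t.toNNReal ω

/-! ## embedded walks -/

/-- The path `u`, started at time `0`, successively leaves the open `ε`-neighbourhoods of its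
current positions in the directions given by the word `v` (`true` = up), at the times `σ i`. -/
structure Follows (ε : ℝ) (u : ℝ → ℝ) (v : List Bool) (σ : ℕ → ℝ) : Prop where
  zero : σ 0 = 0
  lt : ∀ i < v.length, σ i < σ (i + 1)
  step : ∀ (i : ℕ) (hi : i < v.length), u (σ (i + 1)) = u (σ i) + (if v[i] then ε else -ε)
  inside : ∀ i < v.length, ∀ s ∈ Set.Ico (σ i) (σ (i + 1)), |u s - u (σ i)| < ε

/-- after its first visit (after time `q`) to the level `min_{[p,q]} f` the path follows `v` -/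
def RightPre (f : ℝ → ℝ) (p q ε : ℝ) (v : List Bool) : Prop :=
  ∃ (τ : ℝ) (σ : ℕ → ℝ), q ≤ τ ∧ f τ = mn f p q ∧ (∀ t ∈ Set.Ico q τ, mn f p q < f t) ∧
    Follows ε (fun t => f (τ + t)) v σ

/-- before its last visit (before time `p`) to the level `min_{[p,q]} f` the reversed path
follows `v` (within the time interval `[0, τ]`) -/
def LeftPre (f : ℝ → ℝ) (p q ε : ℝ) (v : List Bool) : Prop :=
  ∃ (τ : ℝ) (σ : ℕ → ℝ), 0 ≤ τ ∧ τ ≤ p ∧ f τ = mn f p q ∧ (∀ t ∈ Set.Ioc τ p, mn f p q < f t) ∧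
    Follows ε (fun t => f (τ - t)) v σ ∧ σ v.length ≤ τ

/-- The only probabilistic input. -/
def S_AN.{u} : Prop :=
  ∀ {Ω : Type u} [MeasurableSpace Ω] (P : Measure Ω) (B B' : ℝ≥0 → Ω → ℝ),
    IsBrownianReal B P → IsBrownianReal B' P →
    IndepFun (fun ω t => B t ω) (fun ω t => B' t ω) P →
    ∀ (p q p' q' ε ε' : ℝ), 0 < p → p < q → 0 < p' → p' < q' → 0 < ε → 0 < ε' →
    ∀ (v v₁ v₂ : List Bool),
      P {ω | RightPre (pathR B ω) p q ε v ∧ RightPre (pathR B' ω) p' q' ε' v₁ ∧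
        LeftPre (pathR B' ω) p' q' ε' v₂} ≤ (2⁻¹ : ℝ≥0∞) ^ (v.length + v₁.length + v₂.length)

end MP3e01

end

section

/-!
Strong Markov property for real Brownian motion with respect to a sigma-algebra `G` independent of
the motion (analytic block for MP_3e01db_pr).
-/

open MeasureTheory ProbabilityTheory
open scoped NNReal ENNReal Topology

namespace Pool.Agent.Work.MP_3e01db_pr.SM

variable {Ω : Type*} {G mΩ : MeasurableSpace Ω} {P : Measure Ω}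

/-- The sigma-algebra generated by the whole process `B`. -/
abbrev procσ (B : ℝ≥0 → Ω → ℝ) : MeasurableSpace Ω :=
  MeasurableSpace.comap (fun ω (t : ℝ≥0) ↦ B t ω) MeasurableSpace.pi

/-- The sigma-algebra generated by `B s`, `s ≤ t`. -/
abbrev uptoσ (B : ℝ≥0 → Ω → ℝ) (t : ℝ≥0) : MeasurableSpace Ω :=
  MeasurableSpace.comap (fun ω (s : Set.Iic t) ↦ B s ω) MeasurableSpace.pi

/-- The sigma-algebra generated by `G` and `B s`, `s ≤ t`. -/
abbrev past (G : MeasurableSpace Ω) (B : ℝ≥0 → Ω → ℝ) (t : ℝ≥0) : MeasurableSpace Ω :=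
  G ⊔ uptoσ B t

/-- `B` is a Brownian motion with everywhere continuous measurable paths starting at `0`,
independent of the complete sigma-algebra `G`. -/
structure BMwrt (P : Measure Ω) (G : MeasurableSpace Ω) (B : ℝ≥0 → Ω → ℝ) : Prop where
  le : G ≤ mΩ
  null : ∀ N, MeasurableSet[mΩ] N → P N = 0 → MeasurableSet[G] N
  meas : ∀ t, Measurable[mΩ] (B t)
  cont : ∀ ω, Continuous fun t ↦ B t ω
  zero : ∀ ω, B 0 ω = 0
  bm : IsPreBrownianReal B P
  ind : Indep G (procσ B) P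

lemma BMwrt.isProb {B : ℝ≥0 → Ω → ℝ} (h : BMwrt P G B) :
    IsProbabilityMeasure P := h.bm.isGaussianProcess.isProbabilityMeasure

lemma procσ_le {B : ℝ≥0 → Ω → ℝ} (hB : ∀ t, Measurable[mΩ] (B t)) : procσ B ≤ mΩ :=
  (measurable_pi_lambda _ hB).comap_le

lemma uptoσ_le_procσ (B : ℝ≥0 → Ω → ℝ) (t : ℝ≥0) : uptoσ B t ≤ procσ B := by
  rw [uptoσ, procσ]
  have : (fun ω (s : Set.Iic t) ↦ B s ω) =
    (fun (f : ℝ≥0 → ℝ) (s : Set.Iic t) ↦ f s) ∘ (fun ω (t : ℝ≥0) ↦ B t ω) := rfl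
  rw [this, ← MeasurableSpace.comap_comp]
  exact MeasurableSpace.comap_mono (by
    have : Measurable (fun (f : ℝ≥0 → ℝ) (s : Set.Iic t) ↦ f s) := by fun_prop
    exact this.comap_le)

lemma uptoσ_le {B : ℝ≥0 → Ω → ℝ} (hB : ∀ t, Measurable[mΩ] (B t)) (t : ℝ≥0) : uptoσ B t ≤ mΩ :=
  (uptoσ_le_procσ B t).trans (procσ_le hB)

lemma uptoσ_mono (B : ℝ≥0 → Ω → ℝ) {s t : ℝ≥0} (h : s ≤ t) : uptoσ B s ≤ uptoσ B t := by
  rw [uptoσ, uptoσ]
  have : (fun ω (r : Set.Iic s) ↦ B r ω) =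
    (fun (f : Set.Iic t → ℝ) (r : Set.Iic s) ↦ f ⟨r, r.2.trans h⟩) ∘
      (fun ω (r : Set.Iic t) ↦ B r ω) := rfl
  rw [this, ← MeasurableSpace.comap_comp]
  exact MeasurableSpace.comap_mono (by
    have : Measurable (fun (f : Set.Iic t → ℝ) (r : Set.Iic s) ↦ f ⟨r, r.2.trans h⟩) := by
      fun_prop
    exact this.comap_le)

lemma past_mono (B : ℝ≥0 → Ω → ℝ) {s t : ℝ≥0} (h : s ≤ t) :
    past G B s ≤ past G B t := sup_le_sup_left (uptoσ_mono B h) _

lemma measurable_upto (B : ℝ≥0 → Ω → ℝ) {s t : ℝ≥0} (h : s ≤ t) : Measurable[uptoσ B t] (B s) := by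
  have h1 : Measurable[uptoσ B t] (fun ω (s : Set.Iic t) ↦ B s ω) := comap_measurable _
  exact (measurable_pi_apply (⟨s, h⟩ : Set.Iic t)).comp h1

/-- The increment process after the fixed time `t`. -/
abbrev incr (B : ℝ≥0 → Ω → ℝ) (t : ℝ≥0) : ℝ≥0 → Ω → ℝ := fun s ω ↦ B (t + s) ω - B t ω

lemma incr_procσ_le (B : ℝ≥0 → Ω → ℝ) (t : ℝ≥0) : procσ (incr B t) ≤ procσ B := by
  rw [procσ, procσ]
  have : (fun ω (s : ℝ≥0) ↦ incr B t s ω) =
    (fun (f : ℝ≥0 → ℝ) (s : ℝ≥0) ↦ f (t + s) - f t) ∘ (fun ω (t : ℝ≥0) ↦ B t ω) := rfl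
  rw [this, ← MeasurableSpace.comap_comp]
  exact MeasurableSpace.comap_mono (by
    have : Measurable (fun (f : ℝ≥0 → ℝ) (s : ℝ≥0) ↦ f (t + s) - f t) := by fun_prop
    exact this.comap_le)

/-- Weak Markov property relative to `G`. -/
lemma BMwrt.past_indep {B : ℝ≥0 → Ω → ℝ} (h : BMwrt P G B) (t : ℝ≥0) :
    Indep (past G B t) (procσ (incr B t)) P := by
  have := h.isProb
  have hshift : Indep (procσ (incr B t)) (uptoσ B t) P := by
    have := h.bm.indepFun_shift t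
    rwa [IndepFun_iff_Indep] at this
  set p1 : Set (Set Ω) := {s | ∃ A V, MeasurableSet[G] A ∧ MeasurableSet[uptoσ B t] V ∧ s = A ∩ V}
  have hp1 : IsPiSystem p1 := by
    rintro _ ⟨A, V, hA, hV, rfl⟩ _ ⟨A', V', hA', hV', rfl⟩ -
    refine ⟨A ∩ A', V ∩ V', ?_, ?_, ?_⟩
    · exact MeasurableSet.inter hA hA'
    · exact MeasurableSet.inter hV hV'
    · ext; simp; tauto
  have hle : past G B t ≤ MeasurableSpace.generateFrom p1 := by
    refine sup_le ?_ ?_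
    · intro A hA
      exact MeasurableSpace.measurableSet_generateFrom ⟨A, Set.univ, hA, MeasurableSet.univ, by simp⟩
    · intro V hV
      exact MeasurableSpace.measurableSet_generateFrom
        ⟨Set.univ, V, MeasurableSet.univ, hV, by simp⟩
  refine indep_of_indep_of_le_left ?_ hle
  have hX : procσ (incr B t) = MeasurableSpace.generateFrom
      {s | MeasurableSet[procσ (incr B t)] s} := by
    exact (@MeasurableSpace.generateFrom_measurableSet Ω (procσ (incr B t))).symm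
  rw [hX]
  refine IndepSets.indep' ?_ ?_ hp1 ?_ ?_
  · rintro _ ⟨A, V, hA, hV, rfl⟩
    exact @MeasurableSet.inter _ mΩ _ _ (h.le _ hA) (uptoσ_le h.meas t _ hV)
  · intro s hs
    exact procσ_le h.meas _ (incr_procσ_le B t _ hs)
  · exact @MeasurableSpace.isPiSystem_measurableSet Ω (procσ (incr B t))
  · rw [IndepSets_iff]
    rintro _ W ⟨A, V, hA, hV, rfl⟩ hW
    have e1 := (Indep_iff _ _ _).1 h.ind A (V ∩ W) hA
      (MeasurableSet.inter (uptoσ_le_procσ B t _ hV) (incr_procσ_le B t _ hW))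
    have e2 := (Indep_iff _ _ _).1 h.ind A V hA (uptoσ_le_procσ B t _ hV)
    have e3 := (Indep_iff _ _ _).1 hshift W V hW hV
    rw [Set.inter_assoc, e1, e2, Set.inter_comm V W, e3]
    ring

end Pool.Agent.Work.MP_3e01db_pr.SM

end

section

/-!
# MP_3e01db_pr: words, weights, languages, strong and weak patterns
-/

open Set MeasureTheory ProbabilityTheory
open scoped ENNReal NNReal

namespace MP3e01

/-! ## words and weights -/

/-- the step of a letter: `true` = up, `false` = down -/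
def stp (b : Bool) : ℤ := if b then 1 else -1

/-- the height reached by the word -/
def ht (v : List Bool) : ℤ := (v.map stp).sum

/-- the weight of a set of words -/
noncomputable def wt (L : Set (List Bool)) : ℝ≥0∞ :=
  ∑' v : L, (2⁻¹ : ℝ≥0∞) ^ (v : List Bool).length

/-- concatenation of two sets of words -/
def conc (L₁ L₂ : Set (List Bool)) : Set (List Bool) := {w | ∃ u ∈ L₁, ∃ v ∈ L₂, w = u ++ v}

/-- `k`-fold concatenation -/
def rep : ℕ → Set (List Bool) → Set (List Bool)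
  | 0, _ => {[]}
  | k + 1, L => conc L (rep k L)

def PrefixFree (L : Set (List Bool)) : Prop := ∀ u ∈ L, ∀ v ∈ L, u <+: v → u = v

/-- words reaching `+a` at their end, and never before, and always above `-b` before the end -/
def U (a b : ℕ) : Set (List Bool) :=
  {v | ht v = (a : ℤ) ∧ ∀ w, w <+: v → w ≠ v → -(b : ℤ) < ht w ∧ ht w < (a : ℤ)}

/-- words reaching `-b` at their end, and never before, and always below `+a` before the end -/
def Dn (a b : ℕ) : Set (List Bool) :=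
  {v | ht v = -(b : ℤ) ∧ ∀ w, w <+: v → w ≠ v → -(b : ℤ) < ht w ∧ ht w < (a : ℤ)}

/-- first passage words to `-k` -/
def FP (k : ℕ) : Set (List Bool) :=
  {v | ht v = -(k : ℤ) ∧ ∀ w, w <+: v → w ≠ v → -(k : ℤ) < ht w}

/-! ## pages of the strong side.  `G` = number of mesh units of the smallest scale
(`16 ∣ G`), `R` = ratio of scales, `N = R ^ J` = number of pages, `M = G * N`. -/

/-- one step down, `k` further records of the minimum, then the page is entered -/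
def Start (G k : ℕ) : Set (List Bool) :=
  conc {[false]} (conc (rep k (Dn (G / 4) 1)) (U (G / 4) 1))

/-- page words with displacement `k + 1` of the minimum -/
def Page (G N k : ℕ) : Set (List Bool) :=
  conc (Start G k) (conc (U (G * N - G / 4) (G / 4)) (Dn (G * N) (G * N)))

/-- the ascent of a page whose label `r` is strong -/
def AscL (G N R r : ℕ) : Set (List Bool) :=
  conc (U (r / 2 - G / 4) (G / 4))
    (conc (rep (2 * R * r - r / 2) (U 1 (r / 2))) (U (G * N - 2 * R * r) (R * r / 2)))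

/-- the descent of a page whose label `r` is strong -/
def DesL (G N R r : ℕ) : Set (List Bool) :=
  conc (Dn (G * N) (G * N - 2 * R * r))
    (conc (rep (2 * R * r - r / 2) (Dn (r / 2) 1)) (Dn (G * N) (r / 2)))

/-- page words with strong label at scale number `j`, i.e. `r = G * R ^ (J - j)` -/
def PageL (R J G k j : ℕ) : Set (List Bool) :=
  conc (Start G k) (conc (AscL G (R ^ J) R (G * R ^ (J - j))) (DesL G (R ^ J) R (G * R ^ (J - j))))

/-- the set of strong labels of a page word -/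
noncomputable def lab (R J G : ℕ) (w : List Bool) : Finset ℕ := by
  classical exact (Finset.Icc 2 J).filter (fun j => ∃ k < G - 1, w ∈ PageL R J G k j)

/-- page words (of displacement `< G`) -/
def Pages (R J G : ℕ) : Set (List Bool) := {w | ∃ k < G - 1, w ∈ Page G (R ^ J) k}

/-- page words with many strong labels -/
def GoodPages (D R J G : ℕ) : Set (List Bool) := {w | w ∈ Pages R J G ∧ J ≤ D * (lab R J G w).card}

/-- a cluster: `R ^ J` good page words -/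
def IsCluster (D R J G : ℕ) (ws : List (List Bool)) : Prop :=
  ws.length = R ^ J ∧ ∀ w ∈ ws, w ∈ GoodPages D R J G

/-- the group of page number `i` in the list `ws` -/
def grp (G : ℕ) (ws : List (List Bool)) (i : ℕ) : ℕ :=
  (-(ht (ws.take (i + 1)).flatten)).toNat / G

/-- The failing words: first passage words to the depth `2 * 16 R^(I+1) R^J` which contain, for no
`i ≤ I`, a cluster of size `G = 16 R^i` starting at their first passage to
`2 * 16 R^i R^J`. -/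
def Fail (D R J I : ℕ) : Set (List Bool) :=
  {v | v ∈ FP (2 * (16 * R ^ (I + 1)) * R ^ J) ∧
    ∀ i ≤ I, ¬ ∃ u ∈ FP (2 * (16 * R ^ i) * R ^ J), ∃ ws, IsCluster D R J (16 * R ^ i) ws ∧
      (u ++ ws.flatten) <+: v}

/-! ## chains of the weak side -/

/-- from the base to height `2A-1`, without going below the base; several attempts -/
def Climb (A : ℕ) : Set (List Bool) :=
  {w | ∃ m : ℕ, w ∈ conc (U (2 * A - 1) 1) (rep m (conc (FP A) (U A A)))}

/-- descent through the windows `Q` of the list, starting at height `cur` above the base -/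
def desc (K : ℕ) : ℕ → List ℕ → Set (List Bool)
  | _, [] => {[]}
  | cur, Q :: Qs =>
      conc (FP (cur - (2 * Q - 2))) (conc (rep (Q - 4) (Dn (2 * K * Q + 2) 1)) (desc K (Q + 2) Qs))

/-- final height above the base of `desc` -/
def endp : ℕ → List ℕ → ℕ
  | cur, [] => cur
  | _, Q :: Qs => endp (Q + 2) Qs

/-- words visiting successively the pages `(ℓ, Qs)` at depths `ℓ` -/
def chain (K A : ℕ) : ℤ → List (ℕ × List ℕ) → Set (List Bool)
  | _, [] => {[]}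
  | cur, (l, Qs) :: rest =>
      conc (FP (cur + l).toNat) (conc (Climb A) (conc (desc K (2 * A - 1) Qs)
        (chain K A ((endp (2 * A - 1) Qs : ℤ) - l) rest)))

/-! ## codes of scale functions -/

/-- accumulated level of the code `c` at node `(j, idx)`; the parent of `(j+1, idx)` is
`(j, idx / R)` -/
def lev (R : ℕ) (c : ℕ → ℕ → ℕ) : ℕ → ℕ → ℕ
  | 0, idx => c 0 idx
  | j + 1, idx => lev R c j (idx / R) + 2 + c (j + 1) idx

/-- the node of page `i` at level `j` -/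
def node (R J : ℕ) (gr : ℕ → ℕ) (i j : ℕ) : ℕ := gr i / R ^ (J - j)

/-- the window (real) of the label `(i,j)` at image scale `n'` -/
noncomputable def win (K R J n' : ℕ) (gr : ℕ → ℕ) (c : ℕ → ℕ → ℕ) (i j : ℕ) : ℝ :=
  (2 : ℝ) ^ (4 * K + 2) / 2 ^ (n' + lev R c j (node R J gr i j))

/-- the windows in mesh units, as a list, for mesh `2^-(n'+E)` -/
noncomputable def qs (K R J E : ℕ) (gr : ℕ → ℕ) (c : ℕ → ℕ → ℕ) (lb : ℕ → Finset ℕ) (i : ℕ) :
    List ℕ :=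
  ((lb i).sort (· ≤ ·)).map fun j => 2 ^ (E + 4 * K + 2 - lev R c j (node R J gr i j))

/-! ## patterns of paths -/

/-- first visit after `q` to the level `y` (coming from above) -/
def IsFirst (f : ℝ → ℝ) (q y τ : ℝ) : Prop := q ≤ τ ∧ f τ = y ∧ ∀ t ∈ Set.Ico q τ, y < f t

/-- last visit before `p` to the level `y` -/
def IsLast (f : ℝ → ℝ) (p y τ : ℝ) : Prop := τ ≤ p ∧ f τ = y ∧ ∀ t ∈ Set.Ioc τ p, y < f t

/-- strong cluster of pages of `f` on the right of `τ`, at scale `s`; `N = R ^ J` pages with top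
times `t i`, roots `β i`, labels `lb i`, groups `gr i` -/
structure StrongPat (f : ℝ → ℝ) (τ s : ℝ) (R J : ℕ) (lb : ℕ → Finset ℕ) (gr : ℕ → ℕ)
    (β t : ℕ → ℝ) : Prop where
  lab_sub : ∀ i < R ^ J, lb i ⊆ Finset.Icc 2 J
  gr_lt : ∀ i < R ^ J, gr i < R ^ J
  τβ : ∀ i < R ^ J, τ < β i
  βt : ∀ i < R ^ J, β i < t i
  low : ∀ i < R ^ J, ∀ x ∈ Set.Icc τ (t i), f (β i) ≤ f x
  dep_ge : ∀ i < R ^ J, s ≤ f τ - f (β i)
  dep_le : ∀ i < R ^ J, f τ - f (β i) ≤ 4 * s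
  top : ∀ i < R ^ J, s ≤ f (t i) - f (β i)
  anti : ∀ i, i + 1 < R ^ J → f (β (i + 1)) < f (β i)
  label : ∀ i < R ^ J, ∀ j ∈ lb i, ∀ x, τ ≤ x → f (β i) + s / R ^ j ≤ mn f x (t i) →
    mn f x (t i) ≤ f (β i) + s / R ^ (j - 1) → f x - mn f x (t i) ≤ s / R ^ j
  group : ∀ i < R ^ J, ∀ i' < R ^ J, ∀ j ≤ J, node R J gr i j = node R J gr i' j →
    |f (β i) - f (β i')| ≤ s / R ^ j

/-- one page of a one-sided path `u` on `[0,T]` starting at height `y`: depth `D` of the root,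
time `t` of height `≥ Hr` above the root, and the weak labels `w ∈ W` -/
structure WPage (u : ℝ → ℝ) (T y D t Hr : ℝ) (K : ℕ) (W : Set ℝ) : Prop where
  pos : 0 < t
  le : t ≤ T
  root : mn u 0 t = y - D
  high : Hr ≤ u t - (y - D)
  label : ∀ w ∈ W, ∀ x ∈ Set.Icc t T, y - D + w ≤ mn u t x → mn u t x ≤ y - D + 2 * w →
    u x - mn u t x ≤ 2 * K * w

/-- weak cluster at image scale `2^-n'`, on both sides of the point with last visit `τL` and first
visit `τR`, `f` being an excursion on `[g,d]`; compatible with labels `lb`, groups `gr`, code `c` -/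
structure WeakPat (f : ℝ → ℝ) (g d τL τR y : ℝ) (K R J n' : ℕ) (lb : ℕ → Finset ℕ) (gr : ℕ → ℕ)
    (c : ℕ → ℕ → ℕ) (side : ℕ → Bool) (dep t : ℕ → ℝ) : Prop where
  dep_ge : ∀ i < R ^ J, 1 / 2 ^ (n' + 1) ≤ dep i
  dep_le : ∀ i < R ^ J, dep i ≤ K / 2 ^ n'
  mono : ∀ i, i + 1 < R ^ J → dep i < dep (i + 1)
  small : ∀ i < R ^ J, ∀ j ∈ lb i, 2 * win K R J n' gr c i j ≤ 1 / 2 ^ (n' + 2 + K)
  right : ∀ i < R ^ J, side i = true →
    WPage (fun x => f (τR + x)) (d - τR) y (dep i) (t i) (1 / 2 ^ (n' + 1 + K)) K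
      {w | ∃ j ∈ lb i, w = win K R J n' gr c i j}
  left : ∀ i < R ^ J, side i = false →
    WPage (fun x => f (τL - x)) (τL - g) y (dep i) (t i) (1 / 2 ^ (n' + 1 + K)) K
      {w | ∃ j ∈ lb i, w = win K R J n' gr c i j}

/-! ## excursions and quasisymmetric correspondences -/

structure IsExc (f : ℝ → ℝ) (g d : ℝ) : Prop where
  lt : g < d
  cont : ContinuousOn f (Set.Icc g d)
  left : f g = 0
  right : f d = 0
  pos : ∀ t ∈ Set.Ioo g d, 0 < f t

/-- `z` lies on the arc between `x` and `y` in the tree coded by `f` -/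
def Btw (f : ℝ → ℝ) (x z y : ℝ) : Prop := dT f x z + dT f z y = dT f x y

/-- A map of times which induces a homeomorphism of the trees (preserves arcs, is onto up to
distance zero) with the quasisymmetry estimates needed; `R = 2 ^ a`. -/
structure QSCorr (f : ℝ → ℝ) (g d : ℝ) (f' : ℝ → ℝ) (g' d' : ℝ) (K R K₁ : ℕ) (θ : ℝ → ℝ) :
    Prop where
  maps : ∀ x ∈ Set.Icc g d, θ x ∈ Set.Icc g' d'
  surj : ∀ x' ∈ Set.Icc g' d', ∃ x ∈ Set.Icc g d, dT f' (θ x) x' = 0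
  zero : ∀ x ∈ Set.Icc g d, ∀ y ∈ Set.Icc g d, (dT f x y = 0 ↔ dT f' (θ x) (θ y) = 0)
  btw : ∀ x ∈ Set.Icc g d, ∀ z ∈ Set.Icc g d, ∀ y ∈ Set.Icc g d,
    (Btw f x z y ↔ Btw f' (θ x) (θ z) (θ y))
  q1 : ∀ x ∈ Set.Icc g d, ∀ y ∈ Set.Icc g d, ∀ z ∈ Set.Icc g d,
    dT f x y ≤ dT f x z → dT f' (θ x) (θ y) ≤ K * dT f' (θ x) (θ z)
  q4 : ∀ x ∈ Set.Icc g d, ∀ y ∈ Set.Icc g d, ∀ z ∈ Set.Icc g d,
    dT f x y ≤ 4 * dT f x z → dT f' (θ x) (θ y) ≤ K * dT f' (θ x) (θ z)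
  qs : ∀ x ∈ Set.Icc g d, ∀ y ∈ Set.Icc g d, ∀ z ∈ Set.Icc g d,
    R * dT f x y ≤ dT f x z → 2 ^ (8 * K + 8) * dT f' (θ x) (θ y) ≤ dT f' (θ x) (θ z)
  qb : ∀ x ∈ Set.Icc g d, ∀ y ∈ Set.Icc g d, ∀ z ∈ Set.Icc g d,
    dT f x y ≤ R * dT f x z → dT f' (θ x) (θ y) ≤ K₁ * dT f' (θ x) (θ z)

/-- not monotone on any nondegenerate subinterval of `(g,d)` -/
def NonMono (f : ℝ → ℝ) (g d : ℝ) : Prop :=
  ∀ x y, g < x → x < y → y < d → ¬ MonotoneOn f (Set.Icc x y) ∧ ¬ AntitoneOn f (Set.Icc x y)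

end MP3e01

end

section

open MeasureTheory ProbabilityTheory
open scoped NNReal ENNReal Topology

namespace Pool.Agent.Work.MP_3e01db_pr.SM

variable {Ω : Type*} {G mΩ : MeasurableSpace Ω} {P : Measure Ω}

/-- The process restarted at the random time `τ`. -/
abbrev restart (B : ℝ≥0 → Ω → ℝ) (τ : Ω → ℝ≥0) : ℝ≥0 → Ω → ℝ :=
  fun s ω ↦ B (τ ω + s) ω - B (τ ω) ω

lemma measurable_restart {B : ℝ≥0 → Ω → ℝ} (hm : ∀ t, Measurable (B t))
    (hc : ∀ ω, Continuous fun t ↦ B t ω) {τ : Ω → ℝ≥0} (hτ : Measurable τ) (s : ℝ≥0) :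
    Measurable (restart B τ s) := by
  have hj : Measurable (Function.uncurry B) :=
    measurable_uncurry_of_continuous_of_measurable hc hm
  have h1 : Measurable fun ω ↦ Function.uncurry B (τ ω + s, ω) :=
    hj.comp ((hτ.add_const s).prodMk measurable_id)
  have h2 : Measurable fun ω ↦ Function.uncurry B (τ ω, ω) := hj.comp (hτ.prodMk measurable_id)
  exact h1.sub h2

lemma continuous_restart {B : ℝ≥0 → Ω → ℝ} (hc : ∀ ω, Continuous fun t ↦ B t ω) (τ : Ω → ℝ≥0)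
    (ω : Ω) : Continuous fun s ↦ restart B τ s ω := by
  have := hc ω
  unfold restart
  fun_prop

/-- The sigma-algebra of the events determined at time `τ`. -/
def atσ (mΩ : MeasurableSpace Ω) (G : MeasurableSpace Ω) (B : ℝ≥0 → Ω → ℝ) (τ : Ω → ℝ≥0)
    (hτ : ∀ t, MeasurableSet[past G B t] {ω | τ ω ≤ t}) : MeasurableSpace Ω where
  MeasurableSet' A := MeasurableSet[mΩ] A ∧ ∀ t, MeasurableSet[past G B t] (A ∩ {ω | τ ω ≤ t})
  measurableSet_empty := by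
    refine ⟨@MeasurableSet.empty _ mΩ, fun t ↦ ?_⟩
    rw [Set.empty_inter]; exact @MeasurableSet.empty _ (past G B t)
  measurableSet_compl A hA := by
    refine ⟨@MeasurableSet.compl _ _ mΩ hA.1, fun t ↦ ?_⟩
    have : Aᶜ ∩ {ω | τ ω ≤ t} = {ω | τ ω ≤ t} \ (A ∩ {ω | τ ω ≤ t}) := by
      ext; simp; tauto
    rw [this]
    exact @MeasurableSet.diff _ (past G B t) _ _ (hτ t) (hA.2 t)
  measurableSet_iUnion f hf := by
    refine ⟨@MeasurableSet.iUnion _ _ mΩ _ f fun i ↦ (hf i).1, fun t ↦ ?_⟩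
    rw [Set.iUnion_inter]
    exact @MeasurableSet.iUnion _ _ (past G B t) _ _ fun i ↦ (hf i).2 t

lemma le_atσ {B : ℝ≥0 → Ω → ℝ} {τ : Ω → ℝ≥0} (hG : G ≤ mΩ)
    (hτ : ∀ t, MeasurableSet[past G B t] {ω | τ ω ≤ t}) : G ≤ atσ mΩ G B τ hτ := by
  intro A hA
  refine ⟨hG A hA, fun t ↦ ?_⟩
  exact @MeasurableSet.inter _ (past G B t) _ _
    ((le_sup_left : G ≤ past G B t) A hA) (hτ t)

lemma atσ_le {B : ℝ≥0 → Ω → ℝ} {τ : Ω → ℝ≥0}
    (hτ : ∀ t, MeasurableSet[past G B t] {ω | τ ω ≤ t}) : atσ mΩ G B τ hτ ≤ mΩ :=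
  fun _ hA ↦ hA.1

/-- Dyadic approximation from above. -/
noncomputable def dy (τ : Ω → ℝ≥0) (m : ℕ) (ω : Ω) : ℝ≥0 := (⌈(2 : ℝ≥0) ^ m * τ ω⌉₊ : ℝ≥0) / 2 ^ m

lemma le_dy (τ : Ω → ℝ≥0) (m : ℕ) (ω : Ω) : τ ω ≤ dy τ m ω := by
  rw [dy, le_div_iff₀ (by positivity), mul_comm]
  exact Nat.le_ceil _

lemma dy_le (τ : Ω → ℝ≥0) (m : ℕ) (ω : Ω) : dy τ m ω ≤ τ ω + (1 / 2) ^ m := by
  rw [dy, div_le_iff₀ (by positivity)]
  have h := (Nat.ceil_lt_add_one (a := (2 : ℝ≥0) ^ m * τ ω) (by positivity)).le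
  refine h.trans (le_of_eq ?_)
  rw [add_mul, one_div, inv_pow, inv_mul_cancel₀ (by positivity), mul_comm]

lemma tendsto_dy (τ : Ω → ℝ≥0) (ω : Ω) :
    Filter.Tendsto (fun m ↦ dy τ m ω) Filter.atTop (𝓝 (τ ω)) := by
  have h1 : Filter.Tendsto (fun m : ℕ ↦ τ ω + (1 / 2 : ℝ≥0) ^ m) Filter.atTop (𝓝 (τ ω + 0)) := by
    refine tendsto_const_nhds.add ?_
    exact NNReal.tendsto_pow_atTop_nhds_zero_of_lt_one (by
      rw [div_lt_one (by norm_num)]; norm_num)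
  rw [add_zero] at h1
  exact tendsto_of_tendsto_of_tendsto_of_le_of_le tendsto_const_nhds h1
    (fun m ↦ le_dy τ m ω) (fun m ↦ dy_le τ m ω)

lemma meas_dy {B : ℝ≥0 → Ω → ℝ} {τ : Ω → ℝ≥0}
    {hτ : ∀ t, MeasurableSet[past G B t] {ω | τ ω ≤ t}} {A : Set Ω}
    (hA : MeasurableSet[atσ mΩ G B τ hτ] A) (m j : ℕ) :
    MeasurableSet[past G B ((j : ℝ≥0) / 2 ^ m)] (A ∩ {ω | ⌈(2 : ℝ≥0) ^ m * τ ω⌉₊ = j}) := by
  have key : ∀ i : ℕ, {ω | ⌈(2 : ℝ≥0) ^ m * τ ω⌉₊ ≤ i} = {ω | τ ω ≤ (i : ℝ≥0) / 2 ^ m} := by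
    intro i
    ext ω
    simp only [Set.mem_ofPred_eq]
    rw [Nat.ceil_le, le_div_iff₀ (by positivity), mul_comm]
  rcases Nat.eq_zero_or_pos j with rfl | hj
  · have : {ω | ⌈(2 : ℝ≥0) ^ m * τ ω⌉₊ = 0} = {ω | τ ω ≤ ((0 : ℕ) : ℝ≥0) / 2 ^ m} := by
      rw [← key 0]; ext ω; simp
    rw [this]
    exact hA.2 _
  · have : A ∩ {ω | ⌈(2 : ℝ≥0) ^ m * τ ω⌉₊ = j} =
        (A ∩ {ω | τ ω ≤ (j : ℝ≥0) / 2 ^ m}) \ (A ∩ {ω | τ ω ≤ ((j - 1 : ℕ) : ℝ≥0) / 2 ^ m}) := by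
      rw [← key j, ← key (j - 1)]
      ext ω
      simp only [Set.mem_inter_iff, Set.mem_ofPred_eq, Set.mem_sdiff, not_and, not_le]
      constructor
      · rintro ⟨h1, h2⟩
        exact ⟨⟨h1, h2.le⟩, fun _ ↦ by omega⟩
      · rintro ⟨⟨h1, h2⟩, h3⟩
        have := h3 h1
        exact ⟨h1, by omega⟩
    rw [this]
    refine @MeasurableSet.diff _ (past G B ((j : ℝ≥0) / 2 ^ m)) _ _ (hA.2 _) ?_
    refine past_mono (G := G) B ?_ _ (hA.2 _)
    gcongr
    omega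

lemma measurable_dy {τ : Ω → ℝ≥0} (hτm : Measurable τ) (m : ℕ) : Measurable (dy τ m) := by
  unfold dy
  have h1 : Measurable fun ω ↦ (2 : ℝ≥0) ^ m * τ ω := hτm.const_mul _
  have h2 : Measurable fun ω ↦ ⌈(2 : ℝ≥0) ^ m * τ ω⌉₊ := Nat.measurable_ceil.comp h1
  have h3 : Measurable fun ω ↦ ((⌈(2 : ℝ≥0) ^ m * τ ω⌉₊ : ℕ) : ℝ≥0) :=
    (measurable_from_nat (f := fun n : ℕ ↦ (n : ℝ≥0))).comp h2
  exact h3.div_const _

lemma meas_of_stop {B : ℝ≥0 → Ω → ℝ} (h : BMwrt P G B) {τ : Ω → ℝ≥0}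
    (hτ : ∀ t, MeasurableSet[past G B t] {ω | τ ω ≤ t}) : Measurable[mΩ] τ := by
  refine @measurable_of_Iic _ _ _ _ _ mΩ _ _ _ _ fun t ↦ ?_
  exact (sup_le h.le (uptoσ_le h.meas _)) _ (hτ t)

/-- Joint law of a restarted process at a dyadic time and an event determined at `τ`. -/
lemma BMwrt.dyadic {B : ℝ≥0 → Ω → ℝ} (h : BMwrt P G B) {τ : Ω → ℝ≥0}
    {hτ : ∀ t, MeasurableSet[past G B t] {ω | τ ω ≤ t}} {A : Set Ω}
    (hA : MeasurableSet[atσ mΩ G B τ hτ] A) (m : ℕ) (I : Finset ℝ≥0) (S : Set (I → ℝ))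
    (hS : MeasurableSet S) :
    P (A ∩ {ω | I.restrict (fun s ↦ restart B (dy τ m) s ω) ∈ S}) =
      P A * BrownianReal.projectiveFamily I S := by
  have := h.isProb
  set D : ℕ → Set Ω := fun j ↦ {ω | ⌈(2 : ℝ≥0) ^ m * τ ω⌉₊ = j} with hD
  have hdisj : Pairwise (Function.onFun Disjoint D) := by
    intro i j hij
    rw [Function.onFun, Set.disjoint_left]
    intro ω h1 h2
    exact hij (h1.symm.trans h2)
  have hcov : ∀ ω, ∃ j, ω ∈ D j := fun ω ↦ ⟨_, rfl⟩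
  have hAD : ∀ j, MeasurableSet[mΩ] (A ∩ D j) := fun j ↦
    (sup_le h.le (uptoσ_le h.meas _)) _ (meas_dy hA m j)
  have hmeasI : ∀ t : ℝ≥0, Measurable[mΩ] fun ω ↦ I.restrict (fun s ↦ incr B t s ω) := by
    intro t
    have hs : ∀ s : I, Measurable[mΩ] fun ω ↦ incr B t s ω := fun s ↦
      Measurable.sub (m := mΩ) (h.meas (t + s)) (h.meas t)
    exact @measurable_pi_lambda _ _ _ mΩ _ _ hs
  have hE : ∀ j, (A ∩ {ω | I.restrict (fun s ↦ restart B (dy τ m) s ω) ∈ S}) ∩ D j =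
      (A ∩ D j) ∩ {ω | I.restrict (fun s ↦ incr B ((j : ℝ≥0) / 2 ^ m) s ω) ∈ S} := by
    intro j
    ext ω
    simp only [Set.mem_inter_iff, Set.mem_ofPred_eq, hD]
    constructor
    · rintro ⟨⟨h1, h2⟩, h3⟩
      refine ⟨⟨h1, h3⟩, ?_⟩
      convert h2 using 2
      ext s
      simp only [incr, restart, dy, h3]
    · rintro ⟨⟨h1, h3⟩, h2⟩
      refine ⟨⟨h1, ?_⟩, h3⟩
      convert h2 using 2
      ext s
      simp only [incr, restart, dy, h3]
  have hP : ∀ j, P ((A ∩ {ω | I.restrict (fun s ↦ restart B (dy τ m) s ω) ∈ S}) ∩ D j) =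
      P (A ∩ D j) * BrownianReal.projectiveFamily I S := by
    intro j
    rw [hE j]
    have hind := (Indep_iff _ _ _).1 (h.past_indep ((j : ℝ≥0) / 2 ^ m)) (A ∩ D j)
      {ω | I.restrict (fun s ↦ incr B ((j : ℝ≥0) / 2 ^ m) s ω) ∈ S} (meas_dy hA m j) ?_
    · rw [hind]
      congr 1
      have hl := (h.bm.shift ((j : ℝ≥0) / 2 ^ m)).hasLaw I
      rw [← hl.map_eq, Measure.map_apply_of_aemeasurable (hmeasI _).aemeasurable hS]
      rfl
    · refine ⟨{f | I.restrict f ∈ S}, ?_, rfl⟩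
      exact (Finset.measurable_restrict I) hS
  have hpart : ∀ E : Set Ω, (∀ j, MeasurableSet[mΩ] (E ∩ D j)) → P E = ∑' j, P (E ∩ D j) := by
    intro E hE'
    have : E = ⋃ j, E ∩ D j := by
      ext ω
      simp only [Set.mem_iUnion, Set.mem_inter_iff]
      exact ⟨fun hω ↦ (hcov ω).imp fun j hj ↦ ⟨hω, hj⟩, fun ⟨j, hj⟩ ↦ hj.1⟩
    conv_lhs => rw [this]
    rw [measure_iUnion _ hE']
    intro i j hij
    exact (hdisj hij).mono Set.inter_subset_right Set.inter_subset_right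
  rw [hpart _ (fun j ↦ by rw [hE j]; exact (hAD j).inter ((hmeasI _) hS)), hpart A hAD]
  simp_rw [hP]
  rw [ENNReal.tsum_mul_right]

/-- Limit of the dyadic statement, in integral form. -/
lemma BMwrt.limit {B : ℝ≥0 → Ω → ℝ} (h : BMwrt P G B) {τ : Ω → ℝ≥0}
    {hτ : ∀ t, MeasurableSet[past G B t] {ω | τ ω ≤ t}} {A : Set Ω}
    (hA : MeasurableSet[atσ mΩ G B τ hτ] A) (I : Finset ℝ≥0) :
    (P.restrict A).map (fun ω ↦ I.restrict (fun s ↦ restart B τ s ω)) =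
      P A • BrownianReal.projectiveFamily I := by
  have := h.isProb
  have hτm := meas_of_stop h hτ
  have hmI : ∀ σ : Ω → ℝ≥0, Measurable[mΩ] σ →
      Measurable[mΩ] fun ω ↦ I.restrict (fun s ↦ restart B σ s ω) := by
    intro σ hσ
    exact measurable_pi_lambda _ fun s : I ↦ measurable_restart h.meas h.cont hσ s
  have hdyad : ∀ m, (P.restrict A).map (fun ω ↦ I.restrict (fun s ↦ restart B (dy τ m) s ω)) =
      P A • BrownianReal.projectiveFamily I := by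
    intro m
    ext S hS
    rw [Measure.map_apply (hmI _ (measurable_dy hτm m)) hS, Measure.restrict_apply
      ((hmI _ (measurable_dy hτm m)) hS), Set.inter_comm]
    exact h.dyadic hA m I S hS
  have : IsFiniteMeasure (P A • BrownianReal.projectiveFamily I) := by
    rw [← hdyad 0]; infer_instance
  have hmap : ∀ (σ : Ω → ℝ≥0) (hσ : Measurable σ) (f : BoundedContinuousFunction (I → ℝ) ℝ),
      ∫ x, f x ∂((P.restrict A).map (fun ω ↦ I.restrict (fun s ↦ restart B σ s ω))) =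
        ∫ ω in A, f (I.restrict (fun s ↦ restart B σ s ω)) ∂P := by
    intro σ hσ f
    exact integral_map (hmI σ hσ).aemeasurable f.continuous.aestronglyMeasurable
  refine ext_of_forall_integral_eq_of_IsFiniteMeasure fun f ↦ ?_
  have hlim : Filter.Tendsto (fun m : ℕ ↦ ∫ ω in A, f (I.restrict
      (fun s ↦ restart B (dy τ m) s ω)) ∂P) Filter.atTop
      (𝓝 (∫ ω in A, f (I.restrict (fun s ↦ restart B τ s ω)) ∂P)) := by
    refine tendsto_integral_of_dominated_convergence (fun _ ↦ ‖f‖) ?_ ?_ ?_ ?_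
    · intro m
      exact (f.continuous.measurable.comp (hmI _ (measurable_dy hτm m))).aestronglyMeasurable
    · exact integrable_const _
    · intro m
      exact Filter.Eventually.of_forall fun ω ↦ f.norm_coe_le_norm _
    · refine Filter.Eventually.of_forall fun ω ↦ ?_
      refine (f.continuous.tendsto _).comp ?_
      refine tendsto_pi_nhds.2 fun s ↦ ?_
      have hc := h.cont ω
      have h1 : Filter.Tendsto (fun m ↦ B (dy τ m ω + s) ω) Filter.atTop (𝓝 (B (τ ω + s) ω)) :=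
        (hc.tendsto (τ ω + s)).comp ((tendsto_dy τ ω).add_const _)
      have h2 : Filter.Tendsto (fun m ↦ B (dy τ m ω) ω) Filter.atTop (𝓝 (B (τ ω) ω)) :=
        (hc.tendsto (τ ω)).comp (tendsto_dy τ ω)
      exact h1.sub h2
  have hconst : ∀ m, ∫ ω in A, f (I.restrict (fun s ↦ restart B (dy τ m) s ω)) ∂P =
      ∫ x, f x ∂(P A • BrownianReal.projectiveFamily I) := by
    intro m
    rw [← hmap _ (measurable_dy hτm m) f, hdyad m]
  rw [hmap τ hτm f]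
  simp_rw [hconst] at hlim
  exact tendsto_nhds_unique hlim tendsto_const_nhds

lemma BMwrt.cyl {B : ℝ≥0 → Ω → ℝ} (h : BMwrt P G B) {τ : Ω → ℝ≥0}
    {hτ : ∀ t, MeasurableSet[past G B t] {ω | τ ω ≤ t}} {A : Set Ω}
    (hA : MeasurableSet[atσ mΩ G B τ hτ] A) (I : Finset ℝ≥0) {S : Set (I → ℝ)}
    (hS : MeasurableSet S) :
    P (A ∩ {ω | I.restrict (fun s ↦ restart B τ s ω) ∈ S}) =
      P A * BrownianReal.projectiveFamily I S := by
  have hτm := meas_of_stop h hτ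
  have hm : Measurable fun ω ↦ I.restrict (fun s ↦ restart B τ s ω) :=
    measurable_pi_lambda _ fun s : I ↦ measurable_restart h.meas h.cont hτm s
  have := congrArg (fun μ ↦ μ S) (h.limit hA I)
  simp only [Measure.smul_apply, smul_eq_mul] at this
  rw [Measure.map_apply hm hS, Measure.restrict_apply (hm hS), Set.inter_comm] at this
  exact this

lemma indep_procσ {m' : MeasurableSpace Ω} (hle : m' ≤ mΩ) [hP : IsProbabilityMeasure P]
    {Y : ℝ≥0 → Ω → ℝ} (hY : ∀ t, Measurable[mΩ] (Y t))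
    (hI : ∀ A, MeasurableSet[m'] A → ∀ (I : Finset ℝ≥0) (S : Set (I → ℝ)), MeasurableSet S →
      P (A ∩ {ω | I.restrict (fun s ↦ Y s ω) ∈ S}) =
        P A * P {ω | I.restrict (fun s ↦ Y s ω) ∈ S}) : Indep m' (procσ Y) P := by
  have key : @IndepFun Ω Ω (ℝ≥0 → ℝ) mΩ m' MeasurableSpace.pi id (fun ω t ↦ Y t ω) P := by
    refine @IndepFun.indepFun_process ℝ≥0 Ω mΩ P Ω (fun _ ↦ ℝ) m' (fun _ ↦ inferInstance) id Y
      (@measurable_id'' _ m' mΩ hle) hY ?_ ?_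
    · intro I
      rw [@IndepFun_iff_Indep, @MeasurableSpace.comap_id Ω m', Indep_iff]
      rintro A _ hA ⟨S, hS, rfl⟩
      exact hI A hA I S hS
    · infer_instance
  rw [@IndepFun_iff_Indep, @MeasurableSpace.comap_id Ω m'] at key
  exact key

/-- **Strong Markov property**. -/
theorem BMwrt.strong {B : ℝ≥0 → Ω → ℝ} (h : BMwrt P G B) {τ : Ω → ℝ≥0}
    (hτ : ∀ t, MeasurableSet[past G B t] {ω | τ ω ≤ t}) :
    BMwrt P (atσ mΩ G B τ hτ) (restart B τ) := by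
  have := h.isProb
  have hτm := meas_of_stop h hτ
  have hlaw : ∀ (I : Finset ℝ≥0) (S : Set (I → ℝ)), MeasurableSet S →
      P {ω | I.restrict (fun s ↦ restart B τ s ω) ∈ S} = BrownianReal.projectiveFamily I S := by
    intro I S hS
    have h1 := h.cyl (hτ := hτ) (A := Set.univ) (@MeasurableSet.univ _ (atσ mΩ G B τ hτ)) I hS
    simpa using h1
  refine ⟨atσ_le hτ, ?_, ?_, ?_, ?_, ?_, ?_⟩
  · intro N hN h0
    exact le_atσ h.le hτ _ (h.null N hN h0)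
  · exact fun t ↦ measurable_restart h.meas h.cont hτm t
  · exact fun ω ↦ continuous_restart h.cont τ ω
  · intro ω
    simp [restart]
  · refine ⟨fun I ↦ ⟨?_, ?_⟩⟩
    · exact (measurable_pi_lambda _ fun s : I ↦
        measurable_restart h.meas h.cont hτm s).aemeasurable
    · ext S hS
      have hm : Measurable fun ω ↦ I.restrict (fun s ↦ restart B τ s ω) :=
        measurable_pi_lambda _ fun s : I ↦ measurable_restart h.meas h.cont hτm s
      rw [Measure.map_apply hm hS]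
      exact hlaw I S hS
  · refine indep_procσ (atσ_le hτ) (fun t ↦ measurable_restart h.meas h.cont hτm t) ?_
    intro A hA I S hS
    have e1 := h.cyl (hτ := hτ) hA I hS
    have e2 := hlaw I S hS
    rw [e1, e2]

end Pool.Agent.Work.MP_3e01db_pr.SM

end

section

/-!
# MP_3e01db_pr: elementary API for `mn` and `dT`
-/

open Set

namespace MP3e01

variable {f : ℝ → ℝ}

lemma mn_comm (f : ℝ → ℝ) (s t : ℝ) : mn f s t = mn f t s := by
  unfold mn; rw [Set.uIcc_comm]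

lemma dT_comm (f : ℝ → ℝ) (s t : ℝ) : dT f s t = dT f t s := by
  unfold dT; rw [mn_comm]; ring

lemma mn_self (f : ℝ → ℝ) (s : ℝ) : mn f s s = f s := by
  unfold mn; simp

lemma dT_self (f : ℝ → ℝ) (s : ℝ) : dT f s s = 0 := by
  unfold dT; rw [mn_self]; ring

lemma bddBelow_image (hf : Continuous f) (s t : ℝ) : BddBelow (f '' Set.uIcc s t) :=
  (isCompact_uIcc.image hf).bddBelow

lemma mn_le (hf : Continuous f) {s t x : ℝ} (hx : x ∈ Set.uIcc s t) : mn f s t ≤ f x :=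
  csInf_le (bddBelow_image hf s t) ⟨x, hx, rfl⟩

lemma mn_le_left (hf : Continuous f) (s t : ℝ) : mn f s t ≤ f s := mn_le hf Set.left_mem_uIcc

lemma mn_le_right (hf : Continuous f) (s t : ℝ) : mn f s t ≤ f t := mn_le hf Set.right_mem_uIcc

lemma le_mn {s t c : ℝ} (h : ∀ x ∈ Set.uIcc s t, c ≤ f x) : c ≤ mn f s t := by
  apply le_csInf
  · exact ⟨f s, s, Set.left_mem_uIcc, rfl⟩
  · rintro _ ⟨x, hx, rfl⟩; exact h x hx

lemma exists_mn (hf : Continuous f) (s t : ℝ) : ∃ x ∈ Set.uIcc s t, f x = mn f s t := by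
  obtain ⟨x, hx, h⟩ := isCompact_uIcc.exists_isMinOn (⟨s, Set.left_mem_uIcc⟩ : (Set.uIcc s t).Nonempty)
    hf.continuousOn
  refine ⟨x, hx, le_antisymm ?_ (mn_le hf hx)⟩
  exact le_mn (fun y hy => h hy)

lemma mn_eq (hf : Continuous f) {s t x : ℝ} (hx : x ∈ Set.uIcc s t)
    (h : ∀ y ∈ Set.uIcc s t, f x ≤ f y) : mn f s t = f x :=
  le_antisymm (mn_le hf hx) (le_mn h)

/-- enlarging the interval decreases the minimum -/
lemma mn_anti (hf : Continuous f) {s t s' t' : ℝ} (h : Set.uIcc s t ⊆ Set.uIcc s' t') :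
    mn f s' t' ≤ mn f s t :=
  le_mn (fun x hx => mn_le hf (h hx))

/-- the ultrametric type inequality -/
lemma min_le_mn (hf : Continuous f) (s t u : ℝ) : min (mn f s t) (mn f t u) ≤ mn f s u := by
  apply le_mn
  intro x hx
  rcases Set.uIcc_subset_uIcc_union_uIcc (a := s) (b := t) (c := u) hx with h | h
  · exact le_trans (min_le_left _ _) (mn_le hf h)
  · exact le_trans (min_le_right _ _) (mn_le hf h)

lemma dT_nonneg (hf : Continuous f) (s t : ℝ) : 0 ≤ dT f s t := by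
  unfold dT
  linarith [mn_le_left hf s t, mn_le_right hf s t]

lemma dT_triangle (hf : Continuous f) (s t u : ℝ) : dT f s u ≤ dT f s t + dT f t u := by
  unfold dT
  have h1 := min_le_mn hf s t u
  have h2 : max (mn f s t) (mn f t u) ≤ f t := max_le (mn_le_right hf s t) (mn_le_left hf t u)
  have h3 := min_add_max (mn f s t) (mn f t u)
  linarith

/-- four point condition -/
lemma dT_four (hf : Continuous f) (x y z w : ℝ) :
    dT f x y + dT f z w ≤ max (dT f x z + dT f y w) (dT f x w + dT f y z) := by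
  unfold dT
  have a1 := min_le_mn hf x z y
  have a2 := min_le_mn hf x w y
  have a3 := min_le_mn hf z x w
  have a4 := min_le_mn hf z y w
  rw [mn_comm f z y] at a1
  rw [mn_comm f w y] at a2
  rw [mn_comm f z x] at a3
  rw [mn_comm f z y] at a4
  have key : min (mn f x z + mn f y w) (mn f x w + mn f y z) ≤ mn f x y + mn f z w := by
    rcases le_total (mn f x z) (mn f y z) with h1 | h1 <;>
    rcases le_total (mn f x w) (mn f y w) with h2 | h2 <;>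
    rcases le_total (mn f x z) (mn f x w) with h3 | h3 <;>
    rcases le_total (mn f y z) (mn f y w) with h4 | h4 <;>
    simp only [min_def] at * <;> split_ifs at * <;> linarith
  rcases min_le_iff.1 key with h | h
  · exact le_trans (by linarith) (le_max_left _ _)
  · exact le_trans (by linarith) (le_max_right _ _)

end MP3e01

end

section

open MeasureTheory ProbabilityTheory
open scoped NNReal ENNReal Topology

namespace Pool.Agent.Work.MP_3e01db_pr.SM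

variable {Ω : Type*} {G mΩ : MeasurableSpace Ω} {P : Measure Ω}

/-- A countable dense subset of `[0,t]`. -/
noncomputable def dns (t : ℝ≥0) : Set (Set.Iic t) :=
  (TopologicalSpace.exists_countable_dense (Set.Iic t)).choose

lemma dns_countable (t : ℝ≥0) : (dns t).Countable :=
  (TopologicalSpace.exists_countable_dense (Set.Iic t)).choose_spec.1

lemma dns_dense (t : ℝ≥0) : Dense (dns t) :=
  (TopologicalSpace.exists_countable_dense (Set.Iic t)).choose_spec.2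

/-- Reaching `[0, ∞)` before time `t`, expressed by countably many conditions. -/
lemma reach_iff {f : ℝ≥0 → ℝ} (hf : Continuous f) (t : ℝ≥0) :
    (∃ s ≤ t, 0 ≤ f s) ↔ ∀ n : ℕ, ∃ s ∈ dns t, -(1 / ((n : ℝ) + 1)) < f s := by
  constructor
  · rintro ⟨s, hs, h0⟩ n
    have ho : IsOpen {u : Set.Iic t | -(1 / ((n : ℝ) + 1)) < f u} := by
      have : Continuous fun u : Set.Iic t ↦ f u := by fun_prop
      exact isOpen_lt continuous_const this
    have hne : ({u : Set.Iic t | -(1 / ((n : ℝ) + 1)) < f u}).Nonempty :=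
      ⟨⟨s, hs⟩, by
        have : (0 : ℝ) < 1 / ((n : ℝ) + 1) := by positivity
        simp only [Set.mem_ofPred_eq]; linarith⟩
    obtain ⟨u, hu1, hu2⟩ := (dns_dense t).inter_open_nonempty _ ho hne
    exact ⟨u, hu2, hu1⟩
  · intro h
    have hcomp : IsCompact (Set.Icc (0 : ℝ≥0) t) := isCompact_Icc
    obtain ⟨s, hs, hmax⟩ := hcomp.exists_isMaxOn ⟨0, by simp⟩ hf.continuousOn
    refine ⟨s, hs.2, ?_⟩
    by_contra hneg
    push Not at hneg
    obtain ⟨n, hn⟩ := exists_nat_one_div_lt (neg_pos.2 hneg)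
    obtain ⟨u, -, hu⟩ := h n
    have := hmax (show (u : ℝ≥0) ∈ Set.Icc 0 t from ⟨zero_le, u.2⟩)
    simp only [Set.mem_ofPred_eq] at this
    linarith

/-- Paths reaching level `0` from below before `t`, as a measurable set of paths. -/
def reachSet (t : ℝ≥0) : Set (ℝ≥0 → ℝ) :=
  {f | ∀ n : ℕ, ∃ s ∈ dns t, -(1 / ((n : ℝ) + 1)) < f s}

lemma measurableSet_reachSet (t : ℝ≥0) : MeasurableSet (reachSet t) := by
  have : reachSet t = ⋂ n : ℕ, ⋃ s ∈ dns t, {f : ℝ≥0 → ℝ | -(1 / ((n : ℝ) + 1)) < f s} := by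
    ext f; simp [reachSet]
  rw [this]
  refine MeasurableSet.iInter fun n ↦ MeasurableSet.biUnion (dns_countable t) fun s _ ↦ ?_
  exact measurableSet_lt measurable_const (measurable_pi_apply _)

/-- A general measurability statement for reaching events. -/
lemma meas_reach {m : MeasurableSpace Ω} {X : ℝ≥0 → Ω → ℝ} (hc : ∀ ω, Continuous fun s ↦ X s ω)
    {t : ℝ≥0} (hX : ∀ s ≤ t, Measurable[m] (X s)) : MeasurableSet[m] {ω | ∃ s ≤ t, 0 ≤ X s ω} := by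
  have : {ω | ∃ s ≤ t, 0 ≤ X s ω} =
      ⋂ n : ℕ, ⋃ s ∈ dns t, {ω | -(1 / ((n : ℝ) + 1)) < X s ω} := by
    ext ω
    have := reach_iff (hc ω) t
    simp only [Set.mem_iInter, Set.mem_iUnion, Set.mem_ofPred_eq, exists_prop]
    exact this
  rw [this]
  refine @MeasurableSet.iInter _ _ m _ _ fun n ↦
    @MeasurableSet.biUnion _ _ m _ _ (dns_countable t) fun s _ ↦ ?_
  exact (hX s s.2) measurableSet_Ioi

/-- First time with `0 ≤ f`. -/
noncomputable def firstT (f : ℝ≥0 → ℝ) : ℝ≥0 := sInf {s | 0 ≤ f s}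

lemma firstT_mem {f : ℝ≥0 → ℝ} (hf : Continuous f) (h : ∃ s, 0 ≤ f s) : 0 ≤ f (firstT f) := by
  have hcl : IsClosed {s | 0 ≤ f s} := isClosed_le continuous_const hf
  exact hcl.csInf_mem h (OrderBot.bddBelow _)

lemma firstT_le {f : ℝ≥0 → ℝ} {s : ℝ≥0} (h : 0 ≤ f s) : firstT f ≤ s :=
  csInf_le (OrderBot.bddBelow _) h

lemma lt_of_lt_firstT {f : ℝ≥0 → ℝ} {s : ℝ≥0} (h : s < firstT f) : f s < 0 := by
  by_contra hc
  push Not at hc
  exact absurd (firstT_le hc) (not_le.2 h)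

lemma firstT_le_iff {f : ℝ≥0 → ℝ} (hf : Continuous f) (h : ∃ s, 0 ≤ f s) (t : ℝ≥0) :
    firstT f ≤ t ↔ ∃ s ≤ t, 0 ≤ f s := by
  constructor
  · intro h'
    exact ⟨firstT f, h', firstT_mem hf h⟩
  · rintro ⟨s, hs, h0⟩
    exact (firstT_le h0).trans hs

/-- If `X` is adapted and continuous and reaches `[0,∞)` almost surely, then the first time is a
stopping time in the exact sense needed by `BMwrt.strong`. -/
lemma BMwrt.stop {B : ℝ≥0 → Ω → ℝ} (h : BMwrt P G B) {X : ℝ≥0 → Ω → ℝ}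
    (hc : ∀ ω, Continuous fun s ↦ X s ω) (hX : ∀ t, ∀ s ≤ t, Measurable[past G B t] (X s))
    (hae : ∀ᵐ ω ∂P, ∃ s, 0 ≤ X s ω) (t : ℝ≥0) :
    MeasurableSet[past G B t] {ω | firstT (fun s ↦ X s ω) ≤ t} := by
  have hnever : MeasurableSet[G] {ω | ¬ ∃ s, 0 ≤ X s ω} := by
    refine h.null _ ?_ ?_
    · have : {ω | ¬ ∃ s, 0 ≤ X s ω} = ⋂ k : ℕ, {ω | ∃ s ≤ (k : ℝ≥0), 0 ≤ X s ω}ᶜ := by
        ext ω
        simp only [Set.mem_iInter, Set.mem_compl_iff, Set.mem_ofPred_eq]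
        constructor
        · rintro h1 k ⟨s, _, h2⟩
          exact h1 ⟨s, h2⟩
        · rintro h1 ⟨s, h2⟩
          obtain ⟨k, hk⟩ := exists_nat_ge s
          exact h1 k ⟨s, hk, h2⟩
      rw [this]
      refine MeasurableSet.iInter fun k ↦ MeasurableSet.compl ?_
      exact meas_reach (m := mΩ) hc fun s hs ↦
        (hX _ s hs).mono (sup_le h.le (uptoσ_le h.meas _)) le_rfl
    · exact hae
  have : {ω | firstT (fun s ↦ X s ω) ≤ t} =
      {ω | ∃ s ≤ t, 0 ≤ X s ω} ∪ {ω | ¬ ∃ s, 0 ≤ X s ω} := by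
    ext ω
    simp only [Set.mem_union, Set.mem_ofPred_eq]
    by_cases h1 : ∃ s, 0 ≤ X s ω
    · rw [firstT_le_iff (hc ω) h1]
      simp only [h1, not_true_eq_false, or_false]
    · simp only [h1, not_false_eq_true, or_true, iff_true]
      have : {s | 0 ≤ X s ω} = ∅ := by
        ext s; simp only [Set.mem_ofPred_eq, Set.mem_empty_iff_false, iff_false]
        exact fun h2 ↦ h1 ⟨s, h2⟩
      simp only [firstT, this]
      rw [NNReal.sInf_empty]
      exact zero_le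
  rw [this]
  refine @MeasurableSet.union _ (past G B t) _ _ (meas_reach hc (hX t)) ?_
  exact (le_sup_left : G ≤ past G B t) _ hnever

end Pool.Agent.Work.MP_3e01db_pr.SM

end

section

/-!
# MP_3e01db_pr, block W: weights of languages of words (statements)
-/

open Set MeasureTheory ProbabilityTheory
open scoped ENNReal NNReal

namespace MP3e01

/-- W1: concatenation, inequality -/
def S_concLe : Prop := ∀ L₁ L₂ : Set (List Bool), wt (conc L₁ L₂) ≤ wt L₁ * wt L₂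

/-- W2: concatenation, equality for prefix-free first factor -/
def S_concEq : Prop := ∀ L₁ L₂ : Set (List Bool), PrefixFree L₁ → wt (conc L₁ L₂) = wt L₁ * wt L₂

/-- W3: Kraft's inequality -/
def S_kraft : Prop := ∀ L : Set (List Bool), PrefixFree L → wt L ≤ 1

/-- W4: powers -/
def S_rep : Prop := (∀ (k : ℕ) (L : Set (List Bool)), wt (rep k L) ≤ wt L ^ k) ∧
  (∀ (k : ℕ) (L : Set (List Bool)), PrefixFree L → wt (rep k L) = wt L ^ k)

/-- W5: prefix-free languages -/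
def S_pf : Prop := (∀ a b, PrefixFree (U a b)) ∧ (∀ a b, PrefixFree (Dn a b)) ∧
  (∀ k, PrefixFree (FP k)) ∧
  (∀ L₁ L₂ : Set (List Bool), PrefixFree L₁ → PrefixFree L₂ → PrefixFree (conc L₁ L₂)) ∧
  (∀ (k : ℕ) (L : Set (List Bool)), PrefixFree L → PrefixFree (rep k L))

/-- W6: gambler's ruin, up -/
def S_wtU : Prop := ∀ a b : ℕ, 0 < a + b → wt (U a b) = (b : ℝ≥0∞) / ((a + b : ℕ) : ℝ≥0∞)

/-- W7: gambler's ruin, down -/
def S_wtDn : Prop := ∀ a b : ℕ, 0 < a + b → wt (Dn a b) = (a : ℝ≥0∞) / ((a + b : ℕ) : ℝ≥0∞)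

/-- W8: heights in products: characterisation of `Start` -/
def S_wtStart : Prop := ∀ G : ℕ, 0 < G → 16 ∣ G →
  (1 / 4 : ℝ≥0∞) ≤ ∑ k ∈ Finset.range (G - 1), wt (Start G k) ∧
  ∑ k ∈ Finset.range (G - 1), wt (Start G k) ≤ 1 / 2

/-- W9: an elementary inequality: `(h/(h+1))^h ≥ 1/3` and its consequence -/
def S_third : Prop := ∀ h L : ℕ, 0 < h →
  (1 / 3 : ℝ≥0∞) ^ L ≤ ((h : ℝ≥0∞) / ((h + 1 : ℕ) : ℝ≥0∞)) ^ (L * h)

/-- W10: weight of the ascent with a strong label -/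
def S_wtAsc : Prop := ∀ R J G j : ℕ, 2 ≤ R → 0 < G → 16 ∣ G → 2 ≤ j → j ≤ J →
  (1 / 3 : ℝ≥0∞) ^ (4 * R) / (4 * (R ^ J : ℕ)) ≤ wt (AscL G (R ^ J) R (G * R ^ (J - j)))

/-- W11: weight of the descent with a strong label -/
def S_wtDes : Prop := ∀ R J G j : ℕ, 2 ≤ R → 0 < G → 16 ∣ G → 2 ≤ j → j ≤ J →
  (1 / 3 : ℝ≥0∞) ^ (4 * R) / 4 ≤ wt (DesL G (R ^ J) R (G * R ^ (J - j)))

/-- W12: labelled pages are pages -/
def S_labSub : Prop := ∀ R J G k j : ℕ, 2 ≤ R → 0 < G → 16 ∣ G → 2 ≤ j → j ≤ J →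
  PageL R J G k j ⊆ Page G (R ^ J) k

/-- W13: pages of different displacement are disjoint, pages are prefix-free, heights of the
prefixes of a page -/
def S_pages : Prop := ∀ R J G : ℕ, 2 ≤ R → 0 < G → 16 ∣ G →
  PrefixFree (Pages R J G) ∧
  (∀ k k' w, w ∈ Page G (R ^ J) k → w ∈ Page G (R ^ J) k' → k = k') ∧
  (∀ k w, w ∈ Page G (R ^ J) k → ht w = -((k : ℤ) + 1) ∧ ∀ v, v <+: w → -((k : ℤ) + 1) ≤ ht v)

/-- W14: the key lower bound (reverse Markov): many pages have a positive fraction of labels -/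
def S_good : Prop := ∀ R : ℕ, 2 ≤ R → ∃ D : ℕ, 1 ≤ D ∧ ∀ J G : ℕ, 2 ≤ J → 0 < G → 16 ∣ G →
  1 / ((D * R ^ J : ℕ) : ℝ≥0∞) ≤ wt (GoodPages D R J G)

/-- W15: total weight of pages -/
def S_wtPages : Prop := ∀ R J G : ℕ, 2 ≤ R → 0 < G → 16 ∣ G →
  wt (Pages R J G) ≤ 1 / ((R ^ J : ℕ) : ℝ≥0∞)

/-- W16: clusters: the set of flattened clusters is prefix-free, its weight is a power, the
heights of prefixes are `> -(G * R^J)` -/
def S_clus : Prop := ∀ D R J G : ℕ, 2 ≤ R → 0 < G → 16 ∣ G →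
  PrefixFree {v | ∃ ws, IsCluster D R J G ws ∧ v = ws.flatten} ∧
  wt {v | ∃ ws, IsCluster D R J G ws ∧ v = ws.flatten} = wt (GoodPages D R J G) ^ (R ^ J) ∧
  (∀ ws, IsCluster D R J G ws → ∀ v, v <+: ws.flatten → -((G * R ^ J : ℕ) : ℤ) < ht v)

/-- W17: weight of the failing words -/
def S_fail : Prop := ∀ (D R J I : ℕ) (x : ℝ≥0∞), 2 ≤ R →
  (∀ i ≤ I, x ≤ wt {v | ∃ ws, IsCluster D R J (16 * R ^ i) ws ∧ v = ws.flatten}) →
  wt (Fail D R J I) ≤ (1 - x) ^ (I + 1)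

/-- W18: weight of `Climb` -/
def S_climb : Prop := ∀ A : ℕ, 0 < A → wt (Climb A) ≤ 1 / (A : ℝ≥0∞)

/-- W19: weight of `desc` -/
def S_desc : Prop := ∀ (K cur : ℕ) (Qs : List ℕ), 1 ≤ K → (∀ Q ∈ Qs, 16 ≤ Q) →
  wt (desc K cur Qs) ≤ ((4 * K : ℕ) / ((4 * K + 1 : ℕ) : ℝ≥0∞)) ^ Qs.length

/-- W20: weight of `chain` -/
def S_chain : Prop := ∀ (K A : ℕ) (cur : ℤ) (L : List (ℕ × List ℕ)), 1 ≤ K → 0 < A →
  (∀ x ∈ L, ∀ Q ∈ x.2, 16 ≤ Q) →
  wt (chain K A cur L) ≤ (L.map fun x =>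
    ((4 * K : ℕ) / ((4 * K + 1 : ℕ) : ℝ≥0∞)) ^ x.2.length / (A : ℝ≥0∞)).prod

/-- W21: counting weakly increasing sequences -/
def S_monoCard : Prop := ∀ N V : ℕ,
  (Finset.univ.filter fun l : Fin N → Fin (V + 1) => Monotone l).card * N.factorial ≤ (V + N) ^ N

/-- W22: weight of first passage words -/
def S_wtFP : Prop := ∀ k : ℕ, wt (FP k) ≤ 1

end MP3e01

end

section

/-!
Statements of the analytic block of MP_3e01db_pr (owner: helper20).
-/

open MeasureTheory ProbabilityTheory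
open scoped NNReal ENNReal Topology

namespace Pool.Agent.Work.MP_3e01db_pr.AN

open Pool.Agent.Work.MP_3e01db_pr.SM

/-- exit time of `(-ε, ε)` -/
noncomputable def exitT (ε : ℝ) (f : ℝ≥0 → ℝ) : ℝ≥0 := firstT fun s ↦ |f s| - ε

/-- the path restarted at the exit time -/
noncomputable def nxt (ε : ℝ) (f : ℝ≥0 → ℝ) : ℝ≥0 → ℝ :=
  fun s ↦ f (exitT ε f + s) - f (exitT ε f)

/-- direction of the first exit (`true` = up) -/
noncomputable def sgn (ε : ℝ) (f : ℝ≥0 → ℝ) : Bool := by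
  classical exact decide (0 < f (exitT ε f))

/-- the word of the first `n` exit directions -/
noncomputable def signs (ε : ℝ) : ℕ → (ℝ≥0 → ℝ) → List Bool
  | 0, _ => []
  | n + 1, f => sgn ε f :: signs ε n (nxt ε f)

/-- completion of a sigma-algebra -/
def cpl {Ω : Type*} {mΩ : MeasurableSpace Ω} (P : Measure Ω) (G : MeasurableSpace Ω) :
    MeasurableSpace Ω where
  MeasurableSet' A := MeasurableSet[mΩ] A ∧ ∃ A', MeasurableSet[G] A' ∧ A =ᵐ[P] A'
  measurableSet_empty := ⟨@MeasurableSet.empty _ mΩ, ∅, @MeasurableSet.empty _ G, Filter.EventuallyEq.rfl⟩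
  measurableSet_compl A := by
    rintro ⟨hA, A', hA', he⟩
    exact ⟨@MeasurableSet.compl _ _ mΩ hA, A'ᶜ, @MeasurableSet.compl _ _ G hA', he.compl⟩
  measurableSet_iUnion f hf := by
    choose h1 A' h2 h3 using hf
    exact ⟨@MeasurableSet.iUnion _ _ mΩ _ f h1, ⋃ i, A' i, @MeasurableSet.iUnion _ _ G _ _ h2,
      Filter.EventuallyEq.countable_iUnion h3⟩

/-- **Reg**: a Brownian motion has an indistinguishable version with everywhere continuous
measurable paths starting at `0`. -/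
def S_Reg.{u} : Prop :=
  ∀ {Ω : Type u} {mΩ : MeasurableSpace Ω} (P : Measure Ω) (B : ℝ≥0 → Ω → ℝ), IsBrownianReal B P →
    ∃ C : ℝ≥0 → Ω → ℝ, (∀ t, Measurable (C t)) ∧ (∀ ω, Continuous fun t ↦ C t ω) ∧
      (∀ ω, C 0 ω = 0) ∧ IsPreBrownianReal C P ∧ ∀ᵐ ω ∂P, ∀ t, B t ω = C t ω

/-- **Cpl**: completing `G` keeps everything. -/
def S_Cpl.{u} : Prop :=
  ∀ {Ω : Type u} {mΩ : MeasurableSpace Ω} (P : Measure Ω) (G : MeasurableSpace Ω)
    (B : ℝ≥0 → Ω → ℝ), G ≤ mΩ → (∀ t, Measurable[mΩ] (B t)) → (∀ ω, Continuous fun t ↦ B t ω) →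
    (∀ ω, B 0 ω = 0) → IsPreBrownianReal B P → Indep G (procσ B) P →
    BMwrt P (cpl P G) B ∧ G ≤ cpl P G

/-- **Exit**: almost surely the path leaves `(-ε, ε)`. -/
def S_Exit.{u} : Prop :=
  ∀ {Ω : Type u} {mΩ : MeasurableSpace Ω} (P : Measure Ω) (G : MeasurableSpace Ω)
    (B : ℝ≥0 → Ω → ℝ), BMwrt P G B → ∀ ε : ℝ, ∀ᵐ ω ∂P, ∃ s, 0 ≤ |B s ω| - ε

/-- **Sgn**: the first exit direction is fair and independent of `G`. -/
def S_Sgn.{u} : Prop :=
  ∀ {Ω : Type u} {mΩ : MeasurableSpace Ω} (P : Measure Ω) (G : MeasurableSpace Ω)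
    (B : ℝ≥0 → Ω → ℝ), BMwrt P G B → ∀ ε : ℝ, 0 < ε → ∀ A, MeasurableSet[G] A → ∀ b : Bool,
    P (A ∩ {ω | sgn ε (fun s ↦ B s ω) = b}) = P A * 2⁻¹

/-- **SgnAt**: the first exit direction is determined at the exit time. -/
def S_SgnAt.{u} : Prop :=
  ∀ {Ω : Type u} {mΩ : MeasurableSpace Ω} (P : Measure Ω) (G : MeasurableSpace Ω)
    (B : ℝ≥0 → Ω → ℝ), BMwrt P G B → ∀ ε : ℝ, 0 < ε →
    ∀ (hτ : ∀ t, MeasurableSet[past G B t] {ω | exitT ε (fun s ↦ B s ω) ≤ t}), ∀ b : Bool,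
    MeasurableSet[atσ mΩ G B (fun ω ↦ exitT ε (fun s ↦ B s ω)) hτ]
      {ω | sgn ε (fun s ↦ B s ω) = b}

/-- **Srw**: the exit directions are independent fair signs, independent of `G`. -/
def S_Srw.{u} : Prop :=
  ∀ {Ω : Type u} {mΩ : MeasurableSpace Ω} (P : Measure Ω) (G : MeasurableSpace Ω)
    (B : ℝ≥0 → Ω → ℝ), BMwrt P G B → ∀ ε : ℝ, 0 < ε → ∀ A, MeasurableSet[G] A →
    ∀ v : List Bool,
    P (A ∩ {ω | signs ε v.length (fun s ↦ B s ω) = v}) = P A * 2⁻¹ ^ v.length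

/-- **MeasT**: the first time with `0 ≤ X` is measurable. -/
def S_MeasT.{u} : Prop :=
  ∀ {Ω : Type u} (m : MeasurableSpace Ω) (X : ℝ≥0 → Ω → ℝ), (∀ t, Measurable[m] (X t)) →
    (∀ ω, Continuous fun t ↦ X t ω) → Measurable[m] (fun ω ↦ firstT (fun s ↦ X s ω))

/-- **MeasSigns**: the word of exit directions is measurable. -/
def S_MeasSigns.{u} : Prop :=
  ∀ {Ω : Type u} (m : MeasurableSpace Ω) (X : ℝ≥0 → Ω → ℝ), (∀ t, Measurable[m] (X t)) →
    (∀ ω, Continuous fun t ↦ X t ω) → ∀ (ε : ℝ) (n : ℕ) (v : List Bool),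
    MeasurableSet[m] {ω | signs ε n (fun s ↦ X s ω) = v}

/-- **Level**: almost surely every level `-D` is reached. -/
def S_Level.{u} : Prop :=
  ∀ {Ω : Type u} {mΩ : MeasurableSpace Ω} (P : Measure Ω) (G : MeasurableSpace Ω)
    (B : ℝ≥0 → Ω → ℝ), BMwrt P G B → ∀ᵐ ω ∂P, ∀ r : ℝ, ∃ s, B s ω ≤ -r

/-- **Hit**: restart at the first time the level `-D` is reached (`D` random, `G`-measurable):
the exit directions are still independent fair signs, independent of `G`. -/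
def S_Hit.{u} : Prop :=
  ∀ {Ω : Type u} {mΩ : MeasurableSpace Ω} (P : Measure Ω) (G : MeasurableSpace Ω)
    (B : ℝ≥0 → Ω → ℝ), BMwrt P G B → ∀ D : Ω → ℝ, Measurable[G] D →
    ∀ ε : ℝ, 0 < ε → ∀ A, MeasurableSet[G] A → ∀ v : List Bool,
    P (A ∩ {ω | signs ε v.length (fun s ↦ B (firstT (fun r ↦ -D ω - B r ω) + s) ω -
      B (firstT (fun r ↦ -D ω - B r ω)) ω) = v}) = P A * 2⁻¹ ^ v.length

/-- **Rev**: the reversed path before `p`, continued by an independent Brownian motion `C`, is a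
Brownian motion independent of the increments after `p` (and of anything independent of
`(B, C)`). -/
def S_Rev.{u} : Prop :=
  ∀ {Ω : Type u} {mΩ : MeasurableSpace Ω} (P : Measure Ω) (B C : ℝ≥0 → Ω → ℝ) (p : ℝ≥0),
    (∀ t, Measurable (B t)) → (∀ t, Measurable (C t)) →
    IsPreBrownianReal B P → IsPreBrownianReal C P →
    IndepFun (fun ω t ↦ B t ω) (fun ω t ↦ C t ω) P →
    IsPreBrownianReal (fun t ω ↦ if t ≤ p then B (p - t) ω - B p ω
      else C (t - p) ω + (B 0 ω - B p ω)) P ∧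
    Indep (procσ (incr B p)) (procσ (fun t ω ↦ if t ≤ p then B (p - t) ω - B p ω
      else C (t - p) ω + (B 0 ω - B p ω))) P

/-- **DetR**: the word followed by a path is the word of its exit directions. -/
def S_DetR : Prop :=
  ∀ (ε : ℝ) (u : ℝ → ℝ) (v : List Bool) (σ : ℕ → ℝ) (f : ℝ≥0 → ℝ), 0 < ε →
    MP3e01.Follows ε u v σ → (∀ t : ℝ≥0, (t : ℝ) ≤ σ v.length → f t = u t - u 0) →
    signs ε v.length f = v

/-- **Min**: the minimum of a path over `[p,q]` is a measurable function of the path up to `q`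
(and the minimum of the increments after `p` is a function of the increments). -/
def S_Min.{u} : Prop :=
  ∀ {Ω : Type u} (m : MeasurableSpace Ω) (B : ℝ≥0 → Ω → ℝ) (p q : ℝ≥0), p ≤ q →
    (∀ ω, Continuous fun t ↦ B t ω) → (∀ s, p ≤ s → s ≤ q → Measurable[m] (B s)) →
    Measurable[m] (fun ω ↦ MP3e01.mn (fun t ↦ B t.toNNReal ω) p q)

/-- **NM**: almost surely a Brownian path is not monotone on any nondegenerate interval. -/
def S_NM.{u} : Prop :=
  ∀ {Ω : Type u} {mΩ : MeasurableSpace Ω} (P : Measure Ω) (B : ℝ≥0 → Ω → ℝ), IsBrownianReal B P →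
    ∀ᵐ ω ∂P, ∀ a b : ℝ≥0, a < b →
      ¬ MonotoneOn (fun t ↦ B t ω) (Set.Icc a b) ∧ ¬ AntitoneOn (fun t ↦ B t ω) (Set.Icc a b)

/-- **Z**: almost surely `B 1 ≠ 0`, and there is a zero after time `1`. -/
def S_Z.{u} : Prop :=
  ∀ {Ω : Type u} {mΩ : MeasurableSpace Ω} (P : Measure Ω) (B : ℝ≥0 → Ω → ℝ), IsBrownianReal B P →
    ∀ᵐ ω ∂P, B 0 ω = 0 ∧ B 1 ω ≠ 0 ∧ ∃ t, 1 < t ∧ B t ω = 0

end Pool.Agent.Work.MP_3e01db_pr.AN

end

section

/-!
# MP_3e01db_pr: reduction of the final statement to correspondences of times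
-/

open Set MeasureTheory ProbabilityTheory
open scoped ENNReal NNReal unitInterval

namespace MP3e01

/-! ## reduction to correspondences of times -/

/-- R1: betweenness is preserved by homeomorphisms of these trees -/
def S_btwHomeo : Prop := ∀ (w w' : C(I, ℝ)) (F : CRTree w ≃ₜ CRTree w') (x z y : CRTree w),
  dist x z + dist z y = dist x y → dist (F x) (F z) + dist (F z) (F y) = dist (F x) (F y)

/-- R2: a quasisymmetric equivalence of the trees coded by two excursions gives a correspondence -/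
def S_red : Prop := ∀ (w w' : C(I, ℝ)) (f f' : ℝ → ℝ) (g d g' d' lam lam' : ℝ),
  Continuous f → Continuous f' → IsExc f g d → IsExc f' g' d' → 0 < lam → 0 < lam' →
  (∀ t : I, w t = f (g + t * (d - g)) / lam) → (∀ t : I, w' t = f' (g' + t * (d' - g')) / lam') →
  QSEquiv (CRTree w) (CRTree w') →
  ∃ (K R K₁ : ℕ) (θ : ℝ → ℝ), 1 ≤ K ∧ 2 ≤ R ∧ QSCorr f g d f' g' d' K R K₁ θ

end MP3e01

end

section

/-!
# MP_3e01db_pr, block G: geometry of the trees (statements)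
-/

open Set MeasureTheory ProbabilityTheory
open scoped ENNReal NNReal

namespace MP3e01

/-- G1: geodesics -/
def S_geod : Prop := ∀ (f : ℝ → ℝ), Continuous f → ∀ x y r : ℝ, 0 ≤ r → r ≤ dT f x y →
  ∃ z ∈ Set.uIcc x y, dT f x z = r ∧ dT f z y = dT f x y - r

/-- G2: first and last visits exist -/
def S_first : Prop := ∀ (f : ℝ → ℝ), Continuous f →
  (∀ q d y : ℝ, q ≤ d → y < f q → f d < y → ∃ τ, IsFirst f q y τ ∧ q < τ ∧ τ < d) ∧
  (∀ g p y : ℝ, g ≤ p → y < f p → f g < y → ∃ τ, IsLast f p y τ ∧ g < τ ∧ τ < p)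

/-- G3: the strong side in the tree -/
def S_locT : Prop := ∀ (f : ℝ → ℝ) (g d τ s : ℝ) (R J : ℕ) (lb : ℕ → Finset ℕ) (gr : ℕ → ℕ)
  (β t : ℕ → ℝ), Continuous f → IsExc f g d → g < τ → τ < d → 2 ≤ R → 0 < s → 4 * s < f τ →
  StrongPat f τ s R J lb gr β t →
  (∀ i < R ^ J, β i ∈ Set.Ioo g d ∧ t i ∈ Set.Ioo g d ∧ dT f τ (β i) = f τ - f (β i) ∧
    dT f (β i) (t i) = f (t i) - f (β i) ∧ Btw f τ (β i) g ∧ Btw f τ (β i) (t i) ∧
    Btw f (t i) (β i) g ∧ mn f (β i) (t i) = f (β i)) ∧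
  (∀ i i', i < i' → i' < R ^ J → f (β i') < f (β i) ∧ Btw f τ (β i) (β i') ∧
    dT f (β i) (β i') = f (β i) - f (β i')) ∧
  (∃ e : ℕ → ℝ → ℝ, ∀ i < R ^ J, ∀ r ∈ Set.Icc 0 s, e i r ∈ Set.Icc (β i) (t i) ∧
    f (e i r) = f (β i) + r ∧ mn f (e i r) (t i) = f (e i r) ∧ dT f (β i) (e i r) = r ∧
    Btw f (β i) (e i r) (t i) ∧
    ∀ i' < R ^ J, i' ≠ i → dT f (β i') (e i r) = |f (β i) - f (β i')| + r)

/-- G4: strong labels in the tree -/
def S_locLab : Prop := ∀ (f : ℝ → ℝ) (g d τ s : ℝ) (R J : ℕ) (lb : ℕ → Finset ℕ) (gr : ℕ → ℕ)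
  (β t : ℕ → ℝ), Continuous f → IsExc f g d → g < τ → τ < d → 2 ≤ R → 0 < s → 4 * s < f τ →
  StrongPat f τ s R J lb gr β t →
  ∀ i < R ^ J, ∀ j ∈ lb i, ∀ X ∈ Set.Icc g d, ∀ E ∈ Set.Icc g d, Btw f (β i) E (t i) →
    Btw f X E (t i) → Btw f X E (β i) → s / R ^ j ≤ dT f (β i) E →
    dT f (β i) E ≤ s / R ^ (j - 1) → dT f X E ≤ s / R ^ j

/-- G5: location of the images -/
def S_imgLoc : Prop := ∀ (f : ℝ → ℝ) (g d b ρ B Z : ℝ), Continuous f → IsExc f g d →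
  b ∈ Set.Icc g d → ρ ∈ Set.Icc g d → B ∈ Set.Icc g d → Z ∈ Set.Icc g d →
  Btw f b B ρ → Btw f b B Z → Btw f Z B ρ →
  2 * dT f b B < dT f b ρ + dT f b g - dT f ρ g →
  f B = f b - dT f b B ∧ mn f b B = f B ∧ mn f b Z = f B ∧ mn f B Z = f B

/-- G6: the scale function -/
def S_psi : Prop := ∀ (f f' θ : ℝ → ℝ) (g d g' d' τ s : ℝ) (K R K₁ J : ℕ) (lb : ℕ → Finset ℕ)
  (gr : ℕ → ℕ) (β t : ℕ → ℝ) (e : ℕ → ℝ → ℝ), Continuous f → Continuous f' → IsExc f g d →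
  IsExc f' g' d' → QSCorr f g d f' g' d' K R K₁ θ → g < τ → τ < d → 1 ≤ K → 2 ≤ R → 0 < s →
  4 * s < f τ → StrongPat f τ s R J lb gr β t →
  (∀ i < R ^ J, ∀ r ∈ Set.Icc 0 s, e i r ∈ Set.Icc (β i) (t i) ∧
    f (e i r) = f (β i) + r ∧ mn f (e i r) (t i) = f (e i r) ∧ dT f (β i) (e i r) = r ∧
    Btw f (β i) (e i r) (t i) ∧
    ∀ i' < R ^ J, i' ≠ i → dT f (β i') (e i r) = |f (β i) - f (β i')| + r) →
  ∀ ψ : ℕ → ℕ → ℝ, (∀ i j, ψ i j = dT f' (θ (β i)) (θ (e i (s / R ^ j)))) →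
  (∀ i < R ^ J, ∀ j, 0 < ψ i j) ∧
  (∀ i < R ^ J, ∀ i' < R ^ J, ∀ j ≤ J, node R J gr i j = node R J gr i' j →
    ψ i j ≤ K * (K + 1) * ψ i' j) ∧
  (∀ i < R ^ J, ∀ j, 2 ^ (8 * K + 8) * ψ i (j + 1) ≤ ψ i j) ∧
  (∀ i < R ^ J, ∀ j, ψ i j ≤ K₁ * ψ i (j + 1)) ∧
  (∀ i < R ^ J, ψ i 0 ≤ K * dT f' (θ τ) (θ (β i)) ∧ dT f' (θ τ) (θ (β i)) ≤ K * ψ i 0 ∧
    ψ i 0 ≤ dT f' (θ (β i)) (θ (t i))) ∧
  (∀ i, i + 1 < R ^ J → dT f' (θ τ) (θ (β i)) < dT f' (θ τ) (θ (β (i + 1)))) ∧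
  (∀ i < R ^ J, 0 < dT f' (θ τ) (θ (β i)) ∧
    dT f' (θ τ) (θ (β i)) ≤ K * dT f' (θ τ) (θ (β 0)))

/-- G7: existence of the code (real numbers only) -/
def S_code : Prop := ∀ (K R K₁ J n' : ℕ) (gr : ℕ → ℕ) (ψ : ℕ → ℕ → ℝ), 1 ≤ K → 2 ≤ R →
  (∀ i < R ^ J, gr i < R ^ J) →
  (∀ i < R ^ J, ∀ j, 0 < ψ i j) →
  (∀ i < R ^ J, ∀ i' < R ^ J, ∀ j ≤ J, node R J gr i j = node R J gr i' j →
    ψ i j ≤ K * (K + 1) * ψ i' j) →
  (∀ i < R ^ J, ∀ j, 2 ^ (8 * K + 8) * ψ i (j + 1) ≤ ψ i j) →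
  (∀ i < R ^ J, ∀ j, ψ i j ≤ K₁ * ψ i (j + 1)) →
  (∀ i < R ^ J, 1 / 2 ^ (n' + 1 + K) ≤ ψ i 0 ∧ ψ i 0 ≤ K ^ 2 / 2 ^ n') →
  ∃ c : ℕ → ℕ → ℕ, (∀ j idx, c j idx < 3 * K + K₁ + 8) ∧
    ∀ i < R ^ J, ∀ j, 1 ≤ j → j ≤ J →
      ψ i j ≤ win K R J n' gr c i j ∧ 2 * win K R J n' gr c i j ≤ ψ i (j - 1)

/-- G8: Hoelder bound and smallness -/
def S_hold : Prop := ∀ (f f' θ : ℝ → ℝ) (g d g' d' τ : ℝ) (K R K₁ : ℕ), Continuous f →
  Continuous f' → IsExc f g d → IsExc f' g' d' → QSCorr f g d f' g' d' K R K₁ θ → g < τ →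
  τ < d → 1 ≤ K → 2 ≤ R → ∀ δ > 0, ∃ C n₀ : ℕ, ∀ n ≥ n₀, ∀ B ∈ Set.Icc g d,
    1 / (R : ℝ) ^ n ≤ dT f τ B → dT f τ B ≤ 4 / (R : ℝ) ^ n →
    1 / 2 ^ (K * R * n + C) ≤ dT f' (θ τ) (θ B) ∧ K * dT f' (θ τ) (θ B) < δ

/-- G9: weak labels in the tree -/
def S_wlab : Prop := ∀ (f f' θ : ℝ → ℝ) (g d g' d' τ s : ℝ) (K R K₁ J : ℕ) (lb : ℕ → Finset ℕ)
  (gr : ℕ → ℕ) (β t : ℕ → ℝ) (e : ℕ → ℝ → ℝ), Continuous f → Continuous f' → IsExc f g d →
  IsExc f' g' d' → QSCorr f g d f' g' d' K R K₁ θ → g < τ → τ < d → 1 ≤ K → 2 ≤ R → 0 < s →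
  4 * s < f τ → StrongPat f τ s R J lb gr β t →
  (∀ i < R ^ J, ∀ r ∈ Set.Icc 0 s, e i r ∈ Set.Icc (β i) (t i) ∧
    f (e i r) = f (β i) + r ∧ mn f (e i r) (t i) = f (e i r) ∧ dT f (β i) (e i r) = r ∧
    Btw f (β i) (e i r) (t i) ∧
    ∀ i' < R ^ J, i' ≠ i → dT f (β i') (e i r) = |f (β i) - f (β i')| + r) →
  ∀ i < R ^ J, ∀ j ∈ lb i, ∀ w : ℝ,
    dT f' (θ (β i)) (θ (e i (s / R ^ j))) ≤ w →
    2 * w ≤ dT f' (θ (β i)) (θ (e i (s / R ^ (j - 1)))) →
    ∀ x ∈ Set.Icc g' d', ∀ e' ∈ Set.Icc g' d', Btw f' (θ (β i)) e' (θ (t i)) →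
      Btw f' x e' (θ (t i)) → Btw f' x e' (θ (β i)) →
      w ≤ dT f' (θ (β i)) e' → dT f' (θ (β i)) e' ≤ 2 * w → dT f' x e' ≤ 2 * K * w

/-- G10: transfer of a strong pattern to a weak pattern -/
def S_transfer : Prop := ∀ (f f' θ : ℝ → ℝ) (g d g' d' τ τL τR : ℝ) (K R K₁ : ℕ),
  Continuous f → Continuous f' → IsExc f g d → IsExc f' g' d' →
  QSCorr f g d f' g' d' K R K₁ θ → g < τ → τ < d → 1 ≤ K → 2 ≤ R →
  g' < τL → τL ≤ τR → τR < d' → f' τL = f' τR → (∀ x ∈ Set.Icc τL τR, f' τR ≤ f' x) →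
  dT f' (θ τ) τR = 0 → 0 < dT f' τR (θ g) + dT f' τR g' - dT f' (θ g) g' →
  ∃ C n₀ : ℕ, ∀ n ≥ n₀, ∀ J ≥ 2, ∀ (lb : ℕ → Finset ℕ) (gr : ℕ → ℕ) (β t : ℕ → ℝ),
    StrongPat f τ (1 / (R : ℝ) ^ n) R J lb gr β t →
    ∃ n' ≤ K * R * n + C, ∃ c : ℕ → ℕ → ℕ, (∀ j idx, c j idx < 3 * K + K₁ + 8) ∧
      ∃ (side : ℕ → Bool) (dep t' : ℕ → ℝ),
        WeakPat f' g' d' τL τR (f' τR) K R J n' lb gr c side dep t' ∧
        ∀ i < R ^ J, dep i < f' τR

/-- G11: choice of the branch points -/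
def S_choose : Prop := ∀ (f f' θ : ℝ → ℝ) (g d g' d' : ℝ) (K R K₁ : ℕ),
  Continuous f → Continuous f' → IsExc f g d → IsExc f' g' d' →
  QSCorr f g d f' g' d' K R K₁ θ → NonMono f' g' d' →
  ∃ p q p' q' : ℚ, g < p ∧ (p : ℝ) < q ∧ (q : ℝ) < d ∧ g' < p' ∧ (p' : ℝ) < q' ∧ (q' : ℝ) < d' ∧
    0 < mn f p q ∧ mn f p q < f p ∧ mn f p q < f q ∧
    0 < mn f' p' q' ∧ mn f' p' q' < f' p' ∧ mn f' p' q' < f' q' ∧
    ∀ τ τR τL : ℝ, IsFirst f q (mn f p q) τ → IsFirst f' q' (mn f' p' q') τR →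
      IsLast f' p' (mn f' p' q') τL →
      dT f' (θ τ) τR = 0 ∧ (∀ x ∈ Set.Icc τL τR, f' τR ≤ f' x) ∧
      0 < dT f' τR (θ g) + dT f' τR g' - dT f' (θ g) g'

/-- G11a: dips off an arc -/
def S_dip : Prop := ∀ (f : ℝ → ℝ) (g d x₀ : ℝ), Continuous f → IsExc f g d → NonMono f g d →
  x₀ ∈ Set.Icc g d →
  ∃ p q : ℚ, g < p ∧ (p : ℝ) < q ∧ (q : ℝ) < d ∧ 0 < mn f p q ∧ mn f p q < f p ∧
    mn f p q < f q ∧ mn f x₀ p < mn f p q

/-- G11b: three directions in the tree: at least two are upwards -/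
def S_three : Prop := ∀ (f : ℝ → ℝ) (g d b x₁ x₂ x₃ : ℝ), Continuous f → IsExc f g d →
  b ∈ Set.Icc g d → x₁ ∈ Set.Icc g d → x₂ ∈ Set.Icc g d → x₃ ∈ Set.Icc g d →
  Btw f x₁ b x₂ → Btw f x₁ b x₃ → Btw f x₂ b x₃ →
  dT f x₁ b ≠ 0 → dT f x₂ b ≠ 0 → dT f x₃ b ≠ 0 →
  0 < f b ∧ ∃ p q : ℚ, g < p ∧ (p : ℝ) < q ∧ (q : ℝ) < d ∧ mn f p q = f b ∧ f b < f p ∧
    f b < f q ∧ ∀ τ, IsFirst f q (f b) τ → dT f τ b = 0

end MP3e01

end

section

/-!
# MP_3e01db_pr, block T: paths and words (statements)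
-/

open Set MeasureTheory ProbabilityTheory
open scoped ENNReal NNReal

namespace MP3e01

/-- T1: heights along a followed word, and closeness in between -/
def S_folHt : Prop := ∀ (ε : ℝ) (u : ℝ → ℝ) (v : List Bool) (σ : ℕ → ℝ), 0 < ε → Follows ε u v σ →
  (∀ i ≤ v.length, u (σ i) = u 0 + (ht (v.take i) : ℝ) * ε) ∧
  (∀ i j, i ≤ j → j ≤ v.length → σ i ≤ σ j) ∧
  (∀ t, 0 ≤ t → t < σ v.length → ∃ i < v.length, σ i ≤ t ∧ t < σ (i + 1) ∧
    |u t - (u 0 + (ht (v.take i) : ℝ) * ε)| < ε)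

/-- T2: prefixes and shifts of followed words -/
def S_folSplit : Prop := ∀ (ε : ℝ) (u : ℝ → ℝ) (v w : List Bool) (σ : ℕ → ℝ), 0 < ε →
  Follows ε u (v ++ w) σ →
  Follows ε u v σ ∧
  Follows ε (fun x => u (σ v.length + x)) w (fun i => σ (v.length + i) - σ v.length)

/-- T3: a continuous path follows a complete word up to any time -/
def S_walkEx : Prop := ∀ (u : ℝ → ℝ) (T ε : ℝ), Continuous u → 0 ≤ T → 0 < ε →
  ∃ (v : List Bool) (σ : ℕ → ℝ), Follows ε u v σ ∧ σ v.length ≤ T ∧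
    ∀ s ∈ Set.Icc (σ v.length) T, |u s - u (σ v.length)| < ε

/-- T4: existence of a first passage word -/
def S_FPex : Prop := ∀ (u : ℝ → ℝ) (T ε : ℝ) (k : ℕ), Continuous u → 0 ≤ T → 0 < ε →
  u T ≤ u 0 - k * ε → ∃ v ∈ FP k, ∃ σ : ℕ → ℝ, Follows ε u v σ ∧ σ v.length ≤ T

/-- T5: combinatorial structure of a page word; `H i` = height after `i` letters -/
def S_pageComb : Prop := ∀ (R J G k : ℕ) (w : List Bool), 2 ≤ R → 2 ≤ J → 0 < G → 16 ∣ G →
  k + 1 < G → w ∈ Page G (R ^ J) k → ∀ H : ℕ → ℤ, (∀ i, H i = ht (w.take i)) →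
  ∃ nb n3 : ℕ, 0 < nb ∧ nb < n3 ∧ n3 < w.length ∧ H nb = -((k : ℤ) + 1) ∧
    (∀ i, -((k : ℤ) + 1) ≤ H i) ∧ H w.length = -((k : ℤ) + 1) ∧
    H n3 = -((k : ℤ) + 1) + G * R ^ J ∧ (∀ i < n3, H i < -((k : ℤ) + 1) + G * R ^ J) ∧
    (∀ j, 2 ≤ j → j ≤ J → w ∈ PageL R J G k j → ∀ r : ℕ, r = G * R ^ (J - j) →
      ∃ n1 n2 n4 n5 : ℕ, nb ≤ n1 ∧ n1 ≤ n2 ∧ n2 ≤ n3 ∧ n3 ≤ n4 ∧ n4 ≤ n5 ∧ n5 ≤ w.length ∧
        (∀ i, nb ≤ i → i ≤ n1 → 2 * (H i + (k + 1)) ≤ r) ∧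
        (∀ i i', n1 ≤ i → i ≤ i' → i' ≤ n2 → 2 * (H i - H i') ≤ (r : ℤ)) ∧
        (∀ i, n2 ≤ i → i ≤ n3 → 3 * (R : ℤ) * r < 2 * (H i + (k + 1))) ∧
        (∀ i, n3 ≤ i → i ≤ n4 → 2 * (R : ℤ) * r ≤ H i + (k + 1)) ∧
        (∀ i i', n4 ≤ i → i ≤ i' → i' ≤ n5 → 2 * (H i' - H i) ≤ (r : ℤ)) ∧
        2 * (H n5 + (k + 1)) = r)

/-- T6: one page of a path following a page word: top time `t`, base time `tb`, strong labels -/
def S_pagePath : Prop := ∀ (R J G k : ℕ) (F : ℝ → ℝ) (ε : ℝ) (w : List Bool) (σ : ℕ → ℝ),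
  2 ≤ R → 2 ≤ J → 0 < G → 16 ∣ G → k + 1 < G → 0 < ε → Continuous F →
  w ∈ Page G (R ^ J) k → Follows ε F w σ →
  ∃ t tb : ℝ, 0 < tb ∧ tb < t ∧ t < σ w.length ∧
    F tb = F 0 - (k + 1) * ε ∧ F t = F 0 - (k + 1) * ε + G * R ^ J * ε ∧
    F (σ w.length) = F 0 - (k + 1) * ε ∧
    (∀ x ∈ Set.Icc 0 (σ w.length), F 0 - (k + 2) * ε < F x) ∧
    (∀ j, 2 ≤ j → j ≤ J → w ∈ PageL R J G k j → ∀ β : ℝ, F 0 - (k + 2) * ε < β →
      β ≤ F 0 - (k + 1) * ε → ∀ x : ℝ,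
      β + (G * R ^ (J - j) : ℝ) * ε ≤ mn F x t → mn F x t ≤ β + R * (G * R ^ (J - j) : ℝ) * ε →
      F x - mn F x t ≤ (G * R ^ (J - j) : ℝ) * ε)

/-- T7: a followed cluster word gives a strong pattern -/
def S_TD : Prop := ∀ (D R J G : ℕ) (f : ℝ → ℝ) (τ ε : ℝ) (u : List Bool) (ws : List (List Bool))
  (σ : ℕ → ℝ), 2 ≤ R → 2 ≤ J → 0 < G → 16 ∣ G → 0 < ε → Continuous f →
  u ∈ FP (2 * G * R ^ J) → IsCluster D R J G ws →
  Follows ε (fun x => f (τ + x)) (u ++ ws.flatten) σ →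
  ∃ β t : ℕ → ℝ, StrongPat f τ ((G * R ^ J : ℕ) * ε) R J (fun i => lab R J G (ws.getD i []))
    (grp G ws) β t

/-- T8: the combinatorial part of the weak side.  `S k` = height of the walk after `k` steps;
page `i` has depth `l i`, is visited from index `et i` (at the base) to index `kp i` (at height
`≥ 2A-1`). -/
def S_TPcomb : Prop := ∀ (K A : ℕ) (w : List Bool) (idx : List ℕ) (l et kp : ℕ → ℕ)
  (Qs : ℕ → List ℕ) (S : ℕ → ℤ), (∀ k, S k = ht (w.take k)) → 1 ≤ K → 0 < A →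
  (∀ i ∈ idx, et i ≤ kp i ∧ kp i ≤ w.length ∧ S (et i) = -(l i : ℤ) ∧
    -(l i : ℤ) + 2 * A - 1 ≤ S (kp i) ∧ (∀ k ≤ kp i, -(l i : ℤ) ≤ S k) ∧
    S w.length ≤ -(l i : ℤ) ∧
    (∀ Q ∈ Qs i, 16 ≤ Q ∧ 2 * Q ≤ A) ∧ (Qs i).Pairwise (fun Q Q' => 4 * Q' ≤ Q) ∧
    (∀ Q ∈ Qs i, ∀ k, kp i < k → k ≤ w.length → ∀ m : ℤ,
      (∀ k', kp i < k' → k' ≤ k → m ≤ S k') → (∃ k', kp i < k' ∧ k' ≤ k ∧ S k' = m) →
      -(l i : ℤ) + Q + 1 ≤ m → m ≤ -(l i : ℤ) + 2 * Q - 1 → S k - m ≤ 2 * K * Q)) →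
  idx.Pairwise (fun i j => l i ≤ l j ∧ kp i < et j) →
  ∃ v ∈ chain K A 0 (idx.map fun i => (l i, Qs i)), v <+: w

/-- T9: a weak pattern on one side gives a chain word -/
def S_TP : Prop := ∀ (K A : ℕ) (u : ℝ → ℝ) (T y ε : ℝ) (idx : List ℕ) (dep t : ℕ → ℝ)
  (Qs : ℕ → List ℕ), 1 ≤ K → 0 < A → 0 < ε → 0 ≤ T → Continuous u → u 0 = y →
  idx.Pairwise (fun i j => dep i < dep j) →
  (∀ i ∈ idx, 0 < dep i ∧ u T < y - dep i ∧
    WPage u T y (dep i) (t i) (2 * A * ε) K {w | ∃ Q ∈ Qs i, w = (Q : ℝ) * ε} ∧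
    (∀ Q ∈ Qs i, 16 ≤ Q ∧ 2 * Q ≤ A) ∧ (Qs i).Pairwise (fun Q Q' => 4 * Q' ≤ Q)) →
  ∃ v ∈ chain K A 0 (idx.map fun i => (⌊dep i / ε⌋₊, Qs i)), ∃ σ : ℕ → ℝ,
    Follows ε u v σ ∧ σ v.length ≤ T

end MP3e01

end

section

/-!
# MP_3e01db_pr, W20: weight of `chain`
-/

open Set MeasureTheory ProbabilityTheory
open scoped ENNReal NNReal

namespace MP3e01

theorem chain_wt_nil : wt ({[]} : Set (List Bool)) = 1 := by
  unfold wt
  rw [tsum_eq_single (⟨[], rfl⟩ : ({[]} : Set (List Bool)))]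
  · simp
  · intro b hb
    exfalso
    apply hb
    apply Subtype.ext
    exact b.2

theorem pr_chain (h1 : S_concLe) (h2 : S_climb) (h3 : S_desc) (h4 : S_wtFP) : S_chain := by
  intro K A cur L hK hA
  induction L generalizing cur with
  | nil =>
    intro _
    show wt ({[]} : Set (List Bool)) ≤ _
    rw [chain_wt_nil]
    simp
  | cons x rest ih =>
    intro hQ
    obtain ⟨l, Qs⟩ := x
    show wt (conc (FP (cur + l).toNat) (conc (Climb A) (conc (desc K (2 * A - 1) Qs)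
        (chain K A ((endp (2 * A - 1) Qs : ℤ) - l) rest)))) ≤ _
    have hrest := ih ((endp (2 * A - 1) Qs : ℤ) - l)
      (fun y hy => hQ y (List.mem_cons_of_mem _ hy))
    have hd := h3 K (2 * A - 1) Qs hK (hQ (l, Qs) List.mem_cons_self)
    rw [List.map_cons, List.prod_cons]
    calc wt (conc (FP (cur + l).toNat) (conc (Climb A) (conc (desc K (2 * A - 1) Qs)
          (chain K A ((endp (2 * A - 1) Qs : ℤ) - l) rest))))
        ≤ wt (FP (cur + l).toNat) * (wt (Climb A) * (wt (desc K (2 * A - 1) Qs) *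
            wt (chain K A ((endp (2 * A - 1) Qs : ℤ) - l) rest))) := by
          refine (h1 _ _).trans ?_
          gcongr
          refine (h1 _ _).trans ?_
          gcongr
          exact h1 _ _
      _ ≤ 1 * ((1 / (A : ℝ≥0∞)) * ((((4 * K : ℕ) / ((4 * K + 1 : ℕ) : ℝ≥0∞)) ^ Qs.length) *
            (rest.map fun x =>
              ((4 * K : ℕ) / ((4 * K + 1 : ℕ) : ℝ≥0∞)) ^ x.2.length / (A : ℝ≥0∞)).prod)) := by
          gcongr
          · exact h4 _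
          · exact h2 A hA
      _ = _ := by
          rw [one_mul, ← mul_assoc]
          congr 1
          show 1 / (A : ℝ≥0∞) * (((4 * K : ℕ) / ((4 * K + 1 : ℕ) : ℝ≥0∞)) ^ Qs.length) =
            ((4 * K : ℕ) / ((4 * K + 1 : ℕ) : ℝ≥0∞)) ^ Qs.length / (A : ℝ≥0∞)
          rw [one_div, mul_comm, div_eq_mul_inv (_ ^ _)]

end MP3e01

end

section

open Set MeasureTheory
open scoped ENNReal NNReal

namespace MP3e01

theorem pr_climb_wt_iUnion {ι : Type} (s : ι → Set (List Bool)) :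
    wt (⋃ i, s i) ≤ ∑' i, wt (s i) := by
  unfold wt
  exact ENNReal.tsum_iUnion_le_tsum (fun v : List Bool => (2⁻¹ : ℝ≥0∞) ^ v.length) s

theorem pr_climb (h1 : S_concLe) (h2 : S_rep) (h3 : S_wtU) (h4 : S_wtFP) : S_climb := by
  intro A hA
  have hC : Climb A = ⋃ m : ℕ, conc (U (2 * A - 1) 1) (rep m (conc (FP A) (U A A))) := by
    ext w
    simp [Climb]
  have hA0 : (A : ℝ≥0∞) ≠ 0 := by exact_mod_cast hA.ne'
  have hAt : (A : ℝ≥0∞) ≠ ⊤ := ENNReal.natCast_ne_top A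
  have hUA : wt (U A A) = 2⁻¹ := by
    rw [h3 A A (by omega)]
    have : ((A + A : ℕ) : ℝ≥0∞) = A * 2 := by push_cast; ring
    rw [this, ENNReal.div_eq_inv_mul, ENNReal.mul_inv (Or.inl hA0) (Or.inl hAt),
      mul_comm (A : ℝ≥0∞)⁻¹, mul_assoc, ENNReal.inv_mul_cancel hA0 hAt, mul_one]
  have hU1 : wt (U (2 * A - 1) 1) = (A : ℝ≥0∞)⁻¹ * 2⁻¹ := by
    rw [h3 (2 * A - 1) 1 (by omega)]
    have : ((2 * A - 1 + 1 : ℕ) : ℝ≥0∞) = A * 2 := by
      have : 2 * A - 1 + 1 = A * 2 := by omega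
      rw [this]; push_cast; ring
    rw [this, Nat.cast_one, one_div, ENNReal.mul_inv (Or.inl hA0) (Or.inl hAt)]
  have hX : wt (conc (FP A) (U A A)) ≤ 2⁻¹ := by
    refine (h1 _ _).trans ?_
    rw [hUA]
    calc wt (FP A) * 2⁻¹ ≤ 1 * 2⁻¹ := by gcongr; exact h4 A
      _ = 2⁻¹ := one_mul _
  rw [hC]
  refine (pr_climb_wt_iUnion _).trans ?_
  calc ∑' m : ℕ, wt (conc (U (2 * A - 1) 1) (rep m (conc (FP A) (U A A))))
      ≤ ∑' m : ℕ, ((A : ℝ≥0∞)⁻¹ * 2⁻¹) * (2⁻¹ : ℝ≥0∞) ^ m := by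
        refine ENNReal.tsum_le_tsum fun m => (h1 _ _).trans ?_
        rw [hU1]
        gcongr
        exact (h2.1 m _).trans (by gcongr)
    _ = ((A : ℝ≥0∞)⁻¹ * 2⁻¹) * ∑' m : ℕ, (2⁻¹ : ℝ≥0∞) ^ m := ENNReal.tsum_mul_left
    _ = ((A : ℝ≥0∞)⁻¹ * 2⁻¹) * 2 := by
        rw [ENNReal.tsum_geometric]
        congr 1
        rw [ENNReal.one_sub_inv_two, inv_inv]
    _ = 1 / (A : ℝ≥0∞) := by
        rw [mul_assoc, ENNReal.inv_mul_cancel (by norm_num) (by norm_num), mul_one, one_div]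

end MP3e01

end

section

open Set MeasureTheory ProbabilityTheory
open scoped ENNReal NNReal

namespace MP3e01

namespace Clus

theorem rep_eq (k : ℕ) (L : Set (List Bool)) :
    rep k L = {v | ∃ ws : List (List Bool), (ws.length = k ∧ ∀ w ∈ ws, w ∈ L) ∧
      v = ws.flatten} := by
  induction k with
  | zero =>
    ext v
    constructor
    · intro hv
      refine ⟨[], ⟨rfl, ?_⟩, hv⟩
      intro w hw
      exact absurd hw List.not_mem_nil
    · rintro ⟨ws, ⟨h1, -⟩, rfl⟩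
      rw [List.length_eq_zero_iff] at h1
      subst h1
      exact rfl
  | succ k ih =>
    ext v
    constructor
    · rintro ⟨u, hu, x, hx, rfl⟩
      have hx2 : x ∈ rep k L := hx
      rw [ih] at hx2
      obtain ⟨ws, ⟨h1, h2⟩, rfl⟩ := hx2
      refine ⟨u :: ws, ⟨?_, ?_⟩, ?_⟩
      · rw [List.length_cons, h1]
      · intro w hw
        rcases List.mem_cons.1 hw with h | h
        · rw [h]
          exact hu
        · exact h2 w h
      · rw [List.flatten_cons]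
    · rintro ⟨ws, ⟨h1, h2⟩, rfl⟩
      cases ws with
      | nil => exact absurd h1 (by simp)
      | cons u ws =>
        refine ⟨u, h2 u List.mem_cons_self, ws.flatten, ?_, ?_⟩
        · rw [ih]
          refine ⟨ws, ⟨?_, fun w hw => h2 w (List.mem_cons_of_mem _ hw)⟩, rfl⟩
          rw [List.length_cons] at h1
          omega
        · rw [List.flatten_cons]

theorem ht_append (u v : List Bool) : ht (u ++ v) = ht u + ht v := by
  unfold ht
  rw [List.map_append, List.sum_append]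

theorem ht_ge (g : ℤ) (hg : 0 ≤ g) : ∀ ws : List (List Bool),
    (∀ w ∈ ws, ∀ v, v <+: w → -g ≤ ht v) → ∀ v, v <+: ws.flatten →
    -((ws.length : ℤ) * g) ≤ ht v
  | [], _, v, hv => by
    have h1 : v = [] := by
      rw [List.flatten_nil] at hv
      exact List.prefix_nil.1 hv
    rw [h1]
    simp [ht]
  | w :: ws, h, v, hv => by
    rw [List.flatten_cons] at hv
    have h0 : 0 ≤ (ws.length : ℤ) * g := mul_nonneg (Int.natCast_nonneg _) hg
    have h5 : (((w :: ws).length : ℕ) : ℤ) * g = (ws.length : ℤ) * g + g := by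
      rw [List.length_cons]
      push_cast
      ring
    rw [h5]
    rcases List.prefix_or_prefix_of_prefix hv (List.prefix_append w ws.flatten) with h1 | h1
    · have h2 := h w List.mem_cons_self v h1
      linarith
    · obtain ⟨t, rfl⟩ := h1
      have h3 : t <+: ws.flatten := (List.prefix_append_right_inj w).1 hv
      have h4 := ht_ge g hg ws (fun w' hw' => h w' (List.mem_cons_of_mem _ hw')) t h3
      have h6 := h w List.mem_cons_self w (List.prefix_refl w)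
      rw [ht_append]
      linarith

end Clus

theorem pr_clus (h1 : S_pf) (h2 : S_rep) (h3 : S_pages) : S_clus := by
  intro D R J G hR hG h16
  obtain ⟨hP1, -, hP3⟩ := h3 R J G hR hG h16
  have hset : {v | ∃ ws, IsCluster D R J G ws ∧ v = ws.flatten} =
      rep (R ^ J) (GoodPages D R J G) := by
    rw [Clus.rep_eq]
    rfl
  have hpf : PrefixFree (GoodPages D R J G) := fun u hu v hv huv => hP1 u hu.1 v hv.1 huv
  refine ⟨?_, ?_, ?_⟩
  · rw [hset]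
    exact h1.2.2.2.2 _ _ hpf
  · rw [hset]
    exact h2.2 _ _ hpf
  · intro ws hws v hv
    have hg : (0 : ℤ) ≤ (G : ℤ) - 1 := by omega
    have h4 := Clus.ht_ge ((G : ℤ) - 1) hg ws (by
      intro w hw v' hv'
      obtain ⟨⟨k, hk, hkw⟩, -⟩ := hws.2 w hw
      have h5 := (hP3 k w hkw).2 v' hv'
      have h6 : (k : ℤ) + 1 ≤ (G : ℤ) - 1 := by omega
      linarith) v hv
    rw [hws.1] at h4
    have h7 : (1 : ℤ) ≤ ((R ^ J : ℕ) : ℤ) := by
      have : 1 ≤ R ^ J := Nat.one_le_pow _ _ (by omega)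
      exact_mod_cast this
    rw [Nat.cast_mul]
    have h8 : ((R ^ J : ℕ) : ℤ) * ((G : ℤ) - 1) = (G : ℤ) * ((R ^ J : ℕ) : ℤ) - ((R ^ J : ℕ) : ℤ) := by
      ring
    linarith

end MP3e01

end

section

/-!
# W2: concatenation, equality for a prefix-free first factor
-/

open Set MeasureTheory ProbabilityTheory
open scoped ENNReal NNReal

namespace MP3e01

theorem concEq_bij (L₁ L₂ : Set (List Bool)) (h : PrefixFree L₁) :
    Function.Bijective (fun p : L₁ × L₂ =>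
      (⟨p.1.1 ++ p.2.1, p.1.1, p.1.2, p.2.1, p.2.2, rfl⟩ : conc L₁ L₂)) := by
  constructor
  · rintro ⟨⟨u, hu⟩, ⟨v, hv⟩⟩ ⟨⟨u', hu'⟩, ⟨v', hv'⟩⟩ he
    have he' : u ++ v = u' ++ v' := congrArg Subtype.val he
    have h1 : u <+: u' ++ v' := he' ▸ List.prefix_append u v
    have h2 : u' <+: u' ++ v' := List.prefix_append u' v'
    have h3 : u = u' := by
      rcases le_total u.length u'.length with hl | hl
      · exact h u hu u' hu' (List.prefix_of_prefix_length_le h1 h2 hl)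
      · exact (h u' hu' u hu (List.prefix_of_prefix_length_le h2 h1 hl)).symm
    subst h3
    have h4 : v = v' := List.append_cancel_left he'
    subst h4
    rfl
  · rintro ⟨w, u, hu, v, hv, rfl⟩
    exact ⟨(⟨u, hu⟩, ⟨v, hv⟩), rfl⟩

theorem pr_concEq : S_concEq := by
  intro L₁ L₂ h
  unfold wt
  rw [← (Equiv.ofBijective _ (concEq_bij L₁ L₂ h)).tsum_eq, ← ENNReal.tsum_mul_right]
  simp_rw [← ENNReal.tsum_mul_left]
  rw [← ENNReal.tsum_prod (f := fun (u : L₁) (v : L₂) =>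
    (2⁻¹ : ℝ≥0∞) ^ (u : List Bool).length * (2⁻¹ : ℝ≥0∞) ^ (v : List Bool).length)]
  refine tsum_congr fun p => ?_
  show (2⁻¹ : ℝ≥0∞) ^ (p.1.1 ++ p.2.1).length = _
  rw [List.length_append, pow_add]

end MP3e01

end

section

/-!
# concLe: the weight of a concatenation is at most the product
-/

open Set MeasureTheory ProbabilityTheory
open scoped ENNReal NNReal

namespace MP3e01

theorem pr_concLe : S_concLe := by
  intro L₁ L₂
  unfold wt
  rw [← ENNReal.tsum_mul_right]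
  simp_rw [← ENNReal.tsum_mul_left]
  rw [← ENNReal.tsum_prod]
  let g : L₁ × L₂ → conc L₁ L₂ := fun p => ⟨p.1.1 ++ p.2.1, p.1.1, p.1.2, p.2.1, p.2.2, rfl⟩
  have hg : Function.Surjective g := by
    rintro ⟨w, u, hu, v, hv, rfl⟩
    exact ⟨(⟨u, hu⟩, ⟨v, hv⟩), rfl⟩
  refine (ENNReal.tsum_le_tsum_comp_of_surjective hg _).trans (le_of_eq ?_)
  refine tsum_congr fun p => ?_
  simp only [g, List.length_append, pow_add]

end MP3e01

end
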