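import Mathlib
import Pool.Agent.Work.MP_3e01db_pr.Bd.B01

/-! Bundle of small proof modules (one section per former module). -/

section

/-!
# MP_3e01db_pr, block W: item desc
-/

open Set MeasureTheory ProbabilityTheory
open scoped ENNReal NNReal

namespace MP3e01

namespace WDesc

theorem key_real (a m K : ℕ) (ha : 0 < a) (hK : 0 < K) (h : a ≤ 4 * K * m) :
    ((a : ℝ) / ((a + 1 : ℕ) : ℝ)) ^ m ≤ ((4 * K : ℕ) : ℝ) / ((4 * K + 1 : ℕ) : ℝ) := by
  have ha' : (0 : ℝ) < a := by exact_mod_cast ha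
  have hK' : (0 : ℝ) < K := by exact_mod_cast hK
  have h' : (a : ℝ) ≤ 4 * K * m := by exact_mod_cast h
  push_cast
  rw [div_pow, div_le_div_iff₀ (by positivity) (by positivity)]
  have hb := one_add_mul_le_pow (a := (1 : ℝ) / a) (by
    have : (0 : ℝ) ≤ 1 / a := by positivity
    linarith) m
  have h1 : (1 + (1 : ℝ) / a) ^ m * (a : ℝ) ^ m = ((a : ℝ) + 1) ^ m := by
    rw [← mul_pow]
    congr 1
    field_simp
  have h2 : (1 : ℝ) + 1 / (4 * K) ≤ 1 + m * (1 / a) := by
    have : (1 : ℝ) / (4 * K) ≤ m * (1 / a) := by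
      rw [mul_one_div, div_le_div_iff₀ (by positivity) ha']
      linarith
    linarith
  have h3 : (1 : ℝ) + 1 / (4 * K) ≤ (1 + (1 : ℝ) / a) ^ m := h2.trans hb
  have h4 : ((1 : ℝ) + 1 / (4 * K)) * (a : ℝ) ^ m ≤ ((a : ℝ) + 1) ^ m := by
    rw [← h1]
    exact mul_le_mul_of_nonneg_right h3 (by positivity)
  have h5 : (a : ℝ) ^ m * (4 * K + 1) = 4 * K * (((1 : ℝ) + 1 / (4 * K)) * (a : ℝ) ^ m) := by
    field_simp
  rw [h5]
  exact mul_le_mul_of_nonneg_left h4 (by positivity)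

theorem natdiv_eq (a b : ℕ) (hb : 0 < b) :
    (a : ℝ≥0∞) / (b : ℝ≥0∞) = ENNReal.ofReal ((a : ℝ) / (b : ℝ)) := by
  rw [ENNReal.ofReal_div_of_pos (by exact_mod_cast hb), ENNReal.ofReal_natCast,
    ENNReal.ofReal_natCast]

theorem key (a m K : ℕ) (ha : 0 < a) (hK : 0 < K) (h : a ≤ 4 * K * m) :
    ((a : ℝ≥0∞) / ((a + 1 : ℕ) : ℝ≥0∞)) ^ m ≤ ((4 * K : ℕ) : ℝ≥0∞) / ((4 * K + 1 : ℕ) : ℝ≥0∞) := by
  rw [natdiv_eq _ _ (Nat.succ_pos _), natdiv_eq _ _ (Nat.succ_pos _),
    ← ENNReal.ofReal_pow (by positivity)]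
  exact ENNReal.ofReal_le_ofReal (key_real a m K ha hK h)

theorem wt_nil : wt ({[]} : Set (List Bool)) ≤ 1 := by
  unfold wt
  rw [tsum_singleton ([] : List Bool) (fun v : List Bool => (2⁻¹ : ℝ≥0∞) ^ v.length)]
  simp

end WDesc

open WDesc in
theorem pr_desc (h1 : S_concLe) (h2 : S_rep) (h3 : S_wtDn) (h4 : S_wtFP) : S_desc := by
  intro K cur Qs hK
  induction Qs generalizing cur with
  | nil =>
    intro _
    simp only [desc, List.length_nil, pow_zero]
    exact wt_nil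
  | cons Q Qs ih =>
    intro hQ
    have hQ16 : 16 ≤ Q := hQ Q (List.mem_cons_self ..)
    have ih' := ih (Q + 2) (fun Q' hQ' => hQ Q' (List.mem_cons_of_mem _ hQ'))
    simp only [desc, List.length_cons]
    have hrep : wt (rep (Q - 4) (Dn (2 * K * Q + 2) 1)) ≤
        ((4 * K : ℕ) : ℝ≥0∞) / ((4 * K + 1 : ℕ) : ℝ≥0∞) := by
      refine (h2.1 _ _).trans ?_
      rw [h3 (2 * K * Q + 2) 1 (by omega)]
      refine key (2 * K * Q + 2) (Q - 4) K (by omega) hK ?_
      obtain ⟨q, rfl⟩ : ∃ q, Q = q + 16 := ⟨Q - 16, by omega⟩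
      have : q + 16 - 4 = q + 12 := by omega
      rw [this]
      nlinarith [Nat.zero_le (K * q)]
    calc wt (conc (FP (cur - (2 * Q - 2))) (conc (rep (Q - 4) (Dn (2 * K * Q + 2) 1))
          (desc K (Q + 2) Qs)))
        ≤ wt (FP (cur - (2 * Q - 2))) * wt (conc (rep (Q - 4) (Dn (2 * K * Q + 2) 1))
          (desc K (Q + 2) Qs)) := h1 _ _
      _ ≤ 1 * (wt (rep (Q - 4) (Dn (2 * K * Q + 2) 1)) * wt (desc K (Q + 2) Qs)) :=
          mul_le_mul' (h4 _) (h1 _ _)
      _ ≤ 1 * (((4 * K : ℕ) : ℝ≥0∞) / ((4 * K + 1 : ℕ) : ℝ≥0∞) *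
          (((4 * K : ℕ) : ℝ≥0∞) / ((4 * K + 1 : ℕ) : ℝ≥0∞)) ^ Qs.length) :=
          mul_le_mul' le_rfl (mul_le_mul' hrep ih')
      _ = (((4 * K : ℕ) : ℝ≥0∞) / ((4 * K + 1 : ℕ) : ℝ≥0∞)) ^ (Qs.length + 1) := by
          rw [one_mul, pow_succ']

end MP3e01

end

section

/-!
# MP_3e01db_pr, item W fail: weight of the failing words (helper90)
-/

open Set MeasureTheory ProbabilityTheory
open scoped ENNReal NNReal

namespace MP3e01

namespace Wfail

lemma ht_append (u v : List Bool) : ht (u ++ v) = ht u + ht v := by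
  simp [ht]

lemma ht_take_succ (v : List Bool) (n : ℕ) (hn : n < v.length) :
    ht (v.take (n + 1)) = ht (v.take n) + stp v[n] := by
  rw [List.take_succ_eq_append_getElem hn, ht_append]
  simp [ht]

lemma stp_ge (b : Bool) : -1 ≤ stp b := by
  cases b <;> simp [stp]

/-- factorisation of first passage words -/
lemma factor {k m : ℕ} (hmk : m ≤ k) {v : List Bool} (hv : v ∈ FP k) :
    ∃ v' w, v' ∈ FP m ∧ w ∈ FP (k - m) ∧ v = v' ++ w := by
  obtain ⟨hv1, hv2⟩ := hv
  have hex : ∃ n, ht (v.take n) ≤ -(m : ℤ) := ⟨v.length, by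
    rw [List.take_length, hv1]; omega⟩
  classical
  let n := Nat.find hex
  have hn : ht (v.take n) ≤ -(m : ℤ) := Nat.find_spec hex
  have hmin : ∀ j < n, -(m : ℤ) < ht (v.take j) := fun j hj => by
    have := Nat.find_min hex hj
    omega
  have hnlen : n ≤ v.length := Nat.find_min' hex (by
    rw [List.take_length, hv1]; omega)
  have heq : ht (v.take n) = -(m : ℤ) := by
    rcases Nat.eq_zero_or_pos n with h0 | hpos
    · rw [h0] at hn ⊢
      simp [ht] at hn ⊢
      omega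
    · obtain ⟨j, hj⟩ : ∃ j, n = j + 1 := ⟨n - 1, by omega⟩
      have h1 := hmin j (by omega)
      have h2 := ht_take_succ v j (by omega)
      have h3 := stp_ge (v[j]'(by omega))
      rw [hj] at hn ⊢
      omega
  refine ⟨v.take n, v.drop n, ⟨heq, ?_⟩, ⟨?_, ?_⟩, (List.take_append_drop n v).symm⟩
  · intro w hw hne
    have hw' : w <+: v := hw.trans (List.take_prefix n v)
    have hlen : w.length < n := by
      have h1 := hw.length_le
      rw [List.length_take, min_eq_left hnlen] at h1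
      rcases lt_or_eq_of_le h1 with h | h
      · exact h
      · exfalso
        apply hne
        apply hw.eq_of_length
        rw [List.length_take, min_eq_left hnlen, h]
    have : w = v.take w.length := List.prefix_iff_eq_take.mp hw'
    rw [this]
    exact hmin _ hlen
  · have h1 : ht v = ht (v.take n) + ht (v.drop n) := by
      rw [← ht_append, List.take_append_drop]
    rw [heq, hv1] at h1
    push_cast [Nat.cast_sub hmk]
    omega
  · intro u hu hne
    have hpre : v.take n ++ u <+: v := by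
      conv_rhs => rw [← List.take_append_drop n v]
      exact List.prefix_append_right_inj (v.take n) |>.mpr hu
    have hne' : v.take n ++ u ≠ v := by
      intro h
      apply hne
      have h2 : v.take n ++ u = v.take n ++ v.drop n := by
        rw [h, List.take_append_drop]
      exact List.append_cancel_left h2
    have h3 := hv2 _ hpre hne'
    rw [ht_append, heq] at h3
    push_cast [Nat.cast_sub hmk]
    omega

lemma wt_mono {L₁ L₂ : Set (List Bool)} (h : L₁ ⊆ L₂) : wt L₁ ≤ wt L₂ := by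
  unfold wt
  exact ENNReal.tsum_mono_subtype (fun v : List Bool => (2⁻¹ : ℝ≥0∞) ^ v.length) h

lemma wt_union {L₁ L₂ : Set (List Bool)} (h : Disjoint L₁ L₂) :
    wt (L₁ ∪ L₂) = wt L₁ + wt L₂ := by
  unfold wt
  exact Summable.tsum_union_disjoint (f := fun v : List Bool => (2⁻¹ : ℝ≥0∞) ^ v.length) h
    ENNReal.summable ENNReal.summable

/-- depth of the stage -/
def dep (R J i : ℕ) : ℕ := 2 * (16 * R ^ i) * R ^ J

lemma dep_mono {R J i : ℕ} (hR : 2 ≤ R) : dep R J i ≤ dep R J (i + 1) := by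
  unfold dep
  apply Nat.mul_le_mul_right
  apply Nat.mul_le_mul_left
  apply Nat.mul_le_mul_left
  exact Nat.pow_le_pow_right (by omega) (by omega)

lemma dep_sub {R J i : ℕ} (hR : 2 ≤ R) :
    2 * (16 * R ^ i * R ^ J) ≤ dep R J (i + 1) - dep R J i := by
  unfold dep
  have h1 : R ^ (i + 1) = R ^ i * R := pow_succ R i
  have h2 : R ^ i * 2 ≤ R ^ i * R := Nat.mul_le_mul_left _ hR
  have h3 : 2 * (16 * (R ^ i * 2)) * R ^ J ≤ 2 * (16 * R ^ (i + 1)) * R ^ J := by
    apply Nat.mul_le_mul_right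
    apply Nat.mul_le_mul_left
    apply Nat.mul_le_mul_left
    rw [h1]; exact h2
  have h4 : 2 * (16 * (R ^ i * 2)) * R ^ J = 2 * (16 * R ^ i) * R ^ J + 2 * (16 * R ^ i * R ^ J) := by
    ring
  omega

def Cl (D R J i : ℕ) : Set (List Bool) :=
  {v | ∃ ws, IsCluster D R J (16 * R ^ i) ws ∧ v = ws.flatten}

def Fl (D R J i : ℕ) : Set (List Bool) :=
  {w | w ∈ FP (dep R J (i + 1) - dep R J i) ∧ ∀ c ∈ Cl D R J i, ¬ c <+: w}

def FA (D R J n : ℕ) : Set (List Bool) :=
  {v | v ∈ FP (dep R J n) ∧ ∀ i < n, ¬ ∃ u ∈ FP (dep R J i), ∃ ws,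
    IsCluster D R J (16 * R ^ i) ws ∧ (u ++ ws.flatten) <+: v}

lemma FA_succ {D R J n : ℕ} (hR : 2 ≤ R) :
    FA D R J (n + 1) ⊆ conc (FA D R J n) (Fl D R J n) := by
  rintro v ⟨hv1, hv2⟩
  obtain ⟨v', w, hv', hw, rfl⟩ := factor (dep_mono (i := n) (J := J) hR) hv1
  refine ⟨v', ⟨hv', ?_⟩, w, ⟨hw, ?_⟩, rfl⟩
  · rintro i hi ⟨u, hu, ws, hws, hpre⟩
    exact hv2 i (by omega) ⟨u, hu, ws, hws, hpre.trans (List.prefix_append _ _)⟩
  · rintro c ⟨ws, hws, rfl⟩ hpre
    exact hv2 n (by omega) ⟨v', hv', ws, hws, (List.prefix_append_right_inj v').mpr hpre⟩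

end Wfail

open Wfail in
theorem pr_fail (h1 : S_concLe) (h2 : S_kraft) (h3 : S_pf) (h4 : S_clus) (h5 : S_wtFP) :
    S_fail := by
  intro D R J I x hR hx
  have hFl : ∀ i ≤ I, wt (Fl D R J i) ≤ 1 - x := by
    intro i hi
    have hpos : 0 < 16 * R ^ i := by positivity
    obtain ⟨c1, -, c3⟩ := h4 D R J (16 * R ^ i) hR hpos (Dvd.intro _ rfl)
    have hcross : ∀ w ∈ Fl D R J i, ∀ c ∈ Cl D R J i, ¬ w <+: c := by
      rintro w ⟨⟨hw, -⟩, -⟩ c ⟨ws, hws, rfl⟩ hpre
      have h6 := c3 ws hws w hpre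
      have h7 := dep_sub (R := R) (J := J) (i := i) hR
      rw [hw] at h6
      have h8 : (2 * (16 * R ^ i * R ^ J) : ℤ) ≤ ((dep R J (i + 1) - dep R J i : ℕ) : ℤ) := by
        exact_mod_cast h7
      push_cast at h6 h8
      have h9 : (0 : ℤ) ≤ 16 * (R : ℤ) ^ i * (R : ℤ) ^ J := by positivity
      linarith
    have hdisj : Disjoint (Fl D R J i) (Cl D R J i) := by
      rw [Set.disjoint_left]
      intro w hw hc
      exact hw.2 w hc (List.prefix_refl w)
    have hpf : PrefixFree (Fl D R J i ∪ Cl D R J i) := by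
      rintro u (hu | hu) v (hv | hv) hpre
      · exact h3.2.2.1 _ u hu.1 v hv.1 hpre
      · exact absurd hpre (hcross u hu v hv)
      · exact absurd hpre (hv.2 u hu)
      · exact c1 u hu v hv hpre
    have hk := h2 _ hpf
    rw [wt_union hdisj] at hk
    have hxle : x ≤ wt (Cl D R J i) := hx i hi
    have h10 : wt (Fl D R J i) + x ≤ 1 := le_trans (by gcongr) hk
    have hxfin : x ≠ ⊤ := by
      intro hxt
      rw [hxt] at h10
      simp at h10
    exact ENNReal.le_sub_of_add_le_right hxfin h10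
  have main : ∀ n ≤ I + 1, wt (FA D R J n) ≤ (1 - x) ^ n := by
    intro n
    induction n with
    | zero =>
      intro _
      rw [pow_zero]
      exact (wt_mono (fun v hv => hv.1)).trans (h5 _)
    | succ n ih =>
      intro hn
      calc wt (FA D R J (n + 1)) ≤ wt (conc (FA D R J n) (Fl D R J n)) := wt_mono (FA_succ hR)
        _ ≤ wt (FA D R J n) * wt (Fl D R J n) := h1 _ _
        _ ≤ (1 - x) ^ n * (1 - x) := by
            gcongr
            · exact ih (by omega)
            · exact hFl n (by omega)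
        _ = (1 - x) ^ (n + 1) := (pow_succ _ _).symm
  refine le_trans (wt_mono ?_) (main (I + 1) le_rfl)
  rintro v ⟨hv1, hv2⟩
  refine ⟨hv1, fun i hi => hv2 i (by omega)⟩

end MP3e01

end

section

set_option autoImplicit false

open Set MeasureTheory ProbabilityTheory
open scoped ENNReal NNReal

namespace MP3e01

namespace GoodAux

/-- weight of a word -/
noncomputable def w1 (v : List Bool) : ℝ≥0∞ := (2⁻¹ : ℝ≥0∞) ^ v.length

lemma wt_eq (L : Set (List Bool)) : wt L = ∑' v, L.indicator w1 v := by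
  unfold wt
  exact tsum_subtype L (fun v : List Bool => (2⁻¹ : ℝ≥0∞) ^ v.length)

lemma wt_sum {ι : Type*} (s : Finset ι) (L : ι → Set (List Bool)) :
    ∑ i ∈ s, wt (L i) = ∑' v, ∑ i ∈ s, (L i).indicator w1 v := by
  simp_rw [wt_eq]
  exact (Summable.tsum_finsetSum (fun i _ => ENNReal.summable)).symm

lemma sum_disj {ι : Type*} (s : Finset ι) (L : ι → Set (List Bool))
    (hd : ∀ i ∈ s, ∀ j ∈ s, ∀ v, v ∈ L i → v ∈ L j → i = j) :
    ∑ i ∈ s, wt (L i) ≤ wt {v | ∃ i ∈ s, v ∈ L i} := by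
  rw [wt_sum, wt_eq]
  refine ENNReal.tsum_le_tsum fun v => ?_
  by_cases h : ∃ i ∈ s, v ∈ L i
  · obtain ⟨i, hi, hv⟩ := h
    rw [Finset.sum_eq_single i]
    · rw [Set.indicator_of_mem hv, Set.indicator_of_mem (show v ∈ {v | ∃ i ∈ s, v ∈ L i} from
        ⟨i, hi, hv⟩)]
    · intro j hj hne
      exact Set.indicator_of_notMem (fun hvj => hne (hd j hj i hi v hvj hv)) _
    · intro hni
      exact absurd hi hni
  · rw [Finset.sum_eq_zero]
    · exact zero_le
    · intro i hi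
      exact Set.indicator_of_notMem (fun hv => h ⟨i, hi, hv⟩) _

lemma union_le {ι : Type*} (s : Finset ι) (L : ι → Set (List Bool)) :
    wt {v | ∃ i ∈ s, v ∈ L i} ≤ ∑ i ∈ s, wt (L i) := by
  rw [wt_sum, wt_eq]
  refine ENNReal.tsum_le_tsum fun v => ?_
  by_cases h : ∃ i ∈ s, v ∈ L i
  · obtain ⟨i, hi, hv⟩ := h
    rw [Set.indicator_of_mem (show v ∈ {v | ∃ i ∈ s, v ∈ L i} from ⟨i, hi, hv⟩)]
    refine le_trans (le_of_eq ?_) (Finset.single_le_sum (f := fun i => (L i).indicator w1 v)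
      (fun i _ => zero_le) hi)
    exact (Set.indicator_of_mem hv _).symm
  · rw [Set.indicator_of_notMem (show v ∉ {v | ∃ i ∈ s, v ∈ L i} from h)]
    exact zero_le

lemma pf_single : PrefixFree {[false]} := by
  intro u hu v hv _
  rw [Set.mem_singleton_iff] at hu hv
  rw [hu, hv]

end GoodAux

open GoodAux in
theorem pr_good (h1 : S_concEq) (h2 : S_pf) (h3 : S_rep) (h4 : S_wtU) (h5 : S_wtDn)
    (h6 : S_wtStart) (h7 : S_wtAsc) (h8 : S_wtDes) (h9 : S_labSub) (h10 : S_pages) : S_good := by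
  obtain ⟨pfU, pfDn, -, pfc, pfr⟩ := h2
  intro R hR
  refine ⟨256 * 3 ^ (8 * R), Nat.one_le_iff_ne_zero.2 (by positivity), ?_⟩
  intro J G hJ hG h16
  set D : ℕ := 256 * 3 ^ (8 * R) with hD
  set N : ℕ := R ^ J with hN
  have hNpos : 0 < N := by positivity
  have hDpos : 0 < D := by positivity
  set X : ℝ≥0∞ := 1 / ((D * N : ℕ) : ℝ≥0∞) with hX
  have hX0 : X ≠ 0 := by
    rw [hX]
    exact ENNReal.div_ne_zero.2 ⟨one_ne_zero, ENNReal.natCast_ne_top _⟩
  have hXt : X ≠ ⊤ := by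
    rw [hX]
    exact ENNReal.div_ne_top ENNReal.one_ne_top (by
      have : (D * N : ℕ) ≠ 0 := by positivity
      exact_mod_cast this)
  obtain ⟨hS1, hS2⟩ := h6 G hG h16
  have pfStart : ∀ k, PrefixFree (Start G k) := fun k =>
    pfc _ _ pf_single (pfc _ _ (pfr _ _ (pfDn _ _)) (pfU _ _))
  -- weight of the labelled pages
  have hlab : ∀ j, 2 ≤ j → j ≤ J →
      4 * X ≤ ∑ k ∈ Finset.range (G - 1), wt (PageL R J G k j) := by
    intro j hj hjJ
    have pfAsc : PrefixFree (AscL G (R ^ J) R (G * R ^ (J - j))) :=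
      pfc _ _ (pfU _ _) (pfc _ _ (pfr _ _ (pfU _ _)) (pfU _ _))
    have e1 : ∀ k, wt (PageL R J G k j) = wt (Start G k) *
        (wt (AscL G (R ^ J) R (G * R ^ (J - j))) * wt (DesL G (R ^ J) R (G * R ^ (J - j)))) := by
      intro k
      rw [PageL, h1 _ _ (pfStart k), h1 _ _ pfAsc]
    simp_rw [e1]
    rw [← Finset.sum_mul]
    have e2 := h7 R J G j hR hG h16 hj hjJ
    have e3 := h8 R J G j hR hG h16 hj hjJ
    refine le_trans (le_of_eq ?_) (mul_le_mul' hS1 (mul_le_mul' e2 e3))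
    have hn : ((R ^ J : ℕ) : ℝ≥0∞) ≠ 0 := by
      have : (R ^ J : ℕ) ≠ 0 := by positivity
      exact_mod_cast this
    have hfin1 : (4 : ℝ≥0∞) * X ≠ ⊤ := ENNReal.mul_ne_top (by simp) hXt
    have hfin2 : (1 / 4 : ℝ≥0∞) * ((1 / 3) ^ (4 * R) / (4 * ((R ^ J : ℕ) : ℝ≥0∞)) *
        ((1 / 3) ^ (4 * R) / 4)) ≠ ⊤ := by
      refine ENNReal.mul_ne_top (ENNReal.div_ne_top (by simp) (by simp)) (ENNReal.mul_ne_top
        (ENNReal.div_ne_top (ENNReal.pow_ne_top (ENNReal.div_ne_top (by simp) (by simp)))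
          (mul_ne_zero (by simp) hn))
        (ENNReal.div_ne_top (ENNReal.pow_ne_top (ENNReal.div_ne_top (by simp) (by simp)))
          (by simp)))
    rw [← ENNReal.toReal_eq_toReal_iff' hfin1 hfin2]
    have hRpos : (0 : ℝ) < (R : ℝ) := by exact_mod_cast (by omega : 0 < R)
    simp only [hX, hD, hN, ENNReal.toReal_mul, ENNReal.toReal_div, ENNReal.toReal_pow,
      ENNReal.toReal_natCast, ENNReal.toReal_one, ENNReal.toReal_ofNat]
    push_cast
    have h38 : (3 : ℝ) ^ (8 * R) = 3 ^ (4 * R) * 3 ^ (4 * R) := by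
      rw [← pow_add]; congr 1; ring
    rw [h38, one_div_pow]
    field_simp
    norm_num
  -- weight of the pages
  have hpg : wt (Pages R J G) ≤ ((D : ℝ≥0∞) / 16) * X := by
    have e0 : wt (Pages R J G) ≤ ∑ k ∈ Finset.range (G - 1), wt (Page G (R ^ J) k) := by
      have := union_le (Finset.range (G - 1)) (fun k => Page G (R ^ J) k)
      refine le_trans (le_of_eq ?_) this
      congr 1
      ext w
      simp [Pages]
    have hle : G / 4 ≤ G * R ^ J := by
      calc G / 4 ≤ G := Nat.div_le_self _ _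
        _ ≤ G * R ^ J := Nat.le_mul_of_pos_right _ hNpos
    have e1 : ∀ k, wt (Page G (R ^ J) k) = wt (Start G k) *
        (wt (U (G * R ^ J - G / 4) (G / 4)) * wt (Dn (G * R ^ J) (G * R ^ J))) := by
      intro k
      rw [Page, h1 _ _ (pfStart k), h1 _ _ (pfU _ _)]
    have hGN : 0 < G * R ^ J := by positivity
    have e2 : wt (U (G * R ^ J - G / 4) (G / 4)) = ((G / 4 : ℕ) : ℝ≥0∞) / ((G * R ^ J : ℕ) : ℝ≥0∞) := by
      rw [h4 _ _ (by omega)]
      congr 2
      omega
    have e3 : wt (Dn (G * R ^ J) (G * R ^ J)) =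
        ((G * R ^ J : ℕ) : ℝ≥0∞) / ((G * R ^ J + G * R ^ J : ℕ) : ℝ≥0∞) := h5 _ _ (by omega)
    refine e0.trans ?_
    simp_rw [e1]
    rw [← Finset.sum_mul]
    refine (mul_le_mul' hS2 le_rfl).trans (le_of_eq ?_)
    rw [e2, e3]
    have hn1 : ((G * R ^ J : ℕ) : ℝ≥0∞) ≠ 0 := by exact_mod_cast hGN.ne'
    have hn2 : ((G * R ^ J + G * R ^ J : ℕ) : ℝ≥0∞) ≠ 0 := by
      have : (G * R ^ J + G * R ^ J : ℕ) ≠ 0 := by omega
      exact_mod_cast this
    have hfin1 : (1 / 2 : ℝ≥0∞) * (((G / 4 : ℕ) : ℝ≥0∞) / ((G * R ^ J : ℕ) : ℝ≥0∞) *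
        (((G * R ^ J : ℕ) : ℝ≥0∞) / ((G * R ^ J + G * R ^ J : ℕ) : ℝ≥0∞))) ≠ ⊤ :=
      ENNReal.mul_ne_top (ENNReal.div_ne_top (by simp) (by simp)) (ENNReal.mul_ne_top
        (ENNReal.div_ne_top (ENNReal.natCast_ne_top _) hn1)
        (ENNReal.div_ne_top (ENNReal.natCast_ne_top _) hn2))
    have hfin2 : ((D : ℝ≥0∞) / 16) * X ≠ ⊤ :=
      ENNReal.mul_ne_top (ENNReal.div_ne_top (ENNReal.natCast_ne_top _) (by simp)) hXt
    rw [← ENNReal.toReal_eq_toReal_iff' hfin1 hfin2]
    obtain ⟨g, rfl⟩ : ∃ g, G = 4 * g := (Nat.dvd_trans (by norm_num) h16 : 4 ∣ G)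
    have hg4 : 4 * g / 4 = g := by omega
    have hgpos : (0 : ℝ) < (g : ℝ) := by exact_mod_cast (by omega : 0 < g)
    have hRpos : (0 : ℝ) < (R : ℝ) := by exact_mod_cast (by omega : 0 < R)
    have hDr : (0 : ℝ) < (D : ℝ) := by exact_mod_cast hDpos
    rw [hg4]
    simp only [hX, hN, ENNReal.toReal_mul, ENNReal.toReal_div,
      ENNReal.toReal_natCast, ENNReal.toReal_one, ENNReal.toReal_ofNat]
    push_cast
    field_simp
    norm_num
  -- the sum of the labels
  have hsum : ∑ j ∈ Finset.Icc 2 J, wt {v | ∃ k ∈ Finset.range (G - 1), v ∈ PageL R J G k j} ≤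
      (J : ℝ≥0∞) * wt (GoodPages D R J G) + ((J : ℝ≥0∞) / D) * wt (Pages R J G) := by
    rw [wt_sum, wt_eq (GoodPages D R J G), wt_eq (Pages R J G), ← ENNReal.tsum_mul_left,
      ← ENNReal.tsum_mul_left, ← ENNReal.tsum_add]
    refine ENNReal.tsum_le_tsum fun v => ?_
    have hcard : ∑ j ∈ Finset.Icc 2 J,
        ({v | ∃ k ∈ Finset.range (G - 1), v ∈ PageL R J G k j} : Set (List Bool)).indicator w1 v =
        ((lab R J G v).card : ℝ≥0∞) * w1 v := by
      classical
      have e1 : ∀ j ∈ Finset.Icc 2 J,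
          ({v | ∃ k ∈ Finset.range (G - 1), v ∈ PageL R J G k j} : Set (List Bool)).indicator w1 v =
          if (∃ k < G - 1, v ∈ PageL R J G k j) then w1 v else 0 := by
        intro j _
        by_cases h : ∃ k < G - 1, v ∈ PageL R J G k j
        · rw [if_pos h, Set.indicator_of_mem]
          obtain ⟨k, hk, hv⟩ := h
          exact ⟨k, Finset.mem_range.2 hk, hv⟩
        · rw [if_neg h, Set.indicator_of_notMem]
          rintro ⟨k, hk, hv⟩
          exact h ⟨k, Finset.mem_range.1 hk, hv⟩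
      rw [Finset.sum_congr rfl e1, ← Finset.sum_filter, Finset.sum_const, nsmul_eq_mul]
      congr 2
    rw [hcard]
    by_cases hp : v ∈ Pages R J G
    · by_cases hg : v ∈ GoodPages D R J G
      · rw [Set.indicator_of_mem hg]
        refine le_trans (mul_le_mul' ?_ le_rfl) le_self_add
        have : (lab R J G v).card ≤ J := by
          classical
          unfold lab
          refine (Finset.card_filter_le _ _).trans ?_
          simp
        exact_mod_cast this
      · rw [Set.indicator_of_notMem hg, Set.indicator_of_mem hp, mul_zero, zero_add]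
        refine mul_le_mul' ?_ le_rfl
        have hlt : D * (lab R J G v).card < J := by
          by_contra hc
          exact hg ⟨hp, not_lt.1 hc⟩
        rw [ENNReal.le_div_iff_mul_le (Or.inl (by exact_mod_cast hDpos.ne'))
          (Or.inl (ENNReal.natCast_ne_top _)), mul_comm]
        exact_mod_cast hlt.le
    · have : (lab R J G v).card = 0 := by
        classical
        rw [Finset.card_eq_zero]
        unfold lab
        rw [Finset.filter_eq_empty_iff]
        rintro j hj ⟨k, hk, hv⟩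
        rw [Finset.mem_Icc] at hj
        exact hp ⟨k, hk, h9 R J G k j hR hG h16 hj.1 hj.2 hv⟩
      rw [this]
      simp
  -- lower bound
  have hlow : ((J - 1 : ℕ) : ℝ≥0∞) * (4 * X) ≤
      ∑ j ∈ Finset.Icc 2 J, wt {v | ∃ k ∈ Finset.range (G - 1), v ∈ PageL R J G k j} := by
    have e1 : ((J - 1 : ℕ) : ℝ≥0∞) * (4 * X) = ∑ j ∈ Finset.Icc 2 J, 4 * X := by
      rw [Finset.sum_const, nsmul_eq_mul, Nat.card_Icc]
      congr 2
    rw [e1]
    refine Finset.sum_le_sum fun j hj => ?_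
    rw [Finset.mem_Icc] at hj
    refine (hlab j hj.1 hj.2).trans (sum_disj _ _ ?_)
    intro k _ k' _ v hv hv'
    exact (h10 R J G hR hG h16).2.1 k k' v (h9 R J G k j hR hG h16 hj.1 hj.2 hv)
      (h9 R J G k' j hR hG h16 hj.1 hj.2 hv')
  -- conclusion
  by_contra hcon
  push Not at hcon
  have hfinal : ((J - 1 : ℕ) : ℝ≥0∞) * (4 * X) ≤ (J : ℝ≥0∞) * X + (J : ℝ≥0∞) / 16 * X := by
    refine (hlow.trans hsum).trans (add_le_add (mul_le_mul' le_rfl hcon.le) ?_)
    refine (mul_le_mul' le_rfl hpg).trans (le_of_eq ?_)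
    rw [← mul_assoc]
    congr 1
    have hD0 : (D : ℝ≥0∞) ≠ 0 := by exact_mod_cast hDpos.ne'
    rw [ENNReal.div_eq_inv_mul, ENNReal.div_eq_inv_mul, ENNReal.div_eq_inv_mul]
    calc (D : ℝ≥0∞)⁻¹ * J * (16⁻¹ * D) = ((D : ℝ≥0∞)⁻¹ * D) * (16⁻¹ * J) := by ring
      _ = 16⁻¹ * J := by rw [ENNReal.inv_mul_cancel hD0 (ENNReal.natCast_ne_top _), one_mul]
  have hr := ENNReal.toReal_mono (ENNReal.add_ne_top.2
    ⟨ENNReal.mul_ne_top (ENNReal.natCast_ne_top _) hXt,
      ENNReal.mul_ne_top (ENNReal.div_ne_top (ENNReal.natCast_ne_top _) (by simp)) hXt⟩) hfinal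
  rw [ENNReal.toReal_add (ENNReal.mul_ne_top (ENNReal.natCast_ne_top _) hXt)
    (ENNReal.mul_ne_top (ENNReal.div_ne_top (ENNReal.natCast_ne_top _) (by simp)) hXt)] at hr
  simp only [ENNReal.toReal_mul, ENNReal.toReal_div, ENNReal.toReal_natCast,
    ENNReal.toReal_ofNat] at hr
  have hx : 0 < X.toReal := ENNReal.toReal_pos hX0 hXt
  have hJ1 : ((J - 1 : ℕ) : ℝ) = (J : ℝ) - 1 := by
    rw [Nat.cast_sub (by omega)]; simp
  rw [hJ1] at hr
  have hJ2 : (2 : ℝ) ≤ J := by exact_mod_cast hJ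
  nlinarith

end MP3e01

end

section

/-!
# MP_3e01db_pr, item W3: Kraft's inequality
-/

open Set MeasureTheory ProbabilityTheory
open scoped ENNReal NNReal

namespace MP3e01

lemma kraft_fin (n : ℕ) : ∀ F : Finset (List Bool), (∀ u ∈ F, ∀ v ∈ F, u <+: v → u = v) →
    (∀ u ∈ F, u.length ≤ n) → ∑ v ∈ F, (2⁻¹ : ℝ≥0∞) ^ v.length ≤ 1 := by
  induction n with
  | zero =>
    intro F _ hn
    have hsub : F ⊆ {([] : List Bool)} := by
      intro u hu
      have h0 := hn u hu
      have h1 : u = [] := List.eq_nil_of_length_eq_zero (by omega)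
      simp [h1]
    calc ∑ v ∈ F, (2⁻¹ : ℝ≥0∞) ^ v.length
        ≤ ∑ v ∈ {([] : List Bool)}, (2⁻¹ : ℝ≥0∞) ^ v.length :=
          Finset.sum_le_sum_of_subset hsub
      _ = 1 := by simp
  | succ n ih =>
    intro F hF hn
    by_cases hnil : ([] : List Bool) ∈ F
    · have hsub : F ⊆ {([] : List Bool)} := by
        intro u hu
        have h1 := hF [] hnil u hu (List.nil_prefix)
        simp [← h1]
      calc ∑ v ∈ F, (2⁻¹ : ℝ≥0∞) ^ v.length
          ≤ ∑ v ∈ {([] : List Bool)}, (2⁻¹ : ℝ≥0∞) ^ v.length :=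
            Finset.sum_le_sum_of_subset hsub
        _ = 1 := by simp
    · have hinj : ∀ b : Bool, Set.InjOn (List.cons b) (List.cons b ⁻¹' (F : Set (List Bool))) := by
        intro b x _ y _ hxy
        simpa using hxy
      have hbd : ∀ b : Bool, ∑ w ∈ F.preimage (List.cons b) (hinj b),
          (2⁻¹ : ℝ≥0∞) ^ w.length ≤ 1 := by
        intro b
        apply ih
        · intro u hu v hv huv
          rw [Finset.mem_preimage] at hu hv
          have h2 := hF _ hu _ hv (by simpa using huv)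
          simpa using h2
        · intro u hu
          rw [Finset.mem_preimage] at hu
          have h3 := hn _ hu
          simp only [List.length_cons] at h3
          omega
      have hcov : F ⊆ (F.preimage (List.cons true) (hinj true)).image (List.cons true) ∪
          (F.preimage (List.cons false) (hinj false)).image (List.cons false) := by
        intro u hu
        rcases u with _ | ⟨b, w⟩
        · exact absurd hu hnil
        · cases b
          · apply Finset.mem_union_right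
            rw [Finset.mem_image]
            exact ⟨w, by rw [Finset.mem_preimage]; exact hu, rfl⟩
          · apply Finset.mem_union_left
            rw [Finset.mem_image]
            exact ⟨w, by rw [Finset.mem_preimage]; exact hu, rfl⟩
      have hhalf : ∀ b : Bool, ∑ v ∈ (F.preimage (List.cons b) (hinj b)).image (List.cons b),
          (2⁻¹ : ℝ≥0∞) ^ v.length ≤ 2⁻¹ := by
        intro b
        rw [Finset.sum_image (by intro x _ y _ hxy; simpa using hxy)]
        calc ∑ w ∈ F.preimage (List.cons b) (hinj b), (2⁻¹ : ℝ≥0∞) ^ (b :: w).length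
            = ∑ w ∈ F.preimage (List.cons b) (hinj b), 2⁻¹ * (2⁻¹ : ℝ≥0∞) ^ w.length := by
              apply Finset.sum_congr rfl
              intro w _
              rw [List.length_cons, pow_succ, mul_comm]
          _ = 2⁻¹ * ∑ w ∈ F.preimage (List.cons b) (hinj b), (2⁻¹ : ℝ≥0∞) ^ w.length := by
              rw [Finset.mul_sum]
          _ ≤ 2⁻¹ * 1 := by gcongr; exact hbd b
          _ = 2⁻¹ := mul_one _
      have hdisj : Disjoint ((F.preimage (List.cons true) (hinj true)).image (List.cons true))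
          ((F.preimage (List.cons false) (hinj false)).image (List.cons false)) := by
        rw [Finset.disjoint_left]
        intro u hu hu'
        rw [Finset.mem_image] at hu hu'
        obtain ⟨w, _, hw⟩ := hu
        obtain ⟨w', _, hw'⟩ := hu'
        rw [← hw] at hw'
        simp at hw'
      calc ∑ v ∈ F, (2⁻¹ : ℝ≥0∞) ^ v.length
          ≤ _ := Finset.sum_le_sum_of_subset hcov
        _ = _ := Finset.sum_union hdisj
        _ ≤ 2⁻¹ + 2⁻¹ := add_le_add (hhalf true) (hhalf false)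
        _ = 1 := ENNReal.inv_two_add_inv_two

theorem pr_kraft : S_kraft := by
  intro L hL
  unfold wt
  rw [ENNReal.tsum_eq_iSup_sum]
  apply iSup_le
  intro s
  have h1 : ∑ v ∈ s, (2⁻¹ : ℝ≥0∞) ^ (v : List Bool).length =
      ∑ v ∈ s.map (Function.Embedding.subtype _), (2⁻¹ : ℝ≥0∞) ^ v.length := by
    rw [Finset.sum_map]
    rfl
  rw [h1]
  apply kraft_fin ((s.map (Function.Embedding.subtype _)).sup List.length)
  · intro u hu v hv huv
    rw [Finset.mem_map] at hu hv
    obtain ⟨u', _, rfl⟩ := hu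
    obtain ⟨v', _, rfl⟩ := hv
    exact hL _ u'.2 _ v'.2 huv
  · intro u hu
    exact Finset.le_sup (f := List.length) hu

end MP3e01

end

section

open Set MeasureTheory ProbabilityTheory
open scoped ENNReal NNReal

namespace MP3e01

theorem labSub_ht_append (u v : List Bool) : ht (u ++ v) = ht u + ht v := by
  simp only [ht, List.map_append, List.sum_append]

theorem labSub_prefix {w u v : List Bool} (h : w <+: u ++ v) (hne : w ≠ u ++ v) :
    (w <+: u ∧ w ≠ u) ∨ ∃ w', w = u ++ w' ∧ w' <+: v ∧ w' ≠ v := by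
  rcases List.prefix_or_prefix_of_prefix h (List.prefix_append u v) with h1 | h1
  · by_cases hwu : w = u
    · right
      subst hwu
      refine ⟨[], by simp, List.nil_prefix, ?_⟩
      intro hv
      apply hne
      rw [← hv]
      simp
    · exact Or.inl ⟨h1, hwu⟩
  · right
    obtain ⟨w', rfl⟩ := h1
    refine ⟨w', rfl, ?_, ?_⟩
    · exact (List.prefix_append_right_inj u).mp h
    · intro hv
      exact hne (by rw [hv])

/-- a band condition -/
def labSub_Band (v : List Bool) (x lo hi : ℤ) : Prop :=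
  ht v = x ∧ ∀ w, w <+: v → w ≠ v → lo < ht w ∧ ht w < hi

theorem labSub_band_append {u v : List Bool} {x y lo hi lo1 hi1 lo2 hi2 : ℤ}
    (hu : labSub_Band u x lo1 hi1) (hv : labSub_Band v y lo2 hi2)
    (h1 : lo ≤ lo1) (h2 : hi1 ≤ hi) (h3 : lo ≤ x + lo2) (h4 : x + hi2 ≤ hi) :
    labSub_Band (u ++ v) (x + y) lo hi := by
  refine ⟨by rw [labSub_ht_append, hu.1, hv.1], ?_⟩
  intro w hw hne
  rcases labSub_prefix hw hne with ⟨ha, hb⟩ | ⟨w', rfl, ha, hb⟩
  · have := hu.2 w ha hb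
    constructor <;> linarith [this.1, this.2]
  · have := hv.2 w' ha hb
    rw [labSub_ht_append, hu.1]
    constructor <;> linarith [this.1, this.2]

theorem labSub_repU (b : ℕ) : ∀ (m : ℕ) (v : List Bool), v ∈ rep m (U 1 b) →
    labSub_Band v m (-(b : ℤ)) m := by
  intro m
  induction m with
  | zero =>
    intro v hv
    have : v = [] := hv
    subst this
    refine ⟨by simp [ht], ?_⟩
    intro w hw hne
    exact absurd (List.prefix_nil.mp hw) hne
  | succ m ih =>
    rintro v ⟨x, hx, y, hy, rfl⟩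
    have hxb : labSub_Band x 1 (-(b : ℤ)) 1 := by
      refine ⟨by simpa using hx.1, ?_⟩
      intro w hw hne
      simpa using hx.2 w hw hne
    have := labSub_band_append (lo := -(b : ℤ)) (hi := ((m + 1 : ℕ) : ℤ)) hxb (ih y hy) le_rfl
      (by push_cast; omega) (by omega) (by push_cast; omega)
    have e : (1 : ℤ) + m = ((m + 1 : ℕ) : ℤ) := by push_cast; ring
    rw [e] at this
    exact this

theorem labSub_repD (a : ℕ) : ∀ (m : ℕ) (v : List Bool), v ∈ rep m (Dn a 1) →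
    labSub_Band v (-(m : ℤ)) (-(m : ℤ)) a := by
  intro m
  induction m with
  | zero =>
    intro v hv
    have : v = [] := hv
    subst this
    refine ⟨by simp [ht], ?_⟩
    intro w hw hne
    exact absurd (List.prefix_nil.mp hw) hne
  | succ m ih =>
    rintro v ⟨x, hx, y, hy, rfl⟩
    have hxb : labSub_Band x (-1) (-1) a := by
      refine ⟨by simpa using hx.1, ?_⟩
      intro w hw hne
      simpa using hx.2 w hw hne
    have := labSub_band_append (lo := -((m + 1 : ℕ) : ℤ)) (hi := (a : ℤ)) hxb (ih y hy)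
      (by push_cast; omega) le_rfl (by push_cast; omega) (by omega)
    have e : (-1 : ℤ) + -(m : ℤ) = -((m + 1 : ℕ) : ℤ) := by push_cast; ring
    rw [e] at this
    exact this

theorem pr_labSub : S_labSub := by
  intro R J G k j hR hG h16 hj hjJ
  obtain ⟨g, rfl⟩ := h16
  have hr : 2 * R * (16 * g * R ^ (J - j)) ≤ 16 * g * R ^ J := by
    have e1 : R ^ J = R ^ (J - j) * R ^ (j - 2) * (R * R) := by
      rw [← pow_add, ← pow_two, ← pow_add]
      congr 1
      omega
    have e2 : 1 ≤ R ^ (j - 2) := Nat.one_le_pow _ _ (by omega)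
    rw [e1]
    calc 2 * R * (16 * g * R ^ (J - j)) ≤ R * R * (16 * g * R ^ (J - j)) :=
          Nat.mul_le_mul_right _ (Nat.mul_le_mul_right _ hR)
      _ = 16 * g * (R ^ (J - j) * 1 * (R * R)) := by ring
      _ ≤ 16 * g * (R ^ (J - j) * R ^ (j - 2) * (R * R)) := by gcongr
  have hGr : 16 * g ≤ 16 * g * R ^ (J - j) :=
    Nat.le_mul_of_pos_right _ (Nat.pow_pos (by omega))
  have h4 : 16 * g / 4 = 4 * g := by omega
  have hr16 : 16 * g * R ^ (J - j) = 16 * (g * R ^ (J - j)) := by ring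
  have hAr : 16 * g * R ^ (J - j) ≤ R * (16 * g * R ^ (J - j)) :=
    Nat.le_mul_of_pos_left _ (by omega)
  have h2R : 2 * R * (16 * g * R ^ (J - j)) = 2 * (R * (16 * g * R ^ (J - j))) := by ring
  have hAsc : AscL (16 * g) (R ^ J) R (16 * g * R ^ (J - j)) ⊆
      U (16 * g * R ^ J - 16 * g / 4) (16 * g / 4) := by
    rintro v ⟨u1, h1, v', ⟨u2, h2, u3, h3, rfl⟩, rfl⟩
    generalize hrr : 16 * g * R ^ (J - j) = r at *
    generalize hAA : R * r = A at *
    generalize hMM : 16 * g * R ^ J = M at *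
    rw [h4] at h1 ⊢
    rw [h2R] at h2 h3 hr
    have b1 : labSub_Band u1 (r / 2 - 4 * g : ℕ) (-((4 * g : ℕ) : ℤ)) (r / 2 - 4 * g : ℕ) := h1
    have b2 := labSub_repU _ _ _ h2
    have b3 : labSub_Band u3 (M - 2 * A : ℕ) (-((A / 2 : ℕ) : ℤ)) (M - 2 * A : ℕ) := h3
    have b23 := labSub_band_append (lo := -((r / 2 : ℕ) : ℤ)) (hi := ((M - r / 2 : ℕ) : ℤ)) b2 b3
      le_rfl (by omega) (by omega) (by omega)
    have b := labSub_band_append (lo := -((4 * g : ℕ) : ℤ)) (hi := ((M - 4 * g : ℕ) : ℤ)) b1 b23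
      le_rfl (by omega) (by omega) (by omega)
    have e : ((r / 2 - 4 * g : ℕ) : ℤ) + (((2 * A - r / 2 : ℕ) : ℤ) + ((M - 2 * A : ℕ) : ℤ)) =
        ((M - 4 * g : ℕ) : ℤ) := by omega
    rw [e] at b
    exact b
  have hDes : DesL (16 * g) (R ^ J) R (16 * g * R ^ (J - j)) ⊆
      Dn (16 * g * R ^ J) (16 * g * R ^ J) := by
    rintro v ⟨u1, h1, v', ⟨u2, h2, u3, h3, rfl⟩, rfl⟩
    generalize hrr : 16 * g * R ^ (J - j) = r at *
    generalize hAA : R * r = A at *
    generalize hMM : 16 * g * R ^ J = M at *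
    rw [h2R] at h1 h2 hr
    have b1 : labSub_Band u1 (-((M - 2 * A : ℕ) : ℤ)) (-((M - 2 * A : ℕ) : ℤ)) (M : ℤ) := h1
    have b2 := labSub_repD _ _ _ h2
    have b3 : labSub_Band u3 (-((r / 2 : ℕ) : ℤ)) (-((r / 2 : ℕ) : ℤ)) (M : ℤ) := h3
    have b23 := labSub_band_append (lo := -((2 * A : ℕ) : ℤ)) (hi := ((M : ℕ) : ℤ)) b2 b3
      (by omega) (by omega) (by omega) (by omega)
    have b := labSub_band_append (lo := -((M : ℕ) : ℤ)) (hi := ((M : ℕ) : ℤ)) b1 b23
      (by omega) (by omega) (by omega) (by omega)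
    have e : -((M - 2 * A : ℕ) : ℤ) + (-((2 * A - r / 2 : ℕ) : ℤ) + -((r / 2 : ℕ) : ℤ)) =
        -((M : ℕ) : ℤ) := by omega
    rw [e] at b
    exact b
  rintro w ⟨u, hu, v, ⟨a, ha, d, hd, rfl⟩, rfl⟩
  exact ⟨u, hu, a ++ d, ⟨a, hAsc ha, d, hDes hd, rfl⟩, rfl⟩

end MP3e01

end

section

/-!
# W: the number of monotone maps
-/

open Set MeasureTheory ProbabilityTheory
open scoped ENNReal NNReal

namespace MP3e01

/-- a monotone map becomes strictly monotone after adding the index -/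
def monoCard_F (N V : ℕ) (l : Fin N → Fin (V + 1)) (i : Fin N) : Fin (V + N) :=
  ⟨(l i : ℕ) + (i : ℕ), by
    have h1 := (l i).2
    have h2 := i.2
    omega⟩

theorem monoCard_strict (N V : ℕ) (l : Fin N → Fin (V + 1)) (hl : Monotone l) :
    StrictMono (monoCard_F N V l) := by
  intro i j hij
  have h1 : (l i : ℕ) ≤ (l j : ℕ) := hl hij.le
  have h2 : (i : ℕ) < (j : ℕ) := hij
  show (l i : ℕ) + (i : ℕ) < (l j : ℕ) + (j : ℕ)
  omega

theorem pr_monoCard : S_monoCard := by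
  intro N V
  have hcard : (Finset.univ.filter fun l : Fin N → Fin (V + 1) => Monotone l).card ≤
      (V + N).choose N := by
    rw [← Fintype.card_fin (V + N), ← Finset.card_univ, ← Finset.card_powersetCard]
    apply Finset.card_le_card_of_injOn (fun l => Finset.univ.image (monoCard_F N V l))
    · intro l hl
      have hl' : Monotone l := by simpa using hl
      rw [Finset.mem_coe, Finset.mem_powersetCard]
      refine ⟨Finset.subset_univ _, ?_⟩
      rw [Finset.card_image_of_injective _ (monoCard_strict N V l hl').injective,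
        Finset.card_univ, Fintype.card_fin]
    · intro l hl l' hl' h
      have hl1 : Monotone l := by simpa using hl
      have hl2 : Monotone l' := by simpa using hl'
      have h1 : Set.range (monoCard_F N V l) = Set.range (monoCard_F N V l') := by
        have := congrArg (fun s : Finset (Fin (V + N)) => (s : Set (Fin (V + N)))) h
        simpa using this
      have h2 := (StrictMono.range_inj (monoCard_strict N V l hl1)
        (monoCard_strict N V l' hl2)).1 h1
      funext i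
      have h3 := congrFun h2 i
      have h4 : (l i : ℕ) + (i : ℕ) = (l' i : ℕ) + (i : ℕ) := congrArg Fin.val h3
      exact Fin.ext (by omega)
  calc _ ≤ (V + N).choose N * N.factorial := Nat.mul_le_mul_right _ hcard
    _ = (V + N).descFactorial N := by
        rw [Nat.descFactorial_eq_factorial_mul_choose, mul_comm]
    _ ≤ (V + N) ^ N := Nat.descFactorial_le_pow _ _

end MP3e01

end

section

open Set MeasureTheory
open scoped ENNReal NNReal

namespace MP3e01

theorem pr_pages_ht_append (u v : List Bool) : ht (u ++ v) = ht u + ht v := by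
  simp [ht]

/-- cancellation of a common element of a prefix-free language -/
theorem pr_pages_cancel {A : Set (List Bool)} (hA : PrefixFree A) {u u' x y : List Bool}
    (hu : u ∈ A) (hu' : u' ∈ A) (h : u ++ x <+: u' ++ y) : u = u' ∧ x <+: y := by
  have h1 : u <+: u' ++ y := (List.prefix_append u x).trans h
  have h2 : u' <+: u' ++ y := List.prefix_append u' y
  have h3 : u = u' := by
    rcases List.prefix_or_prefix_of_prefix h1 h2 with h | h
    · exact hA u hu u' hu' h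
    · exact (hA u' hu' u hu h).symm
  subst h3
  exact ⟨rfl, (List.prefix_append_right_inj u).1 h⟩

theorem pr_pages_pfU (a b : ℕ) : PrefixFree (U a b) := by
  intro u hu v hv huv
  by_contra hne
  have := (hv.2 u huv hne).2
  rw [hu.1] at this
  exact lt_irrefl _ this

theorem pr_pages_pfDn (a b : ℕ) : PrefixFree (Dn a b) := by
  intro u hu v hv huv
  by_contra hne
  have := (hv.2 u huv hne).1
  rw [hu.1] at this
  exact lt_irrefl _ this

theorem pr_pages_pfUDn (a b : ℕ) : PrefixFree (Dn a b ∪ U a b) := by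
  intro u hu v hv huv
  by_contra hne
  have h2 : -(b : ℤ) < ht u ∧ ht u < (a : ℤ) := by
    rcases hv with hv | hv
    · exact hv.2 u huv hne
    · exact hv.2 u huv hne
  rcases hu with hu | hu
  · rw [hu.1] at h2; exact lt_irrefl _ h2.1
  · rw [hu.1] at h2; exact lt_irrefl _ h2.2

theorem pr_pages_pfConc {L₁ L₂ : Set (List Bool)} (h1 : PrefixFree L₁) (h2 : PrefixFree L₂) :
    PrefixFree (conc L₁ L₂) := by
  rintro _ ⟨u, hu, v, hv, rfl⟩ _ ⟨u', hu', v', hv', rfl⟩ h
  obtain ⟨rfl, h'⟩ := pr_pages_cancel h1 hu hu' h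
  rw [h2 v hv v' hv' h']

theorem pr_pages_parse (g : ℕ) {T : Set (List Bool)} (hT : PrefixFree T) :
    ∀ (k k' : ℕ) (D u r D' u' r' : List Bool), D ∈ rep k (Dn g 1) → u ∈ U g 1 → r ∈ T →
      D' ∈ rep k' (Dn g 1) → u' ∈ U g 1 → r' ∈ T → D ++ (u ++ r) <+: D' ++ (u' ++ r') →
      k = k' ∧ D ++ (u ++ r) = D' ++ (u' ++ r') := by
  have hdisj : ∀ d u : List Bool, d ∈ Dn g 1 → u ∈ U g 1 → d ≠ u := by
    intro d u hd hu h
    have h1 := hd.1
    have h2 := hu.1
    rw [h] at h1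
    rw [h1] at h2
    omega
  intro k
  induction k with
  | zero =>
    intro k' D u r D' u' r' hD hu hr hD' hu' hr' h
    have hD0 : D = [] := by simpa [rep] using hD
    subst hD0
    cases k' with
    | zero =>
      have hD0' : D' = [] := by simpa [rep] using hD'
      subst hD0'
      simp only [List.nil_append] at h ⊢
      obtain ⟨rfl, h'⟩ := pr_pages_cancel (pr_pages_pfU g 1) hu hu' h
      rw [hT r hr r' hr' h']
      exact ⟨trivial, rfl⟩
    | succ k' =>
      obtain ⟨d, hd, D'', hD'', rfl⟩ := hD'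
      rw [List.nil_append, List.append_assoc] at h
      obtain ⟨h1, -⟩ := pr_pages_cancel (pr_pages_pfUDn g 1) (Or.inr hu) (Or.inl hd) h
      exact absurd h1.symm (hdisj d u hd hu)
  | succ k ih =>
    intro k' D u r D' u' r' hD hu hr hD' hu' hr' h
    obtain ⟨d, hd, D1, hD1, rfl⟩ := hD
    cases k' with
    | zero =>
      have hD0' : D' = [] := by simpa [rep] using hD'
      subst hD0'
      rw [List.nil_append, List.append_assoc] at h
      obtain ⟨h1, -⟩ := pr_pages_cancel (pr_pages_pfUDn g 1) (Or.inl hd) (Or.inr hu') h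
      exact absurd h1 (hdisj d u' hd hu')
    | succ k' =>
      obtain ⟨d', hd', D1', hD1', rfl⟩ := hD'
      rw [List.append_assoc, List.append_assoc] at h
      obtain ⟨rfl, h2⟩ := pr_pages_cancel (pr_pages_pfDn g 1) hd hd' h
      obtain ⟨h3, h4⟩ := ih k' D1 u r D1' u' r' hD1 hu hr hD1' hu' hr' h2
      refine ⟨by rw [h3], ?_⟩
      rw [List.append_assoc, List.append_assoc, h4]

/-- total height `h` and all prefixes of height at least `m` -/
def pr_pages_LB (L : Set (List Bool)) (h m : ℤ) : Prop :=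
  ∀ w ∈ L, ht w = h ∧ ∀ v, v <+: w → m ≤ ht v

theorem pr_pages_LB_conc {L₁ L₂ : Set (List Bool)} {h1 m1 h2 m2 m : ℤ}
    (a : pr_pages_LB L₁ h1 m1) (b : pr_pages_LB L₂ h2 m2) (hm1 : m ≤ m1) (hm2 : m ≤ h1 + m2) :
    pr_pages_LB (conc L₁ L₂) (h1 + h2) m := by
  rintro _ ⟨u, hu, v, hv, rfl⟩
  obtain ⟨a1, a2⟩ := a u hu
  obtain ⟨b1, b2⟩ := b v hv
  refine ⟨by rw [pr_pages_ht_append, a1, b1], ?_⟩
  intro x hx
  rcases List.prefix_or_prefix_of_prefix hx (List.prefix_append u v) with h | h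
  · exact hm1.trans (a2 x h)
  · obtain ⟨y, rfl⟩ := h
    have hy : y <+: v := (List.prefix_append_right_inj u).1 hx
    have := b2 y hy
    rw [pr_pages_ht_append, a1]
    omega

theorem pr_pages_LB_U (a b : ℕ) : pr_pages_LB (U a b) a (min (a : ℤ) (-(b : ℤ) + 1)) := by
  intro w hw
  refine ⟨hw.1, fun v hv => ?_⟩
  by_cases h : v = w
  · rw [h, hw.1]; exact min_le_left _ _
  · have := (hw.2 v hv h).1
    refine (min_le_right _ _).trans ?_
    omega

theorem pr_pages_LB_Dn (a b : ℕ) : pr_pages_LB (Dn a b) (-(b : ℤ)) (-(b : ℤ)) := by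
  intro w hw
  refine ⟨hw.1, fun v hv => ?_⟩
  by_cases h : v = w
  · rw [h, hw.1]
  · exact (hw.2 v hv h).1.le

theorem pr_pages_LB_rep (a : ℕ) (k : ℕ) :
    pr_pages_LB (rep k (Dn a 1)) (-(k : ℤ)) (-(k : ℤ)) := by
  induction k with
  | zero =>
    intro w hw
    have : w = [] := by simpa [rep] using hw
    subst this
    refine ⟨by simp [ht], fun v hv => ?_⟩
    have : v = [] := List.prefix_nil.1 hv
    subst this
    simp [ht]
  | succ k ih =>
    have := pr_pages_LB_conc (m := -((k + 1 : ℕ) : ℤ)) (pr_pages_LB_Dn a 1) ih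
      (by push_cast; omega) (by push_cast; omega)
    have h2 : -((1 : ℕ) : ℤ) + -(k : ℤ) = -((k + 1 : ℕ) : ℤ) := by push_cast; ring
    rw [h2] at this
    exact this

theorem pr_pages_LB_false : pr_pages_LB ({[false]} : Set (List Bool)) (-1) (-1) := by
  intro w hw
  have : w = [false] := by simpa using hw
  subst this
  refine ⟨by simp [ht, stp], fun v hv => ?_⟩
  rcases List.prefix_concat_iff (l₂ := ([] : List Bool)) (a := false) |>.1 (by simpa using hv) with
    h | h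
  · rw [h]; simp [ht, stp]
  · have : v = [] := List.prefix_nil.1 h
    rw [this]; simp [ht]

theorem pr_pages_LB_page (G N k : ℕ) (hG : 16 ≤ G) (hN : 1 ≤ N) :
    pr_pages_LB (Page G N k) (-((k : ℤ) + 1)) (-((k : ℤ) + 1)) := by
  have hGN : G ≤ G * N := Nat.le_mul_of_pos_right G hN
  have hg : G / 4 ≤ G * N := (Nat.div_le_self G 4).trans hGN
  have hc : ((G * N - G / 4 : ℕ) : ℤ) = ((G * N : ℕ) : ℤ) - ((G / 4 : ℕ) : ℤ) := by
    rw [Nat.cast_sub hg]
  have e1 := pr_pages_LB_U (G / 4) 1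
  have e2 := pr_pages_LB_U (G * N - G / 4) (G / 4)
  have e3 := pr_pages_LB_Dn (G * N) (G * N)
  have e4 := pr_pages_LB_rep (G / 4) k
  set g : ℕ := G / 4 with hgdef
  set M : ℕ := G * N with hM
  have hg4 : 4 ≤ g := by omega
  have hMg : 4 ≤ M - g := by omega
  have f1 : pr_pages_LB (conc (rep k (Dn g 1)) (U g 1)) (-(k : ℤ) + g) (-(k : ℤ)) :=
    pr_pages_LB_conc e4 e1 le_rfl (by push_cast; omega)
  have f2 : pr_pages_LB (conc {[false]} (conc (rep k (Dn g 1)) (U g 1))) (-1 + (-(k : ℤ) + g))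
      (-1 + -(k : ℤ)) :=
    pr_pages_LB_conc pr_pages_LB_false f1 (by omega) (by omega)
  have f3 : pr_pages_LB (conc (U (M - g) g) (Dn M M)) (((M - g : ℕ) : ℤ) + -(M : ℤ))
      (-(g : ℤ)) :=
    pr_pages_LB_conc e2 e3 (by omega) (by omega)
  have f4 := pr_pages_LB_conc (m := -((k : ℤ) + 1)) f2 f3 (by omega) (by omega)
  have h5 : -1 + (-(k : ℤ) + g) + (((M - g : ℕ) : ℤ) + -(M : ℤ)) = -((k : ℤ) + 1) := by
    rw [hc]; ring
  rw [h5] at f4
  exact f4

theorem pr_pages : S_pages := by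
  intro R J G hR hG0 hG16
  have hG : 16 ≤ G := Nat.le_of_dvd hG0 hG16
  have hN : 1 ≤ R ^ J := Nat.one_le_pow _ _ (by omega)
  have hT : PrefixFree (conc (U (G * R ^ J - G / 4) (G / 4)) (Dn (G * R ^ J) (G * R ^ J))) :=
    pr_pages_pfConc (pr_pages_pfU _ _) (pr_pages_pfDn _ _)
  have key : ∀ (k k' : ℕ) (w w' : List Bool), w ∈ Page G (R ^ J) k → w' ∈ Page G (R ^ J) k' →
      w <+: w' → k = k' ∧ w = w' := by
    rintro k k' w w' ⟨_, ⟨a, ha, _, ⟨D, hD, u, hu, rfl⟩, rfl⟩, r, hr, rfl⟩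
      ⟨_, ⟨a', ha', _, ⟨D', hD', u', hu', rfl⟩, rfl⟩, r', hr', rfl⟩ h
    have haf : a = [false] := by simpa using ha
    have haf' : a' = [false] := by simpa using ha'
    subst haf; subst haf'
    have h' : D ++ (u ++ r) <+: D' ++ (u' ++ r') := by
      have : [false] ++ (D ++ (u ++ r)) <+: [false] ++ (D' ++ (u' ++ r')) := by
        simpa [List.append_assoc] using h
      exact (List.prefix_append_right_inj [false]).1 this
    obtain ⟨h1, h2⟩ := pr_pages_parse (G / 4) hT k k' D u r D' u' r' hD hu hr hD' hu' hr' h'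
    refine ⟨h1, ?_⟩
    have : [false] ++ (D ++ (u ++ r)) = [false] ++ (D' ++ (u' ++ r')) := by rw [h2]
    simpa [List.append_assoc] using this
  refine ⟨?_, ?_, ?_⟩
  · rintro w ⟨k, hk, hw⟩ w' ⟨k', hk', hw'⟩ h
    exact (key k k' w w' hw hw' h).2
  · intro k k' w hw hw'
    exact (key k k' w w hw hw' (List.prefix_refl w)).1
  · intro k w hw
    exact pr_pages_LB_page G (R ^ J) k hG hN w hw

end MP3e01

end

section

/-!
# MP_3e01db_pr, W5: prefix-free languages
-/

set_option autoImplicit false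

namespace MP3e01

theorem pf_U (a b : ℕ) : PrefixFree (U a b) := by
  intro u hu v hv huv
  by_contra hne
  have h := (hv.2 u huv hne).2
  rw [hu.1] at h
  exact lt_irrefl _ h

theorem pf_Dn (a b : ℕ) : PrefixFree (Dn a b) := by
  intro u hu v hv huv
  by_contra hne
  have h := (hv.2 u huv hne).1
  rw [hu.1] at h
  exact lt_irrefl _ h

theorem pf_FP (k : ℕ) : PrefixFree (FP k) := by
  intro u hu v hv huv
  by_contra hne
  have h := hv.2 u huv hne
  rw [hu.1] at h
  exact lt_irrefl _ h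

theorem pf_conc (L₁ L₂ : Set (List Bool)) (h₁ : PrefixFree L₁) (h₂ : PrefixFree L₂) :
    PrefixFree (conc L₁ L₂) := by
  rintro w ⟨u1, hu1, v1, hv1, rfl⟩ w' ⟨u2, hu2, v2, hv2, rfl⟩ hp
  have h1 : u1 <+: u2 ++ v2 := (List.prefix_append u1 v1).trans hp
  have h2 : u2 <+: u2 ++ v2 := List.prefix_append u2 v2
  have h3 : u1 = u2 := by
    rcases List.prefix_or_prefix_of_prefix h1 h2 with h | h
    · exact h₁ u1 hu1 u2 hu2 h
    · exact (h₁ u2 hu2 u1 hu1 h).symm
  subst h3
  have h4 : v1 <+: v2 := (List.prefix_append_right_inj u1).1 hp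
  rw [h₂ v1 hv1 v2 hv2 h4]

theorem pf_rep (k : ℕ) (L : Set (List Bool)) (h : PrefixFree L) : PrefixFree (rep k L) := by
  induction k with
  | zero =>
    intro u hu v hv _
    rw [show rep 0 L = {[]} from rfl, Set.mem_singleton_iff] at hu hv
    rw [hu, hv]
  | succ k ih => exact pf_conc L (rep k L) h ih

theorem pr_pf : S_pf := ⟨pf_U, pf_Dn, pf_FP, pf_conc, pf_rep⟩

end MP3e01

end

section

open Set MeasureTheory ProbabilityTheory
open scoped ENNReal NNReal

namespace MP3e01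

theorem rep_wt_nil : wt {([] : List Bool)} = 1 := by
  unfold wt
  rw [tsum_eq_single (⟨[], rfl⟩ : ({([] : List Bool)} : Set (List Bool)))]
  · simp
  · intro b hb
    exact absurd (Subsingleton.elim b _) hb

theorem pr_rep (h1 : S_concLe) (h2 : S_concEq) (_h3 : S_pf) : S_rep := by
  refine ⟨fun k L => ?_, fun k L hL => ?_⟩
  · induction k with
    | zero => rw [rep, rep_wt_nil, pow_zero]
    | succ k ih =>
      rw [rep, pow_succ']
      exact (h1 _ _).trans (mul_le_mul_right ih _)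
  · induction k with
    | zero => rw [rep, rep_wt_nil, pow_zero]
    | succ k ih => rw [rep, pow_succ', h2 _ _ hL, ih]

end MP3e01

end

section

/-!
# third: an elementary inequality
-/

open Set MeasureTheory ProbabilityTheory
open scoped ENNReal NNReal

namespace MP3e01

namespace Third

theorem real_ineq (h : ℕ) (hh : 0 < h) : (1 / 3 : ℝ) ≤ ((h : ℝ) / ((h : ℝ) + 1)) ^ h := by
  have hpos : (0 : ℝ) < h := by exact_mod_cast hh
  have h1 : (1 + 1 / (h : ℝ)) ^ h ≤ 3 := by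
    have h2 : 1 + 1 / (h : ℝ) ≤ Real.exp (1 / (h : ℝ)) := by
      have := Real.add_one_le_exp (1 / (h : ℝ))
      linarith
    have h3 : (1 + 1 / (h : ℝ)) ^ h ≤ Real.exp (1 / (h : ℝ)) ^ h :=
      pow_le_pow_left₀ (by positivity) h2 h
    have h4 : Real.exp (1 / (h : ℝ)) ^ h = Real.exp 1 := by
      rw [← Real.exp_nat_mul]
      congr 1
      field_simp
    rw [h4] at h3
    exact h3.trans (by have := Real.exp_one_lt_d9; linarith)
  have h5 : (h : ℝ) / ((h : ℝ) + 1) = (1 + 1 / (h : ℝ))⁻¹ := by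
    field_simp
  rw [h5, inv_pow, one_div]
  exact inv_anti₀ (by positivity) h1

theorem cast_eq (h : ℕ) : (h : ℝ≥0∞) / ((h + 1 : ℕ) : ℝ≥0∞)
    = ENNReal.ofReal ((h : ℝ) / ((h : ℝ) + 1)) := by
  rw [ENNReal.ofReal_div_of_pos (by positivity), ENNReal.ofReal_natCast]
  congr 1
  rw [← ENNReal.ofReal_natCast]
  push_cast
  rfl

theorem third_eq : (1 / 3 : ℝ≥0∞) = ENNReal.ofReal (1 / 3) := by
  rw [ENNReal.ofReal_div_of_pos (by norm_num)]
  norm_num

end Third

theorem pr_third : S_third := by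
  intro h L hh
  rw [mul_comm, pow_mul]
  refine pow_le_pow_left' ?_ L
  rw [Third.cast_eq, Third.third_eq, ← ENNReal.ofReal_pow (by positivity)]
  exact ENNReal.ofReal_le_ofReal (Third.real_ineq h hh)

end MP3e01

end

section

/-!
# wtAsc: weight of the ascent with a strong label
-/

open Set MeasureTheory ProbabilityTheory
open scoped ENNReal NNReal

namespace MP3e01

namespace WtAsc

theorem quot (a b : ℕ) (hb : 0 < b) :
    (a : ℝ≥0∞) / (b : ℝ≥0∞) = ENNReal.ofReal ((a : ℝ) / (b : ℝ)) := by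
  rw [ENNReal.ofReal_div_of_pos (by exact_mod_cast hb), ENNReal.ofReal_natCast,
    ENNReal.ofReal_natCast]

/-- the arithmetic of the parameters -/
theorem params (R J G j : ℕ) (hR : 2 ≤ R) (hG : 0 < G) (h16 : 16 ∣ G) (hj : 2 ≤ j) (hjJ : j ≤ J) :
    ∃ q h : ℕ, 0 < q ∧ q ≤ h ∧ G = 4 * q ∧ G / 4 = q ∧ G * R ^ (J - j) = 2 * h ∧
      G * R ^ (J - j) / 2 = h ∧ 2 * R * (G * R ^ (J - j)) = 4 * R * h ∧
      R * (G * R ^ (J - j)) / 2 = R * h ∧ 4 * R * h ≤ 4 * q * R ^ J ∧
      2 * R * (G * R ^ (J - j)) - G * R ^ (J - j) / 2 = (4 * R - 1) * h := by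
  obtain ⟨g, rfl⟩ := h16
  have hg : 0 < g := by omega
  have hP : 0 < R ^ (J - j) := Nat.pow_pos (by omega)
  refine ⟨4 * g, 8 * g * R ^ (J - j), by omega, ?_, by ring, by omega, by ring, ?_, by ring, ?_,
    ?_, ?_⟩
  · nlinarith
  · have : 16 * g * R ^ (J - j) = 2 * (8 * g * R ^ (J - j)) := by ring
    omega
  · have : R * (16 * g * R ^ (J - j)) = 2 * (R * (8 * g * R ^ (J - j))) := by ring
    omega
  · have h1 : R ^ J = R ^ (J - j) * R ^ j := by rw [← pow_add]; congr 1; omega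
    have h2 : R ^ 2 ≤ R ^ j := Nat.pow_le_pow_right (by omega) hj
    have h3 : 2 * R ≤ R ^ j := by nlinarith
    calc 4 * R * (8 * g * R ^ (J - j)) = (16 * g * R ^ (J - j)) * (2 * R) := by ring
      _ ≤ (16 * g * R ^ (J - j)) * R ^ j := Nat.mul_le_mul_left _ h3
      _ = 4 * (4 * g) * R ^ J := by rw [h1]; ring
  · have h1 : 16 * g * R ^ (J - j) = 2 * (8 * g * R ^ (J - j)) := by ring
    have h2 : 16 * g * R ^ (J - j) / 2 = 8 * g * R ^ (J - j) := by omega
    rw [h2, Nat.sub_mul, one_mul]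
    congr 1
    ring

end WtAsc

theorem pr_wtAsc (h1 : S_concEq) (h2 : S_pf) (h3 : S_rep) (h4 : S_wtU) (h5 : S_third) :
    S_wtAsc := by
  intro R J G j hR hG h16 hj hjJ
  obtain ⟨q, h, hq, hqh, e1, e2, e3, e4, e5, e6, e7, e8⟩ :=
    WtAsc.params R J G j hR hG h16 hj hjJ
  have hN : 0 < R ^ J := Nat.pow_pos (by omega)
  have hM : G * R ^ J = 4 * q * R ^ J := by rw [e1]
  have hlang : AscL G (R ^ J) R (G * R ^ (J - j)) = conc (U (h - q) q)
      (conc (rep ((4 * R - 1) * h) (U 1 h)) (U (4 * q * R ^ J - 4 * R * h) (R * h))) := by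
    unfold AscL
    rw [e8, e4, e2, e5, e6, hM]
  have hA : wt (U (h - q) q) = ENNReal.ofReal ((q : ℝ) / h) := by
    rw [h4 _ _ (by omega), Nat.sub_add_cancel hqh, WtAsc.quot _ _ (by omega)]
  have hRh : 0 < R * h := Nat.mul_pos (by omega) (by omega)
  have hC : ENNReal.ofReal (((R * h : ℕ) : ℝ) / ((4 * q * R ^ J : ℕ) : ℝ)) ≤
      wt (U (4 * q * R ^ J - 4 * R * h) (R * h)) := by
    rw [h4 _ _ (by omega), WtAsc.quot _ _ (by omega)]
    refine ENNReal.ofReal_le_ofReal ?_
    have hle : 4 * q * R ^ J - 4 * R * h + R * h ≤ 4 * q * R ^ J := by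
      have : R * h ≤ 4 * R * h := by nlinarith
      omega
    have hpos : (0 : ℝ) < ((4 * q * R ^ J - 4 * R * h + R * h : ℕ) : ℝ) := by
      exact_mod_cast (by omega : 0 < 4 * q * R ^ J - 4 * R * h + R * h)
    exact div_le_div_of_nonneg_left (by positivity) hpos (by exact_mod_cast hle)
  have hB : (1 / 3 : ℝ≥0∞) ^ (4 * R - 1) ≤ wt (rep ((4 * R - 1) * h) (U 1 h)) := by
    rw [h3.2 _ _ (h2.1 1 h), h4 _ _ (by omega), add_comm 1 h]
    exact h5 h (4 * R - 1) (by omega)
  rw [hlang, h1 _ _ (h2.1 _ _), h1 _ _ (h2.2.2.2.2 _ _ (h2.1 _ _))]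
  have key : (1 / 3 : ℝ≥0∞) ^ (4 * R) / (4 * (R ^ J : ℕ)) ≤
      ENNReal.ofReal ((q : ℝ) / h) * ((1 / 3 : ℝ≥0∞) ^ (4 * R - 1) *
        ENNReal.ofReal (((R * h : ℕ) : ℝ) / ((4 * q * R ^ J : ℕ) : ℝ))) := by
    have t3 : (1 / 3 : ℝ≥0∞) = ENNReal.ofReal (1 / 3) := by
      rw [ENNReal.ofReal_div_of_pos (by norm_num)]
      norm_num
    have t4 : (4 * (R ^ J : ℕ) : ℝ≥0∞) = ENNReal.ofReal (4 * (R ^ J : ℕ)) := by
      rw [ENNReal.ofReal_mul (by norm_num), ENNReal.ofReal_natCast]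
      norm_num
    rw [t3, t4, ← ENNReal.ofReal_pow (by positivity), ← ENNReal.ofReal_pow (by positivity),
      ← ENNReal.ofReal_div_of_pos (by positivity), ← ENNReal.ofReal_mul (by positivity),
      ← ENNReal.ofReal_mul (by positivity)]
    refine ENNReal.ofReal_le_ofReal ?_
    have hq' : (0 : ℝ) < q := by exact_mod_cast hq
    have hh' : (0 : ℝ) < h := by exact_mod_cast (by omega : 0 < h)
    have hN' : (0 : ℝ) < (R : ℝ) ^ J := by exact_mod_cast hN
    have hR' : (2 : ℝ) ≤ R := by exact_mod_cast hR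
    have hpow : (1 / 3 : ℝ) ^ (4 * R) = (1 / 3) ^ (4 * R - 1) * (1 / 3) := by
      rw [← pow_succ]
      congr 1
      omega
    have hc : (0 : ℝ) < (1 / 3 : ℝ) ^ (4 * R - 1) := by positivity
    have hrhs : (q : ℝ) / h * ((1 / 3) ^ (4 * R - 1) *
        (((R * h : ℕ) : ℝ) / ((4 * q * R ^ J : ℕ) : ℝ))) =
        (1 / 3) ^ (4 * R - 1) * R / (4 * (R : ℝ) ^ J) := by
      push_cast
      field_simp
    rw [hrhs, hpow]
    push_cast
    rw [div_le_div_iff_of_pos_right (by positivity)]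
    nlinarith
  refine key.trans ?_
  rw [hA]
  gcongr

end MP3e01

end

section

/-!
# Item wtDes
-/

open Set MeasureTheory ProbabilityTheory
open scoped ENNReal NNReal

namespace MP3e01

theorem wtDes_half (a b : ℕ) (hab : 0 < a + b) (hb : b ≤ a) :
    (1 / 2 : ℝ≥0∞) ≤ (a : ℝ≥0∞) / ((a + b : ℕ) : ℝ≥0∞) := by
  have h0 : ((a + b : ℕ) : ℝ≥0∞) ≠ 0 := by
    exact_mod_cast Nat.pos_iff_ne_zero.mp hab
  have h1 : ((a + b : ℕ) : ℝ≥0∞) ≠ ⊤ := ENNReal.natCast_ne_top _
  rw [ENNReal.le_div_iff_mul_le (Or.inl h0) (Or.inl h1)]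
  have h2 : ((a + b : ℕ) : ℝ≥0∞) ≤ 2 * (a : ℝ≥0∞) := by
    have : a + b ≤ 2 * a := by omega
    exact_mod_cast this
  calc (1 / 2 : ℝ≥0∞) * ((a + b : ℕ) : ℝ≥0∞) ≤ 1 / 2 * (2 * (a : ℝ≥0∞)) :=
        mul_le_mul_right h2 _
    _ = (a : ℝ≥0∞) := by
        rw [← mul_assoc, one_div, ENNReal.inv_mul_cancel (by norm_num) (by norm_num), one_mul]

theorem pr_wtDes (h1 : S_concEq) (h2 : S_pf) (h3 : S_rep) (h4 : S_wtDn) (h5 : S_third) :
    S_wtDes := by
  intro R J G j hR hG h16 hj hjJ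
  obtain ⟨-, hpfD, -, -, hpfR⟩ := h2
  have hdef : DesL G (R ^ J) R (G * R ^ (J - j)) =
      conc (Dn (G * R ^ J) (G * R ^ J - 2 * R * (G * R ^ (J - j))))
        (conc (rep (2 * R * (G * R ^ (J - j)) - G * R ^ (J - j) / 2)
          (Dn (G * R ^ (J - j) / 2) 1)) (Dn (G * R ^ J) (G * R ^ (J - j) / 2))) := rfl
  obtain ⟨g, rfl⟩ := h16
  have hg : 0 < g := by omega
  have hrpos : 0 < R ^ (J - j) := pow_pos (by omega) _
  have hNpos : 0 < R ^ J := pow_pos (by omega) _
  obtain ⟨h, hh⟩ : ∃ h, h = 8 * g * R ^ (J - j) := ⟨_, rfl⟩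
  have hhpos : 0 < h := by rw [hh]; positivity
  have hr : 16 * g * R ^ (J - j) = 2 * h := by rw [hh]; ring
  have hr2 : 16 * g * R ^ (J - j) / 2 = h := by omega
  have hle : 2 * R * R ^ (J - j) ≤ R ^ J := by
    calc 2 * R * R ^ (J - j) ≤ R * R * R ^ (J - j) := by gcongr
      _ = R ^ (J - j + 2) := by ring
      _ ≤ R ^ J := Nat.pow_le_pow_right (by omega) (by omega)
  have hle2 : 2 * R * (16 * g * R ^ (J - j)) ≤ 16 * g * R ^ J := by
    calc 2 * R * (16 * g * R ^ (J - j)) = 16 * g * (2 * R * R ^ (J - j)) := by ring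
      _ ≤ 16 * g * R ^ J := by gcongr
  have hh2 : h ≤ 16 * g * R ^ J := by
    have : 16 * g * R ^ (J - j) ≤ 2 * R * (16 * g * R ^ (J - j)) := by nlinarith
    omega
  have hexp : 2 * R * (16 * g * R ^ (J - j)) - h = (4 * R - 1) * h := by
    rw [hr, Nat.sub_mul]
    have : 2 * R * (2 * h) = 4 * R * h := by ring
    rw [this, one_mul]
  rw [hdef, h1 _ _ (hpfD _ _), h1 _ _ (hpfR _ _ (hpfD _ _)), hr2, hexp, (h3.2 _ _ (hpfD _ _)),
    h4 _ _ (by positivity), h4 _ _ (by positivity), h4 _ _ (by positivity)]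
  have e1 := wtDes_half (16 * g * R ^ J) (16 * g * R ^ J - 2 * R * (16 * g * R ^ (J - j)))
    (by positivity) (by omega)
  have e2 := wtDes_half (16 * g * R ^ J) h (by positivity) hh2
  have e3 := h5 h (4 * R - 1) hhpos
  have e4 : (1 / 3 : ℝ≥0∞) ^ (4 * R) ≤ (1 / 3 : ℝ≥0∞) ^ (4 * R - 1) := by
    apply pow_le_pow_of_le_one (by positivity) _ (by omega)
    rw [one_div]
    exact ENNReal.inv_le_one.mpr (by norm_num)
  calc (1 / 3 : ℝ≥0∞) ^ (4 * R) / 4 = 1 / 2 * ((1 / 3 : ℝ≥0∞) ^ (4 * R) * (1 / 2)) := by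
        rw [ENNReal.div_eq_inv_mul, one_div 2]
        have : (4 : ℝ≥0∞)⁻¹ = 2⁻¹ * 2⁻¹ := by
          rw [← ENNReal.mul_inv (Or.inl (by norm_num)) (Or.inl (by norm_num))]
          norm_num
        rw [this]
        ring
    _ ≤ _ := mul_le_mul' e1 (mul_le_mul' (e4.trans e3) e2)

end MP3e01

end

section

open Set MeasureTheory ProbabilityTheory
open scoped ENNReal NNReal

namespace MP3e01

theorem wtDn_ht_not (v : List Bool) : ht (v.map not) = - ht v := by
  induction v with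
  | nil => simp [ht]
  | cons b v ih =>
    have h1 : ht ((b :: v).map not) = stp (!b) + ht (v.map not) := by simp [ht]
    have h2 : ht (b :: v) = stp b + ht v := by simp [ht]
    rw [h1, h2, ih]
    cases b <;> simp [stp] <;> ring

theorem wtDn_not_not (v : List Bool) : (v.map not).map not = v := by
  rw [List.map_map]
  have : (not ∘ not) = id := by funext b; simp
  rw [this, List.map_id]

def wtDn_e : List Bool ≃ List Bool where
  toFun v := v.map not
  invFun v := v.map not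
  left_inv := wtDn_not_not
  right_inv := wtDn_not_not

theorem wtDn_mem (a b : ℕ) (v : List Bool) (hv : v ∈ Dn a b) : v.map not ∈ U b a := by
  obtain ⟨h1, h2⟩ := hv
  refine ⟨by rw [wtDn_ht_not, h1]; ring, fun w hw hne => ?_⟩
  have hw' : w.map not <+: v := by
    have := List.IsPrefix.map not hw
    rwa [wtDn_not_not] at this
  have hne' : w.map not ≠ v := by
    intro h
    apply hne
    rw [← h, wtDn_not_not]
  have := h2 _ hw' hne'
  rw [wtDn_ht_not] at this
  constructor <;> linarith [this.1, this.2]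

theorem wtDn_mem' (a b : ℕ) (v : List Bool) (hv : v.map not ∈ U b a) : v ∈ Dn a b := by
  obtain ⟨h1, h2⟩ := hv
  rw [wtDn_ht_not] at h1
  refine ⟨by linarith, fun w hw hne => ?_⟩
  have hw' : w.map not <+: v.map not := List.IsPrefix.map not hw
  have hne' : w.map not ≠ v.map not := by
    intro h
    apply hne
    rw [← wtDn_not_not w, h, wtDn_not_not]
  have := h2 _ hw' hne'
  rw [wtDn_ht_not] at this
  constructor <;> linarith [this.1, this.2]

theorem wtDn_eq (a b : ℕ) : wt (Dn a b) = wt (U b a) := by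
  unfold wt
  rw [← Equiv.tsum_eq (wtDn_e.subtypeEquiv (p := fun v => v ∈ Dn a b) (q := fun v => v ∈ U b a)
    (fun v => ⟨wtDn_mem a b v, wtDn_mem' a b v⟩))]
  apply tsum_congr
  intro v
  simp [wtDn_e, Equiv.subtypeEquiv]

theorem pr_wtDn (h1 : S_wtU) : S_wtDn := by
  intro a b hab
  rw [wtDn_eq, h1 b a (by omega), Nat.add_comm]

end MP3e01

end

section

namespace MP3e01

theorem pr_wtFP (h1 : S_kraft) (h2 : S_pf) : S_wtFP :=
  fun k => h1 (FP k) (h2.2.2.1 k)

end MP3e01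

end

section

/-!
# W: the weight of the page words
-/

open Set MeasureTheory ProbabilityTheory
open scoped ENNReal NNReal

namespace MP3e01

theorem wtPages_union (n : ℕ) (A : ℕ → Set (List Bool)) :
    wt {w | ∃ k < n, w ∈ A k} ≤ ∑ k ∈ Finset.range n, wt (A k) := by
  have h : {w | ∃ k < n, w ∈ A k} = ⋃ k ∈ Finset.range n, A k := by
    ext w
    simp
  rw [h]
  exact ENNReal.tsum_biUnion_le (fun v : List Bool => (2⁻¹ : ℝ≥0∞) ^ v.length)
    (Finset.range n) A

theorem wtPages_single : PrefixFree {[false]} := by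
  intro u hu v hv _
  rw [Set.mem_singleton_iff] at hu hv
  rw [hu, hv]

theorem pr_wtPages (h1 : S_concEq) (h2 : S_pf) (h4 : S_wtU) (h5 : S_wtDn) (h6 : S_wtStart) :
    S_wtPages := by
  intro R J G hR hG h16
  obtain ⟨pU, pDn, pFP, pconc, prep⟩ := h2
  set N := R ^ J with hN
  have hNpos : 0 < N := Nat.pow_pos (by omega)
  have hGN : G ≤ G * N := Nat.le_mul_of_pos_right G hNpos
  have hstart : ∀ k, PrefixFree (Start G k) := fun k =>
    pconc _ _ wtPages_single (pconc _ _ (prep _ _ (pDn _ _)) (pU _ _))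
  have hN0 : ((N : ℕ) : ℝ≥0∞) ≠ 0 := by
    exact_mod_cast hNpos.ne'
  have hG0 : ((G : ℕ) : ℝ≥0∞) ≠ 0 := by
    exact_mod_cast hG.ne'
  have hX : wt (conc (U (G * N - G / 4) (G / 4)) (Dn (G * N) (G * N))) ≤
      1 / ((N : ℕ) : ℝ≥0∞) := by
    rw [h1 _ _ (pU _ _), h4 _ _ (by omega), h5 _ _ (by omega)]
    have e1 : G * N - G / 4 + G / 4 = G * N := by omega
    rw [e1]
    have b1 : (((G / 4 : ℕ)) : ℝ≥0∞) / ((G * N : ℕ) : ℝ≥0∞) ≤ 1 / ((N : ℕ) : ℝ≥0∞) := by
      rw [Nat.cast_mul]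
      calc (((G / 4 : ℕ)) : ℝ≥0∞) / ((G : ℝ≥0∞) * (N : ℝ≥0∞))
          ≤ ((G : ℕ) : ℝ≥0∞) / ((G : ℝ≥0∞) * (N : ℝ≥0∞)) := by
            apply ENNReal.div_le_div_right
            exact_mod_cast Nat.div_le_self G 4
        _ = 1 / ((N : ℕ) : ℝ≥0∞) := by
            have := ENNReal.mul_div_mul_left (1 : ℝ≥0∞) (N : ℝ≥0∞) hG0
              (ENNReal.natCast_ne_top G)
            rw [mul_one] at this
            exact this
    have b2 : (((G * N : ℕ)) : ℝ≥0∞) / ((G * N + G * N : ℕ) : ℝ≥0∞) ≤ 1 := by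
      apply ENNReal.div_le_of_le_mul
      rw [one_mul]
      exact_mod_cast Nat.le_add_right _ _
    calc _ ≤ (1 / ((N : ℕ) : ℝ≥0∞)) * 1 := mul_le_mul' b1 b2
      _ = _ := mul_one _
  calc wt (Pages R J G) ≤ ∑ k ∈ Finset.range (G - 1), wt (Page G N k) :=
        wtPages_union (G - 1) (fun k => Page G N k)
    _ = ∑ k ∈ Finset.range (G - 1), wt (Start G k) *
          wt (conc (U (G * N - G / 4) (G / 4)) (Dn (G * N) (G * N))) := by
        apply Finset.sum_congr rfl
        intro k _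
        unfold Page
        exact h1 _ _ (hstart k)
    _ = (∑ k ∈ Finset.range (G - 1), wt (Start G k)) *
          wt (conc (U (G * N - G / 4) (G / 4)) (Dn (G * N) (G * N))) := by
        rw [Finset.sum_mul]
    _ ≤ 1 * (1 / ((N : ℕ) : ℝ≥0∞)) := by
        refine mul_le_mul' ((h6 G hG h16).2.trans ?_) hX
        rw [one_div]
        exact ENNReal.inv_le_one.2 (by norm_num)
    _ = 1 / ((N : ℕ) : ℝ≥0∞) := one_mul _

end MP3e01

end

section

/-!
# MP_3e01db_pr, block W, item `wtStart`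
-/

open Set MeasureTheory ProbabilityTheory
open scoped ENNReal NNReal

namespace MP3e01

theorem wtStart_aux_wt : wt {[false]} = 1 / 2 := by
  unfold wt
  rw [tsum_eq_single (⟨[false], rfl⟩ : ({[false]} : Set (List Bool)))]
  · simp
  · rintro ⟨v, hv⟩ hne
    exact absurd (Subtype.ext (Set.mem_singleton_iff.1 hv)) hne

theorem wtStart_aux_pf : PrefixFree {[false]} := by
  intro u hu v hv _
  rw [Set.mem_singleton_iff] at hu hv
  rw [hu, hv]

/-- the real inequality behind `wtStart` -/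
theorem wtStart_aux_real (g : ℕ) (hg : 4 ≤ g) :
    (1 / 4 : ℝ) ≤ ∑ k ∈ Finset.range (4 * g - 1),
      1 / 2 * (((g : ℝ) / ((g : ℝ) + 1)) ^ k * (1 / ((g : ℝ) + 1))) ∧
    ∑ k ∈ Finset.range (4 * g - 1),
      1 / 2 * (((g : ℝ) / ((g : ℝ) + 1)) ^ k * (1 / ((g : ℝ) + 1))) ≤ 1 / 2 := by
  have hg0 : (0 : ℝ) < (g : ℝ) := by
    have : (4 : ℝ) ≤ (g : ℝ) := by exact_mod_cast hg
    linarith
  have hg1 : (0 : ℝ) < (g : ℝ) + 1 := by linarith
  set q : ℝ := (g : ℝ) / ((g : ℝ) + 1) with hq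
  have hq1 : 1 / ((g : ℝ) + 1) = 1 - q := by
    rw [hq]; field_simp; ring
  have hsum : ∑ k ∈ Finset.range (4 * g - 1),
      1 / 2 * (q ^ k * (1 / ((g : ℝ) + 1))) = 1 / 2 * (1 - q ^ (4 * g - 1)) := by
    rw [hq1, ← Finset.mul_sum, ← Finset.sum_mul]
    have := geom_sum_mul_neg q (4 * g - 1)
    rw [this]
  rw [hsum]
  have hqpos : 0 < q := by positivity
  have hqn : 0 ≤ q ^ (4 * g - 1) := by positivity
  constructor
  · -- `q ^ (4g-1) ≤ 1/2`
    have hb : (2 : ℝ) ≤ (1 + 1 / (g : ℝ)) ^ (4 * g - 1) := by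
      have h := one_add_mul_le_pow (a := 1 / (g : ℝ))
        (by have : 0 < 1 / (g : ℝ) := by positivity
            linarith) (4 * g - 1)
      have hc : ((4 * g - 1 : ℕ) : ℝ) = 4 * (g : ℝ) - 1 := by
        rw [Nat.cast_sub (by omega)]; push_cast; ring
      rw [hc] at h
      have h2 : (1 : ℝ) ≤ (4 * (g : ℝ) - 1) * (1 / (g : ℝ)) := by
        rw [mul_one_div, le_div_iff₀ hg0]
        have : (4 : ℝ) ≤ (g : ℝ) := by exact_mod_cast hg
        linarith
      linarith
    have hinv : q = (1 + 1 / (g : ℝ))⁻¹ := by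
      rw [hq]; field_simp
    have hq2 : q ^ (4 * g - 1) ≤ 1 / 2 := by
      have := inv_anti₀ (by norm_num) hb
      rw [hinv, inv_pow]
      linarith
    linarith
  · linarith

theorem pr_wtStart (h1 : S_concEq) (h2 : S_pf) (h3 : S_rep) (h4 : S_wtU) (h5 : S_wtDn) :
    S_wtStart := by
  intro G hG hdvd
  obtain ⟨m, rfl⟩ := hdvd
  have hm : 0 < m := by omega
  set g : ℕ := 4 * m with hgdef
  have hg4 : 16 * m / 4 = g := by omega
  have hG4 : 16 * m - 1 = 4 * g - 1 := by omega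
  have hg : 4 ≤ g := by omega
  have hDn : wt (Dn g 1) = (g : ℝ≥0∞) / ((g + 1 : ℕ) : ℝ≥0∞) := h5 g 1 (by omega)
  have hU : wt (U g 1) = ((1 : ℕ) : ℝ≥0∞) / ((g + 1 : ℕ) : ℝ≥0∞) := h4 g 1 (by omega)
  have hterm : ∀ k, wt (Start (16 * m) k) =
      ENNReal.ofReal (1 / 2 * (((g : ℝ) / ((g : ℝ) + 1)) ^ k * (1 / ((g : ℝ) + 1)))) := by
    intro k
    unfold Start
    rw [hg4, h1 _ _ wtStart_aux_pf, h1 _ _ (h2.2.2.2.2 k _ (h2.2.1 g 1)), h3.2 k _ (h2.2.1 g 1),
      wtStart_aux_wt, hDn, hU]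
    have hg1 : (0 : ℝ) < (g : ℝ) + 1 := by positivity
    rw [ENNReal.ofReal_mul (by norm_num), ENNReal.ofReal_mul (by positivity),
      ENNReal.ofReal_pow (by positivity), ENNReal.ofReal_div_of_pos hg1,
      ENNReal.ofReal_div_of_pos hg1, ENNReal.ofReal_div_of_pos (by norm_num)]
    have e1 : ENNReal.ofReal ((g : ℝ) + 1) = ((g + 1 : ℕ) : ℝ≥0∞) := by
      rw [← ENNReal.ofReal_natCast (g + 1)]
      push_cast
      rfl
    rw [e1, ENNReal.ofReal_natCast, ENNReal.ofReal_one]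
    norm_num
  have hs : ∑ k ∈ Finset.range (16 * m - 1), wt (Start (16 * m) k) =
      ENNReal.ofReal (∑ k ∈ Finset.range (4 * g - 1),
        1 / 2 * (((g : ℝ) / ((g : ℝ) + 1)) ^ k * (1 / ((g : ℝ) + 1)))) := by
    rw [hG4, ENNReal.ofReal_sum_of_nonneg (fun k _ => by positivity)]
    exact Finset.sum_congr rfl fun k _ => hterm k
  rw [hs]
  obtain ⟨hl, hu⟩ := wtStart_aux_real g hg
  constructor
  · have := ENNReal.ofReal_le_ofReal hl
    rwa [ENNReal.ofReal_div_of_pos (by norm_num), ENNReal.ofReal_one,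
      ENNReal.ofReal_ofNat] at this
  · have := ENNReal.ofReal_le_ofReal hu
    rwa [ENNReal.ofReal_div_of_pos (by norm_num), ENNReal.ofReal_one,
      ENNReal.ofReal_ofNat] at this

end MP3e01

end
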