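import Mathlib
import Pool.Agent.Work.MP_3e01db_pr.Bd.B01

/-! Bundle of small proof modules (one section per former module). -/

section

open Set MeasureTheory ProbabilityTheory
open scoped ENNReal NNReal

namespace MP3e01

namespace WtU

/-- words from height `x` which reach `n` at their end, staying in `(0,n)` before -/
def W (n : ℕ) (x : ℤ) : Set (List Bool) :=
  {v | x + ht v = (n : ℤ) ∧ ∀ w, w <+: v → w ≠ v → 0 < x + ht w ∧ x + ht w < (n : ℤ)}

lemma ht_nil : ht [] = 0 := by simp [ht]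

lemma ht_cons (b : Bool) (v : List Bool) : ht (b :: v) = stp b + ht v := by simp [ht]

lemma U_eq (a b : ℕ) : U a b = W (a + b) b := by
  ext v
  simp only [U, W, Set.mem_setOf_eq]
  push_cast
  constructor
  · rintro ⟨h1, h2⟩
    refine ⟨by omega, fun w hw hne => ?_⟩
    have := h2 w hw hne
    omega
  · rintro ⟨h1, h2⟩
    refine ⟨by omega, fun w hw hne => ?_⟩
    have := h2 w hw hne
    omega

lemma pf (n : ℕ) (x : ℤ) : PrefixFree (W n x) := by
  intro u hu v hv huv
  by_contra hne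
  have h1 := hv.2 u huv hne
  have h2 := hu.1
  omega

lemma W_top (n : ℕ) : W n (n : ℤ) = {[]} := by
  ext v
  simp only [W, Set.mem_setOf_eq, Set.mem_singleton_iff]
  constructor
  · rintro ⟨_, h2⟩
    by_contra hne
    have := h2 [] List.nil_prefix (Ne.symm hne)
    rw [ht_nil] at this
    omega
  · rintro rfl
    refine ⟨by rw [ht_nil]; ring, fun w hw hne => ?_⟩
    exact absurd (List.prefix_nil.1 hw) hne

lemma W_zero (n : ℕ) (hn : 0 < n) : W n 0 = ∅ := by
  ext v
  simp only [W, Set.mem_setOf_eq, Set.mem_empty_iff_false, iff_false]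
  rintro ⟨h1, h2⟩
  by_cases hv : v = []
  · subst hv
    rw [ht_nil] at h1
    omega
  · have := h2 [] List.nil_prefix (Ne.symm hv)
    rw [ht_nil] at this
    omega

lemma W_step (n : ℕ) (x : ℤ) (h0 : 0 < x) (h1 : x < n) :
    W n x = (List.cons true '' W n (x + 1)) ∪ (List.cons false '' W n (x - 1)) := by
  have key : ∀ (b : Bool) (v : List Bool), b :: v ∈ W n x ↔ v ∈ W n (x + stp b) := by
    intro b v
    simp only [W, Set.mem_setOf_eq]
    rw [ht_cons]
    constructor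
    · rintro ⟨h2, h3⟩
      refine ⟨by omega, fun w hw hne => ?_⟩
      have := h3 (b :: w) (List.cons_prefix_cons.2 ⟨rfl, hw⟩) (by simpa using hne)
      rw [ht_cons] at this
      omega
    · rintro ⟨h2, h3⟩
      refine ⟨by omega, fun w hw hne => ?_⟩
      cases w with
      | nil =>
        rw [ht_nil]
        omega
      | cons c w =>
        obtain ⟨rfl, hw'⟩ := List.cons_prefix_cons.1 hw
        have := h3 w hw' (by simpa using hne)
        rw [ht_cons]
        omega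
  ext v
  cases v with
  | nil =>
    simp only [Set.mem_union, Set.mem_image]
    constructor
    · intro h
      have h2 := h.1
      rw [ht_nil] at h2
      omega
    · rintro (⟨w, _, h⟩ | ⟨w, _, h⟩) <;> exact absurd h (List.cons_ne_nil _ _)
  | cons b v =>
    rw [key]
    cases b with
    | true =>
      simp only [Set.mem_union, Set.mem_image, List.cons.injEq, true_and, exists_eq_right, stp]
      simp
    | false =>
      simp only [Set.mem_union, Set.mem_image, List.cons.injEq, true_and, exists_eq_right, stp]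
      simp [sub_eq_add_neg]

lemma wt_cons (b : Bool) (L : Set (List Bool)) : wt (List.cons b '' L) = 2⁻¹ * wt L := by
  unfold wt
  rw [tsum_image (fun v : List Bool => (2⁻¹ : ℝ≥0∞) ^ v.length)
    (fun u _ v _ h => List.cons_injective h), ← ENNReal.tsum_mul_left]
  refine tsum_congr fun v => ?_
  rw [List.length_cons, pow_succ']

lemma wt_step (n : ℕ) (x : ℤ) (h0 : 0 < x) (h1 : x < n) :
    wt (W n x) = 2⁻¹ * wt (W n (x + 1)) + 2⁻¹ * wt (W n (x - 1)) := by
  rw [W_step n x h0 h1, ← wt_cons true, ← wt_cons false]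
  unfold wt
  refine Summable.tsum_union_disjoint (f := fun v : List Bool => (2⁻¹ : ℝ≥0∞) ^ v.length)
    ?_ ENNReal.summable ENNReal.summable
  rw [Set.disjoint_left]
  rintro v ⟨u, _, rfl⟩ ⟨w, _, hw⟩
  simp at hw

lemma lin (n : ℕ) (h : ℕ → ℝ) (h0 : h 0 = 0)
    (hs : ∀ x, x + 2 ≤ n → h (x + 1) = 2⁻¹ * h (x + 2) + 2⁻¹ * h x) :
    ∀ x, x + 1 ≤ n → h x = x * h 1 ∧ h (x + 1) = (x + 1) * h 1 := by
  intro x
  induction x with
  | zero =>
    intro _
    refine ⟨by rw [h0]; simp, by simp⟩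
  | succ x ih =>
    intro hx
    obtain ⟨i1, i2⟩ := ih (by omega)
    have := hs x (by omega)
    refine ⟨by push_cast; exact i2, ?_⟩
    push_cast
    rw [i1, i2] at this
    linarith

end WtU

open WtU in
theorem pr_wtU (hk : S_kraft) : S_wtU := by
  intro a b hab
  set n := a + b with hn
  have hfin : ∀ x : ℤ, wt (W n x) ≠ ⊤ := fun x =>
    ne_top_of_le_ne_top ENNReal.one_ne_top (hk _ (pf n x))
  let h : ℕ → ℝ := fun x => (wt (W n (x : ℤ))).toReal
  have h0 : h 0 = 0 := by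
    show (wt (W n ((0 : ℕ) : ℤ))).toReal = 0
    rw [Nat.cast_zero, W_zero n hab]
    simp [wt]
  have htop : h n = 1 := by
    show (wt (W n ((n : ℕ) : ℤ))).toReal = 1
    rw [W_top n]
    simp [wt]
  have hs : ∀ x, x + 2 ≤ n → h (x + 1) = 2⁻¹ * h (x + 2) + 2⁻¹ * h x := by
    intro x hx
    show (wt (W n ((x + 1 : ℕ) : ℤ))).toReal = 2⁻¹ * (wt (W n ((x + 2 : ℕ) : ℤ))).toReal +
      2⁻¹ * (wt (W n ((x : ℕ) : ℤ))).toReal
    rw [wt_step n ((x + 1 : ℕ) : ℤ) (by positivity) (by exact_mod_cast (by omega : x + 1 < n)),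
      ENNReal.toReal_add (ENNReal.mul_ne_top (by simp) (hfin _))
        (ENNReal.mul_ne_top (by simp) (hfin _)), ENNReal.toReal_mul, ENNReal.toReal_mul]
    have e1 : ((x + 1 : ℕ) : ℤ) + 1 = ((x + 2 : ℕ) : ℤ) := by push_cast; ring
    have e2 : ((x + 1 : ℕ) : ℤ) - 1 = ((x : ℕ) : ℤ) := by push_cast; ring
    rw [e1, e2]
    simp
  have hlin := lin n h h0 hs
  have hn1 : (n : ℝ) * h 1 = 1 := by
    obtain ⟨m, hm⟩ : ∃ m, n = m + 1 := ⟨n - 1, by omega⟩
    have := (hlin m (by omega)).2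
    rw [← hm, htop] at this
    rw [this, hm]
    push_cast
    ring
  have hnpos : (0 : ℝ) < n := by exact_mod_cast hab
  have hb : h b = (b : ℝ) / n := by
    have : h b = b * h 1 := by
      rcases Nat.lt_or_ge b n with hbn | hbn
      · exact (hlin b (by omega)).1
      · have : b = n := by omega
        rw [this, htop, hn1]
    rw [this, eq_div_iff hnpos.ne', mul_assoc, mul_comm (h 1), hn1, mul_one]
  have hw : wt (U a b) = ENNReal.ofReal ((b : ℝ) / n) := by
    rw [U_eq, ← hn, ← hb]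
    exact (ENNReal.ofReal_toReal (hfin _)).symm
  rw [hw, ENNReal.ofReal_div_of_pos hnpos, ENNReal.ofReal_natCast, ENNReal.ofReal_natCast]

end MP3e01

end

section

/-! Deterministic part of the assembly: `RightPre`, `LeftPre` in terms of `signs`. -/

open MeasureTheory ProbabilityTheory
open scoped NNReal ENNReal Topology

namespace Pool.Agent.Work.MP_3e01db_pr.AN

open Pool.Agent.Work.MP_3e01db_pr.SM

/-- Identify a first time. -/
lemma firstT_eq {g : ℝ≥0 → ℝ} {r : ℝ≥0} (h1 : 0 ≤ g r) (h2 : ∀ s < r, g s < 0) : firstT g = r := by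
  apply le_antisymm (firstT_le h1)
  refine le_csInf ⟨r, h1⟩ fun s hs ↦ ?_
  by_contra hc
  push Not at hc
  exact absurd hs (not_le.2 (h2 s hc))

/-- the right event of a path `c` -/
def rEv (c : ℝ≥0 → ℝ) (p q : ℝ≥0) (ε : ℝ) (v : List Bool) : Prop :=
  signs ε v.length (fun s ↦
    (fun r : ℝ≥0 ↦ c (q + r) - c q)
      (firstT (fun r ↦ -(c q - MP3e01.mn (fun t ↦ c t.toNNReal) p q) - (c (q + r) - c q)) + s) -
    (fun r : ℝ≥0 ↦ c (q + r) - c q)
      (firstT (fun r ↦ -(c q - MP3e01.mn (fun t ↦ c t.toNNReal) p q) - (c (q + r) - c q)))) = v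

/-- the reversed path before `p`, continued by `w` -/
noncomputable def rev (c w : ℝ≥0 → ℝ) (p : ℝ≥0) : ℝ≥0 → ℝ := fun t ↦
  if t ≤ p then c (p - t) - c p else w (t - p) + (c 0 - c p)

/-- the left event of a path `c` continued by `w` -/
def lEv (c w : ℝ≥0 → ℝ) (p q : ℝ≥0) (ε : ℝ) (v : List Bool) : Prop :=
  signs ε v.length (fun s ↦
    rev c w p
      (firstT (fun r ↦ -(c p - MP3e01.mn (fun t ↦ c t.toNNReal) p q) - rev c w p r) + s) -
    rev c w p
      (firstT (fun r ↦ -(c p - MP3e01.mn (fun t ↦ c t.toNNReal) p q) - rev c w p r))) = v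

lemma follows_mono {ε : ℝ} {u : ℝ → ℝ} {v : List Bool} {σ : ℕ → ℝ} (h : MP3e01.Follows ε u v σ) :
    ∀ i ≤ v.length, 0 ≤ σ i := by
  intro i
  induction i with
  | zero => intro _; rw [h.zero]
  | succ n ih => intro hn; exact (ih (by omega)).trans (h.lt n (by omega)).le

lemma right_imp (hDet : S_DetR) {c : ℝ≥0 → ℝ} {p q : ℝ≥0} {ε : ℝ} (hε : 0 < ε) {v : List Bool}
    (h : MP3e01.RightPre (fun t ↦ c t.toNNReal) p q ε v) : rEv c p q ε v := by
  obtain ⟨τ, σ, hτ, hτ1, hτ2, hF⟩ := h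
  have hτ0 : 0 ≤ τ := q.2.trans hτ
  set r : ℝ≥0 := (τ - q).toNNReal with hr
  have hrq : ((q + r : ℝ≥0) : ℝ) = τ := by
    rw [NNReal.coe_add, hr, Real.coe_toNNReal _ (by linarith)]; ring
  have hfirst : firstT (fun r ↦ -(c q - MP3e01.mn (fun t ↦ c t.toNNReal) p q) -
      (c (q + r) - c q)) = r := by
    apply firstT_eq
    · have : c (q + r) = MP3e01.mn (fun t ↦ c t.toNNReal) p q := by
        rw [← hτ1, ← hrq]
        simp only [Real.toNNReal_coe]
      rw [this]; linarith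
    · intro s hs
      have h1 := hτ2 ((q + s : ℝ≥0) : ℝ) ⟨by push_cast; linarith [s.2], by
        rw [← hrq]; exact_mod_cast add_lt_add_right hs q⟩
      simp only [Real.toNNReal_coe] at h1
      linarith
  rw [rEv, hfirst]
  refine hDet ε (fun t ↦ c (τ + t).toNNReal) v σ _ hε hF ?_
  intro t _
  have e1 : (τ + (t : ℝ)).toNNReal = q + (r + t) := by
    rw [← hrq, ← NNReal.coe_add, Real.toNNReal_coe, add_assoc]
  have e2 : (τ + (0 : ℝ)).toNNReal = q + r := by
    rw [add_zero, ← hrq, Real.toNNReal_coe]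
  simp only [e1, e2]
  ring

lemma left_imp (hDet : S_DetR) {c w : ℝ≥0 → ℝ} {p q : ℝ≥0} {ε : ℝ} (hε : 0 < ε) {v : List Bool}
    (h : MP3e01.LeftPre (fun t ↦ c t.toNNReal) p q ε v) : lEv c w p q ε v := by
  obtain ⟨τ, σ, hτ0, hτp, hτ1, hτ2, hF, hσ⟩ := h
  set r : ℝ≥0 := p - τ.toNNReal with hr
  have hτle : τ.toNNReal ≤ p := by
    rw [Real.toNNReal_le_iff_le_coe]; exact hτp
  have hrp : r ≤ p := tsub_le_self
  have hpr : p - r = τ.toNNReal := by rw [hr]; exact tsub_tsub_cancel_of_le hτle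
  have hfirst : firstT (fun r ↦ -(c p - MP3e01.mn (fun t ↦ c t.toNNReal) p q) - rev c w p r) =
      r := by
    apply firstT_eq
    · have : rev c w p r = MP3e01.mn (fun t ↦ c t.toNNReal) p q - c p := by
        rw [rev, if_pos hrp, hpr, ← hτ1]
      rw [this]; linarith
    · intro s hs
      have hsp : s ≤ p := hs.le.trans hrp
      have h0 : τ.toNNReal < p - s := by
        rw [lt_tsub_iff_right]
        rw [hr, lt_tsub_iff_left] at hs
        exact hs
      have h1 := hτ2 ((p - s : ℝ≥0) : ℝ) ⟨?_, by exact_mod_cast tsub_le_self⟩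
      · simp only [Real.toNNReal_coe] at h1
        rw [rev, if_pos hsp]
        linarith
      · calc τ = (τ.toNNReal : ℝ) := (Real.coe_toNNReal _ hτ0).symm
          _ < _ := by exact_mod_cast h0
  rw [lEv, hfirst]
  refine hDet ε (fun t ↦ c (τ - t).toNNReal) v σ _ hε hF ?_
  intro t ht
  have htτ : (t : ℝ) ≤ τ := ht.trans hσ
  have htτ' : t ≤ τ.toNNReal := by
    rw [← NNReal.coe_le_coe, Real.coe_toNNReal _ hτ0]; exact htτ
  have hrt : r + t ≤ p := by
    calc r + t ≤ r + τ.toNNReal := by gcongr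
      _ = p := by rw [hr]; exact tsub_add_cancel_of_le hτle
  have e1 : (τ - (t : ℝ)).toNNReal = p - (r + t) := by
    rw [← tsub_tsub, hpr, ← NNReal.coe_inj, Real.coe_toNNReal _ (by linarith),
      NNReal.coe_sub htτ', Real.coe_toNNReal _ hτ0]
  have e2 : (τ - (0 : ℝ)).toNNReal = p - r := by rw [sub_zero, hpr]
  simp only [e1, e2]
  rw [rev, rev, if_pos hrt, if_pos hrp]
  ring

end Pool.Agent.Work.MP_3e01db_pr.AN

end

section

/-!
# Cpl: completing the independent sigma-algebra keeps everything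
-/

open MeasureTheory ProbabilityTheory
open scoped NNReal ENNReal Topology

namespace Pool.Agent.Work.MP_3e01db_pr.AN

open Pool.Agent.Work.MP_3e01db_pr.SM

universe u

theorem pr_Cpl : S_Cpl.{u} := by
  intro Ω mΩ P G B hG hm hc h0 hB hI
  refine ⟨⟨?_, ?_, hm, hc, h0, hB, ?_⟩, ?_⟩
  · intro A hA
    exact hA.1
  · intro N hN hN0
    exact ⟨hN, ∅, @MeasurableSet.empty _ G, ae_eq_empty.2 hN0⟩
  · rw [Indep_iff]
    rintro A E ⟨hA, A', hA', he⟩ hE
    have h1 := (Indep_iff _ _ _).1 hI A' E hA' hE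
    have h2 : (A ∩ E : Set Ω) =ᵐ[P] (A' ∩ E : Set Ω) := he.inter (ae_eq_refl _)
    rw [measure_congr h2, h1, measure_congr he]
  · intro A hA
    exact ⟨hG _ hA, A, hA, ae_eq_refl _⟩

end Pool.Agent.Work.MP_3e01db_pr.AN

end

section

open MeasureTheory ProbabilityTheory
open scoped NNReal ENNReal Topology

namespace Pool.Agent.Work.MP_3e01db_pr.AN

open Pool.Agent.Work.MP_3e01db_pr.SM

theorem pr_DetR : S_DetR := by
  intro ε u v σ f hε hF hf
  induction v generalizing u σ f with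
  | nil => simp [signs]
  | cons b v ih =>
    have hlen : (b :: v).length = v.length + 1 := rfl
    have h01 : σ 0 < σ 1 := hF.lt 0 (by simp)
    have h1pos : 0 < σ 1 := by rw [hF.zero] at h01; exact h01
    have hmono : ∀ i ≤ v.length, σ 1 ≤ σ (i + 1) := by
      intro i hi
      induction i with
      | zero => exact le_rfl
      | succ k ihk =>
        have := ihk (by omega)
        have h2 := hF.lt (k + 1) (by rw [hlen]; omega)
        exact this.trans h2.le
    have hlast : σ 1 ≤ σ (b :: v).length := by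
      rw [hlen]; exact hmono _ le_rfl
    obtain ⟨T, hT⟩ : ∃ T : ℝ≥0, (T : ℝ) = σ 1 := ⟨⟨σ 1, h1pos.le⟩, rfl⟩
    have hfT : f T = u (σ 1) - u 0 := by
      rw [hf T (by rw [hT]; exact hlast), hT]
    have hstep := hF.step 0 (by simp)
    simp only [zero_add, hF.zero, List.getElem_cons_zero] at hstep
    have hfT' : f T = if b then ε else -ε := by rw [hfT, hstep]; ring
    have habs : |f T| = ε := by
      rw [hfT']; cases b <;> simp [abs_of_pos hε]
    have hin : ∀ s : ℝ≥0, s < T → |f s| < ε := by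
      intro s hs
      have hs' : (s : ℝ) < σ 1 := by rw [← hT]; exact_mod_cast hs
      have h3 := hF.inside 0 (by simp) s ⟨by rw [hF.zero]; exact s.2, by simpa using hs'⟩
      rw [hf s (hs'.le.trans hlast)]
      rw [hF.zero] at h3
      exact h3
    have hexit : exitT ε f = T := by
      unfold exitT
      apply le_antisymm
      · exact firstT_le (by rw [habs]; simp)
      · refine le_csInf ⟨T, by simp [habs]⟩ ?_
        intro s hs
        by_contra hc
        push Not at hc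
        have := hin s hc
        simp only [Set.mem_ofPred_eq] at hs
        linarith
    have hsgn : sgn ε f = b := by
      unfold sgn
      rw [hexit, hfT']
      cases b
      · simp [hε.le]
      · simp [hε]
    show sgn ε f :: signs ε v.length (nxt ε f) = b :: v
    rw [hsgn]
    congr 1
    refine ih (fun t ↦ u (σ 1 + t)) (fun i ↦ σ (i + 1) - σ 1) (nxt ε f) ?_ ?_
    · refine ⟨by simp, ?_, ?_, ?_⟩
      · intro i hi
        have := hF.lt (i + 1) (by rw [hlen]; omega)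
        linarith
      · intro i hi
        have := hF.step (i + 1) (by rw [hlen]; omega)
        simp only [List.getElem_cons_succ] at this
        simp only [add_sub_cancel]
        exact this
      · intro i hi s hs
        have := hF.inside (i + 1) (by rw [hlen]; omega) (σ 1 + s)
          ⟨by have := hs.1; linarith, by have := hs.2; linarith⟩
        simp only [add_sub_cancel]
        exact this
    · intro t ht
      have ht2 : ((T + t : ℝ≥0) : ℝ) ≤ σ (b :: v).length := by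
        rw [hlen]; push_cast; rw [hT]; linarith
      unfold nxt
      rw [hexit, hf (T + t) ht2, hfT]
      push_cast
      rw [hT]
      simp

end Pool.Agent.Work.MP_3e01db_pr.AN

end

section

/-!
Almost surely a Brownian path leaves a bounded interval.
-/

open MeasureTheory ProbabilityTheory
open scoped NNReal ENNReal Topology

namespace Pool.Agent.Work.MP_3e01db_pr.AN

open Pool.Agent.Work.MP_3e01db_pr.SM

universe u

/-- a centred Gaussian measure gives small mass to a bounded interval if its variance is large -/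
lemma Exit_gauss (ε : ℝ) (t : ℝ≥0) (ht : t ≠ 0) :
    gaussianReal 0 t (Set.Ioo (-ε) ε) ≤
      ENNReal.ofReal ((√(2 * Real.pi * t))⁻¹) * ENNReal.ofReal (ε - -ε) := by
  rw [gaussianReal_apply _ ht]
  calc ∫⁻ x in Set.Ioo (-ε) ε, gaussianPDF 0 t x
      ≤ ∫⁻ _ in Set.Ioo (-ε) ε, ENNReal.ofReal ((√(2 * Real.pi * t))⁻¹) := by
        refine lintegral_mono (fun x ↦ ?_)
        rw [gaussianPDF]
        refine ENNReal.ofReal_le_ofReal ?_
        rw [gaussianPDFReal]
        refine mul_le_of_le_one_right (by positivity) ?_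
        rw [Real.exp_le_one_iff]
        have h1 : 0 ≤ (x - 0) ^ 2 := sq_nonneg _
        have h2 : (0 : ℝ) ≤ 2 * t := by positivity
        rw [neg_div]
        have := div_nonneg h1 h2
        linarith
    _ = _ := by
        rw [setLIntegral_const, Real.volume_Ioo]

theorem pr_Exit : S_Exit.{u} := by
  intro Ω mΩ P G B h ε
  have hP := h.isProb
  have key : ∀ t : ℝ≥0, t ≠ 0 → P {ω | ¬ ∃ s, 0 ≤ |B s ω| - ε} ≤
      ENNReal.ofReal ((√(2 * Real.pi * t))⁻¹) * ENNReal.ofReal (ε - -ε) := by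
    intro t ht
    have h1 := h.bm.hasLaw_eval t
    have h2 : P {ω | ¬ ∃ s, 0 ≤ |B s ω| - ε} ≤ P (B t ⁻¹' Set.Ioo (-ε) ε) := by
      refine measure_mono (fun ω hω ↦ ?_)
      have h3 : ¬ 0 ≤ |B t ω| - ε := fun h4 ↦ hω ⟨t, h4⟩
      have h5 : |B t ω| < ε := by linarith [not_le.mp h3]
      exact ⟨(abs_lt.mp h5).1, (abs_lt.mp h5).2⟩
    refine h2.trans ?_
    rw [← Measure.map_apply (h.meas t) measurableSet_Ioo, h1.map_eq]
    exact Exit_gauss ε t ht
  rw [ae_iff]
  refine le_antisymm ?_ zero_le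
  have hlim : Filter.Tendsto (fun t : ℝ≥0 ↦ ENNReal.ofReal ((√(2 * Real.pi * t))⁻¹) *
      ENNReal.ofReal (ε - -ε)) Filter.atTop (𝓝 (0 * ENNReal.ofReal (ε - -ε))) := by
    refine ENNReal.Tendsto.mul_const ?_ (Or.inr ENNReal.ofReal_ne_top)
    rw [← ENNReal.ofReal_zero]
    refine ENNReal.tendsto_ofReal ?_
    refine tendsto_inv_atTop_zero.comp ?_
    refine Real.tendsto_sqrt_atTop.comp ?_
    refine Filter.Tendsto.const_mul_atTop (by positivity) ?_
    exact NNReal.tendsto_coe_atTop.mpr Filter.tendsto_id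
  rw [zero_mul] at hlim
  refine ge_of_tendsto hlim ?_
  filter_upwards [Filter.eventually_gt_atTop (0 : ℝ≥0)] with t ht
  exact key t ht.ne'

end Pool.Agent.Work.MP_3e01db_pr.AN

end

section

/-!
# Item Hit
-/

open MeasureTheory ProbabilityTheory
open scoped NNReal ENNReal Topology

namespace Pool.Agent.Work.MP_3e01db_pr.AN

open Pool.Agent.Work.MP_3e01db_pr.SM

theorem pr_Hit.{u} (h1 : S_Srw.{u}) (h2 : S_Level.{u}) : S_Hit.{u} := by
  intro Ω mΩ P G B h D hD ε hε A hA v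
  have hX : ∀ t, ∀ s ≤ t, Measurable[past G B t] (fun ω ↦ -D ω - B s ω) := by
    intro t s hs
    have e1 : Measurable[past G B t] D := hD.mono le_sup_left le_rfl
    have e2 : Measurable[past G B t] (B s) := (measurable_upto B hs).mono le_sup_right le_rfl
    have e3 : Measurable[past G B t] (fun ω ↦ -D ω) :=
      @Measurable.comp _ _ _ (past G B t) _ _ _ _ measurable_neg e1
    exact e3.sub e2
  have hae : ∀ᵐ ω ∂P, ∃ s, 0 ≤ -D ω - B s ω := by
    filter_upwards [h2 P G B h] with ω hω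
    obtain ⟨s, hs⟩ := hω (D ω)
    exact ⟨s, by linarith⟩
  have hc : ∀ ω, Continuous fun s ↦ -D ω - B s ω := fun ω ↦ continuous_const.sub (h.cont ω)
  have hτ := h.stop (X := fun s ω ↦ -D ω - B s ω) hc hX hae
  have hs := h.strong (τ := fun ω ↦ firstT (fun s ↦ -D ω - B s ω)) hτ
  exact h1 P _ _ hs ε hε A (le_atσ h.le hτ A hA) v

end Pool.Agent.Work.MP_3e01db_pr.AN

end

section

open MeasureTheory ProbabilityTheory
open scoped NNReal ENNReal Topology

namespace Pool.Agent.Work.MP_3e01db_pr.AN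

open Pool.Agent.Work.MP_3e01db_pr.SM

lemma level_stop {Ω : Type*} {G mΩ : MeasurableSpace Ω} {P : Measure Ω} {B : ℝ≥0 → Ω → ℝ}
    (h : BMwrt P G B) (r : ℝ) (hae : ∀ᵐ ω ∂P, ∃ s, 0 ≤ |B s ω| - r) (t : ℝ≥0) :
    MeasurableSet[past G B t] {ω | exitT r (fun s ↦ B s ω) ≤ t} := by
  refine h.stop (X := fun s ω ↦ |B s ω| - r) ?_ ?_ hae t
  · intro ω
    have := h.cont ω
    fun_prop
  · intro t s hs
    have h1 : Measurable[past G B t] (B s) :=
      (measurable_upto B hs).mono le_sup_right le_rfl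
    exact (continuous_abs.measurable.comp h1).sub_const r

lemma level_abs {f : ℝ≥0 → ℝ} (hf : Continuous f) (h0 : f 0 = 0) {r : ℝ} (hr : 0 < r)
    (hex : ∃ s, 0 ≤ |f s| - r) : |f (exitT r f)| = r := by
  have hc : Continuous fun s ↦ |f s| - r := by fun_prop
  have h1 : 0 ≤ |f (exitT r f)| - r := firstT_mem hc hex
  refine le_antisymm ?_ (by linarith)
  by_contra hgt
  push Not at hgt
  have hopen : IsOpen {s : ℝ≥0 | r < |f s|} := isOpen_lt continuous_const (by fun_prop)
  have hpos : 0 < exitT r f := by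
    rw [pos_iff_ne_zero]
    intro hz
    rw [hz, h0] at hgt
    simp at hgt
    linarith
  have hnh : {s : ℝ≥0 | r < |f s|} ∈ 𝓝 (exitT r f) := hopen.mem_nhds hgt
  obtain ⟨a, ha, hsub⟩ := exists_Ioc_subset_of_mem_nhds hnh ⟨0, hpos⟩
  obtain ⟨b, hb1, hb2⟩ := exists_between ha
  have hb := hsub ⟨hb1, hb2.le⟩
  simp only [Set.mem_ofPred_eq] at hb
  have := lt_of_lt_firstT (f := fun s ↦ |f s| - r) (s := b) hb2
  linarith

lemma level_meas {Ω : Type*} {m : MeasurableSpace Ω} {X : ℝ≥0 → Ω → ℝ}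
    (hc : ∀ ω, Continuous fun s ↦ X s ω) (hX : ∀ s, Measurable[m] (X s)) (r : ℝ) :
    MeasurableSet[m] {ω | ∀ s, -r < X s ω} := by
  have : {ω | ∀ s, -r < X s ω} = (⋃ k : ℕ, {ω | ∃ s ≤ (k : ℝ≥0), 0 ≤ -r - X s ω})ᶜ := by
    ext ω
    simp only [Set.mem_compl_iff, Set.mem_iUnion, Set.mem_ofPred_eq, not_exists, not_and, not_le]
    constructor
    · intro h k s _
      have := h s
      linarith
    · intro h s
      obtain ⟨k, hk⟩ := exists_nat_ge s
      have := h k s hk
      linarith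
  rw [this]
  refine MeasurableSet.compl (MeasurableSet.iUnion fun k ↦ ?_)
  refine meas_reach (X := fun s ω ↦ -r - X s ω) ?_ ?_
  · intro ω
    have := hc ω
    fun_prop
  · intro s _
    exact (hX s).const_sub (-r)

lemma level_bound.{u} (hE : S_Exit.{u}) (hS : S_Sgn.{u}) (hA : S_SgnAt.{u}) (n : ℕ) :
    ∀ {Ω : Type u} {mΩ : MeasurableSpace Ω} (P : Measure Ω) (G : MeasurableSpace Ω)
    (B : ℝ≥0 → Ω → ℝ), BMwrt P G B → ∀ r : ℝ, 0 < r →
    P {ω | ∀ s, -r < B s ω} ≤ (2⁻¹ : ℝ≥0∞) ^ n := by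
  induction n with
  | zero =>
    intro Ω mΩ P G B h r hr
    have := h.isProb
    simpa using prob_le_one
  | succ n ih =>
    intro Ω mΩ P G B h r hr
    have := h.isProb
    have hex := hE P G B h r
    have hτ := level_stop h r hex
    have hst := h.strong hτ
    set τ : Ω → ℝ≥0 := fun ω ↦ exitT r (fun s ↦ B s ω) with hτdef
    have hsub : {ω | ∀ s, -r < B s ω} ≤ᵐ[P]
        ({ω | sgn r (fun s ↦ B s ω) = true} ∩ {ω | ∀ s, -(2 * r) < restart B τ s ω} : Set Ω) := by
      filter_upwards [hex] with ω hω hmem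
      have hmem' : ∀ s, -r < B s ω := hmem
      have habs := level_abs (h.cont ω) (h.zero ω) hr hω
      have hBτ : B (τ ω) ω = r := by
        rcases abs_eq hr.le |>.1 habs with h1 | h1
        · exact h1
        · exact absurd h1 (ne_of_gt (hmem' _))
      refine ⟨?_, ?_⟩
      · show sgn r (fun s ↦ B s ω) = true
        unfold sgn
        have : (0 : ℝ) < B (exitT r (fun s ↦ B s ω)) ω := by
          have h2 : B (exitT r (fun s ↦ B s ω)) ω = r := hBτ
          rw [h2]; exact hr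
        simpa using this
      · intro s
        show -(2 * r) < B (τ ω + s) ω - B (τ ω) ω
        rw [hBτ]
        have := hmem' (τ ω + s)
        linarith
    have hsgn : P {ω | sgn r (fun s ↦ B s ω) = true} = 2⁻¹ := by
      have := hS P G B h r hr Set.univ (@MeasurableSet.univ _ G) true
      simpa using this
    have hmeasR : MeasurableSet[procσ (restart B τ)] {ω | ∀ s, -(2 * r) < restart B τ s ω} := by
      refine level_meas (m := procσ (restart B τ)) hst.cont ?_ (2 * r)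
      intro s
      have h1 : Measurable[procσ (restart B τ)] (fun ω (t : ℝ≥0) ↦ restart B τ t ω) :=
        comap_measurable _
      exact (measurable_pi_apply s).comp h1
    calc P {ω | ∀ s, -r < B s ω}
        ≤ P ({ω | sgn r (fun s ↦ B s ω) = true} ∩ {ω | ∀ s, -(2 * r) < restart B τ s ω}) :=
          measure_mono_ae hsub
      _ = P {ω | sgn r (fun s ↦ B s ω) = true} * P {ω | ∀ s, -(2 * r) < restart B τ s ω} :=
          (Indep_iff _ _ _).1 hst.ind _ _ (hA P G B h r hr hτ true) hmeasR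
      _ ≤ 2⁻¹ * (2⁻¹ : ℝ≥0∞) ^ n := by
          rw [hsgn]
          gcongr
          exact ih P _ _ hst (2 * r) (by positivity)
      _ = (2⁻¹ : ℝ≥0∞) ^ (n + 1) := by rw [pow_succ, mul_comm]

theorem pr_Level.{u} (hE : S_Exit.{u}) (hS : S_Sgn.{u}) (hA : S_SgnAt.{u}) : S_Level.{u} := by
  intro Ω mΩ P G B h
  have hk : ∀ k : ℕ, ∀ᵐ ω ∂P, ∃ s, B s ω ≤ -((k : ℝ) + 1) := by
    intro k
    rw [ae_iff]
    have hset : {ω | ¬ ∃ s, B s ω ≤ -((k : ℝ) + 1)} = {ω | ∀ s, -((k : ℝ) + 1) < B s ω} := by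
      ext ω; simp
    rw [hset]
    by_contra hne
    obtain ⟨n, hn⟩ := ENNReal.exists_inv_two_pow_lt hne
    exact absurd (level_bound hE hS hA n P G B h ((k : ℝ) + 1) (by positivity)) (not_le.2 hn)
  filter_upwards [ae_all_iff.2 hk] with ω hω r
  obtain ⟨k, hk⟩ := exists_nat_ge r
  obtain ⟨s, hs⟩ := hω k
  exact ⟨s, by linarith⟩

end Pool.Agent.Work.MP_3e01db_pr.AN

end

section

/-!
# MeasSigns: the word of exit directions is measurable
-/

open MeasureTheory ProbabilityTheory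
open scoped NNReal ENNReal Topology

namespace Pool.Agent.Work.MP_3e01db_pr.AN

open Pool.Agent.Work.MP_3e01db_pr.SM

theorem MeasSigns_aux.{u} (hT : S_MeasT.{u}) {Ω : Type u} [m : MeasurableSpace Ω] (ε : ℝ) (n : ℕ) :
    ∀ (X : ℝ≥0 → Ω → ℝ), (∀ t, Measurable (X t)) → (∀ ω, Continuous fun t ↦ X t ω) →
      ∀ v : List Bool, MeasurableSet {ω | signs ε n (fun s ↦ X s ω) = v} := by
  induction n with
  | zero =>
    intro X _ _ v
    simp only [signs]
    exact MeasurableSet.const _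
  | succ n ih =>
    intro X hX hc v
    have hTm : Measurable (fun ω ↦ exitT ε (fun s ↦ X s ω)) :=
      hT m (fun s ω ↦ |X s ω| - ε) (fun t ↦ by
        have := (hX t).abs.sub_const ε
        exact this) (fun ω ↦ ((hc ω).abs.sub continuous_const))
    rcases v with _ | ⟨b, v⟩
    · have : {ω | signs ε (n + 1) (fun s ↦ X s ω) = []} = ∅ := by
        ext ω
        simp [signs]
      rw [this]
      exact MeasurableSet.empty
    · have hj : Measurable (Function.uncurry X) :=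
        measurable_uncurry_of_continuous_of_measurable hc hX
      have h2 : Measurable fun ω ↦ X (exitT ε (fun s ↦ X s ω)) ω :=
        hj.comp (hTm.prodMk measurable_id)
      have h3 : MeasurableSet {ω | sgn ε (fun s ↦ X s ω) = b} := by
        have h4 : MeasurableSet {ω | 0 < X (exitT ε (fun s ↦ X s ω)) ω} :=
          measurableSet_lt measurable_const h2
        cases b
        · have : {ω | sgn ε (fun s ↦ X s ω) = false} =
              {ω | 0 < X (exitT ε (fun s ↦ X s ω)) ω}ᶜ := by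
            ext ω
            simp [sgn]
          rw [this]
          exact h4.compl
        · have : {ω | sgn ε (fun s ↦ X s ω) = true} =
              {ω | 0 < X (exitT ε (fun s ↦ X s ω)) ω} := by
            ext ω
            simp [sgn]
          rw [this]
          exact h4
      have h5 := ih (restart X (fun ω ↦ exitT ε (fun s ↦ X s ω)))
        (measurable_restart hX hc hTm) (continuous_restart hc _) v
      have : {ω | signs ε (n + 1) (fun s ↦ X s ω) = b :: v} =
          {ω | sgn ε (fun s ↦ X s ω) = b} ∩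
            {ω | signs ε n (fun s ↦ restart X (fun ω ↦ exitT ε (fun s ↦ X s ω)) s ω) = v} := by
        ext ω
        simp only [signs, Set.mem_ofPred_eq, List.cons.injEq, Set.mem_inter_iff]
        rfl
      rw [this]
      exact h3.inter h5

theorem pr_MeasSigns.{u} (hT : S_MeasT.{u}) : S_MeasSigns.{u} := by
  intro Ω m X hX hc ε n v
  exact MeasSigns_aux hT ε n X hX hc v

end Pool.Agent.Work.MP_3e01db_pr.AN

end

section

/-!
# MeasT: the first time with `0 ≤ X` is measurable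
-/

open MeasureTheory ProbabilityTheory
open scoped NNReal ENNReal Topology

namespace Pool.Agent.Work.MP_3e01db_pr.AN

open Pool.Agent.Work.MP_3e01db_pr.SM

theorem pr_MeasT.{u} : S_MeasT.{u} := by
  intro Ω m X hX hc
  refine measurable_of_Iic fun t ↦ ?_
  have hnever : MeasurableSet[m] {ω | ¬ ∃ s, 0 ≤ X s ω} := by
    have : {ω | ¬ ∃ s, 0 ≤ X s ω} = ⋂ k : ℕ, {ω | ∃ s ≤ (k : ℝ≥0), 0 ≤ X s ω}ᶜ := by
      ext ω
      simp only [Set.mem_iInter, Set.mem_compl_iff, Set.mem_ofPred_eq]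
      constructor
      · rintro h1 k ⟨s, _, h2⟩
        exact h1 ⟨s, h2⟩
      · rintro h1 ⟨s, h2⟩
        obtain ⟨k, hk⟩ := exists_nat_ge s
        exact h1 k ⟨s, hk, h2⟩
    rw [this]
    exact MeasurableSet.iInter fun k ↦ MeasurableSet.compl (meas_reach hc fun s _ ↦ hX s)
  have : (fun ω ↦ firstT (fun s ↦ X s ω)) ⁻¹' Set.Iic t =
      {ω | ∃ s ≤ t, 0 ≤ X s ω} ∪ {ω | ¬ ∃ s, 0 ≤ X s ω} := by
    ext ω
    simp only [Set.mem_preimage, Set.mem_Iic, Set.mem_union, Set.mem_ofPred_eq]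
    by_cases h1 : ∃ s, 0 ≤ X s ω
    · rw [firstT_le_iff (hc ω) h1]
      simp only [h1, not_true_eq_false, or_false]
    · simp only [h1, not_false_eq_true, or_true, iff_true]
      have : {s | 0 ≤ X s ω} = ∅ := by
        ext s; simp only [Set.mem_ofPred_eq, Set.mem_empty_iff_false, iff_false]
        exact fun h2 ↦ h1 ⟨s, h2⟩
      simp only [firstT, this]
      rw [NNReal.sInf_empty]
      exact zero_le
  rw [this]
  exact MeasurableSet.union (meas_reach hc fun s _ ↦ hX s) hnever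

end Pool.Agent.Work.MP_3e01db_pr.AN

end

section

open Set MeasureTheory ProbabilityTheory
open scoped ENNReal NNReal

namespace Pool.Agent.Work.MP_3e01db_pr.AN

universe u

theorem pr_Min : S_Min.{u} := by
  intro Ω m B p q hpq hc hm
  have : Nonempty (Set.Icc p q) := ⟨⟨p, le_refl _, hpq⟩⟩
  have hpq' : (p : ℝ) ≤ q := NNReal.coe_le_coe.mpr hpq
  have key : ∀ c : ℝ, (fun ω ↦ MP3e01.mn (fun t ↦ B t.toNNReal ω) p q) ⁻¹' Set.Iio c =
      ⋃ n : ℕ, (B (TopologicalSpace.denseSeq (Set.Icc p q) n).1) ⁻¹' Set.Iio c := by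
    intro c
    ext ω
    simp only [Set.mem_preimage, Set.mem_Iio, Set.mem_iUnion]
    have hcont : Continuous fun t : ℝ ↦ B t.toNNReal ω := (hc ω).comp continuous_real_toNNReal
    have hbdd : BddBelow ((fun t : ℝ ↦ B t.toNNReal ω) '' Set.uIcc (p : ℝ) q) :=
      (isCompact_uIcc.image hcont).bddBelow
    constructor
    · intro h
      unfold MP3e01.mn at h
      obtain ⟨y, ⟨t, ht, rfl⟩, hlt⟩ := exists_lt_of_csInf_lt
        ((Set.nonempty_uIcc).image _) h
      rw [Set.uIcc_of_le hpq'] at ht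
      have htm : t.toNNReal ∈ Set.Icc p q := by
        constructor
        · exact (Real.le_toNNReal_iff_coe_le (p.coe_nonneg.trans ht.1)).mpr ht.1
        · exact Real.toNNReal_le_iff_le_coe.mpr ht.2
      have hopen : IsOpen {x : Set.Icc p q | B x.1 ω < c} :=
        isOpen_lt ((hc ω).comp continuous_subtype_val) continuous_const
      obtain ⟨n, hn⟩ := (TopologicalSpace.denseRange_denseSeq (Set.Icc p q)).exists_mem_open
        hopen ⟨⟨t.toNNReal, htm⟩, hlt⟩
      exact ⟨n, hn⟩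
    · rintro ⟨n, hn⟩
      refine lt_of_le_of_lt ?_ hn
      unfold MP3e01.mn
      apply csInf_le hbdd
      refine ⟨((TopologicalSpace.denseSeq (Set.Icc p q) n).1 : ℝ), ?_, ?_⟩
      · rw [Set.uIcc_of_le hpq']
        exact ⟨NNReal.coe_le_coe.mpr (TopologicalSpace.denseSeq (Set.Icc p q) n).2.1,
          NNReal.coe_le_coe.mpr (TopologicalSpace.denseSeq (Set.Icc p q) n).2.2⟩
      · simp only [Real.toNNReal_coe]
  apply measurable_of_Iio
  intro c
  rw [key c]
  apply MeasurableSet.iUnion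
  intro n
  exact (hm _ (TopologicalSpace.denseSeq (Set.Icc p q) n).2.1
    (TopologicalSpace.denseSeq (Set.Icc p q) n).2.2) measurableSet_Iio

end Pool.Agent.Work.MP_3e01db_pr.AN

end

section

open MeasureTheory ProbabilityTheory
open scoped NNReal ENNReal Topology

namespace Pool.Agent.Work.MP_3e01db_pr.AN

theorem NM_gauss (v : ℝ≥0) (hv : v ≠ 0) : gaussianReal 0 v (Set.Ici (0 : ℝ)) = 2⁻¹ := by
  have hna := nullSingletonClass_gaussianReal (μ := 0) hv
  have h1 : gaussianReal 0 v (Set.Iic (0 : ℝ)) = gaussianReal 0 v (Set.Ici (0 : ℝ)) := by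
    have h2 : (gaussianReal 0 v).map (fun x : ℝ ↦ -x) = gaussianReal 0 v := by
      rw [gaussianReal_map_neg, neg_zero]
    conv_lhs => rw [← h2]
    rw [Measure.map_apply measurable_neg measurableSet_Iic]
    congr 1
    ext x
    simp
  have h3 : gaussianReal 0 v (Set.Iio (0 : ℝ)) = gaussianReal 0 v (Set.Iic (0 : ℝ)) :=
    measure_congr Iio_ae_eq_Iic
  have h4 : gaussianReal 0 v (Set.Ici (0 : ℝ)) + gaussianReal 0 v (Set.Iio (0 : ℝ)) = 1 := by
    have h5 := measure_add_measure_compl (μ := gaussianReal 0 v) (measurableSet_Ici (a := (0 : ℝ)))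
    rw [Set.compl_Ici, measure_univ] at h5
    exact h5
  rw [h3, h1, ← two_mul] at h4
  rw [← ENNReal.eq_inv_of_mul_eq_one_left (a := gaussianReal 0 v (Set.Ici (0 : ℝ))) (b := 2)]
  rw [mul_comm]
  exact h4

theorem NM_null {Ω : Type*} {mΩ : MeasurableSpace Ω} (P : Measure Ω) (B : ℝ≥0 → Ω → ℝ)
    (hB : IsPreBrownianReal B P) (a b : ℝ≥0) (hab : a < b) :
    ∀ᵐ ω ∂P, ¬ MonotoneOn (fun t ↦ B t ω) (Set.Icc a b) := by
  rw [ae_iff]
  simp only [not_not]
  have key : ∀ n : ℕ, P {ω | MonotoneOn (fun t ↦ B t ω) (Set.Icc a b)} ≤ 2⁻¹ ^ n := by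
    intro n
    obtain ⟨c, hc, hcn⟩ : ∃ c : ℝ≥0, 0 < c ∧ n * c ≤ b - a := by
      refine ⟨(b - a) / (n + 1), div_pos (tsub_pos_of_lt hab) (by positivity), ?_⟩
      rw [mul_div_assoc', div_le_iff₀ (by positivity), mul_comm]
      gcongr
      simp
    have hmono : Monotone (fun i : ℕ ↦ a + i * c) := by
      intro i j hij
      dsimp only
      gcongr
    have hind := hB.hasIndepIncrements.nat hmono
    have hm := hind.measure_inter_preimage_eq_mul (Finset.range n)
      (sets := fun _ ↦ Set.Ici (0 : ℝ)) (fun _ _ ↦ measurableSet_Ici)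
    have hone : ∀ i ∈ Finset.range n,
        P ((fun ω ↦ B (a + ((i + 1 : ℕ) : ℝ≥0) * c) ω - B (a + (i : ℝ≥0) * c) ω) ⁻¹'
          Set.Ici (0 : ℝ)) = 2⁻¹ := by
      intro i _
      have hl := hB.hasLaw_sub (a + ((i + 1 : ℕ) : ℝ≥0) * c) (a + (i : ℝ≥0) * c)
      have h1 : P ((B (a + ((i + 1 : ℕ) : ℝ≥0) * c) - B (a + (i : ℝ≥0) * c)) ⁻¹'
          Set.Ici (0 : ℝ)) = 2⁻¹ := by
        rw [← Measure.map_apply_of_aemeasurable hl.aemeasurable measurableSet_Ici, hl.map_eq]
        apply NM_gauss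
        intro h0
        rw [nndist_eq_zero] at h0
        have h2 : a + ((i + 1 : ℕ) : ℝ≥0) * c = a + (i : ℝ≥0) * c := NNReal.coe_injective h0
        have h3 := add_left_cancel h2
        push_cast at h3
        rw [add_mul, one_mul] at h3
        have h4 : (i : ℝ≥0) * c + c = (i : ℝ≥0) * c + 0 := by rw [h3, add_zero]
        exact hc.ne' (add_left_cancel h4)
      exact h1
    rw [Finset.prod_congr rfl hone, Finset.prod_const, Finset.card_range] at hm
    rw [← hm]
    refine measure_mono ?_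
    intro ω hω
    rw [Set.mem_iInter₂]
    intro i hi
    rw [Finset.mem_range] at hi
    show 0 ≤ B (a + ((i + 1 : ℕ) : ℝ≥0) * c) ω - B (a + (i : ℝ≥0) * c) ω
    rw [sub_nonneg]
    have hle : ∀ j : ℕ, j ≤ n → a + (j : ℝ≥0) * c ∈ Set.Icc a b := by
      intro j hj
      refine ⟨le_self_add, ?_⟩
      calc a + (j : ℝ≥0) * c ≤ a + (n : ℝ≥0) * c := by gcongr
        _ ≤ a + (b - a) := by gcongr
        _ = b := add_tsub_cancel_of_le hab.le
    exact hω (hle i hi.le) (hle (i + 1) hi) (hmono (Nat.le_succ i))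
  have hlim : Filter.Tendsto (fun n : ℕ ↦ (2⁻¹ : ℝ≥0∞) ^ n) Filter.atTop (𝓝 0) :=
    ENNReal.tendsto_pow_atTop_nhds_zero_of_lt_one (by simp)
  exact le_antisymm (ge_of_tendsto' hlim key) bot_le

theorem pr_NM.{u} : S_NM.{u} := by
  intro Ω mΩ P B hB
  have h1 : ∀ᵐ ω ∂P, ∀ p q : ℚ, Real.toNNReal p < Real.toNNReal q →
      ¬ MonotoneOn (fun t ↦ B t ω) (Set.Icc (Real.toNNReal p) (Real.toNNReal q)) ∧
      ¬ MonotoneOn (fun t ↦ (-B) t ω) (Set.Icc (Real.toNNReal p) (Real.toNNReal q)) := by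
    rw [ae_all_iff]
    intro p
    rw [ae_all_iff]
    intro q
    by_cases hpq : Real.toNNReal p < Real.toNNReal q
    · filter_upwards [NM_null P B hB.toIsPreBrownianReal _ _ hpq,
        NM_null P (-B) hB.toIsPreBrownianReal.neg _ _ hpq] with ω h2 h3
      exact fun _ ↦ ⟨h2, h3⟩
    · exact Filter.Eventually.of_forall fun ω h ↦ absurd h hpq
  filter_upwards [h1] with ω hω a b hab
  obtain ⟨p, -, hap, hpb⟩ := (NNReal.lt_iff_exists_rat_btwn a b).1 hab
  obtain ⟨q, -, hpq, hqb⟩ := (NNReal.lt_iff_exists_rat_btwn _ b).1 hpb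
  obtain ⟨h2, h3⟩ := hω p q hpq
  have hsub : Set.Icc (Real.toNNReal p) (Real.toNNReal q) ⊆ Set.Icc a b :=
    Set.Icc_subset_Icc hap.le hqb.le
  refine ⟨fun h ↦ h2 (h.mono hsub), fun h ↦ h3 ?_⟩
  have h4 := (h.mono hsub).neg
  exact h4

end Pool.Agent.Work.MP_3e01db_pr.AN

end

section

/-!
Item Reg: regular version of a Brownian motion.
-/

open MeasureTheory ProbabilityTheory
open scoped NNReal ENNReal Topology

namespace Pool.Agent.Work.MP_3e01db_pr.AN

theorem pr_Reg.{u} : S_Reg.{u} := by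
  classical
  intro Ω mΩ P B hB
  have hpre : IsPreBrownianReal B P := hB.toIsPreBrownianReal
  have haem : ∀ k : ℕ, AEMeasurable (B (TopologicalSpace.denseSeq ℝ≥0 k)) P :=
    fun k ↦ hpre.aemeasurable _
  have hgood : ∀ᵐ ω ∂P, (∀ k : ℕ, B (TopologicalSpace.denseSeq ℝ≥0 k) ω = (haem k).mk _ ω) ∧
      Continuous (fun t ↦ B t ω) ∧ B 0 ω = 0 := by
    have h1 : ∀ᵐ ω ∂P, ∀ k : ℕ, B (TopologicalSpace.denseSeq ℝ≥0 k) ω = (haem k).mk _ ω :=
      ae_all_iff.2 fun k ↦ (haem k).ae_eq_mk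
    filter_upwards [h1, hB.cont, hpre.eval_zero_ae_eq_zero] with ω a b c
    exact ⟨a, b, c⟩
  rw [ae_iff] at hgood
  set bad : Set Ω := {ω | ¬ ((∀ k : ℕ, B (TopologicalSpace.denseSeq ℝ≥0 k) ω = (haem k).mk _ ω) ∧
      Continuous (fun t ↦ B t ω) ∧ B 0 ω = 0)} with hbad
  set N : Set Ω := toMeasurable P bad with hN
  have hNm : MeasurableSet N := measurableSet_toMeasurable P bad
  have hN0 : P N = 0 := by rw [hN, measure_toMeasurable, hgood]
  have hsub : ∀ ω, ω ∉ N → (∀ k : ℕ, B (TopologicalSpace.denseSeq ℝ≥0 k) ω = (haem k).mk _ ω) ∧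
      Continuous (fun t ↦ B t ω) ∧ B 0 ω = 0 := by
    intro ω hω
    by_contra h
    exact hω (subset_toMeasurable P bad h)
  have hcont : ∀ ω, Continuous fun t : ℝ≥0 ↦ (if ω ∈ N then (0 : ℝ) else B t ω) := by
    intro ω
    by_cases h : ω ∈ N
    · simp only [if_pos h]
      exact continuous_const
    · simp only [if_neg h]
      exact (hsub ω h).2.1
  have hmq : ∀ k : ℕ, Measurable fun ω ↦
      (if ω ∈ N then (0 : ℝ) else B (TopologicalSpace.denseSeq ℝ≥0 k) ω) := by
    intro k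
    have : (fun ω ↦ (if ω ∈ N then (0 : ℝ) else B (TopologicalSpace.denseSeq ℝ≥0 k) ω)) =
        fun ω ↦ (if ω ∈ N then (0 : ℝ) else (haem k).mk _ ω) := by
      funext ω
      by_cases h : ω ∈ N
      · rw [if_pos h, if_pos h]
      · rw [if_neg h, if_neg h, (hsub ω h).1 k]
    rw [this]
    exact Measurable.ite hNm measurable_const (haem k).measurable_mk
  have hae : ∀ᵐ ω ∂P, ∀ t, B t ω = if ω ∈ N then (0 : ℝ) else B t ω := by
    have : ∀ᵐ ω ∂P, ω ∉ N := by
      rw [ae_iff]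
      simpa using hN0
    filter_upwards [this] with ω hω t
    rw [if_neg hω]
  refine ⟨fun t ω ↦ if ω ∈ N then (0 : ℝ) else B t ω, ?_, hcont, ?_, ?_, hae⟩
  · intro t
    have ht : t ∈ closure (Set.range (TopologicalSpace.denseSeq ℝ≥0)) :=
      TopologicalSpace.denseRange_denseSeq ℝ≥0 t
    obtain ⟨x, hx, hxt⟩ := mem_closure_iff_seq_limit.1 ht
    choose k hk using hx
    refine measurable_of_tendsto_metrizable (f := fun n ω ↦ if ω ∈ N then (0 : ℝ) else B (x n) ω)
      (fun n ↦ ?_) ?_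
    · have := hmq (k n)
      rwa [hk n] at this
    · rw [tendsto_pi_nhds]
      intro ω
      exact ((hcont ω).tendsto t).comp hxt
  · intro ω
    by_cases h : ω ∈ N
    · exact if_pos h
    · show (if ω ∈ N then (0 : ℝ) else B 0 ω) = 0
      rw [if_neg h, (hsub ω h).2.2]
  · exact hpre.congr fun t ↦ hae.mono fun ω h ↦ h t

end Pool.Agent.Work.MP_3e01db_pr.AN

end

section

/-!
# Item Rev: reversal of a Brownian path
-/

set_option autoImplicit false

open MeasureTheory ProbabilityTheory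
open scoped NNReal ENNReal Topology

namespace Pool.Agent.Work.MP_3e01db_pr.AN

open Pool.Agent.Work.MP_3e01db_pr.SM

namespace Rev

universe u

variable {Ω : Type u} {mΩ : MeasurableSpace Ω} {P : Measure Ω} {B C : ℝ≥0 → Ω → ℝ}

/-- two independent pre-Brownian motions are jointly Gaussian -/
theorem joint (hB : IsPreBrownianReal B P) (hC : IsPreBrownianReal C P)
    (h : IndepFun (fun ω t ↦ B t ω) (fun ω t ↦ C t ω) P) :
    IsGaussianProcess (Sum.elim B C) P where
  hasGaussianLaw I := by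
    classical
    have hI1 := hB.isGaussianProcess.hasGaussianLaw I.toLeft
    have hI2 := hC.isGaussianProcess.hasGaussianLaw I.toRight
    have hind : IndepFun (fun ω ↦ I.toLeft.restrict (B · ω)) (fun ω ↦ I.toRight.restrict (C · ω))
        P := h.comp (Finset.measurable_restrict I.toLeft) (Finset.measurable_restrict I.toRight)
    have hj := hind.hasGaussianLaw hI1 hI2
    let L0 : ((I.toLeft → ℝ) × (I.toRight → ℝ)) →ₗ[ℝ] (I → ℝ) :=
      { toFun x i := match i with
          | ⟨Sum.inl s, hs⟩ => x.1 ⟨s, Finset.mem_toLeft.2 hs⟩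
          | ⟨Sum.inr s, hs⟩ => x.2 ⟨s, Finset.mem_toRight.2 hs⟩
        map_add' x y := by
          ext i
          rcases i with ⟨s | s, hs⟩ <;> simp
        map_smul' c x := by
          ext i
          rcases i with ⟨s | s, hs⟩ <;> simp }
    have := hj.map (LinearMap.toContinuousLinearMap L0)
    refine cast ?_ this
    congr 1
    funext ω
    funext i
    rcases i with ⟨s | s, hs⟩ <;> simp [L0]

/-- the uniform version of the reversed process -/
noncomputable def Z' (B C : ℝ≥0 → Ω → ℝ) (p : ℝ≥0) : ℝ≥0 → Ω → ℝ :=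
  fun t ω ↦ C (t - p) ω + (B (p - t) ω - B p ω)

/-- the reversed process -/
noncomputable def Z (B C : ℝ≥0 → Ω → ℝ) (p : ℝ≥0) : ℝ≥0 → Ω → ℝ :=
  fun t ω ↦ if t ≤ p then B (p - t) ω - B p ω else C (t - p) ω + (B 0 ω - B p ω)

theorem ae_eq (hC : IsPreBrownianReal C P) (p t : ℝ≥0) : Z' B C p t =ᵐ[P] Z B C p t := by
  filter_upwards [hC.eval_zero_ae_eq_zero] with ω hω
  simp only [Z', Z]
  split_ifs with h
  · rw [tsub_eq_zero_of_le h, hω, zero_add]
  · rw [tsub_eq_zero_of_le (not_le.1 h).le]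

theorem gauss (hB : IsPreBrownianReal B P) (hC : IsPreBrownianReal C P)
    (h : IndepFun (fun ω t ↦ B t ω) (fun ω t ↦ C t ω) P) (p : ℝ≥0) :
    IsGaussianProcess (Sum.elim (incr B p) (Z' B C p)) P := by
  classical
  apply (joint hB hC h).of_isGaussianProcess
  rintro (t | t)
  · exact ⟨{Sum.inl p, Sum.inl (p + t)},
      { toFun x := x ⟨Sum.inl (p + t), by simp⟩ - x ⟨Sum.inl p, by simp⟩
        map_add' x y := by simp; abel
        map_smul' c x := by simp; ring }, by simp⟩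
  · exact ⟨{Sum.inr (t - p), Sum.inl (p - t), Sum.inl p},
      { toFun x := x ⟨Sum.inr (t - p), by simp⟩ +
          (x ⟨Sum.inl (p - t), by simp⟩ - x ⟨Sum.inl p, by simp⟩)
        map_add' x y := by simp; abel
        map_smul' c x := by simp; ring }, by simp [Z']⟩

theorem memLp (hB : IsPreBrownianReal B P) (t : ℝ≥0) : MemLp (B t) 2 P :=
  (hB.isGaussianProcess.hasGaussianLaw_eval t).memLp_two

theorem cross (hB : IsPreBrownianReal B P) (hC : IsPreBrownianReal C P)
    (h : IndepFun (fun ω t ↦ B t ω) (fun ω t ↦ C t ω) P) (s t : ℝ≥0) :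
    cov[B s, C t; P] = 0 := by
  have h1 : IndepFun (B s) (C t) P := h.comp (measurable_pi_apply s) (measurable_pi_apply t)
  exact h1.covariance_eq_zero (memLp hB s) (memLp hC t)

theorem covB (hB : IsPreBrownianReal B P) [IsFiniteMeasure P] (a b c d : ℝ≥0) :
    cov[fun ω ↦ B a ω - B b ω, fun ω ↦ B c ω - B d ω; P] =
      (min a c : ℝ≥0) - (min a d : ℝ≥0) - (min b c : ℝ≥0) + (min b d : ℝ≥0) := by
  rw [covariance_fun_sub_fun_sub (memLp hB a) (memLp hB b) (memLp hB c) (memLp hB d)]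
  simp only [hB.covariance_eval]

theorem covBC (hB : IsPreBrownianReal B P) (hC : IsPreBrownianReal C P)
    (h : IndepFun (fun ω t ↦ B t ω) (fun ω t ↦ C t ω) P) [IsFiniteMeasure P] (a b c : ℝ≥0) :
    cov[fun ω ↦ B a ω - B b ω, C c; P] = 0 := by
  rw [covariance_fun_sub_left (memLp hB a) (memLp hB b) (memLp hC c), cross hB hC h,
    cross hB hC h, sub_zero]

theorem covZ (hB : IsPreBrownianReal B P) (hC : IsPreBrownianReal C P)
    (h : IndepFun (fun ω t ↦ B t ω) (fun ω t ↦ C t ω) P) (p s t : ℝ≥0) (hst : s ≤ t) :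
    cov[Z' B C p s, Z' B C p t; P] = s := by
  have := hB.isGaussianProcess.isProbabilityMeasure
  have e : ∀ r, Z' B C p r = C (r - p) + fun ω ↦ (B (p - r) ω - B p ω) := fun r ↦ rfl
  have hm : ∀ r, MemLp (fun ω ↦ (B (p - r) ω - B p ω)) 2 P := fun r ↦
    (memLp hB (p - r)).sub (memLp hB p)
  rw [e, e, covariance_add_left (memLp hC _) (hm _) ((memLp hC _).add (hm _)),
    covariance_add_right (memLp hC _) (memLp hC _) (hm _),
    covariance_add_right (hm _) (memLp hC _) (hm _), covB hB, covBC hB hC h,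
    covariance_comm (C (s - p)) (fun ω ↦ (B (p - t) ω - B p ω)), covBC hB hC h,
    hC.covariance_eval]
  rcases le_total p s with h1 | h1
  · have h2 : p ≤ t := h1.trans hst
    rw [tsub_eq_zero_of_le h1, tsub_eq_zero_of_le h2, min_eq_left (tsub_le_tsub_right hst p)]
    simp [NNReal.coe_sub h1]
  · rcases le_total p t with h2 | h2
    · rw [tsub_eq_zero_of_le h1, tsub_eq_zero_of_le h2]
      simp [NNReal.coe_sub h1]
    · rw [tsub_eq_zero_of_le h1, tsub_eq_zero_of_le h2, min_eq_right (tsub_le_tsub_left hst p),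
        min_eq_left (tsub_le_self : p - s ≤ p), min_eq_right (tsub_le_self : p - t ≤ p)]
      simp [NNReal.coe_sub h1]

theorem covIZ (hB : IsPreBrownianReal B P) (hC : IsPreBrownianReal C P)
    (h : IndepFun (fun ω t ↦ B t ω) (fun ω t ↦ C t ω) P) (p s t : ℝ≥0) :
    cov[incr B p s, Z' B C p t; P] = 0 := by
  have := hB.isGaussianProcess.isProbabilityMeasure
  have e : ∀ r, Z' B C p r = C (r - p) + fun ω ↦ (B (p - r) ω - B p ω) := fun r ↦ rfl
  have hm : ∀ r, MemLp (fun ω ↦ (B (p - r) ω - B p ω)) 2 P := fun r ↦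
    (memLp hB (p - r)).sub (memLp hB p)
  have hi : MemLp (fun ω ↦ (B (p + s) ω - B p ω)) 2 P :=
    (memLp hB (p + s)).sub (memLp hB p)
  have e' : incr B p s = fun ω ↦ (B (p + s) ω - B p ω) := rfl
  rw [e, e', covariance_add_right hi (memLp hC _) (hm _), covB hB, covBC hB hC h]
  have h1 : p - t ≤ p := tsub_le_self
  have h2 : p ≤ p + s := le_self_add
  rw [min_eq_right (h1.trans h2), min_eq_right h2, min_eq_right h1, min_self]
  ring

theorem meanZ (hB : IsPreBrownianReal B P) (hC : IsPreBrownianReal C P) (p t : ℝ≥0) :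
    P[Z' B C p t] = 0 := by
  have e : Z' B C p t = fun ω ↦ C (t - p) ω + (B (p - t) ω - B p ω) := rfl
  have h1 : Integrable (fun ω ↦ B (p - t) ω - B p ω) P :=
    (hB.integrable_eval _).sub (hB.integrable_eval _)
  have h2 : ∫ ω, (B (p - t) ω - B p ω) ∂P = 0 := by
    rw [integral_sub (hB.integrable_eval _) (hB.integrable_eval _), hB.integral_eval,
      hB.integral_eval, sub_zero]
  rw [e, integral_add (hC.integrable_eval _) h1, hC.integral_eval, h2, add_zero]

end Rev

theorem pr_Rev.{u} : S_Rev.{u} := by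
  intro Ω mΩ P B C p mB mC hB hC h
  have hg := Rev.gauss hB hC h p
  have hg' : IsGaussianProcess (Rev.Z' B C p) P := hg.comp_right Sum.inr
  have h1 : IsPreBrownianReal (Rev.Z' B C p) P :=
    hg'.isPreBrownianReal_of_covariance (Rev.meanZ hB hC p)
      (fun s t hst ↦ Rev.covZ hB hC h p s t hst)
  refine ⟨h1.congr (Rev.ae_eq hC p), ?_⟩
  have mZ : ∀ t, Measurable (Rev.Z' B C p t) := fun t ↦ by
    unfold Rev.Z'
    exact (mC _).add ((mB _).sub (mB _))
  have mI : ∀ t, Measurable (incr B p t) := fun t ↦ (mB _).sub (mB _)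
  have h2 : IndepFun (fun ω t ↦ incr B p t ω) (fun ω t ↦ Rev.Z' B C p t ω) P :=
    hg.indepFun_of_covariance_eq_zero (fun s ↦ (mI s).aemeasurable)
      (fun s ↦ (mZ s).aemeasurable) (Rev.covIZ hB hC h p)
  have h3 : (fun ω t ↦ Rev.Z' B C p t ω) =ᵐ[P] (fun ω t ↦ Rev.Z B C p t ω) := by
    filter_upwards [hC.eval_zero_ae_eq_zero] with ω hω
    funext t
    simp only [Rev.Z', Rev.Z]
    split_ifs with h
    · rw [tsub_eq_zero_of_le h, hω, zero_add]
    · rw [tsub_eq_zero_of_le (not_le.1 h).le]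
  have h4 := h2.congr Filter.EventuallyEq.rfl h3
  rw [IndepFun_iff_Indep] at h4
  exact h4

end Pool.Agent.Work.MP_3e01db_pr.AN

end

section

set_option autoImplicit false

open MeasureTheory ProbabilityTheory
open scoped NNReal ENNReal Topology

namespace Pool.Agent.Work.MP_3e01db_pr.AN

open Pool.Agent.Work.MP_3e01db_pr.SM

universe u

namespace Sgn

/-- paths which exit upwards -/
def Up (ε : ℝ) : Set (ℝ≥0 → ℝ) :=
  {f | ∃ q : ℚ, (fun s ↦ f s - ε) ∈ reachSet (Real.toNNReal q) ∧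
    (fun s ↦ -f s - ε) ∉ reachSet (Real.toNNReal q)}

lemma measurableSet_Up (ε : ℝ) : MeasurableSet (Up ε) := by
  have : Up ε = ⋃ q : ℚ, (((fun (f : ℝ≥0 → ℝ) (s : ℝ≥0) ↦ f s - ε) ⁻¹'
      (reachSet (Real.toNNReal q))) ∩
      ((fun (f : ℝ≥0 → ℝ) (s : ℝ≥0) ↦ -f s - ε) ⁻¹' (reachSet (Real.toNNReal q)))ᶜ) := by
    ext f
    simp only [Up, Set.mem_ofPred_eq, Set.mem_iUnion, Set.mem_inter_iff, Set.mem_compl_iff,
      Set.mem_preimage]
  rw [this]
  refine MeasurableSet.iUnion fun q ↦ MeasurableSet.inter ?_ (MeasurableSet.compl ?_)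
  · exact (by fun_prop : Measurable (fun (f : ℝ≥0 → ℝ) (s : ℝ≥0) ↦ f s - ε))
      (measurableSet_reachSet _)
  · exact (by fun_prop : Measurable (fun (f : ℝ≥0 → ℝ) (s : ℝ≥0) ↦ -f s - ε))
      (measurableSet_reachSet _)

lemma mem_Up_iff {ε : ℝ} {f : ℝ≥0 → ℝ} (hf : Continuous f) : f ∈ Up ε ↔
    ∃ q : ℚ, (∃ s ≤ Real.toNNReal q, ε ≤ f s) ∧ ¬ ∃ s ≤ Real.toNNReal q, ε ≤ -f s := by
  have h1 : ∀ t : ℝ≥0, (fun s ↦ f s - ε) ∈ reachSet t ↔ ∃ s ≤ t, ε ≤ f s := by
    intro t
    have h2 := reach_iff (f := fun s ↦ f s - ε) (by fun_prop) t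
    simp only [sub_nonneg] at h2
    exact h2.symm
  have h3 : ∀ t : ℝ≥0, (fun s ↦ -f s - ε) ∈ reachSet t ↔ ∃ s ≤ t, ε ≤ -f s := by
    intro t
    have h2 := reach_iff (f := fun s ↦ -f s - ε) (by fun_prop) t
    simp only [sub_nonneg] at h2
    exact h2.symm
  unfold Up
  simp only [Set.mem_ofPred_eq, h1, h3]

lemma sgn_true_iff {ε : ℝ} (hε : 0 < ε) {f : ℝ≥0 → ℝ} (hf : Continuous f)
    (hex : ∃ s, 0 ≤ |f s| - ε) : sgn ε f = true ↔ f ∈ Up ε := by
  have hτ : 0 ≤ |f (exitT ε f)| - ε := firstT_mem (f := fun s ↦ |f s| - ε) (by fun_prop) hex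
  have hlt : ∀ s, s < exitT ε f → |f s| - ε < 0 :=
    fun s hs ↦ lt_of_lt_firstT (f := fun s ↦ |f s| - ε) hs
  have hle : ∀ s, 0 ≤ |f s| - ε → exitT ε f ≤ s :=
    fun s hs ↦ firstT_le (f := fun s ↦ |f s| - ε) hs
  have hs : sgn ε f = true ↔ 0 < f (exitT ε f) := by
    unfold sgn
    rw [decide_eq_true_iff]
  rw [hs, mem_Up_iff hf]
  constructor
  · intro h0
    have h1 : ∀ᶠ s in 𝓝 (exitT ε f), 0 < f s := hf.continuousAt.eventually (lt_mem_nhds h0)
    obtain ⟨δ, hδ, h2⟩ := Metric.eventually_nhds_iff.1 h1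
    obtain ⟨q, hq1, hq2⟩ := exists_rat_btwn
      (show ((exitT ε f : ℝ≥0) : ℝ) < (exitT ε f : ℝ≥0) + δ by linarith)
    have hq0 : (0 : ℝ) ≤ q := (NNReal.coe_nonneg _).trans hq1.le
    refine ⟨q, ⟨exitT ε f, ?_, ?_⟩, ?_⟩
    · rw [← NNReal.coe_le_coe, Real.coe_toNNReal _ hq0]
      exact hq1.le
    · rw [abs_of_pos h0] at hτ
      linarith
    · rintro ⟨s, hsq, hs⟩
      rw [← NNReal.coe_le_coe, Real.coe_toNNReal _ hq0] at hsq
      rcases lt_or_ge s (exitT ε f) with h3 | h3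
      · have h4 := hlt s h3
        have h5 := neg_le_abs (f s)
        linarith
      · have h4 : 0 < f s := by
          apply h2
          rw [NNReal.dist_eq, abs_of_nonneg]
          · linarith
          · have : ((exitT ε f : ℝ≥0) : ℝ) ≤ s := NNReal.coe_le_coe.2 h3
            linarith
        linarith
  · rintro ⟨q, ⟨s, hsq, hs⟩, hn⟩
    have h1 : exitT ε f ≤ s := hle s (by have := le_abs_self (f s); linarith)
    by_contra hc
    push Not at hc
    apply hn
    refine ⟨exitT ε f, h1.trans hsq, ?_⟩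
    rw [abs_of_nonpos hc] at hτ
    linarith

lemma exitT_neg (ε : ℝ) (f : ℝ≥0 → ℝ) : exitT ε (fun s ↦ -f s) = exitT ε f := by
  unfold exitT
  congr 1
  funext s
  rw [abs_neg]

lemma sgn_neg {ε : ℝ} (hε : 0 < ε) {f : ℝ≥0 → ℝ} (hf : Continuous f)
    (hex : ∃ s, 0 ≤ |f s| - ε) : sgn ε f = false ↔ sgn ε (fun s ↦ -f s) = true := by
  have hτ : 0 ≤ |f (exitT ε f)| - ε := firstT_mem (f := fun s ↦ |f s| - ε) (by fun_prop) hex
  unfold sgn
  rw [decide_eq_false_iff_not, decide_eq_true_iff, exitT_neg]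
  constructor
  · intro h
    push Not at h
    rw [abs_of_nonpos h] at hτ
    linarith
  · intro h h2
    linarith

lemma half {Ω : Type*} [MeasurableSpace Ω] (P : Measure Ω) [IsProbabilityMeasure P]
    (B : ℝ≥0 → Ω → ℝ) (hm : ∀ t, Measurable (B t)) (hc : ∀ ω, Continuous fun t ↦ B t ω)
    (hb : IsPreBrownianReal B P) {ε : ℝ} (hε : 0 < ε) (hex : ∀ᵐ ω ∂P, ∃ s, 0 ≤ |B s ω| - ε) :
    P {ω | (fun s ↦ B s ω) ∈ Up ε} = 2⁻¹ ∧ P {ω | (fun s ↦ B s ω) ∈ Up ε}ᶜ = 2⁻¹ ∧
      ∀ᵐ ω ∂P, (sgn ε (fun s ↦ B s ω) = true ↔ (fun s ↦ B s ω) ∈ Up ε) := by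
  have hUm : MeasurableSet {ω | (fun s ↦ B s ω) ∈ Up ε} :=
    (measurable_pi_lambda (fun ω t ↦ B t ω) hm) (measurableSet_Up ε)
  have htrue : ∀ᵐ ω ∂P, (sgn ε (fun s ↦ B s ω) = true ↔ (fun s ↦ B s ω) ∈ Up ε) := by
    filter_upwards [hex] with ω hω
    exact sgn_true_iff hε (hc ω) hω
  have hlaw : P.map (fun ω ↦ (fun t ↦ B t ω)) = P.map (fun ω ↦ (fun t ↦ (-B) t ω)) := by
    rw [map_eq_iff_forall_finset_map_restrict_eq]
    · intro I
      have h1 := (hb.hasLaw I).map_eq
      have h2 := (hb.neg.hasLaw I).map_eq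
      rw [h1, h2]
    · exact (measurable_pi_lambda _ hm).aemeasurable
    · exact (measurable_pi_lambda _ fun t ↦ (hm t).neg).aemeasurable
  have hsym : P {ω | (fun s ↦ B s ω) ∈ Up ε} = P {ω | (fun t ↦ (-B) t ω) ∈ Up ε} := by
    have h1 : P.map (fun ω ↦ (fun t ↦ B t ω)) (Up ε) = P {ω | (fun s ↦ B s ω) ∈ Up ε} := by
      rw [Measure.map_apply (measurable_pi_lambda _ hm) (measurableSet_Up ε)]
      rfl
    have h2 : P.map (fun ω ↦ (fun t ↦ (-B) t ω)) (Up ε) =
        P {ω | (fun t ↦ (-B) t ω) ∈ Up ε} := by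
      have h3 : Measurable (fun ω ↦ (fun t ↦ (-B) t ω)) :=
        measurable_pi_lambda _ fun t ↦ (hm t).neg
      rw [Measure.map_apply h3 (measurableSet_Up ε)]
      rfl
    rw [← h1, ← h2, hlaw]
  have hcompl : ({ω | (fun t ↦ (-B) t ω) ∈ Up ε} : Set Ω) =ᵐ[P]
      ({ω | (fun s ↦ B s ω) ∈ Up ε}ᶜ : Set Ω) := by
    filter_upwards [hex] with ω hω
    apply propext
    have h1 : (fun s ↦ B s ω) ∈ Up ε ↔ sgn ε (fun s ↦ B s ω) = true :=
      (sgn_true_iff hε (hc ω) hω).symm
    have h2 := sgn_neg hε (hc ω) hω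
    have h3 : sgn ε (fun s ↦ -B s ω) = true ↔ (fun s ↦ -B s ω) ∈ Up ε := by
      have h4 : Continuous (fun s ↦ -B s ω) := (hc ω).neg
      apply sgn_true_iff hε h4
      obtain ⟨s, hs⟩ := hω
      exact ⟨s, by rwa [abs_neg]⟩
    change (fun t ↦ -B t ω) ∈ Up ε ↔ ¬ ((fun s ↦ B s ω) ∈ Up ε)
    rw [← h3, ← h2, h1]
    simp
  have hhalf : P {ω | (fun s ↦ B s ω) ∈ Up ε} = 2⁻¹ := by
    have h1 : P {ω | (fun s ↦ B s ω) ∈ Up ε} = P {ω | (fun s ↦ B s ω) ∈ Up ε}ᶜ := by
      rw [hsym, measure_congr hcompl]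
    have h2 : P {ω | (fun s ↦ B s ω) ∈ Up ε} + P {ω | (fun s ↦ B s ω) ∈ Up ε}ᶜ = 1 := by
      rw [measure_add_measure_compl hUm, measure_univ]
    rw [← h1, ← two_mul] at h2
    exact (ENNReal.eq_inv_of_mul_eq_one_left (by rw [mul_comm]; exact h2))
  refine ⟨hhalf, ?_, htrue⟩
  rw [← measure_congr hcompl, ← hsym, hhalf]

lemma final {Ω : Type*} {G mΩ : MeasurableSpace Ω} {P : Measure Ω} {B : ℝ≥0 → Ω → ℝ}
    (h : BMwrt P G B) {ε : ℝ} (hε : 0 < ε) (hex : ∀ᵐ ω ∂P, ∃ s, 0 ≤ |B s ω| - ε)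
    {A : Set Ω} (hA : MeasurableSet[G] A) (b : Bool) :
    P (A ∩ {ω | sgn ε (fun s ↦ B s ω) = b}) = P A * 2⁻¹ := by
  have hP := h.isProb
  obtain ⟨hhalf, hhalf', htrue⟩ := half P B h.meas h.cont h.bm hε hex
  have hUp : MeasurableSet[procσ B] {ω | (fun s ↦ B s ω) ∈ Up ε} :=
    ⟨Up ε, measurableSet_Up ε, rfl⟩
  have hUc : MeasurableSet[procσ B] {ω | (fun s ↦ B s ω) ∈ Up ε}ᶜ :=
    @MeasurableSet.compl _ _ (procσ B) hUp
  cases b with
  | true =>
    have h1 : (A ∩ {ω | sgn ε (fun s ↦ B s ω) = true} : Set Ω) =ᵐ[P]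
        (A ∩ {ω | (fun s ↦ B s ω) ∈ Up ε} : Set Ω) := by
      filter_upwards [htrue] with ω hω
      apply propext
      change (ω ∈ A ∧ sgn ε (fun s ↦ B s ω) = true) ↔ (ω ∈ A ∧ (fun s ↦ B s ω) ∈ Up ε)
      rw [hω]
    rw [measure_congr h1, (Indep_iff _ _ _).1 h.ind A _ hA hUp, hhalf]
  | false =>
    have h1 : (A ∩ {ω | sgn ε (fun s ↦ B s ω) = false} : Set Ω) =ᵐ[P]
        (A ∩ {ω | (fun s ↦ B s ω) ∈ Up ε}ᶜ : Set Ω) := by
      filter_upwards [htrue] with ω hω
      apply propext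
      change (ω ∈ A ∧ sgn ε (fun s ↦ B s ω) = false) ↔ (ω ∈ A ∧ ¬ (fun s ↦ B s ω) ∈ Up ε)
      rw [← hω, Bool.not_eq_true]
    rw [measure_congr h1, (Indep_iff _ _ _).1 h.ind A _ hA hUc, hhalf']

end Sgn

theorem pr_Sgn (hE : S_Exit.{u}) : S_Sgn.{u} := by
  intro Ω mΩ P G B h ε hε A hA b
  exact Sgn.final h hε (hE P G B h ε) hA b

end Pool.Agent.Work.MP_3e01db_pr.AN

end

section

/-!
The first exit direction is determined at the exit time.
-/

set_option autoImplicit false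

open MeasureTheory ProbabilityTheory
open scoped NNReal ENNReal Topology

namespace Pool.Agent.Work.MP_3e01db_pr.AN

open Pool.Agent.Work.MP_3e01db_pr.SM

theorem SgnAt_sgn_true (ε : ℝ) (f : ℝ≥0 → ℝ) : sgn ε f = true ↔ 0 < f (exitT ε f) := by
  unfold sgn
  exact decide_eq_true_iff

theorem SgnAt_sgn_false (ε : ℝ) (f : ℝ≥0 → ℝ) : sgn ε f = false ↔ ¬ 0 < f (exitT ε f) := by
  rw [← SgnAt_sgn_true, Bool.not_eq_true]

theorem SgnAt_comp {Ω : Type*} [MeasurableSpace Ω] (X : ℝ≥0 → Ω → ℝ)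
    (hX : ∀ s, Measurable (X s)) (hc : ∀ ω, Continuous fun s ↦ X s ω) (σ : Ω → ℝ≥0)
    (hσ : Measurable σ) : Measurable fun ω ↦ X (σ ω) ω := by
  have hj : Measurable (Function.uncurry X) :=
    measurable_uncurry_of_continuous_of_measurable hc hX
  exact hj.comp (hσ.prodMk measurable_id)

theorem SgnAt_min {Ω : Type*} [MeasurableSpace Ω] (τ : Ω → ℝ≥0) (t : ℝ≥0)
    (h : ∀ r ≤ t, MeasurableSet {ω | τ ω ≤ r}) : Measurable fun ω ↦ min (τ ω) t := by
  refine measurable_of_Iic fun r ↦ ?_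
  by_cases hr : t ≤ r
  · have : (fun ω ↦ min (τ ω) t) ⁻¹' Set.Iic r = Set.univ := by
      ext ω
      simp only [Set.mem_preimage, Set.mem_Iic, Set.mem_univ, iff_true]
      exact (min_le_right _ _).trans hr
    rw [this]
    exact MeasurableSet.univ
  · have hr' : r < t := not_le.1 hr
    have : (fun ω ↦ min (τ ω) t) ⁻¹' Set.Iic r = {ω | τ ω ≤ r} := by
      ext ω
      simp only [Set.mem_preimage, Set.mem_Iic, Set.mem_ofPred_eq]
      constructor
      · intro h1
        rcases min_le_iff.1 h1 with h2 | h2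
        · exact h2
        · exact absurd h2 hr
      · intro h1
        exact (min_le_left _ _).trans h1
    rw [this]
    exact h r hr'.le

theorem SgnAt_set {Ω : Type*} [MeasurableSpace Ω] (X : ℝ≥0 → Ω → ℝ)
    (hX : ∀ s, Measurable (X s)) (hc : ∀ ω, Continuous fun s ↦ X s ω) (σ : Ω → ℝ≥0)
    (hσ : Measurable σ) : MeasurableSet {ω | 0 < X (σ ω) ω} :=
  measurableSet_lt measurable_const (SgnAt_comp X hX hc σ hσ)

theorem SgnAt_core {Ω : Type*} [MeasurableSpace Ω] (B : ℝ≥0 → Ω → ℝ) (ε : ℝ) (t : ℝ≥0)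
    (hB : ∀ s ≤ t, Measurable (B s)) (hc : ∀ ω, Continuous fun s ↦ B s ω)
    (hτ : ∀ r ≤ t, MeasurableSet {ω | exitT ε (fun s ↦ B s ω) ≤ r}) (b : Bool) :
    MeasurableSet ({ω | sgn ε (fun s ↦ B s ω) = b} ∩ {ω | exitT ε (fun s ↦ B s ω) ≤ t}) := by
  have h1 : MeasurableSet {ω | 0 < B (min (min (exitT ε (fun s ↦ B s ω)) t) t) ω} := by
    refine SgnAt_set (fun s ω ↦ B (min s t) ω) (fun s ↦ hB _ (min_le_right _ _)) (fun ω ↦ ?_)
      (fun ω ↦ min (exitT ε (fun s ↦ B s ω)) t) (SgnAt_min _ t hτ)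
    have := hc ω
    fun_prop
  have h2 : ∀ ω, exitT ε (fun s ↦ B s ω) ≤ t →
      min (min (exitT ε (fun s ↦ B s ω)) t) t = exitT ε (fun s ↦ B s ω) := by
    intro ω hω
    rw [min_eq_left hω, min_eq_left hω]
  cases b with
  | true =>
    have : ({ω | sgn ε (fun s ↦ B s ω) = true} ∩ {ω | exitT ε (fun s ↦ B s ω) ≤ t}) =
        {ω | 0 < B (min (min (exitT ε (fun s ↦ B s ω)) t) t) ω} ∩
          {ω | exitT ε (fun s ↦ B s ω) ≤ t} := by
      ext ω
      simp only [Set.mem_inter_iff, Set.mem_ofPred_eq]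
      constructor
      · rintro ⟨h3, h4⟩
        refine ⟨?_, h4⟩
        rw [h2 ω h4]
        exact (SgnAt_sgn_true ε _).1 h3
      · rintro ⟨h3, h4⟩
        refine ⟨?_, h4⟩
        rw [h2 ω h4] at h3
        exact (SgnAt_sgn_true ε _).2 h3
    rw [this]
    exact h1.inter (hτ t le_rfl)
  | false =>
    have : ({ω | sgn ε (fun s ↦ B s ω) = false} ∩ {ω | exitT ε (fun s ↦ B s ω) ≤ t}) =
        {ω | 0 < B (min (min (exitT ε (fun s ↦ B s ω)) t) t) ω}ᶜ ∩
          {ω | exitT ε (fun s ↦ B s ω) ≤ t} := by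
      ext ω
      simp only [Set.mem_inter_iff, Set.mem_ofPred_eq, Set.mem_compl_iff]
      constructor
      · rintro ⟨h3, h4⟩
        refine ⟨?_, h4⟩
        rw [h2 ω h4]
        exact (SgnAt_sgn_false ε _).1 h3
      · rintro ⟨h3, h4⟩
        refine ⟨?_, h4⟩
        rw [h2 ω h4] at h3
        exact (SgnAt_sgn_false ε _).2 h3
    rw [this]
    exact h1.compl.inter (hτ t le_rfl)

theorem SgnAt_full {Ω : Type*} [MeasurableSpace Ω] (B : ℝ≥0 → Ω → ℝ) (ε : ℝ)
    (hB : ∀ s, Measurable (B s)) (hc : ∀ ω, Continuous fun s ↦ B s ω)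
    (hτ : Measurable fun ω ↦ exitT ε (fun s ↦ B s ω)) (b : Bool) :
    MeasurableSet {ω | sgn ε (fun s ↦ B s ω) = b} := by
  have h1 : MeasurableSet {ω | 0 < B (exitT ε (fun s ↦ B s ω)) ω} :=
    SgnAt_set B hB hc _ hτ
  cases b with
  | true =>
    have : {ω | sgn ε (fun s ↦ B s ω) = true} = {ω | 0 < B (exitT ε (fun s ↦ B s ω)) ω} := by
      ext ω
      exact SgnAt_sgn_true ε _
    rw [this]
    exact h1
  | false =>
    have : {ω | sgn ε (fun s ↦ B s ω) = false} = {ω | 0 < B (exitT ε (fun s ↦ B s ω)) ω}ᶜ := by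
      ext ω
      exact SgnAt_sgn_false ε _
    rw [this]
    exact h1.compl

theorem pr_SgnAt.{u} : S_SgnAt.{u} := by
  intro Ω mΩ P G B h ε _ hτ b
  refine ⟨?_, fun t ↦ ?_⟩
  · exact @SgnAt_full Ω mΩ B ε h.meas h.cont (meas_of_stop h hτ) b
  · refine @SgnAt_core Ω (past G B t) B ε t (fun s hs ↦ ?_) h.cont (fun r hr ↦ ?_) b
    · exact (measurable_upto B hs).mono le_sup_right le_rfl
    · exact past_mono (G := G) B hr _ (hτ r)

end Pool.Agent.Work.MP_3e01db_pr.AN

end

section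

set_option autoImplicit false

open MeasureTheory ProbabilityTheory
open scoped NNReal ENNReal Topology

namespace Pool.Agent.Work.MP_3e01db_pr.AN

open Pool.Agent.Work.MP_3e01db_pr.SM

universe u

theorem pr_Srw (hE : S_Exit.{u}) (hS : S_Sgn.{u}) (hSA : S_SgnAt.{u}) : S_Srw.{u} := by
  intro Ω mΩ P G B h ε hε A hA v
  induction v generalizing G B A with
  | nil =>
    have : {ω | signs ε ([] : List Bool).length (fun s ↦ B s ω) = []} = Set.univ := by
      ext ω; simp [signs]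
    rw [this, Set.inter_univ]
    simp
  | cons b v ih =>
    have hτ : ∀ t, MeasurableSet[past G B t] {ω | exitT ε (fun s ↦ B s ω) ≤ t} := by
      refine h.stop (X := fun s ω ↦ |B s ω| - ε) (fun ω ↦ ?_) (fun t s hst ↦ ?_) (hE P G B h ε)
      · exact (h.cont ω).abs.sub continuous_const
      · have h1 : Measurable[past G B t] (B s) :=
          (measurable_upto B hst).mono le_sup_right le_rfl
        have h2 : Measurable (fun x : ℝ ↦ |x| - ε) := by fun_prop
        exact h2.comp h1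
    have hst := h.strong hτ
    have hA' : MeasurableSet[atσ mΩ G B (fun ω ↦ exitT ε (fun s ↦ B s ω)) hτ]
        (A ∩ {ω | sgn ε (fun s ↦ B s ω) = b}) :=
      MeasurableSet.inter (le_atσ h.le hτ A hA) (hSA P G B h ε hε hτ b)
    have key := ih (atσ mΩ G B (fun ω ↦ exitT ε (fun s ↦ B s ω)) hτ)
      (restart B (fun ω ↦ exitT ε (fun s ↦ B s ω))) hst _ hA'
    have hset : A ∩ {ω | signs ε (b :: v).length (fun s ↦ B s ω) = b :: v} =
        (A ∩ {ω | sgn ε (fun s ↦ B s ω) = b}) ∩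
          {ω | signs ε v.length
            (fun s ↦ restart B (fun ω ↦ exitT ε (fun s ↦ B s ω)) s ω) = v} := by
      ext ω
      have e1 : signs ε (b :: v).length (fun s ↦ B s ω) =
          sgn ε (fun s ↦ B s ω) :: signs ε v.length (nxt ε (fun s ↦ B s ω)) := rfl
      have e2 : nxt ε (fun s ↦ B s ω) =
          (fun s ↦ restart B (fun ω ↦ exitT ε (fun s ↦ B s ω)) s ω) := rfl
      simp only [Set.mem_inter_iff, Set.mem_ofPred_eq]
      rw [e1, e2, List.cons.injEq, and_assoc]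
    rw [hset, key, hS P G B h ε hε A hA b, List.length_cons, pow_succ, mul_assoc]
    congr 1
    rw [mul_comm]

end Pool.Agent.Work.MP_3e01db_pr.AN

end
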