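import Mathlib
import Pool.Agent.Work.MP_3e01db_pr.Bd.B01
import Pool.Agent.Work.MP_3e01db_pr.Bd.B02
import Pool.Agent.Work.MP_3e01db_pr.Bd.B03

/-! Bundle of small proof modules (one section per former module). -/

section

/-!
# Z: almost surely `B 1 ≠ 0` and there is a zero after time `1`
-/

open MeasureTheory ProbabilityTheory
open scoped NNReal ENNReal Topology

namespace Pool.Agent.Work.MP_3e01db_pr.AN

open Pool.Agent.Work.MP_3e01db_pr.SM

theorem Z_reach.{u} (hCpl : S_Cpl.{u}) (hLevel : S_Level.{u}) {Ω : Type u} {mΩ : MeasurableSpace Ω}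
    (P : Measure Ω) (D : ℝ≥0 → Ω → ℝ) (hm : ∀ t, Measurable (D t))
    (hc : ∀ ω, Continuous fun t ↦ D t ω) (h0 : ∀ ω, D 0 ω = 0) (hD : IsPreBrownianReal D P) :
    ∀ᵐ ω ∂P, ∀ r : ℝ, ∃ s, D s ω ≤ -r := by
  have := hD.isGaussianProcess.isProbabilityMeasure
  have h1 := (hCpl P ⊥ D bot_le hm hc h0 hD (indep_bot_left _)).1
  exact hLevel P _ D h1

theorem pr_Z.{u} (hReg : S_Reg.{u}) (hCpl : S_Cpl.{u}) (hLevel : S_Level.{u}) : S_Z.{u} := by
  intro Ω mΩ P B hB
  obtain ⟨C, hCm, hCc, hC0, hCpre, hae⟩ := hReg P B hB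
  have hshift := hCpre.shift 1
  have hD := Z_reach hCpl hLevel P (incr C 1) (fun t ↦ (hCm _).sub (hCm _))
    (fun ω ↦ by have := hCc ω; fun_prop) (fun ω ↦ by simp [incr]) hshift
  have hD' := Z_reach hCpl hLevel P (-(incr C 1)) (fun t ↦ ((hCm _).sub (hCm _)).neg)
    (fun ω ↦ by
      have := hCc ω
      show Continuous fun t ↦ -(C (1 + t) ω - C 1 ω)
      fun_prop) (fun ω ↦ by simp [incr]) hshift.neg
  have hne : ∀ᵐ ω ∂P, C 1 ω ≠ 0 := by
    have hl := hCpre.hasLaw_eval 1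
    have hna := nullSingletonClass_gaussianReal (μ := 0) (v := 1) one_ne_zero
    have h1 : P (C 1 ⁻¹' {0}) = 0 := by
      rw [← Measure.map_apply_of_aemeasurable hl.aemeasurable (measurableSet_singleton 0),
        hl.map_eq]
      exact measure_singleton 0
    rw [ae_iff]
    have h2 : {a | ¬ C 1 a ≠ 0} = C 1 ⁻¹' {0} := by
      ext a
      simp
    rw [h2]
    exact h1
  filter_upwards [hae, hD, hD', hne] with ω h1 h2 h3 h4
  refine ⟨by rw [h1, hC0], by rw [h1]; exact h4, ?_⟩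
  have hcont := hCc ω
  rcases lt_or_gt_of_ne h4 with hneg | hpos
  · obtain ⟨s, hs⟩ := h3 (-(C 1 ω))
    have hs' : 0 ≤ C (1 + s) ω := by
      have : -(C (1 + s) ω - C 1 ω) ≤ -(-(C 1 ω)) := hs
      linarith
    have hle : (1 : ℝ≥0) ≤ 1 + s := le_self_add
    obtain ⟨t, ht, ht0⟩ := intermediate_value_Icc hle hcont.continuousOn
      (show (0 : ℝ) ∈ Set.Icc (C 1 ω) (C (1 + s) ω) from ⟨hneg.le, hs'⟩)
    refine ⟨t, lt_of_le_of_ne ht.1 ?_, by rw [h1]; exact ht0⟩
    rintro rfl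
    exact h4 ht0
  · obtain ⟨s, hs⟩ := h2 (C 1 ω)
    have hs' : C (1 + s) ω ≤ 0 := by
      have : C (1 + s) ω - C 1 ω ≤ -(C 1 ω) := hs
      linarith
    have hle : (1 : ℝ≥0) ≤ 1 + s := le_self_add
    obtain ⟨t, ht, ht0⟩ := intermediate_value_Icc' hle hcont.continuousOn
      (show (0 : ℝ) ∈ Set.Icc (C (1 + s) ω) (C 1 ω) from ⟨hs', hpos.le⟩)
    refine ⟨t, lt_of_le_of_ne ht.1 ?_, by rw [h1]; exact ht0⟩
    rintro rfl
    exact h4 ht0

end Pool.Agent.Work.MP_3e01db_pr.AN

end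

section

/-! # MP_3e01db_pr: block W assembled -/

namespace MP3e01

theorem all_rep : S_rep := pr_rep pr_concLe pr_concEq pr_pf
theorem all_wtU : S_wtU := pr_wtU pr_kraft
theorem all_wtDn : S_wtDn := pr_wtDn all_wtU
theorem all_wtFP : S_wtFP := pr_wtFP pr_kraft pr_pf
theorem all_wtStart : S_wtStart := pr_wtStart pr_concEq pr_pf all_rep all_wtU all_wtDn
theorem all_wtPages : S_wtPages := pr_wtPages pr_concEq pr_pf all_wtU all_wtDn all_wtStart
theorem all_wtAsc : S_wtAsc := pr_wtAsc pr_concEq pr_pf all_rep all_wtU pr_third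
theorem all_wtDes : S_wtDes := pr_wtDes pr_concEq pr_pf all_rep all_wtDn pr_third
theorem all_good : S_good :=
  pr_good pr_concEq pr_pf all_rep all_wtU all_wtDn all_wtStart all_wtAsc all_wtDes pr_labSub
    pr_pages
theorem all_clus : S_clus := pr_clus pr_pf all_rep pr_pages
theorem all_fail : S_fail := pr_fail pr_concLe pr_kraft pr_pf all_clus all_wtFP
theorem all_climb : S_climb := pr_climb pr_concLe all_rep all_wtU all_wtFP
theorem all_desc : S_desc := pr_desc pr_concLe all_rep all_wtDn all_wtFP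
theorem all_chain : S_chain := pr_chain pr_concLe all_climb all_desc all_wtFP

end MP3e01

end

section

/-!
# MP_3e01db_pr: homeomorphisms of coded trees preserve betweenness
-/

open Set
open scoped unitInterval

namespace MP3e01

namespace BtwHomeo

/-- four point condition of a metric space -/
def Hyp (X : Type*) [MetricSpace X] : Prop := ∀ x y z v : X,
  dist x y + dist z v ≤ max (dist x z + dist y v) (dist x v + dist y z)

variable {X Y : Type*} [MetricSpace X] [MetricSpace Y]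

/-- a point strictly between two points separates them -/
lemma separates (hX : Hyp X) {x z y : X} (h : dist x z + dist z y = dist x y)
    {S : Set X} (hS : IsPreconnected S) (hx : x ∈ S) (hy : y ∈ S) : z ∈ S := by
  by_contra hz
  have hxz : x ≠ z := fun e => hz (e ▸ hx)
  have hyz : y ≠ z := fun e => hz (e ▸ hy)
  set U : Set X := {v | 0 < dist x z + dist z v - dist x v} with hU
  set V : Set X := {v | v ≠ z ∧ dist x z + dist z v = dist x v} with hV
  have hUo : IsOpen U := by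
    apply isOpen_lt continuous_const
    fun_prop
  have hVo : IsOpen V := by
    rw [Metric.isOpen_iff]
    rintro v ⟨hv1, hv2⟩
    have hpos : 0 < dist z v := dist_pos.2 (Ne.symm hv1)
    refine ⟨dist z v, hpos, ?_⟩
    intro v' hv'
    rw [Metric.mem_ball, dist_comm] at hv'
    have h1 := hX x v' z v
    have h2 := hX x v z v'
    have t1 := dist_triangle x z v'
    have c1 := dist_comm v' z
    have c2 := dist_comm v' v
    have c3 := dist_comm v z
    have c4 := dist_comm v v'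
    have p1 : 0 ≤ dist z v' := dist_nonneg
    constructor
    · rintro rfl
      rw [dist_comm] at hv'
      exact lt_irrefl _ hv'
    · rcases le_max_iff.1 h2 with h2 | h2
      · linarith
      · linarith
  have hcov : S ⊆ U ∪ V := by
    intro v hv
    by_cases hvU : v ∈ U
    · exact Or.inl hvU
    · right
      refine ⟨fun e => hz (e ▸ hv), ?_⟩
      have : ¬ 0 < dist x z + dist z v - dist x v := hvU
      have t := dist_triangle x z v
      linarith
  have hSU : (S ∩ U).Nonempty := by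
    refine ⟨x, hx, ?_⟩
    show 0 < dist x z + dist z x - dist x x
    have : 0 < dist x z := dist_pos.2 hxz
    rw [dist_self, dist_comm z x]
    linarith
  have hSV : (S ∩ V).Nonempty := ⟨y, hy, hyz, h⟩
  obtain ⟨u, hu, hu1, hu2⟩ := hS U V hUo hVo hcov hSU hSV
  have hu1' : 0 < dist x z + dist z u - dist x u := hu1
  have hu3 := hu2.2
  linarith

/-- points at every distance on the segment -/
lemma exists_point (hY : Hyp Y) [PreconnectedSpace Y] (a b : Y) {r : ℝ} (h0 : 0 ≤ r)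
    (h1 : r ≤ dist a b) : ∃ v : Y, dist a v = r ∧ dist v b = dist a b - r := by
  rcases h0.eq_or_lt with h0 | h0
  · exact ⟨a, by rw [dist_self, h0], by rw [← h0]; ring⟩
  rcases h1.eq_or_lt with h1 | h1
  · exact ⟨b, h1.symm, by rw [dist_self, h1]; ring⟩
  by_contra hno
  push Not at hno
  set g : Y → ℝ := fun u => dist a u - dist u b with hg
  have hgc : Continuous g := by fun_prop
  set U : Set Y := {u | g u < 2 * r - dist a b} with hU
  have hUo : IsOpen U := isOpen_lt hgc continuous_const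
  have hUc : IsClosed U := by
    rw [← isOpen_compl_iff, Metric.isOpen_iff]
    intro u hu
    have hu' : 2 * r - dist a b ≤ g u := not_lt.1 hu
    rcases hu'.eq_or_lt with hu' | hu'
    · have hgu : 2 * r - dist a b = dist a u - dist u b := hu'
      have hδ : 0 < dist a u + dist u b - dist a b := by
        have t := dist_triangle a u b
        rcases (sub_nonneg.2 t).eq_or_lt with e | e
        · exfalso
          refine hno u ?_ ?_
          · linarith
          · linarith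
        · exact e
      refine ⟨(dist a u + dist u b - dist a b) / 2, by positivity, ?_⟩
      intro u' hu1
      rw [Metric.mem_ball] at hu1
      show ¬ (g u' < 2 * r - dist a b)
      rw [not_lt]
      show 2 * r - dist a b ≤ dist a u' - dist u' b
      have t1 := dist_triangle u u' b
      have t2 := dist_triangle a u' u
      have c1 := dist_comm u u'
      have f1 := hY a u b u'
      have f2 := hY a u' b u
      have c2 := dist_comm b u
      have c3 := dist_comm b u'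
      rcases le_max_iff.1 f1 with f1 | f1 <;> linarith
    · have : IsOpen {u | 2 * r - dist a b < g u} := isOpen_lt continuous_const hgc
      rw [Metric.isOpen_iff] at this
      obtain ⟨ε, hε, hb⟩ := this u hu'
      refine ⟨ε, hε, fun v hv => ?_⟩
      have := hb hv
      show ¬ (g v < 2 * r - dist a b)
      rw [not_lt]
      exact le_of_lt this
  have hclopen : IsClopen U := ⟨hUc, hUo⟩
  have haU : a ∈ U := by
    show dist a a - dist a b < 2 * r - dist a b
    rw [dist_self]; linarith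
  have hbU : b ∉ U := by
    show ¬ (dist a b - dist b b < 2 * r - dist a b)
    rw [dist_self, not_lt]; linarith
  rcases isClopen_iff.1 hclopen with h | h
  · rw [h] at haU; exact haU
  · rw [h] at hbU; exact hbU (mem_univ _)

/-- the segment is preconnected -/
lemma seg_preconnected (hY : Hyp Y) [PreconnectedSpace Y] (a b : Y) :
    IsPreconnected {v : Y | dist a v + dist v b = dist a b} := by
  have hex : ∀ r : Icc (0 : ℝ) (dist a b), ∃ v : Y, dist a v = r ∧ dist v b = dist a b - r :=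
    fun r => exists_point hY a b r.2.1 r.2.2
  choose γ hγ1 hγ2 using hex
  have key : ∀ r : Icc (0 : ℝ) (dist a b), ∀ v : Y, dist a v + dist v b = dist a b →
      dist (γ r) v ≤ |(r : ℝ) - dist a v| := by
    intro r v hv
    have f := hY (γ r) v a b
    have e1 := hγ1 r
    have e2 := hγ2 r
    have c1 := dist_comm (γ r) a
    have c2 := dist_comm v a
    have l1 := le_abs_self ((r : ℝ) - dist a v)
    have l2 := neg_le_abs ((r : ℝ) - dist a v)
    rcases le_max_iff.1 f with f | f <;> linarith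
  have hcont : Continuous γ := by
    rw [Metric.continuous_iff]
    intro r ε hε
    refine ⟨ε, hε, fun r' hr' => ?_⟩
    have h := key r' (γ r) (by rw [hγ1 r, hγ2 r]; ring)
    rw [hγ1 r] at h
    exact lt_of_le_of_lt h hr'
  have hrange : {v : Y | dist a v + dist v b = dist a b} = range γ := by
    ext v
    constructor
    · intro hv
      have hv' : dist a v + dist v b = dist a b := hv
      have hm : dist a v ∈ Icc (0 : ℝ) (dist a b) := ⟨dist_nonneg, by
        have : 0 ≤ dist v b := dist_nonneg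
        linarith⟩
      refine ⟨⟨dist a v, hm⟩, ?_⟩
      have h := key ⟨dist a v, hm⟩ v hv'
      simp only [sub_self, abs_zero] at h
      exact dist_le_zero.1 h
    · rintro ⟨r, rfl⟩
      show dist a (γ r) + dist (γ r) b = dist a b
      rw [hγ1 r, hγ2 r]; ring
  rw [hrange]
  have : PreconnectedSpace (Icc (0 : ℝ) (dist a b)) :=
    isPreconnected_iff_preconnectedSpace.1 isPreconnected_Icc
  exact isPreconnected_range hcont

lemma general (hX : Hyp X) (hY : Hyp Y) [PreconnectedSpace Y] (F : X ≃ₜ Y) {x z y : X}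
    (h : dist x z + dist z y = dist x y) :
    dist (F x) (F z) + dist (F z) (F y) = dist (F x) (F y) := by
  have hS := seg_preconnected hY (F x) (F y)
  have hS' := hS.image F.symm F.symm.continuous.continuousOn
  have hz : z ∈ F.symm '' {v : Y | dist (F x) v + dist v (F y) = dist (F x) (F y)} := by
    refine separates hX h hS' ⟨F x, ?_, F.symm_apply_apply x⟩ ⟨F y, ?_, F.symm_apply_apply y⟩
    · show dist (F x) (F x) + dist (F x) (F y) = dist (F x) (F y)
      rw [dist_self, zero_add]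
    · show dist (F x) (F y) + dist (F y) (F y) = dist (F x) (F y)
      rw [dist_self, add_zero]
  obtain ⟨v, hv, hvz⟩ := hz
  have : F z = v := by rw [← hvz, F.apply_symm_apply]
  rw [this]
  exact hv

/-! ## the coded trees -/

lemma minC_comm (w : C(I, ℝ)) (s t : I) : minC w s t = minC w t s := by
  unfold minC; rw [Set.uIcc_comm]

lemma code_four (w : C(I, ℝ)) (x y z v : Code w) :
    dist x y + dist z v ≤ max (dist x z + dist y v) (dist x v + dist y z) := by
  obtain ⟨x⟩ := x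
  obtain ⟨y⟩ := y
  obtain ⟨z⟩ := z
  obtain ⟨v⟩ := v
  show (w x + w y - 2 * minC w x y) + (w z + w v - 2 * minC w z v) ≤
    max ((w x + w z - 2 * minC w x z) + (w y + w v - 2 * minC w y v))
      ((w x + w v - 2 * minC w x v) + (w y + w z - 2 * minC w y z))
  have a1 := min_le_minC w x z y
  have a2 := min_le_minC w x v y
  have a3 := min_le_minC w z x v
  have a4 := min_le_minC w z y v
  rw [minC_comm w z y] at a1
  rw [minC_comm w v y] at a2
  rw [minC_comm w z x] at a3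
  rw [minC_comm w z y] at a4
  have key : min (minC w x z + minC w y v) (minC w x v + minC w y z) ≤
      minC w x y + minC w z v := by
    rcases le_total (minC w x z) (minC w y z) with h1 | h1 <;>
    rcases le_total (minC w x v) (minC w y v) with h2 | h2 <;>
    rcases le_total (minC w x z) (minC w x v) with h3 | h3 <;>
    rcases le_total (minC w y z) (minC w y v) with h4 | h4 <;>
    simp only [min_def] at * <;> split_ifs at * <;> linarith
  rcases min_le_iff.1 key with h | h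
  · exact le_trans (by linarith) (le_max_left _ _)
  · exact le_trans (by linarith) (le_max_right _ _)

lemma tree_hyp (w : C(I, ℝ)) : Hyp (CRTree w) := by
  intro x y z v
  obtain ⟨x, rfl⟩ := SeparationQuotient.surjective_mk x
  obtain ⟨y, rfl⟩ := SeparationQuotient.surjective_mk y
  obtain ⟨z, rfl⟩ := SeparationQuotient.surjective_mk z
  obtain ⟨v, rfl⟩ := SeparationQuotient.surjective_mk v
  simp only [SeparationQuotient.dist_mk]
  exact code_four w x y z v

lemma continuous_code (w : C(I, ℝ)) : Continuous (fun t : I => (⟨t⟩ : Code w)) := by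
  rw [Metric.continuous_iff]
  intro t ε hε
  obtain ⟨δ, hδ, hw⟩ := Metric.continuous_iff.1 w.continuous t (ε / 4) (by positivity)
  refine ⟨δ, hδ, fun s hs => ?_⟩
  show w s + w t - 2 * minC w s t < ε
  have h1 : w t - ε / 4 ≤ minC w s t := by
    apply le_minC
    intro u hu
    have hu' : dist u t < δ := by
      refine lt_of_le_of_lt ?_ hs
      rw [Subtype.dist_eq, Subtype.dist_eq, Real.dist_eq, Real.dist_eq]
      have hmem : (u : ℝ) ∈ Set.uIcc (s : ℝ) (t : ℝ) := by
        rcases le_total s t with hst | hst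
        · rw [Set.uIcc_of_le hst] at hu
          rw [Set.uIcc_of_le (show (s : ℝ) ≤ t from hst)]
          exact ⟨hu.1, hu.2⟩
        · rw [Set.uIcc_of_ge hst] at hu
          rw [Set.uIcc_of_ge (show (t : ℝ) ≤ s from hst)]
          exact ⟨hu.1, hu.2⟩
      have h := Set.abs_sub_le_of_uIcc_subset_uIcc
        (Set.uIcc_subset_uIcc hmem Set.right_mem_uIcc)
      rw [abs_sub_comm, abs_sub_comm (s : ℝ)]
      exact h
    have := hw u hu'
    rw [Real.dist_eq] at this
    have := (abs_lt.1 this).1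
    linarith
  have h2 := hw s hs
  rw [Real.dist_eq] at h2
  have h3 := (abs_lt.1 h2).2
  linarith

instance tree_preconnected (w : C(I, ℝ)) : PreconnectedSpace (CRTree w) := by
  have hc : Continuous (fun t : I => (SeparationQuotient.mk (⟨t⟩ : Code w) : CRTree w)) :=
    SeparationQuotient.continuous_mk.comp (continuous_code w)
  have hs : Function.Surjective
      (fun t : I => (SeparationQuotient.mk (⟨t⟩ : Code w) : CRTree w)) := by
    intro x
    obtain ⟨x, rfl⟩ := SeparationQuotient.surjective_mk x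
    exact ⟨x.time, rfl⟩
  exact (preconnectedSpace_iff_univ).2 (hs.range_eq ▸ isPreconnected_range hc)

end BtwHomeo

theorem pr_btwHomeo : S_btwHomeo := by
  intro w w' F x z y h
  exact BtwHomeo.general (BtwHomeo.tree_hyp w) (BtwHomeo.tree_hyp w') F h

end MP3e01

end

section

/-!
# Item choose (block G): choice of the branch points
-/

open Set MeasureTheory ProbabilityTheory
open scoped ENNReal NNReal

namespace MP3e01

lemma choose_dT_eq {f : ℝ → ℝ} (hf : Continuous f) {u v : ℝ} (h : dT f u v = 0) (w : ℝ) :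
    dT f u w = dT f v w := by
  have h1 := dT_triangle hf u v w
  have h2 := dT_triangle hf v u w
  rw [dT_comm f v u] at h2
  linarith

lemma choose_dT_eq2 {f : ℝ → ℝ} (hf : Continuous f) {u v w z : ℝ} (h : dT f u v = 0)
    (h' : dT f w z = 0) : dT f u w = dT f v z := by
  rw [choose_dT_eq hf h w, dT_comm f v w, choose_dT_eq hf h' v, dT_comm f z v]

lemma choose_btw {f : ℝ → ℝ} (hf : Continuous f) {x z y x' z' y' : ℝ} (hx : dT f x x' = 0)
    (hz : dT f z z' = 0) (hy : dT f y y' = 0) (h : Btw f x' z' y') : Btw f x z y := by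
  unfold Btw at *
  rw [choose_dT_eq2 hf hx hz, choose_dT_eq2 hf hz hy, choose_dT_eq2 hf hx hy]
  exact h

lemma choose_nonneg {f : ℝ → ℝ} {g d : ℝ} (h : IsExc f g d) {t : ℝ} (ht : t ∈ Set.Icc g d) :
    0 ≤ f t := by
  rcases eq_or_lt_of_le ht.1 with h1 | h1
  · rw [← h1, h.left]
  rcases eq_or_lt_of_le ht.2 with h2 | h2
  · rw [h2, h.right]
  exact (h.pos t ⟨h1, h2⟩).le

/-- the minimum towards the left end of the excursion is zero -/
lemma choose_mn_left {f : ℝ → ℝ} {g d : ℝ} (hf : Continuous f) (h : IsExc f g d) {t : ℝ}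
    (ht : t ∈ Set.Icc g d) : mn f t g = 0 := by
  have h1 : mn f t g = f g := by
    apply mn_eq hf Set.right_mem_uIcc
    intro y hy
    rw [h.left]
    rw [Set.uIcc_of_ge ht.1] at hy
    exact choose_nonneg h ⟨hy.1, hy.2.trans ht.2⟩
  rw [h1, h.left]

theorem pr_choose (h1 : S_dip) (h2 : S_three) : S_choose := by
  intro f f' θ g d g' d' K R K₁ hf hf' he he' hQ hNM
  have hgm : g ∈ Set.Icc g d := ⟨le_rfl, he.lt.le⟩
  have hθg := hQ.maps g hgm
  obtain ⟨p', q', hgp', hpq', hqd', hy0, hyp, hyq, hx0⟩ := h1 f' g' d' (θ g) hf' he' hNM hθg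
  set y' := mn f' (p' : ℝ) (q' : ℝ) with hy'
  obtain ⟨b', hb', hfb'⟩ := exists_mn hf' (p' : ℝ) (q' : ℝ)
  rw [← hy'] at hfb'
  have hpqI : Set.uIcc (p' : ℝ) q' = Set.Icc (p' : ℝ) q' := Set.uIcc_of_le hpq'.le
  rw [hpqI] at hb'
  have hge : ∀ x ∈ Set.Icc (p' : ℝ) q', y' ≤ f' x := by
    intro x hx
    rw [hy']
    exact mn_le hf' (by rw [hpqI]; exact hx)
  have hpm : (p' : ℝ) ∈ Set.Icc g' d' := ⟨hgp'.le, (hpq'.trans hqd').le⟩
  have hqm : (q' : ℝ) ∈ Set.Icc g' d' := ⟨(hgp'.trans hpq').le, hqd'.le⟩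
  have hgm' : g' ∈ Set.Icc g' d' := ⟨le_rfl, he'.lt.le⟩
  have hbm : b' ∈ Set.Icc g' d' := ⟨hgp'.le.trans hb'.1, hb'.2.trans hqd'.le⟩
  -- minima
  have m1 : mn f' p' b' = y' := by
    have : mn f' p' b' = f' b' := by
      apply mn_eq hf' Set.right_mem_uIcc
      intro x hx
      rw [hfb']
      rw [Set.uIcc_of_le hb'.1] at hx
      exact hge x ⟨hx.1, hx.2.trans hb'.2⟩
    rw [this, hfb']
  have m2 : mn f' b' q' = y' := by
    have : mn f' b' q' = f' b' := by
      apply mn_eq hf' Set.left_mem_uIcc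
      intro x hx
      rw [hfb']
      rw [Set.uIcc_of_le hb'.2] at hx
      exact hge x ⟨hb'.1.trans hx.1, hx.2⟩
    rw [this, hfb']
  have mg : ∀ t ∈ Set.Icc g' d', mn f' t g' = 0 := fun t ht => choose_mn_left hf' he' ht
  have hfg' : f' g' = 0 := he'.left
  -- distances
  have d1 : dT f' p' b' = f' p' - y' := by unfold dT; rw [m1, hfb']; ring
  have d2 : dT f' b' q' = f' q' - y' := by unfold dT; rw [m2, hfb']; ring
  have d3 : dT f' p' q' = f' p' + f' q' - 2 * y' := by unfold dT; rw [← hy']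
  have dg : ∀ t ∈ Set.Icc g' d', dT f' t g' = f' t := by
    intro t ht
    unfold dT
    rw [mg t ht, hfg']; ring
  have B1 : Btw f' p' b' q' := by unfold Btw; rw [d1, d2, d3]; ring
  have B2 : Btw f' p' b' g' := by unfold Btw; rw [d1, dg b' hbm, dg p' hpm, hfb']; ring
  have B3 : Btw f' q' b' g' := by
    unfold Btw; rw [dT_comm f' q' b', d2, dg b' hbm, dg q' hqm, hfb']; ring
  -- preimages
  obtain ⟨x₁, hx₁, e₁⟩ := hQ.surj p' hpm
  obtain ⟨x₂, hx₂, e₂⟩ := hQ.surj q' hqm
  obtain ⟨x₃, hx₃, e₃⟩ := hQ.surj g' hgm'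
  obtain ⟨b, hb, eb⟩ := hQ.surj b' hbm
  have C1 : Btw f x₁ b x₂ := (hQ.btw x₁ hx₁ b hb x₂ hx₂).2 (choose_btw hf' e₁ eb e₂ B1)
  have C2 : Btw f x₁ b x₃ := (hQ.btw x₁ hx₁ b hb x₃ hx₃).2 (choose_btw hf' e₁ eb e₃ B2)
  have C3 : Btw f x₂ b x₃ := (hQ.btw x₂ hx₂ b hb x₃ hx₃).2 (choose_btw hf' e₂ eb e₃ B3)
  have N1 : dT f x₁ b ≠ 0 := by
    intro h
    have := (hQ.zero x₁ hx₁ b hb).1 h
    rw [choose_dT_eq2 hf' e₁ eb, d1] at this
    linarith
  have N2 : dT f x₂ b ≠ 0 := by
    intro h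
    have := (hQ.zero x₂ hx₂ b hb).1 h
    rw [choose_dT_eq2 hf' e₂ eb, dT_comm, d2] at this
    linarith
  have N3 : dT f x₃ b ≠ 0 := by
    intro h
    have := (hQ.zero x₃ hx₃ b hb).1 h
    rw [choose_dT_eq2 hf' e₃ eb, dT_comm, dg b' hbm, hfb'] at this
    linarith
  obtain ⟨hfb, p, q, hgp, hpq, hqd, hmn, hbp, hbq, hτ⟩ :=
    h2 f g d b x₁ x₂ x₃ hf he hb hx₁ hx₂ hx₃ C1 C2 C3 N1 N2 N3
  refine ⟨p, q, p', q', hgp, hpq, hqd, hgp', hpq', hqd', by rw [hmn]; exact hfb,
    by rw [hmn]; exact hbp, by rw [hmn]; exact hbq, hy0, hyp, hyq, ?_⟩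
  intro τ τR τL hF hFR hFL
  rw [hmn] at hF
  obtain ⟨hF1, hF2, hF3⟩ := hF
  obtain ⟨hR1, hR2, hR3⟩ := hFR
  obtain ⟨hL1, hL2, hL3⟩ := hFL
  have hτd : τ ≤ d := by
    by_contra hc
    push Not at hc
    have := hF3 d ⟨hqd.le, hc⟩
    rw [he.right] at this
    linarith
  have hτm : τ ∈ Set.Icc g d := ⟨((hgp.trans hpq).le).trans hF1, hτd⟩
  have hRd : τR ≤ d' := by
    by_contra hc
    push Not at hc
    have := hR3 d' ⟨hqd'.le, hc⟩
    rw [he'.right] at this
    linarith
  have hRm : τR ∈ Set.Icc g' d' := ⟨hqm.1.trans hR1, hRd⟩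
  -- lower bound on the right
  have hgeR : ∀ x ∈ Set.Icc (p' : ℝ) τR, y' ≤ f' x := by
    intro x hx
    rcases le_total x (q' : ℝ) with hxq | hxq
    · exact hge x ⟨hx.1, hxq⟩
    · rcases eq_or_lt_of_le hx.2 with hxe | hxl
      · rw [hxe, hR2]
      · exact (hR3 x ⟨hxq, hxl⟩).le
  have hgeL : ∀ x ∈ Set.Icc τL (p' : ℝ), y' ≤ f' x := by
    intro x hx
    rcases eq_or_lt_of_le hx.1 with hxe | hxl
    · rw [← hxe, hL2]
    · exact (hL3 x ⟨hxl, hx.2⟩).le
  have hbR : b' ≤ τR := hb'.2.trans hR1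
  have mbR : mn f' b' τR = y' := by
    have : mn f' b' τR = f' b' := by
      apply mn_eq hf' Set.left_mem_uIcc
      intro x hx
      rw [hfb']
      rw [Set.uIcc_of_le hbR] at hx
      exact hgeR x ⟨hb'.1.trans hx.1, hx.2⟩
    rw [this, hfb']
  refine ⟨?_, ?_, ?_⟩
  · have t1 : dT f' (θ τ) (θ b) = 0 :=
      (hQ.zero τ hτm b hb).1 (hτ τ ⟨hF1, hF2, hF3⟩)
    have t2 : dT f' b' τR = 0 := by unfold dT; rw [mbR, hfb', hR2]; ring
    rw [choose_dT_eq hf' t1, choose_dT_eq hf' eb, t2]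
  · intro x hx
    rw [hR2]
    rcases le_total x (p' : ℝ) with h | h
    · exact hgeL x ⟨hx.1, h⟩
    · exact hgeR x ⟨h, hx.2⟩
  · have key : mn f' τR (θ g) < y' := by
      obtain ⟨m, hm, hfm⟩ := exists_mn hf' (θ g) (p' : ℝ)
      have hm2 : m ∈ Set.uIcc τR (θ g) := by
        have hnot : ¬ ((p' : ℝ) ≤ m ∧ m ≤ τR) := by
          intro hc
          have := hgeR m hc
          linarith
        rcases le_total (θ g) (p' : ℝ) with hle | hle
        · rw [Set.uIcc_of_le hle] at hm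
          rw [Set.uIcc_of_ge (hle.trans (hpq'.le.trans hR1))]
          exact ⟨hm.1, hm.2.trans (hpq'.le.trans hR1)⟩
        · rw [Set.uIcc_of_ge hle] at hm
          have hmR : τR < m := by
            by_contra hc
            push Not at hc
            exact hnot ⟨hm.1, hc⟩
          rw [Set.uIcc_of_le (hmR.le.trans hm.2)]
          exact ⟨hmR.le, hm.2⟩
      have := mn_le hf' hm2
      linarith
    rw [dg τR hRm, dg (θ g) hθg]
    unfold dT
    rw [hR2]
    linarith

end MP3e01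

end

section

open Set

namespace MP3e01

lemma code_log_le {x y : ℝ} {k : ℤ} (hx : 0 < x) (_hy : 0 < y) (h : x ≤ (2:ℝ) ^ k * y) :
    Int.log 2 x ≤ Int.log 2 y + k := by
  have h1 : ((2:ℕ):ℝ) ^ (Int.log 2 x) ≤ x := Int.zpow_log_le_self (by norm_num) hx
  have h2 : y < ((2:ℕ):ℝ) ^ (Int.log 2 y + 1) := Int.lt_zpow_succ_log_self (by norm_num) y
  have h3 : (2:ℝ) ^ (Int.log 2 x) < (2:ℝ) ^ (Int.log 2 y + k + 1) := by
    calc (2:ℝ) ^ (Int.log 2 x) ≤ x := by exact_mod_cast h1
      _ ≤ (2:ℝ) ^ k * y := h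
      _ < (2:ℝ) ^ k * (2:ℝ) ^ (Int.log 2 y + 1) := by
          apply mul_lt_mul_of_pos_left _ (by positivity)
          exact_mod_cast h2
      _ = (2:ℝ) ^ (Int.log 2 y + k + 1) := by
          rw [← zpow_add₀ (by norm_num)]; congr 1; ring
  have h4 := (zpow_lt_zpow_iff_right₀ (by norm_num : (1:ℝ) < 2)).1 h3
  omega

lemma code_log_ge {x : ℝ} {k : ℤ} (hx : 0 < x) (h : (2:ℝ) ^ k ≤ x) : k ≤ Int.log 2 x := by
  apply (Int.zpow_le_iff_le_log (by norm_num) hx).1
  exact_mod_cast h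

theorem pr_code : S_code := by
  classical
  intro K R K₁ J n' gr ψ hK hR hgr hpos hgrp hdec hgrw hroot
  have hR0 : 0 < R := by omega
  set L : ℕ → ℕ → ℤ := fun i j => Int.log 2 (ψ i j) with hL
  have hKpow : (K:ℝ) ≤ 2 ^ K := by exact_mod_cast (Nat.lt_two_pow_self (n := K)).le
  have hK1pow : ((K:ℝ) + 1) ≤ 2 ^ K := by exact_mod_cast (Nat.lt_two_pow_self (n := K))
  have hK₁pow : (K₁:ℝ) ≤ 2 ^ K₁ := by exact_mod_cast (Nat.lt_two_pow_self (n := K₁)).le
  -- comparability
  have hcmp : ∀ i < R ^ J, ∀ i' < R ^ J, ∀ j ≤ J, node R J gr i j = node R J gr i' j →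
      L i j ≤ L i' j + 2 * K := by
    intro i hi i' hi' j hj hn
    apply code_log_le (hpos i hi j) (hpos i' hi' j)
    refine (hgrp i hi i' hi' j hj hn).trans ?_
    apply mul_le_mul_of_nonneg_right _ (hpos i' hi' j).le
    have : (2:ℝ) ^ (2 * (K:ℤ)) = 2 ^ K * 2 ^ K := by
      rw [two_mul, zpow_add₀ (by norm_num)]; simp
    rw [this]
    exact mul_le_mul hKpow hK1pow (by positivity) (by positivity)
  have hdecL : ∀ i < R ^ J, ∀ j, L i (j + 1) + (8 * K + 8) ≤ L i j := by
    intro i hi j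
    have := code_log_le (k := -(8 * K + 8 : ℤ)) (hpos i hi (j + 1)) (hpos i hi j) (by
      rw [zpow_neg]
      have h := hdec i hi j
      have e : (2:ℝ) ^ (8 * (K:ℤ) + 8) = 2 ^ (8 * K + 8) := by
        have : (8 * (K:ℤ) + 8) = ((8 * K + 8 : ℕ) : ℤ) := by push_cast; ring
        rw [this, zpow_natCast]
      rw [e, le_inv_mul_iff₀ (by positivity)]
      exact h)
    simp only [hL]
    omega
  have hgrwL : ∀ i < R ^ J, ∀ j, L i j ≤ L i (j + 1) + K₁ := by
    intro i hi j
    apply code_log_le (hpos i hi j) (hpos i hi (j + 1))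
    refine (hgrw i hi j).trans ?_
    apply mul_le_mul_of_nonneg_right _ (hpos i hi (j + 1)).le
    simpa using hK₁pow
  have hroot1 : ∀ i < R ^ J, -(n' + 1 + K : ℤ) ≤ L i 0 := by
    intro i hi
    apply code_log_ge (hpos i hi 0)
    have h := (hroot i hi).1
    have e : (2:ℝ) ^ (-((n':ℤ) + 1 + K)) = 1 / 2 ^ (n' + 1 + K) := by
      rw [zpow_neg, one_div]
      have : ((n':ℤ) + 1 + K) = ((n' + 1 + K : ℕ) : ℤ) := by push_cast; ring
      rw [this, zpow_natCast]
    rw [e]; exact h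
  have hroot2 : ∀ i < R ^ J, L i 0 ≤ 2 * K - n' := by
    intro i hi
    have := code_log_le (x := ψ i 0) (y := 1) (k := 2 * K - n') (hpos i hi 0) one_pos (by
      refine (hroot i hi).2.trans ?_
      rw [mul_one, zpow_sub₀ (by norm_num), zpow_natCast]
      apply div_le_div_of_nonneg_right _ (by positivity)
      have e : (2:ℝ) ^ (2 * (K:ℤ)) = (2 ^ K) ^ 2 := by
        rw [two_mul, zpow_add₀ (by norm_num)]; simp; ring
      rw [e]
      exact pow_le_pow_left₀ (by positivity) hKpow 2)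
    rw [Int.log_one_right] at this
    simp only [hL]
    omega
  -- pages
  have hm : ∀ j idx, ∃ m : ℕ, (∃ i < R ^ J, node R J gr i j = idx) →
      m < R ^ J ∧ node R J gr m j = idx ∧ ∀ i < R ^ J, node R J gr i j = idx → L m j ≤ L i j := by
    intro j idx
    by_cases h : ∃ i < R ^ J, node R J gr i j = idx
    · obtain ⟨i, hi, hn⟩ := h
      obtain ⟨m, hm1, hm2⟩ := Finset.exists_min_image
        ((Finset.range (R ^ J)).filter (fun i => node R J gr i j = idx)) (fun i => L i j)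
        ⟨i, by simp [hi, hn]⟩
      refine ⟨m, fun _ => ?_⟩
      simp only [Finset.mem_filter, Finset.mem_range] at hm1 hm2
      exact ⟨hm1.1, hm1.2, fun i hi hn => hm2 i ⟨hi, hn⟩⟩
    · exact ⟨0, fun h' => absurd h' h⟩
  choose m hm using hm
  set kap : ℕ → ℕ → ℤ := fun j idx => L (m j idx) j with hkap
  have kap_le : ∀ i < R ^ J, ∀ j, kap j (node R J gr i j) ≤ L i j := fun i hi j =>
    (hm j _ ⟨i, hi, rfl⟩).2.2 i hi rfl
  have le_kap : ∀ i < R ^ J, ∀ j ≤ J, L i j ≤ kap j (node R J gr i j) + 2 * K := fun i hi j hj => by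
    obtain ⟨a, b, -⟩ := hm j _ ⟨i, hi, rfl⟩
    exact hcmp i hi _ a j hj b.symm
  have node_par : ∀ i j, j + 1 ≤ J → node R J gr i (j + 1) / R = node R J gr i j := by
    intro i j hj
    unfold node
    rw [Nat.div_div_eq_div_mul]
    congr 1
    rw [← pow_succ]
    congr 1
    omega
  set c : ℕ → ℕ → ℕ := fun j idx => if j ≤ J ∧ ∃ i < R ^ J, node R J gr i j = idx then
    (match j with
      | 0 => (2 * (K:ℤ) + 1 - n' - kap 0 idx).toNat
      | j' + 1 => (kap j' (idx / R) - kap (j' + 1) idx - 2).toNat) else 0 with hc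
  have child : ∀ j idx, j + 1 ≤ J → (∃ i < R ^ J, node R J gr i (j + 1) = idx) →
      kap (j + 1) idx + (6 * K + 8) ≤ kap j (idx / R) ∧ kap j (idx / R) ≤ kap (j + 1) idx + K₁ := by
    intro j idx hj hpg
    obtain ⟨a, b, -⟩ := hm (j + 1) idx hpg
    have hpar : node R J gr (m (j + 1) idx) j = idx / R := by
      rw [← node_par _ _ hj, b]
    have h1 := hdecL _ a j
    have h2 := le_kap _ a j (by omega)
    have h3 := hgrwL _ a j
    have h4 := kap_le _ a j
    rw [hpar] at h2 h4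
    have h5 : kap (j + 1) idx = L (m (j + 1) idx) (j + 1) := rfl
    constructor <;> omega
  refine ⟨c, ?_, ?_⟩
  · intro j idx
    by_cases h : j ≤ J ∧ ∃ i < R ^ J, node R J gr i j = idx
    · rcases j with _ | j
      · have hcv : c 0 idx = (2 * (K:ℤ) + 1 - n' - kap 0 idx).toNat := by
          simp only [hc]; rw [if_pos h]
        rw [hcv]
        obtain ⟨a, b, -⟩ := hm 0 idx h.2
        have h1 := hroot1 _ a
        have h5 : kap 0 idx = L (m 0 idx) 0 := rfl
        omega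
      · have hcv : c (j + 1) idx = (kap j (idx / R) - kap (j + 1) idx - 2).toNat := by
          simp only [hc]; rw [if_pos h]
        rw [hcv]
        have := child j idx h.1 h.2
        omega
    · have hcv : c j idx = 0 := by simp only [hc]; rw [if_neg h]
      rw [hcv]; omega
  · intro i hi j hj1 hjJ
    have hlev : ∀ j ≤ J, (lev R c j (node R J gr i j) : ℤ) =
        2 * K + 1 - n' - kap j (node R J gr i j) := by
      intro j
      induction j with
      | zero =>
          intro _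
          have hcv : c 0 (node R J gr i 0) =
              (2 * (K:ℤ) + 1 - n' - kap 0 (node R J gr i 0)).toNat := by
            simp only [hc]; rw [if_pos ⟨Nat.zero_le _, i, hi, rfl⟩]
          simp only [lev]
          rw [hcv]
          have h1 := kap_le i hi 0
          have h2 := hroot2 i hi
          omega
      | succ j ih =>
          intro hj
          have hih := ih (by omega)
          have hcv : c (j + 1) (node R J gr i (j + 1)) =
              (kap j (node R J gr i (j + 1) / R) - kap (j + 1) (node R J gr i (j + 1)) - 2).toNat := by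
            simp only [hc]; rw [if_pos ⟨hj, i, hi, rfl⟩]
          simp only [lev]
          rw [hcv]
          have h1 := child j _ hj ⟨i, hi, rfl⟩
          rw [node_par i j hj] at h1 ⊢
          push_cast
          rw [hih]
          omega
    have hl := hlev j hjJ
    have hwin : win K R J n' gr c i j = (2:ℝ) ^ (kap j (node R J gr i j) + 2 * K + 1) := by
      unfold win
      rw [← zpow_natCast, ← zpow_natCast, ← zpow_sub₀ (by norm_num)]
      congr 1
      push_cast
      rw [hl]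
      ring
    have h1 := kap_le i hi j
    have h2 := le_kap i hi j hjJ
    constructor
    · rw [hwin]
      have h3 : ψ i j < ((2:ℕ):ℝ) ^ (Int.log 2 (ψ i j) + 1) :=
        Int.lt_zpow_succ_log_self (by norm_num) _
      refine h3.le.trans ?_
      push_cast
      apply zpow_le_zpow_right₀ (by norm_num)
      simp only [hL] at h2
      omega
    · rw [hwin]
      obtain ⟨j', rfl⟩ : ∃ j', j = j' + 1 := ⟨j - 1, by omega⟩
      have h3 : ((2:ℕ):ℝ) ^ (Int.log 2 (ψ i (j' + 1))) ≤ ψ i (j' + 1) :=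
        Int.zpow_log_le_self (by norm_num) (hpos i hi _)
      have h4 := hdec i hi j'
      simp only [Nat.add_sub_cancel]
      refine le_trans ?_ h4
      calc 2 * (2:ℝ) ^ (kap (j' + 1) (node R J gr i (j' + 1)) + 2 * K + 1)
          = (2:ℝ) ^ (1:ℤ) * (2:ℝ) ^ (kap (j' + 1) (node R J gr i (j' + 1)) + 2 * K + 1) := by
            rw [zpow_one]
        _ = (2:ℝ) ^ (1 + (kap (j' + 1) (node R J gr i (j' + 1)) + 2 * K + 1)) := by
            rw [zpow_add₀ (by norm_num) 1]
        _ ≤ (2:ℝ) ^ (((8 * K + 8 : ℕ) : ℤ) + Int.log 2 (ψ i (j' + 1))) := by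
            apply zpow_le_zpow_right₀ (by norm_num)
            simp only [hL] at h1
            push_cast
            omega
        _ = 2 ^ (8 * K + 8) * (2:ℝ) ^ (Int.log 2 (ψ i (j' + 1))) := by
            rw [zpow_add₀ (by norm_num), zpow_natCast]
        _ ≤ 2 ^ (8 * K + 8) * ψ i (j' + 1) := by
            apply mul_le_mul_of_nonneg_left _ (by positivity)
            exact_mod_cast h3

end MP3e01

end

section

/-! # MP_3e01db_pr, block G: dips off an arc -/

open Set

namespace MP3e01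

lemma dip_real {f : ℝ → ℝ} (hf : Continuous f) {g d a b : ℝ} (hN : NonMono f g d)
    (hga : g < a) (hab : a < b) (hbd : b < d) :
    ∃ p r q : ℝ, a ≤ p ∧ p < r ∧ r < q ∧ q ≤ b ∧ f r < f p ∧ f r < f q := by
  obtain ⟨m, hm, hmax⟩ := isCompact_Icc.exists_isMaxOn (nonempty_Icc.2 hab.le) hf.continuousOn
  have hmax' : ∀ x ∈ Set.Icc a b, f x ≤ f m := fun x hx => hmax hx
  rcases eq_or_lt_of_le hm.1 with h | h
  · have h2 := (hN m b (by linarith) (by linarith) hbd).2
    simp only [AntitoneOn, not_forall, not_le] at h2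
    obtain ⟨x, hx, y, hy, hxy, hlt⟩ := h2
    have hym : f y ≤ f m := hmax' y ⟨by linarith [hy.1], hy.2⟩
    refine ⟨m, x, y, hm.1, lt_of_le_of_ne hx.1 ?_, lt_of_le_of_ne hxy ?_, hy.2, by linarith, hlt⟩
    · intro h3; rw [← h3] at hlt; linarith
    · intro h3; rw [h3] at hlt; exact lt_irrefl _ hlt
  · have h2 := (hN a m hga h (by linarith [hm.2])).1
    simp only [MonotoneOn, not_forall, not_le] at h2
    obtain ⟨x, hx, y, hy, hxy, hlt⟩ := h2
    have hxm : f x ≤ f m := hmax' x ⟨hx.1, by linarith [hx.2, hm.2]⟩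
    refine ⟨x, y, m, hx.1, lt_of_le_of_ne hxy ?_, lt_of_le_of_ne hy.2 ?_, hm.2, hlt, by linarith⟩
    · intro h3; rw [h3] at hlt; exact lt_irrefl _ hlt
    · intro h3; rw [h3] at hlt; linarith

lemma dip_rat {f : ℝ → ℝ} (hf : Continuous f) {g d a b : ℝ} (hN : NonMono f g d)
    (hga : g < a) (hab : a < b) (hbd : b < d) :
    ∃ (p q : ℚ) (r : ℝ), a < p ∧ (p : ℝ) < r ∧ r < q ∧ (q : ℝ) < b ∧ f r < f p ∧ f r < f q := by
  obtain ⟨p, r, q, hap, hpr, hrq, hqb, h1, h2⟩ := dip_real hf hN hga hab hbd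
  have e1 : ∃ p' : ℚ, p < p' ∧ (p' : ℝ) < r ∧ f r < f p' := by
    have ho : IsOpen {x | f r < f x} := isOpen_lt continuous_const hf
    obtain ⟨ε, hε, hball⟩ := Metric.isOpen_iff.1 ho p h1
    obtain ⟨p', h3, h4⟩ := exists_rat_btwn (show p < min (p + ε) r from lt_min (by linarith) hpr)
    refine ⟨p', h3, lt_of_lt_of_le h4 (min_le_right _ _), hball ?_⟩
    rw [Metric.mem_ball, Real.dist_eq, abs_lt]
    have := lt_of_lt_of_le h4 (min_le_left _ _)
    constructor <;> linarith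
  have e2 : ∃ q' : ℚ, r < q' ∧ (q' : ℝ) < q ∧ f r < f q' := by
    have ho : IsOpen {x | f r < f x} := isOpen_lt continuous_const hf
    obtain ⟨ε, hε, hball⟩ := Metric.isOpen_iff.1 ho q h2
    obtain ⟨q', h3, h4⟩ := exists_rat_btwn (show max (q - ε) r < q from max_lt (by linarith) hrq)
    refine ⟨q', lt_of_le_of_lt (le_max_right _ _) h3, h4, hball ?_⟩
    rw [Metric.mem_ball, Real.dist_eq, abs_lt]
    have := lt_of_le_of_lt (le_max_left _ _) h3
    constructor <;> linarith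
  obtain ⟨p', a1, a2, a3⟩ := e1
  obtain ⟨q', b1, b2, b3⟩ := e2
  exact ⟨p', q', r, by linarith, a2, b1, by linarith, a3, b3⟩

/-- last time in `[v₁, v₂]` below the level `f v₁` -/
lemma last_below {f : ℝ → ℝ} (hf : Continuous f) {v₁ v₂ : ℝ} (h : v₁ ≤ v₂) (hlt : f v₁ < f v₂) :
    ∃ v₀, v₁ ≤ v₀ ∧ v₀ < v₂ ∧ f v₀ ≤ f v₁ ∧ ∀ t, v₀ < t → t ≤ v₂ → f v₁ < f t := by
  have hc : IsCompact (Set.Icc v₁ v₂ ∩ {t | f t ≤ f v₁}) :=
    isCompact_Icc.inter_right (isClosed_le hf continuous_const)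
  obtain ⟨v₀, h0, hmax⟩ := hc.exists_isGreatest ⟨v₁, ⟨le_refl _, h⟩, le_refl (f v₁)⟩
  refine ⟨v₀, h0.1.1, lt_of_le_of_ne h0.1.2 ?_, h0.2, ?_⟩
  · intro h3
    have := h0.2
    rw [h3] at this
    exact absurd this (not_le.2 hlt)
  · intro t h1 h2
    by_contra h3
    have := hmax ⟨⟨by linarith [h0.1.1], h2⟩, not_lt.1 h3⟩
    linarith

/-- first time in `[v₁, v₂]` below the level `f v₂` -/
lemma first_below {f : ℝ → ℝ} (hf : Continuous f) {v₁ v₂ : ℝ} (h : v₁ ≤ v₂) (hlt : f v₂ < f v₁) :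
    ∃ v₀, v₁ < v₀ ∧ v₀ ≤ v₂ ∧ f v₀ ≤ f v₂ ∧ ∀ t, v₁ ≤ t → t < v₀ → f v₂ < f t := by
  have hc : IsCompact (Set.Icc v₁ v₂ ∩ {t | f t ≤ f v₂}) :=
    isCompact_Icc.inter_right (isClosed_le hf continuous_const)
  obtain ⟨v₀, h0, hmin⟩ := hc.exists_isLeast ⟨v₂, ⟨h, le_refl _⟩, le_refl (f v₂)⟩
  refine ⟨v₀, lt_of_le_of_ne h0.1.1 ?_, h0.1.2, h0.2, ?_⟩
  · intro h3
    have := h0.2
    rw [← h3] at this
    exact absurd this (not_le.2 hlt)
  · intro t h1 h2
    by_contra h3
    have := hmin ⟨⟨h1, by linarith [h0.1.2]⟩, not_lt.1 h3⟩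
    linarith

theorem pr_dip : S_dip := by
  intro f g d x₀ hf hE hN hx₀
  have hgd := hE.lt
  rcases eq_or_lt_of_le hx₀.2 with hd | hd
  · -- `x₀ = d`
    obtain ⟨x, hx1, hx2⟩ := exists_between hgd
    obtain ⟨y, hy1, hy2⟩ := exists_between hx2
    have h2 := (hN x y hx1 hy1 hy2).1
    simp only [MonotoneOn, not_forall, not_le] at h2
    obtain ⟨v₁, hv₁, v₂, hv₂, hv, hlt⟩ := h2
    obtain ⟨v₀, c1, c2, c3, c4⟩ := first_below hf hv hlt
    have hgv : g < v₁ := by linarith [hv₁.1]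
    have hvd : v₀ < d := by linarith [hv₂.2]
    obtain ⟨p, q, r, k1, k2, k3, k4, k5, k6⟩ := dip_rat hf hN hgv c1 hvd
    have hpq : (p : ℝ) < q := by linarith
    have hr : mn f p q ≤ f r := mn_le hf (by rw [uIcc_of_le hpq.le]; exact ⟨k2.le, k3.le⟩)
    obtain ⟨z, hz, hzm⟩ := exists_mn hf (p : ℝ) q
    rw [uIcc_of_le hpq.le] at hz
    refine ⟨p, q, by linarith, hpq, by linarith, ?_, by linarith, by linarith, ?_⟩
    · rw [← hzm]; exact hE.pos z ⟨by linarith [hz.1], by linarith [hz.2]⟩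
    · rw [← hzm]
      have h5 : mn f x₀ p ≤ f v₀ := mn_le hf (by
        rw [uIcc_of_ge (by linarith)]; exact ⟨by linarith, by linarith⟩)
      have h6 := c4 z (by linarith [hz.1]) (by linarith [hz.2])
      linarith
  · -- `x₀ < d`
    obtain ⟨x, hx1, hx2⟩ := exists_between hd
    obtain ⟨y, hy1, hy2⟩ := exists_between hx2
    have hgx : g ≤ x₀ := hx₀.1
    have h2 := (hN x y (by linarith) hy1 hy2).2
    simp only [AntitoneOn, not_forall, not_le] at h2
    obtain ⟨v₁, hv₁, v₂, hv₂, hv, hlt⟩ := h2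
    obtain ⟨v₀, c1, c2, c3, c4⟩ := last_below hf hv hlt
    have hgv : g < v₀ := by linarith [hv₁.1]
    have hvd : v₂ < d := by linarith [hv₂.2]
    obtain ⟨p, q, r, k1, k2, k3, k4, k5, k6⟩ := dip_rat hf hN hgv c2 hvd
    have hpq : (p : ℝ) < q := by linarith
    have hr : mn f p q ≤ f r := mn_le hf (by rw [uIcc_of_le hpq.le]; exact ⟨k2.le, k3.le⟩)
    obtain ⟨z, hz, hzm⟩ := exists_mn hf (p : ℝ) q
    rw [uIcc_of_le hpq.le] at hz
    refine ⟨p, q, by linarith, hpq, by linarith, ?_, by linarith, by linarith, ?_⟩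
    · rw [← hzm]; exact hE.pos z ⟨by linarith [hz.1], by linarith [hz.2]⟩
    · rw [← hzm]
      have h5 : mn f x₀ p ≤ f v₀ := mn_le hf (by
        rw [uIcc_of_le (by linarith [hv₁.1])]; exact ⟨by linarith [hv₁.1], by linarith⟩)
      have h6 := c4 z (by linarith [hz.1]) (by linarith [hz.2])
      linarith

end MP3e01

end

section

/-!
# MP_3e01db_pr, item first: first and last visits
-/

open Set

namespace MP3e01

lemma first_aux (f : ℝ → ℝ) (hf : Continuous f) (q d y : ℝ) (hqd : q ≤ d) (hq : y < f q)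
    (hd : f d < y) : ∃ τ, IsFirst f q y τ ∧ q < τ ∧ τ < d := by
  set A : Set ℝ := {t | t ∈ Set.Icc q d ∧ f t ≤ y} with hA
  have hAc : IsClosed A := by
    have h1 : IsClosed {t : ℝ | f t ≤ y} := isClosed_le hf continuous_const
    exact isClosed_Icc.inter h1
  have hAb : BddBelow A := ⟨q, fun t ht => ht.1.1⟩
  have hAn : A.Nonempty := ⟨d, ⟨hqd, le_rfl⟩, hd.le⟩
  have hmem : sInf A ∈ A := hAc.csInf_mem hAn hAb
  set τ := sInf A with hτ
  have hlow : ∀ t ∈ Set.Ico q τ, y < f t := by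
    intro t ht
    by_contra hcon
    have hcon' : f t ≤ y := not_lt.1 hcon
    have htA : t ∈ A := ⟨⟨ht.1, le_trans ht.2.le hmem.1.2⟩, hcon'⟩
    exact absurd (csInf_le hAb htA) (not_le.2 ht.2)
  have hqτ : q < τ := by
    refine lt_of_le_of_ne hmem.1.1 ?_
    intro h
    have h2 := hmem.2
    rw [← h] at h2
    linarith
  have hfτ : f τ = y := by
    have h1 : y ∈ Set.Icc (f τ) (f q) := ⟨hmem.2, hq.le⟩
    obtain ⟨t, ht, hty⟩ := intermediate_value_Icc' hqτ.le hf.continuousOn h1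
    rcases lt_or_eq_of_le ht.2 with h | h
    · exact absurd hty (ne_of_gt (hlow t ⟨ht.1, h⟩))
    · rw [← h]; exact hty
  refine ⟨τ, ⟨hqτ.le, hfτ, hlow⟩, hqτ, ?_⟩
  refine lt_of_le_of_ne hmem.1.2 ?_
  intro h
  rw [h] at hfτ
  linarith

theorem pr_first : S_first := by
  intro f hf
  refine ⟨fun q d y hqd hq hd => first_aux f hf q d y hqd hq hd, ?_⟩
  intro g p y hgp hp hg
  obtain ⟨τ, ⟨h1, h2, h3⟩, h4, h5⟩ := first_aux (fun t => f (-t)) (hf.comp continuous_neg) (-p) (-g) y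
    (neg_le_neg hgp) (by simpa using hp) (by simpa using hg)
  refine ⟨-τ, ⟨by linarith, h2, ?_⟩, by linarith, by linarith⟩
  intro t ht
  have h6 := h3 (-t) ⟨neg_le_neg ht.2, by linarith [ht.1]⟩
  simpa using h6

end MP3e01

end

section

/-!
# Item geod: geodesics
-/

open Set

namespace MP3e01

/-- the first visit, coming from `x` towards `w`, to a level `c` between `f w` and `f x` -/
theorem geod_visit {f : ℝ → ℝ} (hf : Continuous f) (x w c : ℝ) (h1 : f w ≤ c) (h2 : c ≤ f x) :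
    ∃ z ∈ Set.uIcc x w, f z = c ∧ ∀ u ∈ Set.uIcc x z, c ≤ f u := by
  have hS : IsCompact (Set.uIcc x w ∩ f ⁻¹' {c}) :=
    isCompact_uIcc.inter_right (isClosed_singleton.preimage hf)
  have hne : (Set.uIcc x w ∩ f ⁻¹' {c}).Nonempty := by
    have h3 : c ∈ f '' Set.uIcc x w := by
      have h4 := intermediate_value_uIcc (a := x) (b := w) (f := f) hf.continuousOn
      exact h4 (Set.mem_uIcc.2 (Or.inr ⟨h1, h2⟩))
    obtain ⟨z, hz, hz'⟩ := h3
    exact ⟨z, hz, hz'⟩
  obtain ⟨z, ⟨hz, hzc⟩, hmin⟩ := hS.exists_isMinOn hne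
    (f := fun u => |u - x|) (by fun_prop)
  have hzc' : f z = c := hzc
  refine ⟨z, hz, hzc', fun u hu => ?_⟩
  by_contra hcon
  have hcon' : f u < c := lt_of_not_ge hcon
  have h5 : c ∈ f '' Set.uIcc x u := by
    have h4 := intermediate_value_uIcc (a := x) (b := u) (f := f) hf.continuousOn
    exact h4 (Set.mem_uIcc.2 (Or.inr ⟨hcon'.le, h2⟩))
  obtain ⟨v, hv, hvc⟩ := h5
  have hvu : v ≠ u := by
    rintro rfl
    exact hcon'.ne hvc
  have hvw : v ∈ Set.uIcc x w := by
    rw [Set.mem_uIcc] at hv hu hz ⊢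
    rcases hv with hv | hv <;> rcases hu with hu | hu <;> rcases hz with hz | hz <;>
      first
      | (left; constructor <;> linarith)
      | (right; constructor <;> linarith)
  have h6 : |z - x| ≤ |v - x| := hmin ⟨hvw, hvc⟩
  rw [Set.mem_uIcc] at hv hu
  have h7 : |v - x| < |z - x| := by
    rcases hv with hv | hv <;> rcases hu with hu | hu
    · have h8 : v < u := lt_of_le_of_ne hv.2 hvu
      rw [abs_of_nonneg (by linarith), abs_of_nonneg (by linarith)]
      linarith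
    · have h8 : v < u := lt_of_le_of_ne hv.2 hvu
      exfalso
      linarith
    · have h8 : u < v := lt_of_le_of_ne hv.1 (Ne.symm hvu)
      exfalso
      linarith
    · have h8 : u < v := lt_of_le_of_ne hv.1 (Ne.symm hvu)
      rw [abs_of_nonpos (by linarith), abs_of_nonpos (by linarith)]
      linarith
  linarith

theorem geod_half {f : ℝ → ℝ} (hf : Continuous f) (x y r : ℝ) (h0 : 0 ≤ r)
    (h1 : r ≤ f x - mn f x y) :
    ∃ z ∈ Set.uIcc x y, dT f x z = r ∧ dT f z y = dT f x y - r := by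
  obtain ⟨w, hw, hw'⟩ := exists_mn hf x y
  obtain ⟨z, hz, hzc, hzm⟩ := geod_visit hf x w (f x - r) (by rw [hw']; linarith) (by linarith)
  have hzy : z ∈ Set.uIcc x y := by
    rw [Set.mem_uIcc] at hz hw ⊢
    rcases hz with hz | hz <;> rcases hw with hw | hw <;>
      first
      | (left; constructor <;> linarith)
      | (right; constructor <;> linarith)
  have hwz : w ∈ Set.uIcc z y := by
    rw [Set.mem_uIcc] at hz hw ⊢
    rcases hz with hz | hz <;> rcases hw with hw | hw <;>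
      first
      | (left; constructor <;> linarith)
      | (right; constructor <;> linarith)
  have h2 : mn f x z = f z := by
    refine mn_eq hf Set.right_mem_uIcc fun u hu => ?_
    rw [hzc]
    exact hzm u hu
  have h3 : mn f z y = mn f x y := by
    refine le_antisymm ?_ ?_
    · rw [← hw']
      exact mn_le hf hwz
    · exact mn_anti hf (Set.uIcc_subset_uIcc hzy Set.right_mem_uIcc)
  refine ⟨z, hzy, ?_, ?_⟩
  · unfold dT
    rw [h2, hzc]
    ring
  · unfold dT
    rw [h3, hzc]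
    ring

theorem pr_geod : S_geod := by
  intro f hf x y r h0 h1
  rcases le_total r (f x - mn f x y) with h2 | h2
  · exact geod_half hf x y r h0 h2
  · obtain ⟨z, hz, h3, h4⟩ := geod_half hf y x (dT f x y - r) (by linarith) (by
      rw [mn_comm f y x]
      unfold dT
      linarith)
    refine ⟨z, by rw [Set.uIcc_comm]; exact hz, ?_, ?_⟩
    · rw [dT_comm f x z, h4, dT_comm f y x]
      ring
    · rw [dT_comm f z y, h3]

end MP3e01

end

section

/-!
# MP_3e01db_pr, item G8 (hold): Hoelder bound and smallness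
-/

open Set

namespace MP3e01

theorem pr_hold (h1 : S_geod) : S_hold := by
  intro f f' θ g d g' d' τ K R K₁ hf hf' hE hE' hQ hgτ hτd hK hR δ hδ
  have hgm : g ∈ Set.Icc g d := ⟨le_refl _, hE.lt.le⟩
  have hτm : τ ∈ Set.Icc g d := ⟨hgτ.le, hτd.le⟩
  have hfτ : 0 < f τ := hE.pos τ ⟨hgτ, hτd⟩
  have hge : ∀ x ∈ Set.Icc g d, 0 ≤ f x := by
    intro x hx
    rcases eq_or_lt_of_le hx.1 with h | h
    · rw [← h, hE.left]
    rcases eq_or_lt_of_le hx.2 with h' | h'
    · rw [h', hE.right]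
    · exact (hE.pos x ⟨h, h'⟩).le
  have hmg : mn f τ g = 0 := by
    rw [← hE.left]
    apply mn_eq hf Set.right_mem_uIcc
    intro y hy
    rw [Set.uIcc_of_ge hgτ.le] at hy
    rw [hE.left]
    exact hge y ⟨hy.1, le_trans hy.2 hτd.le⟩
  have hdg : dT f τ g = f τ := by
    unfold dT; rw [hmg, hE.left]; ring
  have hH : ∀ B, 0 ≤ dT f' (θ τ) (θ B) := fun B => dT_nonneg hf' _ _
  have hD : 0 < dT f' (θ τ) (θ g) := by
    rcases eq_or_lt_of_le (hH g) with h | h
    · exfalso
      have := (hQ.zero τ hτm g hgm).2 h.symm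
      rw [hdg] at this
      exact hfτ.ne' this
    · exact h
  have hp : ∀ r, 0 ≤ r → r ≤ f τ → ∃ z ∈ Set.Icc g d, dT f τ z = r := by
    intro r h0 h2
    obtain ⟨z, hz, hz2, -⟩ := h1 f hf τ g r h0 (by rw [hdg]; exact h2)
    rw [Set.uIcc_of_ge hgτ.le] at hz
    exact ⟨z, ⟨hz.1, le_trans hz.2 hτd.le⟩, hz2⟩
  have hKr : (1 : ℝ) ≤ (K : ℝ) := by exact_mod_cast hK
  have hRr : (2 : ℝ) ≤ (R : ℝ) := by exact_mod_cast hR
  have hR0 : (0 : ℝ) < (R : ℝ) := by linarith
  -- lower bound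
  have hlow : ∀ i : ℕ, ∀ B ∈ Set.Icc g d, f τ ≤ 4 ^ i * dT f τ B →
      dT f' (θ τ) (θ g) ≤ (K : ℝ) ^ (i + 1) * dT f' (θ τ) (θ B) := by
    intro i
    induction i with
    | zero =>
      intro B hB h
      have := hQ.q1 τ hτm g hgm B hB (by rw [hdg]; simpa using h)
      simpa using this
    | succ i ih =>
      intro B hB h
      have hu : 0 ≤ dT f τ B := dT_nonneg hf _ _
      rcases le_or_gt (4 * dT f τ B) (f τ) with h4 | h4
      · obtain ⟨x, hx, hx2⟩ := hp (4 * dT f τ B) (by linarith) h4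
        have e1 := hQ.q4 τ hτm x hx B hB (by rw [hx2])
        have e2 := ih x hx (by rw [hx2]; rw [pow_succ] at h; linarith)
        calc dT f' (θ τ) (θ g) ≤ (K : ℝ) ^ (i + 1) * dT f' (θ τ) (θ x) := e2
          _ ≤ (K : ℝ) ^ (i + 1) * (K * dT f' (θ τ) (θ B)) := by gcongr
          _ = (K : ℝ) ^ (i + 1 + 1) * dT f' (θ τ) (θ B) := by ring
      · have e1 := hQ.q4 τ hτm g hgm B hB (by rw [hdg]; exact h4.le)
        have e2 : (1 : ℝ) ≤ (K : ℝ) ^ (i + 1) := one_le_pow₀ hKr
        calc dT f' (θ τ) (θ g) ≤ K * dT f' (θ τ) (θ B) := e1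
          _ = 1 * (K * dT f' (θ τ) (θ B)) := by ring
          _ ≤ (K : ℝ) ^ (i + 1) * (K * dT f' (θ τ) (θ B)) := by
            have := hH B
            gcongr
          _ = (K : ℝ) ^ (i + 1 + 1) * dT f' (θ τ) (θ B) := by ring
  -- upper bound
  have hup : ∀ m : ℕ, ∀ B ∈ Set.Icc g d, (R : ℝ) ^ m * dT f τ B ≤ f τ →
      ((2 : ℝ) ^ (8 * K + 8)) ^ m * dT f' (θ τ) (θ B) ≤ K * dT f' (θ τ) (θ g) := by
    intro m
    induction m with
    | zero =>
      intro B hB h
      have := hQ.q1 τ hτm B hB g hgm (by rw [hdg]; simpa using h)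
      simpa using this
    | succ m ih =>
      intro B hB h
      have hu : 0 ≤ dT f τ B := dT_nonneg hf _ _
      have hRm : (1 : ℝ) ≤ (R : ℝ) ^ m := one_le_pow₀ (by linarith)
      have h4 : R * dT f τ B ≤ f τ := by
        calc R * dT f τ B = 1 * (R * dT f τ B) := by ring
          _ ≤ (R : ℝ) ^ m * (R * dT f τ B) := by gcongr
          _ = (R : ℝ) ^ (m + 1) * dT f τ B := by ring
          _ ≤ f τ := h
      obtain ⟨x, hx, hx2⟩ := hp (R * dT f τ B) (by positivity) h4
      have e1 := hQ.qs τ hτm B hB x hx (by rw [hx2])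
      have e2 := ih x hx (by rw [hx2]; rw [pow_succ] at h; linarith)
      calc ((2 : ℝ) ^ (8 * K + 8)) ^ (m + 1) * dT f' (θ τ) (θ B)
          = ((2 : ℝ) ^ (8 * K + 8)) ^ m * ((2 : ℝ) ^ (8 * K + 8) * dT f' (θ τ) (θ B)) := by
            rw [pow_succ]; ring
        _ ≤ ((2 : ℝ) ^ (8 * K + 8)) ^ m * dT f' (θ τ) (θ x) := by gcongr
        _ ≤ K * dT f' (θ τ) (θ g) := e2
  -- the constants
  obtain ⟨C1, hC1⟩ := pow_unbounded_of_one_lt (f τ) (by norm_num : (1 : ℝ) < 4)
  obtain ⟨C2, hC2⟩ := pow_unbounded_of_one_lt (1 / dT f' (θ τ) (θ g)) (by norm_num : (1 : ℝ) < 2)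
  obtain ⟨m, hm⟩ := pow_unbounded_of_one_lt (K * (K * dT f' (θ τ) (θ g)) / δ)
    (by norm_num : (1 : ℝ) < 2)
  obtain ⟨n₀, hn₀⟩ := pow_unbounded_of_one_lt ((R : ℝ) ^ m * 4 / f τ)
    (by linarith : (1 : ℝ) < (R : ℝ))
  refine ⟨C2 + K * (C1 + 1), n₀, ?_⟩
  intro n hn B hB hB1 hB2
  have hRn : (0 : ℝ) < (R : ℝ) ^ n := by positivity
  constructor
  · have h4R : (R : ℝ) ≤ 4 ^ R := by
      have : R < 4 ^ R := Nat.lt_pow_self (by norm_num)
      exact_mod_cast this.le
    have e0 : f τ ≤ 4 ^ (R * n + C1) * dT f τ B := by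
      have e1 : (R : ℝ) ^ n ≤ 4 ^ (R * n) := by
        rw [pow_mul]; gcongr
      calc f τ ≤ 4 ^ C1 := hC1.le
        _ = (R : ℝ) ^ n * 4 ^ C1 * (1 / (R : ℝ) ^ n) := by field_simp
        _ ≤ 4 ^ (R * n) * 4 ^ C1 * dT f τ B := by gcongr
        _ = 4 ^ (R * n + C1) * dT f τ B := by rw [pow_add]
    have e1 := hlow (R * n + C1) B hB e0
    have hK2 : (K : ℝ) ≤ 2 ^ K := by
      have : K < 2 ^ K := Nat.lt_pow_self (by norm_num)
      exact_mod_cast this.le
    have e2 : (K : ℝ) ^ (R * n + C1 + 1) ≤ 2 ^ (K * (R * n + C1 + 1)) := by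
      rw [pow_mul]; gcongr
    have e3 : 1 / (2 : ℝ) ^ C2 ≤ dT f' (θ τ) (θ g) := by
      rw [div_le_iff₀ (by positivity)]
      rw [div_lt_iff₀ hD] at hC2
      linarith
    have e4 : dT f' (θ τ) (θ g) ≤ 2 ^ (K * (R * n + C1 + 1)) * dT f' (θ τ) (θ B) := by
      have := hH B
      exact le_trans e1 (by gcongr)
    have e5 : (2 : ℝ) ^ (K * R * n + (C2 + K * (C1 + 1))) =
        2 ^ C2 * 2 ^ (K * (R * n + C1 + 1)) := by
      rw [← pow_add]; congr 1; ring
    rw [e5, div_le_iff₀ (by positivity)]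
    rw [div_le_iff₀ (by positivity)] at e3
    calc (1 : ℝ) ≤ dT f' (θ τ) (θ g) * 2 ^ C2 := e3
      _ ≤ (2 ^ (K * (R * n + C1 + 1)) * dT f' (θ τ) (θ B)) * 2 ^ C2 := by gcongr
      _ = dT f' (θ τ) (θ B) * (2 ^ C2 * 2 ^ (K * (R * n + C1 + 1))) := by ring
  · have e0 : (R : ℝ) ^ m * dT f τ B ≤ f τ := by
      have e1 : (R : ℝ) ^ n₀ ≤ (R : ℝ) ^ n := pow_le_pow_right₀ (by linarith) hn
      have e2 : (R : ℝ) ^ m * 4 / f τ ≤ (R : ℝ) ^ n := le_trans hn₀.le e1
      calc (R : ℝ) ^ m * dT f τ B ≤ (R : ℝ) ^ m * (4 / (R : ℝ) ^ n) := by gcongr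
        _ = (R : ℝ) ^ m * 4 / (R : ℝ) ^ n := by ring
        _ ≤ f τ := by
          rw [div_le_iff₀ hRn]
          rw [div_le_iff₀ hfτ] at e2
          linarith
    have e1 := hup m B hB e0
    have e2 : (2 : ℝ) ^ m ≤ ((2 : ℝ) ^ (8 * K + 8)) ^ m := by
      have : (2 : ℝ) ≤ (2 : ℝ) ^ (8 * K + 8) := by
        calc (2 : ℝ) = 2 ^ 1 := by norm_num
          _ ≤ (2 : ℝ) ^ (8 * K + 8) := pow_le_pow_right₀ (by norm_num) (by omega)
      gcongr
    have e3 : (2 : ℝ) ^ m * dT f' (θ τ) (θ B) ≤ K * dT f' (θ τ) (θ g) := by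
      have := hH B
      exact le_trans (by gcongr) e1
    have h2m : (0 : ℝ) < 2 ^ m := by positivity
    rw [div_lt_iff₀ hδ] at hm
    have e4 : 2 ^ m * (K * dT f' (θ τ) (θ B)) < 2 ^ m * δ := by
      calc 2 ^ m * (K * dT f' (θ τ) (θ B)) = K * (2 ^ m * dT f' (θ τ) (θ B)) := by ring
        _ ≤ K * (K * dT f' (θ τ) (θ g)) := by gcongr
        _ < 2 ^ m * δ := hm
    exact lt_of_mul_lt_mul_left e4 h2m.le

end MP3e01

end

section

/-!
# MP_3e01db_pr, item imgLoc: location of the images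
-/

open Set

namespace MP3e01

lemma imgLoc_zero (f : ℝ → ℝ) (g d x : ℝ) (hf : Continuous f) (h : IsExc f g d)
    (hx : x ∈ Set.Icc g d) : mn f x g = 0 := by
  have hnn : ∀ y ∈ Set.Icc g d, 0 ≤ f y := by
    intro y hy
    rcases eq_or_lt_of_le hy.1 with h1 | h1
    · rw [← h1, h.left]
    rcases eq_or_lt_of_le hy.2 with h2 | h2
    · rw [h2, h.right]
    · exact (h.pos y ⟨h1, h2⟩).le
  have h1 : mn f x g = f g := by
    apply mn_eq hf Set.right_mem_uIcc
    intro y hy
    rw [h.left]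
    apply hnn
    rw [Set.uIcc_comm, Set.uIcc_of_le hx.1] at hy
    exact ⟨hy.1, le_trans hy.2 hx.2⟩
  rw [h1, h.left]

theorem pr_imgLoc : S_imgLoc := by
  intro f g d b ρ B Z hf hE hb hρ hB hZ h1 h2 h3 h4
  have eb := imgLoc_zero f g d b hf hE hb
  have er := imgLoc_zero f g d ρ hf hE hρ
  have hg0 := hE.left
  unfold Btw dT at h1 h2 h3
  unfold dT at h4
  rw [eb, er, hg0] at h4
  have k1 : mn f B ρ < mn f b B := by linarith
  have k2 : mn f B ρ ≤ mn f b ρ := by
    have h := min_le_mn hf b B ρ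
    rwa [min_eq_right k1.le] at h
  have k3 : mn f b ρ ≤ mn f B ρ := by
    have h := min_le_mn hf B b ρ
    rw [mn_comm f B b] at h
    rcases min_le_iff.1 h with h | h
    · exact absurd h (not_le.2 k1)
    · exact h
  have k4 : f B = mn f b B := by linarith
  have k5 : mn f b Z = mn f B Z := by linarith
  have k6 : mn f B Z ≤ f B := mn_le_left hf B Z
  have k7 : mn f B Z = f B := by
    refine le_antisymm k6 ?_
    by_contra hcon
    have hlt : mn f B Z < f B := not_le.1 hcon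
    have h := min_le_mn hf Z B ρ
    rw [mn_comm f Z B] at h h3
    rcases min_le_iff.1 h with h | h
    · linarith
    · linarith
  refine ⟨?_, k4.symm, ?_, k7⟩
  · unfold dT
    linarith
  · rw [k5, k7]

end MP3e01

end

section

/-!
# MP_3e01db_pr, item G4 (locLab): strong labels in the tree
-/

open Set

namespace MP3e01

theorem pr_locLab (h1 : S_locT) : S_locLab := by
  intro f g d τ s R J lb gr β t hf hE hgτ hτd hR hs h4 hP i hi j hj X hX E hEm hB1 hB2 hB3 hd1 hd2
  obtain ⟨hT, -, -⟩ := h1 f g d τ s R J lb gr β t hf hE hgτ hτd hR hs h4 hP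
  obtain ⟨hβ, ht, -, -, -, -, -, hm⟩ := hT i hi
  have hpos : 0 < s / (R : ℝ) ^ j := by positivity
  have a1 := mn_le_left hf (β i) E
  have a2 := mn_le_left hf E (t i)
  have a3 := mn_le_right hf X E
  have a4 := mn_le_right hf X (β i)
  unfold Btw at hB1 hB2 hB3
  unfold dT at hB1 hB2 hB3 hd1 hd2
  have b1 : mn f (β i) E = f (β i) := by linarith
  have b2 : mn f E (t i) = f E := by linarith
  have b3 : mn f E (β i) = f (β i) := by rw [mn_comm]; exact b1
  have b4 : mn f X E = f E := by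
    by_contra hne
    have hlt : mn f X E < f E := lt_of_le_of_ne a3 hne
    have h5 : mn f X (β i) < f (β i) := by linarith
    have h6 := min_le_mn hf X E (β i)
    rw [b3] at h6
    rcases min_le_iff.1 h6 with h7 | h7
    · linarith
    · linarith
  have b5 : mn f X (t i) = f E := by linarith
  have hτX : τ ≤ X := by
    by_contra hlt
    push Not at hlt
    have h7 := hP.τβ i hi
    have h8 := hP.βt i hi
    have h9 : β i ∈ Set.uIcc X (t i) := by
      rw [Set.uIcc_of_le (by linarith)]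
      exact ⟨by linarith, h8.le⟩
    have h10 := mn_le hf h9
    linarith
  have h11 := hP.label i hi j hj X hτX (by linarith) (by linarith)
  unfold dT
  linarith

end MP3e01

end

section

/-!
# MP_3e01db_pr, item G3 (locT): the strong side in the tree
-/

open Set

namespace MP3e01

namespace LocT

/-- last time of the interval at which the level `c` is attained -/
lemma exists_last {f : ℝ → ℝ} (hf : Continuous f) {a b c : ℝ} (hab : a ≤ b) (h1 : f a ≤ c)
    (h2 : c ≤ f b) : ∃ e ∈ Set.Icc a b, f e = c ∧ ∀ x ∈ Set.Icc e b, c ≤ f x := by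
  have hne : (Set.Icc a b ∩ f ⁻¹' {c}).Nonempty := by
    obtain ⟨x, hx, hx2⟩ := intermediate_value_Icc hab hf.continuousOn ⟨h1, h2⟩
    exact ⟨x, hx, hx2⟩
  have hco : IsCompact (Set.Icc a b ∩ f ⁻¹' {c}) :=
    isCompact_Icc.inter_right (isClosed_singleton.preimage hf)
  obtain ⟨e, he, hmax⟩ := hco.exists_isGreatest hne
  refine ⟨e, he.1, he.2, ?_⟩
  intro x hx
  by_contra hlt
  push Not at hlt
  have hxb : x ≤ b := hx.2
  obtain ⟨y, hy, hy2⟩ := intermediate_value_Icc hxb hf.continuousOn ⟨hlt.le, h2⟩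
  have hye : y ≤ e := hmax ⟨⟨le_trans he.1.1 (le_trans hx.1 hy.1), hy.2⟩, hy2⟩
  have hxe : x = e := le_antisymm (le_trans hy.1 hye) hx.1
  have h3 : f x = c := by rw [hxe]; exact he.2
  linarith

end LocT

open LocT in
theorem pr_locT : S_locT := by
  intro f g d τ s R J lb gr β t hf hE hgτ hτd hR hs h4 hP
  have hβpos : ∀ i < R ^ J, 0 < f (β i) := fun i hi => by
    have := hP.dep_le i hi; linarith
  have htd : ∀ i < R ^ J, t i < d := by
    intro i hi
    by_contra h
    push Not at h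
    have := hP.low i hi d ⟨hτd.le, h⟩
    rw [hE.right] at this
    linarith [hβpos i hi]
  have hge : ∀ x ∈ Set.Icc g d, 0 ≤ f x := by
    intro x hx
    rcases eq_or_lt_of_le hx.1 with h | h
    · rw [← h, hE.left]
    rcases eq_or_lt_of_le hx.2 with h' | h'
    · rw [h', hE.right]
    · exact (hE.pos x ⟨h, h'⟩).le
  have hmg : ∀ x ∈ Set.Icc g d, mn f x g = 0 := by
    intro x hx
    rw [← hE.left]
    apply mn_eq hf Set.right_mem_uIcc
    intro y hy
    rw [Set.uIcc_of_ge hx.1] at hy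
    rw [hE.left]
    exact hge y ⟨hy.1, le_trans hy.2 hx.2⟩
  have htβ : ∀ i < R ^ J, τ < β i := hP.τβ
  have hβt : ∀ i < R ^ J, β i < t i := hP.βt
  -- minimum over an interval inside `[τ, t i]` containing `β i`
  have hmn : ∀ i < R ^ J, ∀ a b : ℝ, τ ≤ a → a ≤ β i → β i ≤ b → b ≤ t i →
      mn f a b = f (β i) := by
    intro i hi a b h1 h2 h3 h4'
    apply mn_eq hf
    · rw [Set.uIcc_of_le (le_trans h2 h3)]; exact ⟨h2, h3⟩
    · intro y hy
      rw [Set.uIcc_of_le (le_trans h2 h3)] at hy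
      exact hP.low i hi y ⟨le_trans h1 hy.1, le_trans hy.2 h4'⟩
  have hanti : ∀ i i', i < i' → i' < R ^ J → f (β i') < f (β i) := by
    intro i i' h
    induction i', h using Nat.le_induction with
    | base => intro h; exact hP.anti i h
    | succ k hk ih => intro h; exact lt_trans (hP.anti k h) (ih (by omega))
  have hord : ∀ i i', i < i' → i' < R ^ J → t i < β i' := by
    intro i i' h h'
    by_contra hc
    push Not at hc
    have := hP.low i (by omega) (β i') ⟨(htβ i' h').le, hc⟩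
    linarith [hanti i i' h h']
  refine ⟨?_, ?_, ?_⟩
  · intro i hi
    have e1 := hmn i hi τ (β i) le_rfl (htβ i hi).le le_rfl (hβt i hi).le
    have e2 := hmn i hi τ (t i) le_rfl (htβ i hi).le (hβt i hi).le le_rfl
    have e3 := hmn i hi (β i) (t i) (htβ i hi).le le_rfl (hβt i hi).le le_rfl
    have hb : β i ∈ Set.Icc g d :=
      ⟨by linarith [htβ i hi], by linarith [hβt i hi, htd i hi]⟩
    have ht : t i ∈ Set.Icc g d :=
      ⟨by linarith [htβ i hi, hβt i hi], by linarith [htd i hi]⟩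
    have e4 := hmg (β i) hb
    have e5 := hmg (t i) ht
    have e6 := hmg τ ⟨hgτ.le, hτd.le⟩
    have e7 : mn f (t i) (β i) = f (β i) := by rw [mn_comm]; exact e3
    refine ⟨⟨by linarith [htβ i hi], by linarith [hβt i hi, htd i hi]⟩,
      ⟨by linarith [htβ i hi, hβt i hi], htd i hi⟩, ?_, ?_, ?_, ?_, ?_, e3⟩
    · unfold dT; rw [e1]; ring
    · unfold dT; rw [e3]; ring
    · unfold Btw dT; rw [e1, e4, e6]; ring
    · unfold Btw dT; rw [e1, e3, e2]; ring
    · unfold Btw dT; rw [e7, e4, e5]; ring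
  · intro i i' h h'
    have hi : i < R ^ J := by omega
    have h1 := hord i i' h h'
    have e1 := hmn i hi τ (β i) le_rfl (htβ i hi).le le_rfl (hβt i hi).le
    have e2 := hmn i' h' (β i) (β i') (htβ i hi).le (by linarith [hβt i hi]) le_rfl
      (hβt i' h').le
    have e3 := hmn i' h' τ (β i') le_rfl (htβ i' h').le le_rfl (hβt i' h').le
    refine ⟨hanti i i' h h', ?_, ?_⟩
    · unfold Btw dT; rw [e1, e2, e3]; ring
    · unfold dT; rw [e2]; ring
  · have hex : ∀ i < R ^ J, ∀ r ∈ Set.Icc 0 s, ∃ e ∈ Set.Icc (β i) (t i), f e = f (β i) + r ∧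
        ∀ x ∈ Set.Icc e (t i), f (β i) + r ≤ f x := by
      intro i hi r hr
      exact exists_last hf (hβt i hi).le (by linarith [hr.1]) (by linarith [hr.2, hP.top i hi])
    classical
    let e : ℕ → ℝ → ℝ := fun i r =>
      if h : i < R ^ J ∧ r ∈ Set.Icc 0 s then (hex i h.1 r h.2).choose else 0
    refine ⟨e, ?_⟩
    intro i hi r hr
    have he : e i r ∈ Set.Icc (β i) (t i) ∧ f (e i r) = f (β i) + r ∧
        ∀ x ∈ Set.Icc (e i r) (t i), f (β i) + r ≤ f x := by
      have h : i < R ^ J ∧ r ∈ Set.Icc 0 s := ⟨hi, hr⟩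
      simp only [e, dif_pos h]
      exact (hex i h.1 r h.2).choose_spec
    obtain ⟨h1, h2, h3⟩ := he
    generalize e i r = E at h1 h2 h3
    have m1 : mn f E (t i) = f E := by
      apply mn_eq hf Set.left_mem_uIcc
      intro y hy
      rw [Set.uIcc_of_le h1.2] at hy
      rw [h2]; exact h3 y hy
    have m2 := hmn i hi (β i) E (htβ i hi).le le_rfl h1.1 h1.2
    have m3 := hmn i hi (β i) (t i) (htβ i hi).le le_rfl (hβt i hi).le le_rfl
    refine ⟨h1, h2, m1, ?_, ?_, ?_⟩
    · unfold dT; rw [m2, h2]; ring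
    · unfold Btw dT; rw [m2, m1, m3, h2]; ring
    · intro i' hi' hne
      rcases lt_or_gt_of_ne hne with h | h
      · have o := hord i' i h hi
        have a := hanti i' i h hi
        have m4 := hmn i hi (β i') E (htβ i' hi').le (by linarith [hβt i' hi']) h1.1 h1.2
        unfold dT
        rw [m4, h2, abs_of_nonpos (by linarith)]
        ring
      · have o := hord i i' h hi'
        have a := hanti i i' h hi'
        have m4 := hmn i' hi' E (β i') (by linarith [htβ i hi, h1.1]) (by linarith [h1.2]) le_rfl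
          (hβt i' hi').le
        unfold dT
        rw [mn_comm f (β i') E, m4, h2, abs_of_nonneg (by linarith)]
        ring

end MP3e01

end

section

open Set

namespace MP3e01

theorem pr_psi (h1 : S_locT) : S_psi := by
  intro f f' θ g d g' d' τ s K R K₁ J lb gr β t e hf hf' hE hE' hQ hgτ hτd hK hR hs hsτ hP he ψ hψ
  obtain ⟨hA, hB, -⟩ := h1 f g d τ s R J lb gr β t hf hE hgτ hτd hR hs hsτ hP
  have hR0 : (0 : ℝ) < R := by positivity
  have hR1 : (1 : ℝ) ≤ R := by exact_mod_cast (by omega : 1 ≤ R)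
  have hK1 : (1 : ℝ) ≤ K := by exact_mod_cast hK
  have hrpos : ∀ j : ℕ, 0 < s / (R : ℝ) ^ j := fun j => by positivity
  have hr : ∀ j : ℕ, s / (R : ℝ) ^ j ∈ Set.Icc 0 s := fun j =>
    ⟨(hrpos j).le, div_le_self hs.le (one_le_pow₀ hR1)⟩
  have hRr : ∀ j : ℕ, (R : ℝ) * (s / (R : ℝ) ^ (j + 1)) = s / (R : ℝ) ^ j := fun j => by
    field_simp
    ring
  have hτI : τ ∈ Set.Icc g d := ⟨hgτ.le, hτd.le⟩
  have hβI : ∀ i < R ^ J, β i ∈ Set.Icc g d := fun i hi => Set.Ioo_subset_Icc_self (hA i hi).1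
  have htI : ∀ i < R ^ J, t i ∈ Set.Icc g d := fun i hi => Set.Ioo_subset_Icc_self (hA i hi).2.1
  have heI : ∀ i < R ^ J, ∀ j : ℕ, e i (s / (R : ℝ) ^ j) ∈ Set.Icc g d := fun i hi j => by
    have := (he i hi _ (hr j)).1
    exact ⟨(hβI i hi).1.trans this.1, this.2.trans (htI i hi).2⟩
  have hed : ∀ i < R ^ J, ∀ j : ℕ, dT f (β i) (e i (s / (R : ℝ) ^ j)) = s / (R : ℝ) ^ j :=
    fun i hi j => (he i hi _ (hr j)).2.2.2.1
  have hpos' : ∀ x ∈ Set.Icc g d, ∀ y ∈ Set.Icc g d, 0 < dT f x y → 0 < dT f' (θ x) (θ y) := by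
    intro x hx y hy hxy
    refine lt_of_le_of_ne (dT_nonneg hf' _ _) (fun h => ?_)
    have := (hQ.zero x hx y hy).2 h.symm
    linarith
  have P1 : ∀ i < R ^ J, ∀ j, 0 < ψ i j := by
    intro i hi j
    rw [hψ]
    apply hpos' _ (hβI i hi) _ (heI i hi j)
    rw [hed i hi j]; exact hrpos j
  refine ⟨P1, ?_, ?_, ?_, ?_, ?_, ?_⟩
  · intro i hi i' hi' j hj hnode
    by_cases hii : i = i'
    · subst hii
      have := P1 i hi j
      have h2 : (1:ℝ) ≤ K * (K + 1) := by nlinarith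
      calc ψ i j = 1 * ψ i j := by ring
        _ ≤ K * (K + 1) * ψ i j := mul_le_mul_of_nonneg_right h2 this.le
    · have hgrp := hP.group i hi i' hi' j hj hnode
      have hdd : dT f (β i') (β i) = |f (β i) - f (β i')| := by
        rcases lt_or_gt_of_ne hii with h | h
        · have := hB i i' h hi'
          rw [dT_comm, this.2.2, abs_of_pos]
          linarith [this.1]
        · have := hB i' i h hi
          rw [this.2.2, abs_of_neg]
          · ring
          · linarith [this.1]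
      have e1 : dT f' (θ (β i')) (θ (β i)) ≤ K * ψ i' j := by
        rw [hψ]
        apply hQ.q1 _ (hβI i' hi') _ (hβI i hi) _ (heI i' hi' j)
        rw [hdd, hed i' hi' j]; exact hgrp
      have e2 : ψ i j ≤ K * dT f' (θ (β i)) (θ (e i' (s / (R : ℝ) ^ j))) := by
        rw [hψ]
        apply hQ.q1 _ (hβI i hi) _ (heI i hi j) _ (heI i' hi' j)
        rw [hed i hi j, (he i' hi' _ (hr j)).2.2.2.2.2 i hi hii]
        linarith [abs_nonneg (f (β i') - f (β i))]
      have e3 := dT_triangle hf' (θ (β i)) (θ (β i')) (θ (e i' (s / (R : ℝ) ^ j)))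
      rw [← hψ i' j, dT_comm f' (θ (β i)) (θ (β i'))] at e3
      have h0 : (0:ℝ) ≤ K := by linarith
      calc ψ i j ≤ K * dT f' (θ (β i)) (θ (e i' (s / (R : ℝ) ^ j))) := e2
        _ ≤ K * (K * ψ i' j + ψ i' j) := by
            apply mul_le_mul_of_nonneg_left _ h0
            linarith
        _ = K * (K + 1) * ψ i' j := by ring
  · intro i hi j
    rw [hψ, hψ]
    apply hQ.qs _ (hβI i hi) _ (heI i hi (j + 1)) _ (heI i hi j)
    rw [hed i hi j, hed i hi (j + 1), hRr]
  · intro i hi j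
    rw [hψ, hψ]
    apply hQ.qb _ (hβI i hi) _ (heI i hi j) _ (heI i hi (j + 1))
    rw [hed i hi j, hed i hi (j + 1), hRr]
  · intro i hi
    have h0 := hed i hi 0
    have hτβ : dT f (β i) τ = f τ - f (β i) := by rw [dT_comm]; exact (hA i hi).2.2.1
    have a1 := hP.dep_ge i hi
    have a2 := hP.dep_le i hi
    have hs1 : s / (R : ℝ) ^ 0 = s := by simp
    refine ⟨?_, ?_, ?_⟩
    · rw [hψ, dT_comm f' (θ τ)]
      apply hQ.q1 _ (hβI i hi) _ (heI i hi 0) _ hτI
      rw [h0, hs1, hτβ]; exact a1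
    · rw [hψ, dT_comm f' (θ τ)]
      apply hQ.q4 _ (hβI i hi) _ hτI _ (heI i hi 0)
      rw [h0, hs1, hτβ]; exact a2
    · have hb := (he i hi _ (hr 0)).2.2.2.2.1
      have hb' := (hQ.btw _ (hβI i hi) _ (heI i hi 0) _ (htI i hi)).1 hb
      rw [hψ]
      have := dT_nonneg hf' (θ (e i (s / (R : ℝ) ^ 0))) (θ (t i))
      unfold Btw at hb'
      linarith
  · intro i hi
    have hi0 : i < R ^ J := by omega
    obtain ⟨b1, b2, b3⟩ := hB i (i + 1) (by omega) hi
    have hb' := (hQ.btw _ hτI _ (hβI i hi0) _ (hβI (i + 1) hi)).1 b2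
    have := hpos' _ (hβI i hi0) _ (hβI (i + 1) hi) (by rw [b3]; linarith)
    unfold Btw at hb'
    linarith
  · intro i hi
    have h00 : 0 < R ^ J := by omega
    have hd : ∀ i < R ^ J, dT f τ (β i) = f τ - f (β i) := fun i hi => (hA i hi).2.2.1
    refine ⟨?_, ?_⟩
    · apply hpos' _ hτI _ (hβI i hi)
      rw [hd i hi]
      linarith [hP.dep_ge i hi]
    · apply hQ.q4 _ hτI _ (hβI i hi) _ (hβI 0 h00)
      rw [hd i hi, hd 0 h00]
      linarith [hP.dep_ge 0 h00, hP.dep_le i hi]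

end MP3e01

end

section

/-!
# MP_3e01db_pr, item three
-/

open Set

namespace MP3e01

namespace Three

variable {f : ℝ → ℝ}

theorem two_lt (hf : Continuous f) {g d b x y : ℝ} (he : IsExc f g d) (hb : 0 ≤ f b)
    (hx : x ∈ Set.Icc g d) (hy : y ∈ Set.Icc g d) (hxy : x < y)
    (h : mn f x y = f b) (h2 : mn f b y = f b) (h3 : f b < f x)
    (h4 : f b < f y) :
    0 < f b ∧ ∃ p q : ℚ, g < p ∧ (p : ℝ) < q ∧ (q : ℝ) < d ∧ mn f p q = f b ∧ f b < f p ∧
      f b < f q ∧ ∀ τ, IsFirst f q (f b) τ → dT f τ b = 0 := by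
  have hgx : g < x := by
    rcases hx.1.lt_or_eq with h5 | h5
    · exact h5
    · rw [← h5, he.left] at h3; linarith
  have hyd : y < d := by
    rcases hy.2.lt_or_eq with h5 | h5
    · exact h5
    · rw [h5, he.right] at h4; linarith
  obtain ⟨w, hw, hwf⟩ := exists_mn hf x y
  rw [Set.uIcc_of_le hxy.le] at hw
  have hfb : 0 < f b := by
    rw [← h, ← hwf]
    exact he.pos w ⟨lt_of_lt_of_le hgx hw.1, lt_of_le_of_lt hw.2 hyd⟩
  have hnx : ∀ᶠ t in nhds x, f b < f t := hf.continuousAt.eventually (lt_mem_nhds h3)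
  have hny : ∀ᶠ t in nhds y, f b < f t := hf.continuousAt.eventually (lt_mem_nhds h4)
  obtain ⟨e1, he1, hx1⟩ := Metric.eventually_nhds_iff.1 hnx
  obtain ⟨e2, he2, hy1⟩ := Metric.eventually_nhds_iff.1 hny
  obtain ⟨p, hp1, hp2⟩ := exists_rat_btwn (show x < x + min e1 ((y - x) / 2) by
    have : 0 < min e1 ((y - x) / 2) := lt_min he1 (by linarith)
    linarith)
  obtain ⟨q, hq1, hq2⟩ := exists_rat_btwn (show y - min e2 ((y - x) / 2) < y by
    have : 0 < min e2 ((y - x) / 2) := lt_min he2 (by linarith)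
    linarith)
  have m1 : min e1 ((y - x) / 2) ≤ e1 := min_le_left _ _
  have m2 : min e1 ((y - x) / 2) ≤ (y - x) / 2 := min_le_right _ _
  have m3 : min e2 ((y - x) / 2) ≤ e2 := min_le_left _ _
  have m4 : min e2 ((y - x) / 2) ≤ (y - x) / 2 := min_le_right _ _
  have hpq : (p : ℝ) < q := by linarith
  have hX : ∀ t, x ≤ t → t ≤ p → f b < f t := by
    intro t ht1 ht2
    apply hx1
    rw [Real.dist_eq, abs_of_nonneg (by linarith)]
    linarith
  have hY : ∀ t, (q : ℝ) ≤ t → t ≤ y → f b < f t := by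
    intro t ht1 ht2
    apply hy1
    rw [Real.dist_eq, abs_of_nonpos (by linarith)]
    linarith
  have hwp : (p : ℝ) < w := by
    by_contra hc
    have := hX w hw.1 (not_lt.1 hc)
    rw [hwf, h] at this
    exact lt_irrefl _ this
  have hwq : w < q := by
    by_contra hc
    have := hY w (not_lt.1 hc) hw.2
    rw [hwf, h] at this
    exact lt_irrefl _ this
  refine ⟨hfb, p, q, by linarith, hpq, by linarith, ?_, hX p hp1.le le_rfl, hY q le_rfl hq2.le, ?_⟩
  · apply le_antisymm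
    · rw [← h, ← hwf]
      apply mn_le hf
      rw [Set.uIcc_of_le hpq.le]
      exact ⟨hwp.le, hwq.le⟩
    · rw [← h]
      apply mn_anti hf
      rw [Set.uIcc_of_le hpq.le, Set.uIcc_of_le hxy.le]
      exact Set.Icc_subset_Icc hp1.le hq2.le
  · rintro τ ⟨t1, t2, t3⟩
    have hyτ : y < τ := by
      by_contra hc
      have := hY τ t1 (not_lt.1 hc)
      rw [t2] at this
      exact lt_irrefl _ this
    have h5 : mn f y τ = f τ := by
      apply mn_eq hf Set.right_mem_uIcc
      intro s hs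
      rw [Set.uIcc_of_le hyτ.le] at hs
      rcases hs.2.lt_or_eq with h6 | h6
      · rw [t2]
        exact (t3 s ⟨by linarith [hs.1], h6⟩).le
      · rw [h6]
    have h6 := min_le_mn hf b y τ
    rw [h2, h5, t2, min_self] at h6
    have h7 := mn_le_left hf b τ
    have h8 : mn f b τ = f b := le_antisymm h7 h6
    unfold dT
    rw [mn_comm f τ b, h8, t2]
    ring

theorem two (hf : Continuous f) {g d b x y : ℝ} (he : IsExc f g d) (hb : 0 ≤ f b)
    (hx : x ∈ Set.Icc g d) (hy : y ∈ Set.Icc g d)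
    (h : Btw f x b y) (h1 : mn f b x = f b) (h2 : mn f b y = f b) (h3 : dT f x b ≠ 0)
    (h4 : dT f y b ≠ 0) :
    0 < f b ∧ ∃ p q : ℚ, g < p ∧ (p : ℝ) < q ∧ (q : ℝ) < d ∧ mn f p q = f b ∧ f b < f p ∧
      f b < f q ∧ ∀ τ, IsFirst f q (f b) τ → dT f τ b = 0 := by
  have e1 : mn f x y = f b := by
    unfold Btw dT at h
    rw [mn_comm f x b, h1, h2] at h
    linarith
  have e3 : f b < f x := by
    have h5 := mn_le_right hf b x
    rw [h1] at h5
    rcases h5.lt_or_eq with h6 | h6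
    · exact h6
    · exfalso
      apply h3
      unfold dT
      rw [mn_comm, h1, ← h6]
      ring
  have e4 : f b < f y := by
    have h5 := mn_le_right hf b y
    rw [h2] at h5
    rcases h5.lt_or_eq with h6 | h6
    · exact h6
    · exfalso
      apply h4
      unfold dT
      rw [mn_comm, h2, ← h6]
      ring
  rcases lt_trichotomy x y with hxy | hxy | hxy
  · exact two_lt hf he hb hx hy hxy e1 h2 e3 e4
  · exfalso
    rw [← hxy, mn_self] at e1
    rw [e1] at e3
    exact lt_irrefl _ e3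
  · exact two_lt hf he hb hy hx hxy (by rw [mn_comm]; exact e1) h1 e4 e3

theorem one_of (hf : Continuous f) {b x y : ℝ} (h : Btw f x b y) :
    mn f b x = f b ∨ mn f b y = f b := by
  by_contra hc
  rw [not_or] at hc
  have h1 := lt_of_le_of_ne (mn_le_left hf b x) hc.1
  have h2 := lt_of_le_of_ne (mn_le_left hf b y) hc.2
  have h3 := min_le_mn hf x b y
  unfold Btw dT at h
  rw [mn_comm f x b] at h h3
  rcases min_cases (mn f b x) (mn f b y) with h4 | h4
  · rw [h4.1] at h3; linarith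
  · rw [h4.1] at h3; linarith

end Three

open Three in
theorem pr_three : S_three := by
  intro f g d b x₁ x₂ x₃ hf he hb h1 h2 h3 b12 b13 b23 d1 d2 d3
  have hb0 : 0 ≤ f b := by
    rcases hb.1.lt_or_eq with h5 | h5
    · rcases hb.2.lt_or_eq with h6 | h6
      · exact (he.pos b ⟨h5, h6⟩).le
      · rw [h6, he.right]
    · rw [← h5, he.left]
  rcases one_of hf b12 with c | c
  · rcases one_of hf b23 with c' | c'
    · exact two hf he hb0 h1 h2 b12 c c' d1 d2
    · exact two hf he hb0 h1 h3 b13 c c' d1 d3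
  · rcases one_of hf b13 with c' | c'
    · exact two hf he hb0 h1 h2 b12 c' c d1 d2
    · exact two hf he hb0 h2 h3 b23 c c' d2 d3

end MP3e01

end

section

/-!
# MP_3e01db_pr, block G, item transfer: a strong pattern is transferred to a weak pattern
-/

open Set MeasureTheory ProbabilityTheory
open scoped ENNReal NNReal

namespace MP3e01

lemma tr_mn_add (f : ℝ → ℝ) (a s t : ℝ) : mn (fun x => f (a + x)) s t = mn f (a + s) (a + t) := by
  unfold mn
  have : (fun x => f (a + x)) '' Set.uIcc s t = f '' Set.uIcc (a + s) (a + t) := by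
    rw [← Set.image_const_add_uIcc, Set.image_image]
  rw [this]

lemma tr_mn_sub (f : ℝ → ℝ) (a s t : ℝ) : mn (fun x => f (a - x)) s t = mn f (a - s) (a - t) := by
  unfold mn
  have : (fun x => f (a - x)) '' Set.uIcc s t = f '' Set.uIcc (a - s) (a - t) := by
    rw [← Set.image_const_sub_uIcc, Set.image_image]
  rw [this]

/-- the geometric part of a weak label: `e'` is an ancestor of `Z` and `X` -/
lemma tr_geo {f : ℝ → ℝ} (hf : Continuous f) {B Z X : ℝ} (hBZ : mn f B Z = f B)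
    (hm : f B < mn f Z X) : ∃ e ∈ Set.uIcc Z X, Btw f B e Z ∧ Btw f X e Z ∧ Btw f X e B ∧
      dT f B e = mn f Z X - f B ∧ dT f X e = f X - mn f Z X := by
  obtain ⟨e, he, hfe⟩ := exists_mn hf Z X
  have heZ : mn f e Z = f e := by
    apply mn_eq hf Set.left_mem_uIcc
    intro y hy
    rw [hfe]
    refine mn_le hf (Set.uIcc_subset_uIcc he Set.left_mem_uIcc hy)
  have heX : mn f e X = f e := by
    apply mn_eq hf Set.left_mem_uIcc
    intro y hy
    rw [hfe]
    refine mn_le hf (Set.uIcc_subset_uIcc he Set.right_mem_uIcc hy)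
  have hBe : mn f B e = f B := by
    apply le_antisymm (mn_le_left hf B e)
    have h1 := min_le_mn hf B Z e
    rw [hBZ, mn_comm f Z e, heZ, hfe] at h1
    rwa [min_eq_left hm.le] at h1
  have hXB : mn f X B = f B := by
    apply le_antisymm (mn_le_right hf X B)
    have h1 := min_le_mn hf X e B
    rw [mn_comm f X e, heX, mn_comm f e B, hBe, hfe] at h1
    rwa [min_eq_right hm.le] at h1
  refine ⟨e, he, ?_, ?_, ?_, ?_, ?_⟩
  · unfold Btw dT
    rw [hBe, heZ, hBZ]; ring
  · unfold Btw dT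
    rw [mn_comm f X e, heX, heZ, mn_comm f X Z, hfe]; ring
  · unfold Btw dT
    rw [mn_comm f X e, heX, mn_comm f e B, hBe, hXB]; ring
  · unfold dT
    rw [hBe, hfe]; ring
  · unfold dT
    rw [mn_comm f X e, heX, hfe]; ring

lemma tr_K_le (K : ℕ) : (K : ℝ) ≤ 2 ^ K := by
  have h : K < 2 ^ K := Nat.lt_two_pow_self
  exact_mod_cast h.le

theorem pr_transfer (h1 : S_locT) (_h2 : S_locLab) (h3 : S_imgLoc) (h4 : S_psi) (h5 : S_code)
    (h6 : S_hold) (h7 : S_wlab) : S_transfer := by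
  intro f f' θ g d g' d' τ τL τR K R K₁ hf hf' hE hE' hQ hgτ hτd hK hR hgL hLR hRd hfLR hmid
    hτ0 hpos
  have hKr : (1 : ℝ) ≤ K := by exact_mod_cast hK
  have hRr : (2 : ℝ) ≤ R := by exact_mod_cast hR
  have hfτR : 0 < f' τR := hE'.pos τR ⟨lt_of_lt_of_le hgL hLR, hRd⟩
  have hfτ : 0 < f τ := hE.pos τ ⟨hgτ, hτd⟩
  -- replace `θ τ` by `τR`
  have hrep : ∀ x, dT f' τR x = dT f' (θ τ) x := by
    intro x
    have a := dT_triangle hf' τR (θ τ) x
    have b := dT_triangle hf' (θ τ) τR x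
    rw [dT_comm f' τR (θ τ), hτ0] at a
    rw [hτ0] at b
    linarith
  set q : ℝ := dT f' τR (θ g) + dT f' τR g' - dT f' (θ g) g' with hq
  obtain ⟨δ, hδ0, hδ1, hδ2, hδ3⟩ : ∃ δ : ℝ, 0 < δ ∧ δ ≤ 1 ∧ δ ≤ f' τR ∧ δ ≤ q / 2 := by
    refine ⟨min 1 (min (f' τR) (q / 2)), ?_, min_le_left _ _, ?_, ?_⟩
    · exact lt_min one_pos (lt_min hfτR (by linarith))
    · exact le_trans (min_le_right _ _) (min_le_left _ _)
    · exact le_trans (min_le_right _ _) (min_le_right _ _)
  obtain ⟨C, n₀, hC⟩ := h6 f f' θ g d g' d' τ K R K₁ hf hf' hE hE' hQ hgτ hτd hK hR δ hδ0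
  obtain ⟨N, hN⟩ : ∃ N : ℕ, ∀ n ≥ N, 4 * (1 / (R : ℝ) ^ n) < f τ := by
    obtain ⟨N, hN⟩ := exists_pow_lt_of_lt_one (show 0 < f τ / 4 by linarith)
      (show 1 / (R : ℝ) < 1 by rw [div_lt_one (by linarith)]; linarith)
    refine ⟨N, fun n hn => ?_⟩
    have h := pow_le_pow_of_le_one (show 0 ≤ 1 / (R : ℝ) by positivity)
      (show 1 / (R : ℝ) ≤ 1 by rw [div_le_one (by linarith)]; linarith) hn
    rw [one_div_pow] at h
    rw [one_div_pow] at h hN
    linarith
  refine ⟨C, max n₀ N, ?_⟩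
  intro n hn J hJ lb gr β t hS
  have hn0 : n₀ ≤ n := le_trans (le_max_left _ _) hn
  have hnN : N ≤ n := le_trans (le_max_right _ _) hn
  have hs0 : 0 < 1 / (R : ℝ) ^ n := by positivity
  have hs4 : 4 * (1 / (R : ℝ) ^ n) < f τ := hN n hnN
  set s : ℝ := 1 / (R : ℝ) ^ n with hs
  obtain ⟨hA, hB, e, he⟩ := h1 f g d τ s R J lb gr β t hf hE hgτ hτd hR hs0 hs4 hS
  set ψ : ℕ → ℕ → ℝ := fun i j => dT f' (θ (β i)) (θ (e i (s / R ^ j))) with hψ
  obtain ⟨P1, P2, P3, P4, P5, P6, P7⟩ := h4 f f' θ g d g' d' τ s K R K₁ J lb gr β t e hf hf'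
    hE hE' hQ hgτ hτd hK hR hs0 hs4 hS he ψ (fun i j => rfl)
  have hRJ : 0 < R ^ J := by positivity
  have hmemI : ∀ i < R ^ J, β i ∈ Set.Icc g d ∧ t i ∈ Set.Icc g d := fun i hi =>
    ⟨Set.Ioo_subset_Icc_self (hA i hi).1, Set.Ioo_subset_Icc_self (hA i hi).2.1⟩
  have hH : ∀ i < R ^ J, 1 / 2 ^ (K * R * n + C) ≤ dT f' (θ τ) (θ (β i)) ∧
      K * dT f' (θ τ) (θ (β i)) < δ := by
    intro i hi
    apply hC n hn0 (β i) (hmemI i hi).1
    · rw [(hA i hi).2.2.1]; exact hS.dep_ge i hi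
    · rw [(hA i hi).2.2.1]
      have := hS.dep_le i hi
      rw [hs] at this
      calc f τ - f (β i) ≤ 4 * (1 / (R : ℝ) ^ n) := this
        _ = 4 / (R : ℝ) ^ n := by ring
  set dep : ℕ → ℝ := fun i => dT f' (θ τ) (θ (β i)) with hdep
  have hdpos : ∀ i < R ^ J, 0 < dep i := fun i hi => (P7 i hi).1
  have hdδ : ∀ i < R ^ J, dep i < δ := by
    intro i hi
    have h := (hH i hi).2
    have h' := hdpos i hi
    have : dep i ≤ K * dep i := by nlinarith
    exact lt_of_le_of_lt this h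
  have hmono : ∀ i, i + 1 < R ^ J → dep i < dep (i + 1) := fun i hi => P6 i hi
  have hge0 : ∀ i < R ^ J, dep 0 ≤ dep i := by
    intro i
    induction i with
    | zero => intro _; exact le_rfl
    | succ i ih =>
      intro hi
      exact le_trans (ih (by omega)) (hmono i hi).le
  -- choice of `n'`
  obtain ⟨n', hn'1, hn'2⟩ : ∃ n' : ℕ, 1 / 2 ^ (n' + 1) < dep 0 ∧ dep 0 ≤ 1 / 2 ^ n' := by
    have h0 := hdpos 0 hRJ
    have h1' : dep 0 ≤ 1 := le_trans (hdδ 0 hRJ).le hδ1
    obtain ⟨m, hm1, hm2⟩ := exists_nat_pow_near_of_lt_one h0 h1' (show (0:ℝ) < 1 / 2 by norm_num)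
      (show (1:ℝ) / 2 < 1 by norm_num)
    refine ⟨m, ?_, ?_⟩
    · rw [one_div_pow] at hm1; exact hm1
    · rw [one_div_pow] at hm2; exact hm2
  have hn'C : n' ≤ K * R * n + C := by
    have h := le_trans (hH 0 hRJ).1 hn'2
    rw [one_div_le_one_div (by positivity) (by positivity)] at h
    exact (pow_le_pow_iff_right₀ (by norm_num : (1:ℝ) < 2)).1 h
  have hdge : ∀ i < R ^ J, 1 / 2 ^ (n' + 1) ≤ dep i := fun i hi =>
    le_trans hn'1.le (hge0 i hi)
  have hdle : ∀ i < R ^ J, dep i ≤ K / 2 ^ n' := by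
    intro i hi
    calc dep i ≤ K * dep 0 := (P7 i hi).2
      _ ≤ K * (1 / 2 ^ n') := by gcongr
      _ = K / 2 ^ n' := by ring
  have hψ0le : ∀ i < R ^ J, ψ i 0 ≤ K ^ 2 / 2 ^ n' := by
    intro i hi
    calc ψ i 0 ≤ K * dep i := (P5 i hi).1
      _ ≤ K * (K / 2 ^ n') := by gcongr; exact hdle i hi
      _ = K ^ 2 / 2 ^ n' := by ring
  have hψ0ge : ∀ i < R ^ J, 1 / 2 ^ (n' + 1 + K) ≤ ψ i 0 := by
    intro i hi
    have a := (P5 i hi).2.1
    have b := hdge i hi
    have c : (1 : ℝ) / 2 ^ (n' + 1) ≤ K * ψ i 0 := le_trans b a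
    have d1 := tr_K_le K
    have e1 : 0 < ψ i 0 := P1 i hi 0
    have f1 : (1 : ℝ) / 2 ^ (n' + 1) ≤ 2 ^ K * ψ i 0 := le_trans c (by gcongr)
    rw [pow_add, ← div_div]
    rw [div_le_iff₀ (by positivity)]
    linarith
  obtain ⟨c, hc1, hc2⟩ := h5 K R K₁ J n' gr ψ hK hR hS.gr_lt P1 P2 P3 P4
    (fun i hi => ⟨hψ0ge i hi, hψ0le i hi⟩)
  -- images
  have hloc : ∀ i < R ^ J, f' (θ (β i)) = f' τR - dep i ∧ mn f' τR (θ (t i)) = f' (θ (β i)) ∧
      mn f' (θ (β i)) (θ (t i)) = f' (θ (β i)) := by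
    intro i hi
    obtain ⟨hβm, htm⟩ := hmemI i hi
    have hτm : τ ∈ Set.Icc g d := ⟨hgτ.le, hτd.le⟩
    have hgm : g ∈ Set.Icc g d := ⟨le_rfl, hE.lt.le⟩
    have b1 : Btw f' (θ τ) (θ (β i)) (θ g) :=
      (hQ.btw τ hτm (β i) hβm g hgm).1 (hA i hi).2.2.2.2.1
    have b2 : Btw f' (θ τ) (θ (β i)) (θ (t i)) :=
      (hQ.btw τ hτm (β i) hβm (t i) htm).1 (hA i hi).2.2.2.2.2.1
    have b3 : Btw f' (θ (t i)) (θ (β i)) (θ g) :=
      (hQ.btw (t i) htm (β i) hβm g hgm).1 (hA i hi).2.2.2.2.2.2.1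
    have h := h3 f' g' d' τR (θ g) (θ (β i)) (θ (t i)) hf' hE'
      ⟨(lt_of_lt_of_le hgL hLR).le, hRd.le⟩ (hQ.maps g hgm) (hQ.maps _ hβm) (hQ.maps _ htm)
      (by unfold Btw at b1 ⊢; rw [hrep, hrep]; exact b1)
      (by unfold Btw at b2 ⊢; rw [hrep, hrep]; exact b2) b3
      (by
        have h' := hdδ i hi
        rw [hrep (θ (β i))]
        have : dT f' (θ τ) (θ (β i)) = dep i := rfl
        rw [this]
        linarith)
    refine ⟨?_, h.2.2.1, h.2.2.2⟩
    rw [h.1, hrep]
  have hside : ∀ i < R ^ J, θ (t i) < τL ∨ τR < θ (t i) := by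
    intro i hi
    by_contra hcon
    push Not at hcon
    obtain ⟨l1, l2, l3⟩ := hloc i hi
    have h' : f' τR ≤ mn f' τR (θ (t i)) := by
      apply le_mn
      intro x hx
      rw [Set.uIcc_of_ge hcon.2] at hx
      exact hmid x ⟨le_trans hcon.1 hx.1, hx.2⟩
    have := hdpos i hi
    linarith
  have hT : ∀ i < R ^ J, θ (t i) ∈ Set.Icc g' d' := fun i hi => hQ.maps _ (hmemI i hi).2
  have hBm : ∀ i < R ^ J, θ (β i) ∈ Set.Icc g' d' := fun i hi => hQ.maps _ (hmemI i hi).1
  have hhigh : ∀ i < R ^ J, 1 / 2 ^ (n' + 1 + K) ≤ f' (θ (t i)) - (f' τR - dep i) := by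
    intro i hi
    obtain ⟨l1, l2, l3⟩ := hloc i hi
    have a := (P5 i hi).2.2
    have b := hψ0ge i hi
    have c' : dT f' (θ (β i)) (θ (t i)) = f' (θ (t i)) - f' (θ (β i)) := by
      unfold dT; rw [l3]; ring
    rw [c'] at a
    rw [← l1]
    exact le_trans b a
  have hlabel : ∀ i < R ^ J, ∀ j ∈ lb i, ∀ X ∈ Set.Icc g' d',
      f' τR - dep i + win K R J n' gr c i j ≤ mn f' (θ (t i)) X →
      mn f' (θ (t i)) X ≤ f' τR - dep i + 2 * win K R J n' gr c i j →
      f' X - mn f' (θ (t i)) X ≤ 2 * K * win K R J n' gr c i j := by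
    intro i hi j hj X hX hm1 hm2
    obtain ⟨l1, l2, l3⟩ := hloc i hi
    have hjI := Finset.mem_Icc.1 (hS.lab_sub i hi hj)
    obtain ⟨w1, w2⟩ := hc2 i hi j (by omega) hjI.2
    have hw : 0 < win K R J n' gr c i j := by unfold win; positivity
    obtain ⟨e', he', c1, c2, c3, c4, c5⟩ := tr_geo hf' (B := θ (β i)) (Z := θ (t i)) (X := X) l3
      (by rw [l1]; linarith)
    have he'm : e' ∈ Set.Icc g' d' := by
      have hsub : Set.uIcc (θ (t i)) X ⊆ Set.Icc g' d' := by
        have := Set.uIcc_subset_Icc (hT i hi) hX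
        exact this
      exact hsub he'
    have h := h7 f f' θ g d g' d' τ s K R K₁ J lb gr β t e hf hf' hE hE' hQ hgτ hτd hK hR hs0
      hs4 hS he i hi j hj (win K R J n' gr c i j) w1 w2 X hX e' he'm c1 c2 c3
      (by rw [c4, l1]; linarith) (by rw [c4, l1]; linarith)
    rw [c5] at h
    exact h
  classical
  refine ⟨n', hn'C, c, hc1, fun i => decide (τR < θ (t i)), dep,
    fun i => if τR < θ (t i) then θ (t i) - τR else τL - θ (t i), ?_, ?_⟩
  · refine ⟨hdge, hdle, hmono, ?_, ?_, ?_⟩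
    · -- small
      intro i hi j hj
      have hjI := Finset.mem_Icc.1 (hS.lab_sub i hi hj)
      obtain ⟨w1, w2⟩ := hc2 i hi j (by omega) hjI.2
      have hdec : ∀ m : ℕ, ψ i (m + 1) ≤ ψ i 1 := by
        intro m
        induction m with
        | zero => exact le_rfl
        | succ m ih =>
          have a := P3 i hi (m + 1)
          have b := P1 i hi (m + 1 + 1)
          have c' : (1 : ℝ) ≤ 2 ^ (8 * K + 8) := one_le_pow₀ (by norm_num)
          have : ψ i (m + 1 + 1) ≤ 2 ^ (8 * K + 8) * ψ i (m + 1 + 1) := by nlinarith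
          linarith
      have hj1 : ψ i (j - 1) ≤ ψ i 1 := by
        have := hdec (j - 2)
        rwa [show j - 2 + 1 = j - 1 by omega] at this
      have hp := P3 i hi 0
      rw [zero_add] at hp
      have hq0 := hψ0le i hi
      have hKK : (K : ℝ) ^ 2 ≤ 2 ^ (2 * K) := by
        have := tr_K_le K
        calc (K : ℝ) ^ 2 ≤ (2 ^ K) ^ 2 := by gcongr
          _ = 2 ^ (2 * K) := by rw [← pow_mul]; ring_nf
      have h8 : (2 : ℝ) ^ (8 * K + 8) * ψ i 1 ≤ 2 ^ (2 * K) / 2 ^ n' := by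
        refine le_trans hp (le_trans hq0 ?_)
        gcongr
      have h9 : ψ i 1 ≤ 1 / 2 ^ (n' + 2 + K) := by
        rw [le_div_iff₀ (by positivity)]
        rw [le_div_iff₀ (by positivity)] at h8
        have h10 : (2 : ℝ) ^ (2 * K) ≤ 2 ^ (7 * K + 6) := by
          apply pow_le_pow_right₀ (by norm_num); omega
        have h11 : (2 : ℝ) ^ (8 * K + 8) * ψ i 1 * 2 ^ n' =
            2 ^ (7 * K + 6) * (ψ i 1 * 2 ^ (n' + 2 + K)) := by
          rw [show 8 * K + 8 = (7 * K + 6) + (2 + K) by omega, pow_add,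
            show n' + 2 + K = n' + (2 + K) by omega, pow_add (2 : ℝ) n' (2 + K)]
          ring
        rw [h11] at h8
        have h12 : (2 : ℝ) ^ (7 * K + 6) * (ψ i 1 * 2 ^ (n' + 2 + K)) ≤ 2 ^ (7 * K + 6) * 1 := by
          linarith
        exact le_of_mul_le_mul_left h12 (by positivity)
      linarith
    · -- right
      intro i hi hsd
      have hsd' : τR < θ (t i) := by simpa using hsd
      obtain ⟨l1, l2, l3⟩ := hloc i hi
      simp only [hsd', if_true]
      refine ⟨by linarith, by linarith [(hT i hi).2], ?_, ?_, ?_⟩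
      · rw [tr_mn_add, add_zero, show τR + (θ (t i) - τR) = θ (t i) by ring, l2, l1]
      · show 1 / 2 ^ (n' + 1 + K) ≤ f' (τR + (θ (t i) - τR)) - (f' τR - dep i)
        rw [show τR + (θ (t i) - τR) = θ (t i) by ring]
        exact hhigh i hi
      · rintro w ⟨j, hj, rfl⟩ x hx hm1 hm2
        rw [tr_mn_add, show τR + (θ (t i) - τR) = θ (t i) by ring] at hm1 hm2 ⊢
        apply hlabel i hi j hj (τR + x) ?_ hm1 hm2
        constructor
        · have := hx.1
          have := (hT i hi).1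
          linarith
        · linarith [hx.2]
    · -- left
      intro i hi hsd
      have hsd' : ¬ τR < θ (t i) := by simpa using hsd
      have hZL : θ (t i) < τL := (hside i hi).resolve_right hsd'
      obtain ⟨l1, l2, l3⟩ := hloc i hi
      simp only [hsd', if_false]
      have hmL : mn f' τL (θ (t i)) = f' (θ (β i)) := by
        apply le_antisymm
        · obtain ⟨z, hz, hfz⟩ := exists_mn hf' τR (θ (t i))
          rw [l2] at hfz
          have hz' : z ∈ Set.uIcc τL (θ (t i)) := by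
            rw [Set.uIcc_of_ge (by linarith)] at hz
            rw [Set.uIcc_of_ge hZL.le]
            refine ⟨hz.1, ?_⟩
            by_contra hcon
            push Not at hcon
            have := hmid z ⟨hcon.le, hz.2⟩
            have := hdpos i hi
            linarith
          rw [← hfz]
          exact mn_le hf' hz'
        · rw [← l2]
          apply mn_anti hf'
          rw [Set.uIcc_of_ge hZL.le, Set.uIcc_of_ge (by linarith)]
          exact Set.Icc_subset_Icc le_rfl hLR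
      refine ⟨by linarith, by linarith [(hT i hi).1], ?_, ?_, ?_⟩
      · rw [tr_mn_sub, sub_zero, show τL - (τL - θ (t i)) = θ (t i) by ring, hmL, l1]
      · show 1 / 2 ^ (n' + 1 + K) ≤ f' (τL - (τL - θ (t i))) - (f' τR - dep i)
        rw [show τL - (τL - θ (t i)) = θ (t i) by ring]
        exact hhigh i hi
      · rintro w ⟨j, hj, rfl⟩ x hx hm1 hm2
        rw [tr_mn_sub, show τL - (τL - θ (t i)) = θ (t i) by ring] at hm1 hm2 ⊢
        apply hlabel i hi j hj (τL - x) ?_ hm1 hm2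
        constructor
        · linarith [hx.2]
        · have := hx.1
          have := (hT i hi).2
          linarith
  · intro i hi
    exact lt_of_lt_of_le (hdδ i hi) hδ2

end MP3e01

end

section

/-!
# Item wlab: weak labels in the tree
-/

open Set

namespace MP3e01

/-- two points on the same arc are ordered by the distance to its origin -/
theorem wlab_order {f : ℝ → ℝ} (hf : Continuous f) {a b u v : ℝ} (hu : Btw f a u b)
    (hv : Btw f a v b) (h : dT f a u ≤ dT f a v) : Btw f a u v := by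
  unfold Btw at hu hv ⊢
  have h1 := dT_four hf u v a b
  have h2 := dT_triangle hf a u v
  rw [dT_comm f u a, dT_comm f v a] at h1
  rcases le_max_iff.1 h1 with h3 | h3
  · linarith
  · linarith

theorem wlab_congr {f : ℝ → ℝ} (hf : Continuous f) {p q : ℝ} (h : dT f p q = 0) (a : ℝ) :
    dT f a p = dT f a q := by
  have h1 := dT_triangle hf a p q
  have h2 := dT_triangle hf a q p
  rw [dT_comm f q p] at h2
  linarith

theorem pr_wlab (h1 : S_locT) (h2 : S_locLab) : S_wlab := by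
  intro f f' θ g d g' d' τ s K R K₁ J lb gr β t e hf hf' hexc hexc' hq hgτ hτd hK hR hs h4s hsp he
    i hi j hj w hw1 hw2 x hx e' he' hb1 hb2 hb3 hw3 hw4
  obtain ⟨hT, -, -⟩ := h1 f g d τ s R J lb gr β t hf hexc hgτ hτd hR hs h4s hsp
  obtain ⟨hβ, ht, -, -, -, -, -, -⟩ := hT i hi
  have hβ' : β i ∈ Set.Icc g d := ⟨hβ.1.le, hβ.2.le⟩
  have ht' : t i ∈ Set.Icc g d := ⟨ht.1.le, ht.2.le⟩
  obtain ⟨E, hE, hE0⟩ := hq.surj e' he'
  obtain ⟨X, hX, hX0⟩ := hq.surj x hx
  have hEe : ∀ a, dT f' a (θ E) = dT f' a e' := fun a => wlab_congr hf' hE0 a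
  have hXx : ∀ a, dT f' a (θ X) = dT f' a x := fun a => wlab_congr hf' hX0 a
  have hEe' : ∀ a, dT f' (θ E) a = dT f' e' a := fun a => by
    rw [dT_comm f' _ a, dT_comm f' _ a, hEe]
  have hXx' : ∀ a, dT f' (θ X) a = dT f' x a := fun a => by
    rw [dT_comm f' _ a, dT_comm f' _ a, hXx]
  have c1 : Btw f (β i) E (t i) := by
    rw [hq.btw _ hβ' _ hE _ ht']
    unfold Btw at hb1 ⊢
    rw [hEe, hEe']
    exact hb1
  have c2 : Btw f X E (t i) := by
    rw [hq.btw _ hX _ hE _ ht']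
    unfold Btw at hb2 ⊢
    rw [hEe, hEe', hXx', hXx']
    exact hb2
  have c3 : Btw f X E (β i) := by
    rw [hq.btw _ hX _ hE _ hβ']
    unfold Btw at hb3 ⊢
    rw [hEe, hEe', hXx', hXx']
    exact hb3
  have hRr : (1 : ℝ) ≤ R := by exact_mod_cast (by omega : 1 ≤ R)
  have hr : ∀ m : ℕ, s / (R : ℝ) ^ m ∈ Set.Icc 0 s := by
    intro m
    have hpow : (1 : ℝ) ≤ (R : ℝ) ^ m := one_le_pow₀ hRr
    exact ⟨by positivity, div_le_self hs.le hpow⟩
  have hem : ∀ m : ℕ, e i (s / (R : ℝ) ^ m) ∈ Set.Icc g d ∧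
      dT f (β i) (e i (s / (R : ℝ) ^ m)) = s / (R : ℝ) ^ m ∧
      Btw f (β i) (e i (s / (R : ℝ) ^ m)) (t i) := by
    intro m
    obtain ⟨q1, -, -, q4, q5, -⟩ := he i hi _ (hr m)
    exact ⟨⟨le_trans hβ'.1 q1.1, le_trans q1.2 ht'.2⟩, q4, q5⟩
  have k1 : s / (R : ℝ) ^ j ≤ dT f (β i) E := by
    by_contra hcon
    have hcon' := lt_of_not_ge hcon
    obtain ⟨m1, m2, m3⟩ := hem j
    have b1 : Btw f (β i) E (e i (s / (R : ℝ) ^ j)) := wlab_order hf c1 m3 (by rw [m2]; exact hcon'.le)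
    have b2 := (hq.btw _ hβ' _ hE _ m1).1 b1
    unfold Btw at b1 b2
    rw [m2] at b1
    have b3 : dT f' (θ E) (θ (e i (s / (R : ℝ) ^ j))) ≠ 0 := by
      intro h0
      have h0' := (hq.zero _ hE _ m1).2 h0
      linarith
    have b4 := dT_nonneg hf' (θ E) (θ (e i (s / (R : ℝ) ^ j)))
    have b5 : 0 < dT f' (θ E) (θ (e i (s / (R : ℝ) ^ j))) := lt_of_le_of_ne b4 (Ne.symm b3)
    rw [hEe (θ (β i))] at b2
    linarith
  have k2 : dT f (β i) E ≤ s / (R : ℝ) ^ (j - 1) := by
    by_contra hcon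
    have hcon' := lt_of_not_ge hcon
    obtain ⟨m1, m2, m3⟩ := hem (j - 1)
    have b1 : Btw f (β i) (e i (s / (R : ℝ) ^ (j - 1))) E :=
      wlab_order hf m3 c1 (by rw [m2]; exact hcon'.le)
    have b2 := (hq.btw _ hβ' _ m1 _ hE).1 b1
    unfold Btw at b1 b2
    rw [m2] at b1
    have b3 : dT f' (θ (e i (s / (R : ℝ) ^ (j - 1)))) (θ E) ≠ 0 := by
      intro h0
      have h0' := (hq.zero _ m1 _ hE).2 h0
      linarith
    have b4 := dT_nonneg hf' (θ (e i (s / (R : ℝ) ^ (j - 1)))) (θ E)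
    have b5 : 0 < dT f' (θ (e i (s / (R : ℝ) ^ (j - 1)))) (θ E) := lt_of_le_of_ne b4 (Ne.symm b3)
    rw [hEe (θ (β i))] at b2
    linarith
  have k3 := h2 f g d τ s R J lb gr β t hf hexc hgτ hτd hR hs h4s hsp i hi j hj X hX E hE c1 c2 c3
    k1 k2
  have k4 : dT f E X ≤ dT f E (β i) := by
    rw [dT_comm f E X, dT_comm f E (β i)]
    exact le_trans k3 k1
  have k5 := hq.q1 E hE X hX (β i) hβ' k4
  rw [dT_comm f' (θ E) (θ X), dT_comm f' (θ E) (θ (β i)), hEe (θ (β i)), hEe (θ X), hXx' e'] at k5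
  have hKr : (0 : ℝ) ≤ K := Nat.cast_nonneg K
  calc dT f' x e' ≤ K * dT f' (θ (β i)) e' := k5
    _ ≤ K * (2 * w) := mul_le_mul_of_nonneg_left hw4 hKr
    _ = 2 * K * w := by ring

end MP3e01

end
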