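import Mathlib
import Pool.Agent.Work.MP_3e01db_pr.Bd.B01
import Pool.Agent.Work.MP_3e01db_pr.Bd.B02
import Pool.Agent.Work.MP_3e01db_pr.Bd.B03
import Pool.Agent.Work.MP_3e01db_pr.Bd.B04

/-! Bundle of small proof modules (one section per former module). -/

section

/-!
# MP_3e01db_pr, block F: events, union bound, series, assembly (statements)
-/

open Set MeasureTheory ProbabilityTheory Filter
open scoped ENNReal NNReal unitInterval

namespace MP3e01

/-- bound for the letters of codes -/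
def Cc (K K₁ : ℕ) : ℕ := 3 * K + K₁ + 8

/-- mesh exponent on the weak side -/
def EE (K R K₁ J : ℕ) : ℕ := (J + 2) * (Cc K K₁ + 2) + R * J + K + 16

/-- height parameter on the weak side -/
def AA (K R K₁ J : ℕ) : ℕ := 2 ^ (EE K R K₁ J - 2 - K)

/-- number of scales used at stage `J` -/
def n1 (R J : ℕ) : ℕ := (J * R ^ J) ^ (R ^ J)

/-- mesh on the strong side at stage `J` -/
noncomputable def epsT (R J : ℕ) : ℝ := 1 / (R ^ (n1 R J) * (16 * R ^ J))

/-- list of pages on one side -/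
def pg (N : ℕ) (side : ℕ → Bool) (b : Bool) (l : ℕ → ℕ) (Q : ℕ → List ℕ) : List (ℕ × List ℕ) :=
  ((List.range N).filter fun i => side i = b).map fun i => (l i, Q i)

/-- the failing event at stage `J` -/
def FailEv (D R J n₀ : ℕ) (f : ℝ → ℝ) (p q : ℝ) : Prop :=
  ∃ v ∈ Fail D R J (n1 R J - n₀), RightPre f p q (epsT R J) v

/-- at stage `J`, the path `f'` has a weak cluster compatible with the labels `lb` and groups `gr` -/
def CompatEv (K R K₁ J : ℕ) (lb : ℕ → Finset ℕ) (gr : ℕ → ℕ) (f' : ℝ → ℝ) (p' q' : ℝ) : Prop :=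
  ∃ n' ≤ (K * R + 1) * n1 R J, ∃ c : ℕ → ℕ → ℕ, (∀ j idx, c j idx < Cc K K₁) ∧
    ∃ (side : ℕ → Bool) (l : ℕ → ℕ), (∀ i < R ^ J, l i ≤ K * 2 ^ EE K R K₁ J) ∧
      (∀ i i', i ≤ i' → i' < R ^ J → l i ≤ l i') ∧
      ∃ v₁ ∈ chain K (AA K R K₁ J) 0 (pg (R ^ J) side true l (qs K R J (EE K R K₁ J) gr c lb)),
      ∃ v₂ ∈ chain K (AA K R K₁ J) 0 (pg (R ^ J) side false l (qs K R J (EE K R K₁ J) gr c lb)),
        RightPre f' p' q' (1 / 2 ^ (n' + EE K R K₁ J)) v₁ ∧
        LeftPre f' p' q' (1 / 2 ^ (n' + EE K R K₁ J)) v₂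

/-- the event at stage `J` that a strong cluster of `f` has a compatible weak cluster of `f'` -/
def BothEv (D K R K₁ J n₀ : ℕ) (f f' : ℝ → ℝ) (p q p' q' : ℝ) : Prop :=
  ∃ i ≤ n1 R J - n₀, ∃ u ∈ FP (2 * (16 * R ^ i) * R ^ J), ∃ ws, IsCluster D R J (16 * R ^ i) ws ∧
    RightPre f p q (epsT R J) (u ++ ws.flatten) ∧
    CompatEv K R K₁ J (fun i' => lab R J (16 * R ^ i) (ws.getD i' [])) (grp (16 * R ^ i) ws)
      f' p' q'

/-- the probabilistic input for a given pair of processes -/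
def HAN {Ω : Type*} [MeasurableSpace Ω] (P : Measure Ω) (X X' : Ω → ℝ → ℝ) : Prop :=
  ∀ (p q p' q' ε ε' : ℝ), 0 < p → p < q → 0 < p' → p' < q' → 0 < ε → 0 < ε' →
    ∀ (v v₁ v₂ : List Bool),
      P {ω | RightPre (X ω) p q ε v ∧ RightPre (X' ω) p' q' ε' v₁ ∧
        LeftPre (X' ω) p' q' ε' v₂} ≤ (2⁻¹ : ℝ≥0∞) ^ (v.length + v₁.length + v₂.length)

/-- F1: union bound -/
def S_union.{u} : Prop := ∀ {Ω : Type u} [MeasurableSpace Ω] (P : Measure Ω) (X X' : Ω → ℝ → ℝ),
  HAN P X X' → ∀ (p q p' q' ε ε' : ℝ), 0 < p → p < q → 0 < p' → p' < q' → 0 < ε → 0 < ε' →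
  ∀ L L₁ L₂ : Set (List Bool),
    P {ω | ∃ v ∈ L, ∃ v₁ ∈ L₁, ∃ v₂ ∈ L₂, RightPre (X ω) p q ε v ∧
      RightPre (X' ω) p' q' ε' v₁ ∧ LeftPre (X' ω) p' q' ε' v₂} ≤ wt L * wt L₁ * wt L₂

/-- F2: probability of failing.  (The event is intersected with the empty-word events of `X'`,
which hold almost surely on the relevant sets; here we only use words of `X`.) -/
def S_failP.{u} : Prop := ∀ {Ω : Type u} [MeasurableSpace Ω] (P : Measure Ω) (X X' : Ω → ℝ → ℝ),
  HAN P X X' → ∀ (p q p' q' : ℝ), 0 < p → p < q → 0 < p' → p' < q' →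
  ∀ (D R J n₀ : ℕ), 1 ≤ D → 2 ≤ R → 2 ≤ J →
    (∀ G : ℕ, 0 < G → 16 ∣ G → 1 / ((D * R ^ J : ℕ) : ℝ≥0∞) ≤ wt (GoodPages D R J G)) →
    P {ω | FailEv D R J n₀ (X ω) p q ∧ RightPre (X' ω) p' q' 1 [] ∧ LeftPre (X' ω) p' q' 1 []} ≤
      (1 - (1 / ((D * R ^ J : ℕ) : ℝ≥0∞)) ^ (R ^ J)) ^ (n1 R J - n₀ + 1)

/-- F3a: probability of compatibility with given data -/
def S_compatP.{u} : Prop := ∀ {Ω : Type u} [MeasurableSpace Ω] (P : Measure Ω) (X X' : Ω → ℝ → ℝ),
  HAN P X X' → ∀ (p q p' q' ε : ℝ), 0 < p → p < q → 0 < p' → p' < q' → 0 < ε →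
  ∀ (v : List Bool) (K R K₁ J b : ℕ) (lb : ℕ → Finset ℕ) (gr : ℕ → ℕ), 1 ≤ K → 2 ≤ R → 2 ≤ J →
    (∀ i < R ^ J, gr i < R ^ J) → (∀ i < R ^ J, lb i ⊆ Finset.Icc 2 J) →
    (∀ i < R ^ J, b ≤ (lb i).card) →
    P {ω | RightPre (X ω) p q ε v ∧ CompatEv K R K₁ J lb gr (X' ω) p' q'} ≤
      (2⁻¹ : ℝ≥0∞) ^ v.length * (((K * R + 1) * n1 R J + 1 : ℕ) : ℝ≥0∞) *
        ((Cc K K₁ ^ 2 * K * 2 ^ (K + 4) : ℕ) : ℝ≥0∞) ^ (R ^ J) *
        ((4 * K : ℕ) / ((4 * K + 1 : ℕ) : ℝ≥0∞)) ^ (R ^ J * b) / ((R ^ J).factorial : ℝ≥0∞)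

/-- F3b: total weight of clusters with their first passages -/
def S_sumClus : Prop := ∀ (D R J m : ℕ), 2 ≤ R →
  ∑ i ∈ Finset.range (m + 1), ∑' u : FP (2 * (16 * R ^ i) * R ^ J),
    ∑' ws : {ws // IsCluster D R J (16 * R ^ i) ws},
      (2⁻¹ : ℝ≥0∞) ^ ((u : List Bool) ++ (ws : List (List Bool)).flatten).length ≤
    ((m + 1 : ℕ) : ℝ≥0∞) / (((R ^ J) ^ (R ^ J) : ℕ) : ℝ≥0∞)

/-- F3: probability of a coincidence -/
def S_bothP.{u} : Prop := ∀ {Ω : Type u} [MeasurableSpace Ω] (P : Measure Ω) (X X' : Ω → ℝ → ℝ),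
  HAN P X X' → ∀ (p q p' q' : ℝ), 0 < p → p < q → 0 < p' → p' < q' →
  ∀ (D K R K₁ J n₀ : ℕ), 1 ≤ D → 1 ≤ K → 2 ≤ R → 2 ≤ J →
    P {ω | BothEv D K R K₁ J n₀ (X ω) (X' ω) p q p' q'} ≤
      ((n1 R J + 1 : ℕ) : ℝ≥0∞) * (((K * R + 1) * n1 R J + 1 : ℕ) : ℝ≥0∞) *
        ((Cc K K₁ ^ 2 * K * 2 ^ (K + 4) : ℕ) : ℝ≥0∞) ^ (R ^ J) *
        ((4 * K : ℕ) / ((4 * K + 1 : ℕ) : ℝ≥0∞)) ^ (R ^ J * (J / D)) /
        (((R ^ J).factorial * (R ^ J) ^ (R ^ J) : ℕ) : ℝ≥0∞)

/-- F4: summability of the failing bounds -/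
def S_num1 : Prop := ∀ (D R n₀ : ℕ), 1 ≤ D → 2 ≤ R →
  ∑' J : ℕ, (1 - (1 / ((D * R ^ J : ℕ) : ℝ≥0∞)) ^ (R ^ J)) ^ (n1 R J - n₀ + 1) ≠ ⊤

/-- F5: summability of the coincidence bounds -/
def S_num2 : Prop := ∀ (D K R K₁ : ℕ), 1 ≤ D → 1 ≤ K → 2 ≤ R →
  ∑' J : ℕ, ((n1 R J + 1 : ℕ) : ℝ≥0∞) * (((K * R + 1) * n1 R J + 1 : ℕ) : ℝ≥0∞) *
        ((Cc K K₁ ^ 2 * K * 2 ^ (K + 4) : ℕ) : ℝ≥0∞) ^ (R ^ J) *
        ((4 * K : ℕ) / ((4 * K + 1 : ℕ) : ℝ≥0∞)) ^ (R ^ J * (J / D)) /
        (((R ^ J).factorial * (R ^ J) ^ (R ^ J) : ℕ) : ℝ≥0∞) ≠ ⊤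

/-- F6: the deterministic theorem: a correspondence forces, at every late stage, one of the two
events -/
def S_det : Prop := ∀ (f f' θ : ℝ → ℝ) (g d g' d' : ℝ) (D K R K₁ : ℕ), Continuous f →
  Continuous f' → IsExc f g d → IsExc f' g' d' → 0 ≤ g → 0 ≤ g' → NonMono f' g' d' →
  1 ≤ D → 1 ≤ K → 2 ≤ R → QSCorr f g d f' g' d' K R K₁ θ →
  ∃ p q p' q' : ℚ, 0 < (p : ℝ) ∧ (p : ℝ) < q ∧ 0 < (p' : ℝ) ∧ (p' : ℝ) < q' ∧
    RightPre f' p' q' 1 [] ∧ LeftPre f' p' q' 1 [] ∧
    ∃ n₀ : ℕ, ∀ᶠ J in atTop, FailEv D R J n₀ f p q ∨ BothEv D K R K₁ J n₀ f f' p q p' q'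

/-- F7: zeros of Brownian motion around time one -/
def S_Z.{u} : Prop := ∀ {Ω : Type u} [MeasurableSpace Ω] (P : Measure Ω) (B : ℝ≥0 → Ω → ℝ),
  IsBrownianReal B P → ∀ᵐ ω ∂P, Continuous (fun t => B t ω) ∧ B 0 ω = 0 ∧ B 1 ω ≠ 0 ∧
    ∃ t : ℝ≥0, 1 ≤ t ∧ B t ω = 0

/-- F8: Brownian paths are not monotone on any rational interval -/
def S_NM.{u} : Prop := ∀ {Ω : Type u} [MeasurableSpace Ω] (P : Measure Ω) (B : ℝ≥0 → Ω → ℝ),
  IsBrownianReal B P → ∀ᵐ ω ∂P, ∀ a b : ℝ, 0 ≤ a → a < b →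
    ¬ MonotoneOn (pathR B ω) (Set.Icc a b) ∧ ¬ AntitoneOn (pathR B ω) (Set.Icc a b)

/-- F9: the excursion straddling time one -/
def S_excPath : Prop := ∀ (u : ℝ≥0 → ℝ), Continuous u → u 0 = 0 → u 1 ≠ 0 →
  (∃ t : ℝ≥0, 1 ≤ t ∧ u t = 0) →
  ∃ (g d : ℝ) (f : ℝ → ℝ), 0 ≤ g ∧ Continuous f ∧ IsExc f g d ∧
    ((∀ t, f t = u t.toNNReal) ∨ (∀ t, f t = -u t.toNNReal)) ∧
    ∀ t : I, excursion u t = f (g + t * (d - g)) / √(d - g)

/-- F10: main theorem for two Brownian motions -/
def S_main.{u} : Prop := ∀ {Ω : Type u} [MeasurableSpace Ω] (P : Measure Ω)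
  (B B' : ℝ≥0 → Ω → ℝ), IsBrownianReal B P → IsBrownianReal B' P →
  IndepFun (fun ω t => B t ω) (fun ω t => B' t ω) P →
  ∀ᵐ ω ∂P, ∀ w w' : C(I, ℝ), (∀ t, w t = excursion (fun s => B s ω) t) →
    (∀ t, w' t = excursion (fun s => B' s ω) t) → ¬ QSEquiv (CRTree w) (CRTree w')

end MP3e01

end

section

/-!
# MP_3e01db_pr, T4: existence of a first passage word
-/

open Set

namespace MP3e01

private lemma fpex_ht_append (u v : List Bool) : ht (u ++ v) = ht u + ht v := by
  simp [ht]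

private lemma fpex_ht_single (d : Bool) : ht [d] = 1 ∨ ht [d] = -1 := by
  cases d
  · right; rfl
  · left; rfl

/-- a word reaching the level `-b` has a first passage prefix -/
lemma fpex_exists_prefix (b : ℕ) : ∀ (n : ℕ) (x z : List Bool), x.length ≤ n →
    ht x ≤ -(b : ℤ) → ∃ u v, x ++ z = u ++ v ∧ u ∈ FP b := by
  intro n
  induction n with
  | zero =>
    intro x z hx hc
    have hx0 : x = [] := List.length_eq_zero_iff.1 (by omega)
    subst hx0
    have hb0 : (b : ℤ) = 0 := by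
      have : ht [] = 0 := rfl
      omega
    refine ⟨[], z, rfl, by rw [hb0]; rfl, fun u hu hne => ?_⟩
    exact absurd (List.prefix_nil.1 hu) hne
  | succ n ih =>
    intro x z hx hc
    by_cases h : ∃ y, y <+: x ∧ y ≠ x ∧ ht y ≤ -(b : ℤ)
    · obtain ⟨y, ⟨t, rfl⟩, hne, hy⟩ := h
      have ht0 : 0 < t.length := by
        rcases t with _ | ⟨a, t⟩
        · exact absurd (by simp) hne
        · simp
      obtain ⟨u, v, huv, hu⟩ := ih y (t ++ z) (by
        rw [List.length_append] at hx; omega) hy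
      exact ⟨u, v, by rw [List.append_assoc]; exact huv, hu⟩
    · push Not at h
      refine ⟨x, z, rfl, ?_, fun w hw hne => h w hw hne⟩
      rcases List.eq_nil_or_concat x with rfl | ⟨x', d, rfl⟩
      · have : ht [] = 0 := rfl
        omega
      · rw [List.concat_eq_append] at h hc ⊢
        have h' := h x' (List.prefix_append _ _) (by simp)
        have hd := fpex_ht_single d
        rw [fpex_ht_append] at hc ⊢
        omega

theorem pr_FPex (h1 : S_folHt) (h2 : S_folSplit) (h3 : S_walkEx) : S_FPex := by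
  intro u T ε k hu hT hε hle
  obtain ⟨v, σ, hF, hσT, hin⟩ := h3 u T ε hu hT hε
  obtain ⟨hht, hmono, -⟩ := h1 ε u v σ hε hF
  have e1 := hht v.length le_rfl
  rw [List.take_length] at e1
  have e2 := hin T ⟨hσT, le_rfl⟩
  rw [abs_lt] at e2
  have e3 : (ht v : ℝ) * ε < (1 - k) * ε := by
    have : (1 - (k : ℝ)) * ε = ε - k * ε := by ring
    rw [this]
    linarith [e2.1]
  have e4 : (ht v : ℝ) < 1 - k := lt_of_mul_lt_mul_right e3 hε.le
  have e5 : ht v ≤ -(k : ℤ) := by
    have : ht v < 1 - (k : ℤ) := by exact_mod_cast e4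
    omega
  obtain ⟨a, b, hab, ha⟩ := fpex_exists_prefix k v.length v [] le_rfl e5
  rw [List.append_nil] at hab
  subst hab
  refine ⟨a, ha, σ, (h2 ε u a b σ hε hF).1, ?_⟩
  refine le_trans (hmono a.length (a ++ b).length ?_ le_rfl) hσT
  simp

end MP3e01

end

section

/-!
# MP_3e01db_pr, item T7 (TD): a followed cluster word gives a strong pattern
-/

set_option autoImplicit false

open Set

namespace MP3e01

namespace TD

lemma mn_shift (f : ℝ → ℝ) (a s t : ℝ) : mn (fun x => f (a + x)) s t = mn f (a + s) (a + t) := by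
  unfold mn
  have h : (fun x => f (a + x)) '' Set.uIcc s t = f '' Set.uIcc (a + s) (a + t) := by
    rw [← Set.image_const_add_uIcc, Set.image_image]
  rw [h]

lemma ht_nil : ht [] = 0 := by simp [ht]

lemma flatten_take_succ (ws : List (List Bool)) (i : ℕ) (hi : i < ws.length) :
    (ws.take (i + 1)).flatten = (ws.take i).flatten ++ ws[i] := by
  rw [List.take_succ_eq_append_getElem hi]
  simp only [List.flatten_append, List.flatten_cons, List.flatten_nil, List.append_nil]

lemma flatten_split (ws : List (List Bool)) (i : ℕ) (hi : i < ws.length) :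
    ws.flatten = (ws.take i).flatten ++ (ws[i] ++ (ws.drop (i + 1)).flatten) := by
  conv_lhs => rw [← List.take_append_drop i ws, List.drop_eq_getElem_cons hi]
  simp only [List.flatten_append, List.flatten_cons]

/-- pages: the height of a prefix is at least the final height -/
lemma prefix_ht {R J G : ℕ} (hR : 2 ≤ R) (hG : 0 < G) (h16 : 16 ∣ G) :
    ∀ ws : List (List Bool), (∀ w ∈ ws, w ∈ Pages R J G) → ∀ v, v <+: ws.flatten →
      ht ws.flatten ≤ ht v := by
  have hp := (pr_pages R J G hR hG h16).2.2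
  intro ws
  induction ws with
  | nil =>
    intro _ v hv
    have : v = [] := List.prefix_nil.1 hv
    subst this
    simp
  | cons w ws ih =>
    intro hw v hv
    have ih' := ih (fun w' hw' => hw w' (List.mem_cons_of_mem _ hw'))
    obtain ⟨k, hk, hwk⟩ := hw w (List.mem_cons_self)
    have h1 := hp k w hwk
    have h0 := ih' [] List.nil_prefix
    rw [ht_nil] at h0
    rw [List.flatten_cons] at hv ⊢
    rw [labSub_ht_append]
    rcases List.prefix_or_prefix_of_prefix hv (List.prefix_append w ws.flatten) with h2 | h2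
    · have := h1.2 v h2
      rw [h1.1]
      linarith
    · obtain ⟨v', rfl⟩ := h2
      have h3 : v' <+: ws.flatten := (List.prefix_append_right_inj w).1 hv
      have := ih' v' h3
      rw [labSub_ht_append]
      linarith

end TD

open TD in
theorem pr_TD (h1 : S_folHt) (h2 : S_folSplit) (h3 : S_pagePath) : S_TD := by
  intro D R J G f τ ε u ws σ hR hJ hG h16 hε hf hu hws hfol
  classical
  obtain ⟨hlen, hgood⟩ := hws
  have hp := pr_pages R J G hR hG h16
  have hpg : ∀ w ∈ ws, w ∈ Pages R J G := fun w hw => (hgood w hw).1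
  have hM : 0 < G * R ^ J := Nat.mul_pos hG (Nat.pow_pos (by omega))
  -- the displacement of each page
  have hk : ∀ i (hi : i < ws.length), ∃ k, k + 1 < G ∧ ws[i] ∈ Page G (R ^ J) k := by
    intro i hi
    obtain ⟨k, hk, hw⟩ := hpg ws[i] (List.getElem_mem hi)
    exact ⟨k, by omega, hw⟩
  -- accumulated displacement
  obtain ⟨dp, hdp⟩ : ∃ dp : ℕ → ℤ, ∀ i, dp i = -(ht (ws.take i).flatten) := ⟨_, fun _ => rfl⟩
  have hstep : ∀ i (hi : i < ws.length), ∀ k, ws[i] ∈ Page G (R ^ J) k →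
      dp (i + 1) = dp i + ((k : ℤ) + 1) := by
    intro i hi k hw
    rw [hdp, hdp, flatten_take_succ ws i hi, labSub_ht_append, (hp.2.2 k _ hw).1]
    ring
  have hdp0 : dp 0 = 0 := by rw [hdp]; simp [ht_nil]
  have hbd : ∀ i, i ≤ ws.length → (i : ℤ) ≤ dp i ∧ dp i ≤ i * ((G : ℤ) - 1) := by
    intro i
    induction i with
    | zero => intro _; rw [hdp0]; simp
    | succ i ih =>
      intro hi
      obtain ⟨k, hk1, hk2⟩ := hk i (by omega)
      have := ih (by omega)
      rw [hstep i (by omega) k hk2]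
      push_cast
      constructor
      · omega
      · have h5 : (k : ℤ) + 1 ≤ (G : ℤ) - 1 := by omega
        linarith [this.2]
  have hmono : ∀ i, i < ws.length → dp i + 1 ≤ dp (i + 1) := by
    intro i hi
    obtain ⟨k, hk1, hk2⟩ := hk i hi
    rw [hstep i hi k hk2]
    omega
  -- the main construction
  have main : ∀ i (hi : i < R ^ J), ∃ β t : ℝ, τ < β ∧ β < t ∧ (∀ x ∈ Set.Icc τ t, f β ≤ f x) ∧
      f τ - (2 * ((G * R ^ J : ℕ) : ℝ) + (dp (i + 1) : ℝ) + 1) * ε < f β ∧
      f β ≤ f τ - (2 * ((G * R ^ J : ℕ) : ℝ) + (dp (i + 1) : ℝ)) * ε ∧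
      f t = f τ - (2 * ((G * R ^ J : ℕ) : ℝ) + (dp (i + 1) : ℝ)) * ε + ((G * R ^ J : ℕ) : ℝ) * ε ∧
      (∀ j ∈ lab R J G (ws.getD i []), ∀ x : ℝ,
        f β + (G * R ^ (J - j) : ℝ) * ε ≤ mn f x t →
        mn f x t ≤ f β + R * (G * R ^ (J - j) : ℝ) * ε →
        f x - mn f x t ≤ (G * R ^ (J - j) : ℝ) * ε) := by
    intro i hi
    have hi' : i < ws.length := by omega
    obtain ⟨k, hk1, hk2⟩ := hk i hi'
    -- split
    have e1 : u ++ ws.flatten = (u ++ (ws.take i).flatten) ++ (ws[i] ++ (ws.drop (i + 1)).flatten) := by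
      rw [flatten_split ws i hi']; simp
    rw [e1] at hfol
    obtain ⟨hfP, hfR⟩ := h2 ε _ _ _ σ hε hfol
    obtain ⟨hfW, -⟩ := h2 ε _ _ _ _ hε hfR
    have hA := h1 ε _ _ σ hε hfP
    generalize hPd : u ++ (ws.take i).flatten = P at hfP hfR hfW hA
    -- heights in `P`
    have hhtP : ht P = -(2 * ((G * R ^ J : ℕ) : ℤ)) - dp i := by
      rw [← hPd, labSub_ht_append, hu.1, hdp]
      push_cast
      ring
    have hlow : ∀ m, m ≤ P.length → -(2 * ((G * R ^ J : ℕ) : ℤ)) - dp i ≤ ht (P.take m) := by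
      intro m hm
      have hdi := (hbd i (by omega)).1
      have hpre : P.take m <+: u ++ (ws.take i).flatten := by rw [hPd]; exact List.take_prefix _ _
      rcases List.prefix_or_prefix_of_prefix hpre (List.prefix_append u _) with h4 | h4
      · by_cases h5 : P.take m = u
        · rw [h5, hu.1]
          push_cast
          push_cast at hdi
          linarith
        · have := hu.2 _ h4 h5
          push_cast at this ⊢
          linarith
      · obtain ⟨v', hv'⟩ := h4
        rw [← hv'] at hpre ⊢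
        have h5 : v' <+: (ws.take i).flatten := (List.prefix_append_right_inj u).1 hpre
        have h6 := prefix_ht hR hG h16 (ws.take i) (fun w hw => hpg w (List.mem_of_mem_take hw)) v' h5
        rw [labSub_ht_append, hu.1]
        rw [hdp]
        push_cast
        linarith
    obtain ⟨hA1, hA2, hA3⟩ := hA
    have hσ0 : σ 0 = 0 := hfP.zero
    have hσP : 0 ≤ σ P.length := by
      have := hA2 0 P.length (Nat.zero_le _) le_rfl
      rw [hσ0] at this
      exact this
    have hFP := hA1 P.length le_rfl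
    simp only [List.take_length, add_zero] at hFP
    -- the page
    have hcont : Continuous (fun x => f (τ + (σ P.length + x))) :=
      hf.comp (continuous_const.add (continuous_const.add continuous_id))
    obtain ⟨t', tb, htb0, htb, ht', q1, q2, -, q4, q5⟩ :=
      h3 R J G k _ ε ws[i] _ hR hJ hG h16 hk1 hε hcont hk2 hfW
    simp only [add_zero] at q1 q2 q4 q5
    have hF0 : f (τ + σ P.length) = f τ - (2 * ((G * R ^ J : ℕ) : ℝ) + (dp i : ℝ)) * ε := by
      rw [hFP, hhtP]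
      push_cast
      ring
    have hds : (dp (i + 1) : ℝ) = (dp i : ℝ) + ((k : ℝ) + 1) := by
      rw [hstep i hi' k hk2]; push_cast; ring
    set c : ℝ := σ P.length with hc
    -- lower bound on `[τ, t]`
    have hlb : ∀ x ∈ Set.Icc τ (τ + (c + t')),
        f τ - (2 * ((G * R ^ J : ℕ) : ℝ) + (dp (i + 1) : ℝ) + 1) * ε < f x := by
      intro x hx
      rcases lt_or_ge (x - τ) c with h4 | h4
      · obtain ⟨m, hm, -, -, hm3⟩ := hA3 (x - τ) (by linarith [hx.1]) h4
        have h5 := hlow m hm.le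
        have h6 : (-(2 * ((G * R ^ J : ℕ) : ℝ)) - (dp i : ℝ)) ≤ (ht (P.take m) : ℝ) := by
          exact_mod_cast h5
        have h7 := (abs_lt.1 hm3).1
        simp only [add_zero, add_sub_cancel] at h7
        have h8 : (-(2 * ((G * R ^ J : ℕ) : ℝ)) - (dp i : ℝ)) * ε ≤ (ht (P.take m) : ℝ) * ε :=
          mul_le_mul_of_nonneg_right h6 hε.le
        have h9 : 0 ≤ ((k : ℝ) + 1) * ε := by positivity
        rw [hds]
        nlinarith [h7, h8, h9]
      · have h5 := q4 (x - τ - c) ⟨by linarith, by linarith [hx.2]⟩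
        have e2 : τ + (c + (x - τ - c)) = x := by ring
        rw [e2] at h5
        rw [hF0] at h5
        rw [hds]
        nlinarith [h5]
    -- root
    obtain ⟨β, hβ1, hβ2⟩ := exists_mn hf τ (τ + (c + t'))
    have hτt : τ ≤ τ + (c + t') := by linarith
    rw [Set.uIcc_of_le hτt] at hβ1
    have hβlow : ∀ x ∈ Set.Icc τ (τ + (c + t')), f β ≤ f x := by
      intro x hx
      rw [hβ2]
      apply mn_le hf
      rw [Set.uIcc_of_le hτt]
      exact hx
    have hβup : f β ≤ f τ - (2 * ((G * R ^ J : ℕ) : ℝ) + (dp (i + 1) : ℝ)) * ε := by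
      have h5 := hβlow (τ + (c + tb)) ⟨by linarith, by linarith⟩
      rw [q1, hF0] at h5
      rw [hds]
      linarith
    have hft : f (τ + (c + t')) =
        f τ - (2 * ((G * R ^ J : ℕ) : ℝ) + (dp (i + 1) : ℝ)) * ε + ((G * R ^ J : ℕ) : ℝ) * ε := by
      rw [q2, hF0, hds]
      push_cast
      ring
    have hMr : 0 < ((G * R ^ J : ℕ) : ℝ) := by exact_mod_cast hM
    have hdpos : (0 : ℝ) ≤ (dp (i + 1) : ℝ) := by
      have := (hbd (i + 1) (by omega)).1
      have h6 : (0 : ℤ) ≤ dp (i + 1) := by omega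
      exact_mod_cast h6
    have hMε : 0 < ((G * R ^ J : ℕ) : ℝ) * ε := by positivity
    have hdε : 0 ≤ (dp (i + 1) : ℝ) * ε := by positivity
    refine ⟨β, τ + (c + t'), ?_, ?_, hβlow, hlb β hβ1, hβup, hft, ?_⟩
    · rcases eq_or_lt_of_le hβ1.1 with h5 | h5
      · exfalso
        rw [← h5] at hβup
        nlinarith [hβup]
      · exact h5
    · rcases eq_or_lt_of_le hβ1.2 with h5 | h5
      · exfalso
        rw [← h5] at hft
        linarith [hβup]
      · exact h5
    · intro j hj x hx1 hx2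
      have hj' : j ∈ Finset.Icc 2 J ∧ ∃ k' < G - 1, ws.getD i [] ∈ PageL R J G k' j := by
        unfold lab at hj
        rw [Finset.mem_filter] at hj
        exact hj
      obtain ⟨hjm, k', hk', hL⟩ := hj'
      rw [Finset.mem_Icc] at hjm
      have hget : ws.getD i [] = ws[i] := by simp [List.getD, hi']
      rw [hget] at hL
      have hkk : k' = k := hp.2.1 k' k _ (pr_labSub R J G k' j hR hG h16 hjm.1 hjm.2 hL) hk2
      subst hkk
      have hshift : ∀ a : ℝ, mn (fun x => f (τ + (c + x))) a t' = mn f (τ + (c + a)) (τ + (c + t')) := by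
        intro a
        have e3 : (fun x => f (τ + (c + x))) = fun x => f ((τ + c) + x) := by
          funext x; rw [add_assoc]
        rw [e3, mn_shift, add_assoc, add_assoc]
      have h6 := q5 j hjm.1 hjm.2 hL (f β)
        (by
          have := hlb β hβ1
          rw [hds] at this
          rw [hF0]
          linarith)
        (by
          rw [hds] at hβup
          rw [hF0]
          linarith) (x - τ - c)
      rw [hshift] at h6
      have e4 : τ + (c + (x - τ - c)) = x := by ring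
      simp only [e4] at h6
      exact h6 hx1 hx2
  choose! β t hβ using main
  have hsR : ∀ j ≤ J, ((G * R ^ J : ℕ) : ℝ) * ε / (R : ℝ) ^ j = (G * R ^ (J - j) : ℝ) * ε := by
    intro j hj
    have hR0 : (0 : ℝ) < (R : ℝ) := by exact_mod_cast (by omega : 0 < R)
    have e1 : (R : ℝ) ^ J = (R : ℝ) ^ (J - j) * (R : ℝ) ^ j := by
      rw [← pow_add]; congr 1; omega
    rw [div_eq_iff (by positivity)]
    push_cast
    rw [e1]
    ring
  have hMr : 0 < ((G * R ^ J : ℕ) : ℝ) := by exact_mod_cast hM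
  have hMε : 0 < ((G * R ^ J : ℕ) : ℝ) * ε := by positivity
  have hdd : ∀ i < R ^ J, (1 : ℤ) ≤ dp (i + 1) ∧ dp (i + 1) + (R ^ J : ℕ) ≤ (G * R ^ J : ℕ) := by
    intro i hi
    have h4 := hbd (i + 1) (by omega)
    have hG1 : (1 : ℤ) ≤ G := by exact_mod_cast hG
    constructor
    · have := h4.1
      push_cast at this
      omega
    · have h5 : ((i + 1 : ℕ) : ℤ) ≤ ((R ^ J : ℕ) : ℤ) := by exact_mod_cast hi
      have h6 := mul_le_mul_of_nonneg_right h5 (by omega : (0 : ℤ) ≤ (G : ℤ) - 1)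
      have h7 := h4.2
      push_cast at h6 h7 ⊢
      linarith
  have hgr : ∀ i < R ^ J, grp G ws i = (dp (i + 1)).toNat / G := by
    intro i _
    unfold grp
    rw [hdp]
  refine ⟨β, t, ?_⟩
  refine ⟨?_, ?_, ?_, ?_, ?_, ?_, ?_, ?_, ?_, ?_, ?_⟩
  · intro i _
    unfold lab
    exact Finset.filter_subset _ _
  · intro i hi
    rw [hgr i hi]
    apply Nat.div_lt_of_lt_mul
    have := hdd i hi
    have h5 : 0 < R ^ J := Nat.pow_pos (by omega)
    omega
  · intro i hi; exact (hβ i hi).1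
  · intro i hi; exact (hβ i hi).2.1
  · intro i hi; exact (hβ i hi).2.2.1
  · intro i hi
    have h5 := (hβ i hi).2.2.2.2.1
    have h6 : (1 : ℝ) ≤ (dp (i + 1) : ℝ) := by exact_mod_cast (hdd i hi).1
    have h7 : 0 ≤ (dp (i + 1) : ℝ) * ε := by positivity
    nlinarith [h5]
  · intro i hi
    have h5 := (hβ i hi).2.2.2.1
    have h6 : (dp (i + 1) : ℝ) + ((R ^ J : ℕ) : ℝ) ≤ ((G * R ^ J : ℕ) : ℝ) := by
      exact_mod_cast (hdd i hi).2
    have h7 : (1 : ℝ) ≤ ((R ^ J : ℕ) : ℝ) := by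
      exact_mod_cast (Nat.pow_pos (by omega) : 0 < R ^ J)
    have h8 : ((dp (i + 1) : ℝ) + 1) * ε ≤ ((G * R ^ J : ℕ) : ℝ) * ε :=
      mul_le_mul_of_nonneg_right (by linarith) hε.le
    nlinarith [h5, h8]
  · intro i hi
    have h5 := (hβ i hi).2.2.2.2.1
    have h6 := (hβ i hi).2.2.2.2.2.1
    linarith
  · intro i hi
    have h5 := (hβ i (by omega)).2.2.2.1
    have h6 := (hβ (i + 1) hi).2.2.2.2.1
    have h7 : (dp (i + 1) : ℝ) + 1 ≤ (dp (i + 1 + 1) : ℝ) := by
      exact_mod_cast hmono (i + 1) (by omega)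
    have h8 : ((dp (i + 1) : ℝ) + 1) * ε ≤ (dp (i + 1 + 1) : ℝ) * ε :=
      mul_le_mul_of_nonneg_right h7 hε.le
    nlinarith [h5, h6, h8]
  · intro i hi j hj x _ hx1 hx2
    have hj2 : 2 ≤ j ∧ j ≤ J := by
      have : j ∈ Finset.Icc 2 J := by
        unfold lab at hj
        exact (Finset.mem_filter.1 hj).1
      exact Finset.mem_Icc.1 this
    have h5 := (hβ i hi).2.2.2.2.2.2 j hj x
    rw [hsR j hj2.2] at hx1 ⊢
    rw [hsR (j - 1) (by omega)] at hx2
    have e5 : J - (j - 1) = J - j + 1 := by omega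
    rw [e5, pow_succ] at hx2
    exact h5 hx1 (by linarith)
  · intro i hi i' hi' j hj hn
    rw [hsR j hj]
    unfold node at hn
    rw [hgr i hi, hgr i' hi', Nat.div_div_eq_div_mul, Nat.div_div_eq_div_mul] at hn
    have hq : 0 < G * R ^ (J - j) := Nat.mul_pos hG (Nat.pow_pos (by omega))
    have a1 := hdd i hi
    have a2 := hdd i' hi'
    have hdiff : |(dp (i + 1) : ℤ) - dp (i' + 1)| + 1 ≤ ((G * R ^ (J - j) : ℕ) : ℤ) := by
      have b1 := Nat.div_add_mod (dp (i + 1)).toNat (G * R ^ (J - j))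
      have b2 := Nat.div_add_mod (dp (i' + 1)).toNat (G * R ^ (J - j))
      have b3 := Nat.mod_lt (dp (i + 1)).toNat hq
      have b4 := Nat.mod_lt (dp (i' + 1)).toNat hq
      rw [hn] at b1
      generalize G * R ^ (J - j) * ((dp (i' + 1)).toNat / (G * R ^ (J - j))) = Z at b1 b2
      generalize G * R ^ (J - j) = Q at b1 b2 b3 b4 ⊢
      rcases abs_cases (dp (i + 1) - dp (i' + 1)) with ⟨c1, -⟩ | ⟨c1, -⟩ <;> omega
    have hdr : |(dp (i + 1) : ℝ) - (dp (i' + 1) : ℝ)| + 1 ≤ (G : ℝ) * (R : ℝ) ^ (J - j) := by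
      exact_mod_cast hdiff
    have h5 := (hβ i hi).2.2.2.1
    have h6 := (hβ i hi).2.2.2.2.1
    have h7 := (hβ i' hi').2.2.2.1
    have h8 := (hβ i' hi').2.2.2.2.1
    have h9 := mul_le_mul_of_nonneg_right hdr hε.le
    have h10 : (dp (i + 1) - dp (i' + 1) : ℝ) * ε ≤ |(dp (i + 1) : ℝ) - (dp (i' + 1) : ℝ)| * ε :=
      mul_le_mul_of_nonneg_right (le_abs_self _) hε.le
    have h11 : -(dp (i + 1) - dp (i' + 1) : ℝ) * ε ≤ |(dp (i + 1) : ℝ) - (dp (i' + 1) : ℝ)| * ε :=
      mul_le_mul_of_nonneg_right (neg_le_abs _) hε.le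
    rw [abs_le]
    constructor
    · nlinarith
    · nlinarith

end MP3e01

end

section

/-!
# MP_3e01db_pr, block T, item TP
-/

open Set MeasureTheory ProbabilityTheory
open scoped ENNReal NNReal

namespace MP3e01

/-- integers from strict real comparisons -/
private lemma int_of_mul {a b : ℤ} {ε : ℝ} (hε : 0 < ε) (h : (a : ℝ) * ε < (b : ℝ) * ε) : a < b := by
  have := lt_of_mul_lt_mul_right h hε.le
  exact_mod_cast this

theorem pr_TP (h1 : S_folHt) (h2 : S_folSplit) (h3 : S_walkEx) (h4 : S_TPcomb) : S_TP := by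
  intro K A u T y ε idx dep t Qs hK hA hε hT hu hy hdep hpage
  obtain ⟨w, σ, hF, hσT, hlast⟩ := h3 u T ε hu hT hε
  obtain ⟨ha, hb, -⟩ := h1 ε u w σ hε hF
  set n := w.length with hn
  set S : ℕ → ℤ := fun k => ht (w.take k) with hS
  set la : ℝ → ℕ := fun x => Nat.findGreatest (fun k => σ k ≤ x) n with hla
  have ha' : ∀ i ≤ n, u (σ i) = y + (S i : ℝ) * ε := by
    intro i hi; rw [ha i hi, hy]
  have la_le : ∀ x, la x ≤ n := fun x => Nat.findGreatest_le n
  have la_spec : ∀ x, 0 ≤ x → σ (la x) ≤ x := by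
    intro x hx
    exact Nat.findGreatest_spec (P := fun k => σ k ≤ x) (m := 0) (Nat.zero_le n)
      (by show σ 0 ≤ x; rw [hF.zero]; exact hx)
  have la_gt : ∀ x k, la x < k → k ≤ n → x < σ k := by
    intro x k hk hkn
    exact not_le.1 (Nat.findGreatest_is_greatest (P := fun k => σ k ≤ x) hk hkn)
  have le_la : ∀ x k, k ≤ n → σ k ≤ x → k ≤ la x := by
    intro x k hk hx
    exact Nat.le_findGreatest hk hx
  have la_mono : ∀ x x', 0 ≤ x → x ≤ x' → la x ≤ la x' := by
    intro x x' hx hxx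
    exact le_la x' (la x) (la_le x) (le_trans (la_spec x hx) hxx)
  have la_σ : ∀ k ≤ n, la (σ k) ≤ k := by
    intro k hk
    by_contra hcon
    push Not at hcon
    have h0 : 0 ≤ σ k := by rw [← hF.zero]; exact hb 0 k (Nat.zero_le k) hk
    have e1 : σ (la (σ k)) ≤ σ k := la_spec _ h0
    have e2 : σ k < σ (k + 1) := hF.lt k (lt_of_lt_of_le hcon (la_le _))
    have e3 : σ (k + 1) ≤ σ (la (σ k)) := hb (k + 1) _ hcon (la_le _)
    linarith
  -- closeness
  have close : ∀ x, 0 ≤ x → x ≤ T → |u x - (y + (S (la x) : ℝ) * ε)| < ε := by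
    intro x hx hxT
    rw [← ha' (la x) (la_le x)]
    rcases lt_or_eq_of_le (la_le x) with hlt | heq
    · exact hF.inside (la x) hlt x ⟨la_spec x hx, la_gt x (la x + 1) (Nat.lt_succ_self _) hlt⟩
    · have := la_spec x hx
      rw [heq] at this ⊢
      exact hlast x ⟨this, hxT⟩
  choose β hβmem hβ using fun i => exists_mn hu 0 (t i)
  set l : ℕ → ℕ := fun i => ⌊dep i / ε⌋₊ with hl
  -- facts about the floor
  have floor1 : ∀ i, 0 < dep i → (l i : ℝ) * ε ≤ dep i := by
    intro i hi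
    have : (l i : ℝ) ≤ dep i / ε := Nat.floor_le (div_nonneg hi.le hε.le)
    rwa [le_div_iff₀ hε] at this
  have floor2 : ∀ i, dep i < ((l i : ℝ) + 1) * ε := by
    intro i
    have : dep i / ε < (l i : ℝ) + 1 := Nat.lt_floor_add_one _
    rwa [div_lt_iff₀ hε] at this
  -- per page facts
  have main : ∀ i ∈ idx, la (β i) ≤ la (t i) ∧ la (t i) ≤ n ∧ S (la (β i)) = -(l i : ℤ) ∧
    -(l i : ℤ) + 2 * A - 1 ≤ S (la (t i)) ∧ (∀ k ≤ la (t i), -(l i : ℤ) ≤ S k) ∧
    S n ≤ -(l i : ℤ) ∧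
    (∀ Q ∈ Qs i, 16 ≤ Q ∧ 2 * Q ≤ A) ∧ (Qs i).Pairwise (fun Q Q' => 4 * Q' ≤ Q) ∧
    (∀ Q ∈ Qs i, ∀ k, la (t i) < k → k ≤ n → ∀ m : ℤ,
      (∀ k', la (t i) < k' → k' ≤ k → m ≤ S k') → (∃ k', la (t i) < k' ∧ k' ≤ k ∧ S k' = m) →
      -(l i : ℤ) + Q + 1 ≤ m → m ≤ -(l i : ℤ) + 2 * Q - 1 → S k - m ≤ 2 * K * Q) := by
    intro i hi
    obtain ⟨hd, huT, hW, hQ, hQp⟩ := hpage i hi
    have f1 := floor1 i hd
    have f2 := floor2 i
    have ht0 : 0 ≤ t i := hW.pos.le
    have hβ' : β i ∈ Set.Icc 0 (t i) := by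
      have := hβmem i
      rwa [Set.uIcc_of_le ht0] at this
    have huβ : u (β i) = y - dep i := by rw [hβ i, hW.root]
    have hlow : ∀ x ∈ Set.Icc 0 (t i), y - dep i ≤ u x := by
      intro x hx
      rw [← hW.root]
      exact mn_le hu (by rw [Set.uIcc_of_le ht0]; exact hx)
    have hkl : ∀ k ≤ la (t i), -(l i : ℤ) ≤ S k := by
      intro k hk
      have hkn : k ≤ n := le_trans hk (la_le _)
      have e1 : 0 ≤ σ k := by rw [← hF.zero]; exact hb 0 k (Nat.zero_le k) hkn
      have e2 : σ k ≤ t i := le_trans (hb k _ hk (la_le _)) (la_spec _ ht0)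
      have e3 := hlow (σ k) ⟨e1, e2⟩
      rw [ha' k hkn] at e3
      have : -(l i : ℤ) - 1 < S k := by
        apply int_of_mul hε
        push_cast
        nlinarith
      omega
    have hββ : la (β i) ≤ la (t i) := la_mono _ _ hβ'.1 hβ'.2
    have hSβ : S (la (β i)) = -(l i : ℤ) := by
      have c := close (β i) hβ'.1 (le_trans hβ'.2 hW.le)
      rw [abs_lt] at c
      have : S (la (β i)) < -(l i : ℤ) + 1 := by
        apply int_of_mul hε
        push_cast
        nlinarith [c.1, c.2]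
      have := hkl _ hββ
      omega
    have hSt : -(l i : ℤ) + 2 * A - 1 ≤ S (la (t i)) := by
      have c := close (t i) ht0 hW.le
      rw [abs_lt] at c
      have hh := hW.high
      have : -(l i : ℤ) + 2 * A - 2 < S (la (t i)) := by
        apply int_of_mul hε
        push_cast
        nlinarith [c.1, c.2]
      omega
    have hSn : S n ≤ -(l i : ℤ) := by
      have c := hlast T ⟨hσT, le_refl T⟩
      rw [ha' n le_rfl, abs_lt] at c
      have : S n < -(l i : ℤ) + 1 := by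
        apply int_of_mul hε
        push_cast
        nlinarith [c.1, c.2]
      omega
    refine ⟨hββ, la_le _, hSβ, hSt, hkl, hSn, hQ, hQp, ?_⟩
    intro Q hQi k hk hkn m hm1 hm2 hm3 hm4
    have hQA := (hQ Q hQi).2
    have htk : t i < σ k := la_gt _ k hk hkn
    have hkT : σ k ≤ T := le_trans (hb k n hkn le_rfl) hσT
    obtain ⟨k', hk'1, hk'2, hk'3⟩ := hm2
    have hk'n : k' ≤ n := le_trans hk'2 hkn
    have hmn1 : mn u (t i) (σ k) ≤ y + (m : ℝ) * ε := by
      have e1 : t i < σ k' := la_gt _ k' hk'1 hk'n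
      have e2 : σ k' ≤ σ k := hb k' k hk'2 hkn
      have e3 : mn u (t i) (σ k) ≤ u (σ k') :=
        mn_le hu (by rw [Set.uIcc_of_le htk.le]; exact ⟨e1.le, e2⟩)
      rw [ha' k' hk'n, hk'3] at e3
      exact e3
    have hmn2 : y + ((m : ℝ) - 1) * ε < mn u (t i) (σ k) := by
      obtain ⟨x0, hx0, hx0'⟩ := exists_mn hu (t i) (σ k)
      rw [Set.uIcc_of_le htk.le] at hx0
      have hx00 : 0 ≤ x0 := le_trans ht0 hx0.1
      have c := close x0 hx00 (le_trans hx0.2 hkT)
      rw [abs_lt, hx0'] at c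
      have hk0 : la x0 ≤ k := le_trans (la_mono _ _ hx00 hx0.2) (la_σ k hkn)
      have hk1 : la (t i) ≤ la x0 := la_mono _ _ ht0 hx0.1
      have hmS : m ≤ S (la x0) := by
        rcases lt_or_eq_of_le hk1 with hlt | heq
        · exact hm1 _ hlt hk0
        · rw [← heq]
          have : (2 * Q : ℤ) ≤ A := by exact_mod_cast hQA
          have hA' : (0 : ℤ) < A := by exact_mod_cast hA
          linarith
      have hmS' : (m : ℝ) ≤ (S (la x0) : ℝ) := by exact_mod_cast hmS
      nlinarith [c.1, c.2]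
    have hlab := hW.label ((Q : ℝ) * ε) ⟨Q, hQi, rfl⟩ (σ k) ⟨htk.le, hkT⟩ ?_ ?_
    · rw [ha' k hkn] at hlab
      have : S k - m < 2 * K * Q + 1 := by
        apply int_of_mul hε
        push_cast
        nlinarith
      omega
    · have : (-(l i : ℝ)) + Q + 1 ≤ m := by exact_mod_cast hm3
      nlinarith
    · have : (m : ℝ) ≤ (-(l i : ℝ)) + 2 * Q - 1 := by exact_mod_cast hm4
      nlinarith
  have hpw : idx.Pairwise (fun i j => l i ≤ l j ∧ la (t i) < la (β j)) := by
    apply List.Pairwise.imp_of_mem _ hdep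
    intro i j hi hj hij
    have hlij : l i ≤ l j := Nat.floor_le_floor (div_le_div_of_nonneg_right hij.le hε.le)
    refine ⟨hlij, ?_⟩
    have hWi := (hpage i hi).2.2.1
    have hWj := (hpage j hj).2.2.1
    have hti : 0 ≤ t i := hWi.pos.le
    have htj : 0 ≤ t j := hWj.pos.le
    have hβj : β j ∈ Set.Icc 0 (t j) := by
      have := hβmem j
      rwa [Set.uIcc_of_le htj] at this
    have huβ : u (β j) = y - dep j := by rw [hβ j, hWj.root]
    have hgt : t i < β j := by
      by_contra hcon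
      push Not at hcon
      have : mn u 0 (t i) ≤ u (β j) :=
        mn_le hu (by rw [Set.uIcc_of_le hti]; exact ⟨hβj.1, hcon⟩)
      rw [hWi.root, huβ] at this
      linarith
    have hle : la (t i) ≤ la (β j) := la_mono _ _ hti hgt.le
    rcases lt_or_eq_of_le hle with h | h
    · exact h
    · exfalso
      have e1 := (main i hi).2.2.2.1
      have e2 := (main j hj).2.2.1
      rw [← h] at e2
      have : (l i : ℤ) ≤ l j := by exact_mod_cast hlij
      have hA' : (0 : ℤ) < A := by exact_mod_cast hA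
      omega
  obtain ⟨v, hv, hvw⟩ := h4 K A w idx l (fun i => la (β i)) (fun i => la (t i)) Qs S
    (fun k => rfl) hK hA main hpw
  obtain ⟨w', hw'⟩ := hvw
  refine ⟨v, hv, σ, ?_, ?_⟩
  · have := h2 ε u v w' σ hε (by rw [hw']; exact hF)
    exact this.1
  · refine le_trans (hb v.length n ?_ le_rfl) hσT
    rw [hn, ← hw', List.length_append]
    omega

end MP3e01

end

section

/-!
# MP_3e01db_pr, item TPcomb: the combinatorial part of the weak side
-/

open Set

namespace MP3e01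

namespace TPC

/-- the segment of the word between the indices `a` and `b` -/
def seg (w : List Bool) (a b : ℕ) : List Bool := (w.take b).drop a

lemma seg_length (w : List Bool) {a b : ℕ} (hb : b ≤ w.length) : (seg w a b).length = b - a := by
  unfold seg; rw [List.length_drop, List.length_take, min_eq_left hb]

lemma take_seg (w : List Bool) {a b : ℕ} (hab : a ≤ b) : w.take a ++ seg w a b = w.take b := by
  unfold seg
  have h : (w.take b).take a = w.take a := by rw [List.take_take, min_eq_left hab]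
  rw [← h]; exact List.take_append_drop a (w.take b)

lemma seg_append (w : List Bool) {a b c : ℕ} (hab : a ≤ b) (hbc : b ≤ c) :
    seg w a b ++ seg w b c = seg w a c := by
  have h1 := take_seg w hab
  have h2 := take_seg w hbc
  have h3 := take_seg w (hab.trans hbc)
  have : w.take a ++ (seg w a b ++ seg w b c) = w.take a ++ seg w a c := by
    rw [← List.append_assoc, h1, h2, h3]
  exact List.append_cancel_left this

lemma ht_append (u v : List Bool) : ht (u ++ v) = ht u + ht v := by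
  unfold ht; rw [List.map_append, List.sum_append]

lemma ht_seg (w : List Bool) {a b : ℕ} (hab : a ≤ b) :
    ht (seg w a b) = ht (w.take b) - ht (w.take a) := by
  have h := congrArg ht (take_seg w hab)
  rw [ht_append] at h; linarith

lemma seg_self (w : List Bool) (a : ℕ) : seg w a a = [] := by
  unfold seg; apply List.drop_eq_nil_of_le; rw [List.length_take]; exact min_le_left _ _

lemma prefix_seg (w : List Bool) {a b : ℕ} (hb : b ≤ w.length) {v : List Bool}
    (h : v <+: seg w a b) (hne : v ≠ seg w a b) : ∃ c, a ≤ c ∧ c < b ∧ v = seg w a c := by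
  have hlen : v.length < (seg w a b).length := by
    rcases Nat.lt_or_ge v.length (seg w a b).length with h1 | h1
    · exact h1
    · exact absurd (h.eq_of_length_le h1) hne
  rw [seg_length w hb] at hlen
  have hab : a < b := by omega
  refine ⟨a + v.length, by omega, by omega, ?_⟩
  have h1 : v <+: seg w a b := h
  have h2 : seg w a (a + v.length) <+: seg w a b := by
    rw [← seg_append w (show a ≤ a + v.length by omega) (show a + v.length ≤ b by omega)]
    exact List.prefix_append _ _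
  have h3 : (seg w a (a + v.length)).length = v.length := by
    rw [seg_length w (by omega)]; omega
  have h4 := List.prefix_of_prefix_length_le h1 h2 (by rw [h3])
  exact h4.eq_of_length h3.symm

section
variable {w : List Bool} {S : ℕ → ℤ} (hS : ∀ k, S k = ht (w.take k))
include hS

lemma ht_seg' {a b : ℕ} (hab : a ≤ b) : ht (seg w a b) = S b - S a := by
  rw [ht_seg w hab, hS, hS]

lemma step_abs (k : ℕ) : S k - 1 ≤ S (k + 1) ∧ S (k + 1) ≤ S k + 1 := by
  rw [hS, hS]
  rcases Nat.lt_or_ge k w.length with h | h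
  · rw [List.take_succ_eq_append_getElem h, ht_append]
    have : ht [w[k]] = stp w[k] := by simp [ht]
    rw [this]
    unfold stp
    split_ifs <;> constructor <;> linarith
  · rw [List.take_of_length_le h, List.take_of_length_le (by omega)]
    constructor <;> linarith

lemma mem_FP {a b k : ℕ} (hab : a ≤ b) (hb : b ≤ w.length) (h1 : S b - S a = -(k : ℤ))
    (h2 : ∀ c, a ≤ c → c < b → S b < S c) : seg w a b ∈ FP k := by
  refine ⟨by rw [ht_seg' hS hab, h1], ?_⟩
  intro v hv hne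
  obtain ⟨c, hac, hcb, rfl⟩ := prefix_seg w hb hv hne
  rw [ht_seg' hS hac]
  have := h2 c hac hcb
  linarith

lemma mem_U {a b p q : ℕ} (hab : a ≤ b) (hb : b ≤ w.length) (h1 : S b - S a = (p : ℤ))
    (h2 : ∀ c, a ≤ c → c < b → S c < S b) (h3 : ∀ c, a ≤ c → c < b → S a - q < S c) :
    seg w a b ∈ U p q := by
  refine ⟨by rw [ht_seg' hS hab, h1], ?_⟩
  intro v hv hne
  obtain ⟨c, hac, hcb, rfl⟩ := prefix_seg w hb hv hne
  rw [ht_seg' hS hac]
  have := h2 c hac hcb
  have := h3 c hac hcb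
  constructor <;> linarith

lemma mem_Dn {a b p q : ℕ} (hab : a ≤ b) (hb : b ≤ w.length) (h1 : S b - S a = -(q : ℤ))
    (h2 : ∀ c, a ≤ c → c < b → S b < S c) (h3 : ∀ c, a ≤ c → c < b → S c < S a + p) :
    seg w a b ∈ Dn p q := by
  refine ⟨by rw [ht_seg' hS hab, h1], ?_⟩
  intro v hv hne
  obtain ⟨c, hac, hcb, rfl⟩ := prefix_seg w hb hv hne
  rw [ht_seg' hS hac]
  have := h2 c hac hcb
  have := h3 c hac hcb
  constructor <;> linarith

lemma first_down {a b : ℕ} {t : ℤ} (hab : a ≤ b) (ha : t ≤ S a) (hb : S b ≤ t) :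
    ∃ c, a ≤ c ∧ c ≤ b ∧ S c = t ∧ ∀ d, a ≤ d → d < c → t < S d := by
  classical
  have hex : ∃ c, a ≤ c ∧ S c ≤ t := ⟨b, hab, hb⟩
  have h1 := Nat.find_spec hex
  have h2 : ∀ d, a ≤ d → d < Nat.find hex → t < S d := by
    intro d had hd
    have := Nat.find_min hex hd
    by_contra hcon
    exact this ⟨had, not_lt.1 hcon⟩
  refine ⟨Nat.find hex, h1.1, Nat.find_min' hex ⟨hab, hb⟩, ?_, h2⟩
  apply le_antisymm h1.2
  rcases eq_or_lt_of_le h1.1 with h3 | h3
  · rw [← h3]; exact ha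
  · have h4 := h2 (Nat.find hex - 1) (by omega) (by omega)
    have h5 := (step_abs hS (Nat.find hex - 1)).1
    rw [show Nat.find hex - 1 + 1 = Nat.find hex by omega] at h5
    linarith

lemma first_up {a b : ℕ} {t : ℤ} (hab : a ≤ b) (ha : S a ≤ t) (hb : t ≤ S b) :
    ∃ c, a ≤ c ∧ c ≤ b ∧ S c = t ∧ ∀ d, a ≤ d → d < c → S d < t := by
  classical
  have hex : ∃ c, a ≤ c ∧ t ≤ S c := ⟨b, hab, hb⟩
  have h1 := Nat.find_spec hex
  have h2 : ∀ d, a ≤ d → d < Nat.find hex → S d < t := by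
    intro d had hd
    have := Nat.find_min hex hd
    by_contra hcon
    exact this ⟨had, not_lt.1 hcon⟩
  refine ⟨Nat.find hex, h1.1, Nat.find_min' hex ⟨hab, hb⟩, ?_, h2⟩
  apply le_antisymm _ h1.2
  rcases eq_or_lt_of_le h1.1 with h3 | h3
  · rw [← h3]; exact ha
  · have h4 := h2 (Nat.find hex - 1) (by omega) (by omega)
    have h5 := (step_abs hS (Nat.find hex - 1)).2
    rw [show Nat.find hex - 1 + 1 = Nat.find hex by omega] at h5
    linarith

/-- the repeated attempts of the climb -/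
lemma climb_rep (A l kp : ℕ) (hA : 0 < A) (hkp : kp ≤ w.length)
    (htop : -(l : ℤ) + 2 * A - 1 ≤ S kp) (hlow : ∀ k ≤ kp, -(l : ℤ) ≤ S k) :
    ∀ (N v : ℕ), kp - v ≤ N → v ≤ kp → S v = -(l : ℤ) + 2 * A - 1 →
      ∃ m v', v ≤ v' ∧ v' ≤ kp ∧ S v' = -(l : ℤ) + 2 * A - 1 ∧
        seg w v v' ∈ rep m (conc (FP A) (U A A)) ∧
        ∀ c, v' ≤ c → c ≤ kp → -(l : ℤ) + A - 1 < S c := by
  intro N
  induction N with
  | zero =>
    intro v hN hv hSv
    have hvk : v = kp := by omega
    refine ⟨0, v, le_refl _, hv, hSv, ?_, ?_⟩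
    · rw [seg_self]; rfl
    · intro c h1 h2
      have : c = v := by omega
      rw [this, hSv]
      have : (0 : ℤ) < A := by exact_mod_cast hA
      linarith
  | succ N ih =>
    intro v hN hv hSv
    have hA' : (0 : ℤ) < A := by exact_mod_cast hA
    by_cases hall : ∀ c, v ≤ c → c ≤ kp → -(l : ℤ) + A - 1 < S c
    · refine ⟨0, v, le_refl _, hv, hSv, ?_, hall⟩
      rw [seg_self]; rfl
    · push Not at hall
      obtain ⟨c, hvc, hckp, hSc⟩ := hall
      obtain ⟨x, hvx, hxc, hSx, hxmin⟩ := first_down hS (t := -(l : ℤ) + A - 1) hvc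
        (by rw [hSv]; linarith) hSc
      have hxkp : x ≤ kp := hxc.trans hckp
      obtain ⟨y, hxy, hykp, hSy, hymin⟩ := first_up hS (t := -(l : ℤ) + 2 * A - 1) hxkp
        (by rw [hSx]; linarith) htop
      have hvx' : v < x := by
        rcases eq_or_lt_of_le hvx with h | h
        · rw [h, hSx] at hSv; exfalso; linarith
        · exact h
      obtain ⟨m, v', h1, h2, h3, h4, h5⟩ := ih y (by omega) hykp hSy
      refine ⟨m + 1, v', by omega, h2, h3, ?_, h5⟩
      have e1 : seg w v x ∈ FP A := by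
        apply mem_FP hS hvx (hxkp.trans hkp)
        · rw [hSx, hSv]; ring
        · intro d hd1 hd2; rw [hSx]; exact hxmin d hd1 hd2
      have e2 : seg w x y ∈ U A A := by
        apply mem_U hS hxy (hykp.trans hkp)
        · rw [hSx, hSy]; ring
        · intro d hd1 hd2; rw [hSy]; exact hymin d hd1 hd2
        · intro d hd1 hd2; rw [hSx]
          have := hlow d (by omega)
          linarith
      refine ⟨seg w v y, ⟨seg w v x, e1, seg w x y, e2, ?_⟩, seg w y v', h4, ?_⟩
      · rw [seg_append w hvx hxy]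
      · rw [seg_append w (hvx.trans hxy) h1]

lemma climb_ex (A l h kp : ℕ) (hA : 0 < A) (hkp : kp ≤ w.length)
    (htop : -(l : ℤ) + 2 * A - 1 ≤ S kp) (hlow : ∀ k ≤ kp, -(l : ℤ) ≤ S k)
    (hh : h ≤ kp) (hSh : S h = -(l : ℤ)) :
      ∃ v', h ≤ v' ∧ v' ≤ kp ∧ S v' = -(l : ℤ) + 2 * A - 1 ∧
        seg w h v' ∈ Climb A ∧
        ∀ c, v' ≤ c → c ≤ kp → -(l : ℤ) + A - 1 < S c := by
  have hA' : (0 : ℤ) < A := by exact_mod_cast hA
  obtain ⟨v, hhv, hvkp, hSv, hvmin⟩ := first_up hS (t := -(l : ℤ) + 2 * A - 1) hh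
    (by rw [hSh]; linarith) htop
  obtain ⟨m, v', h1, h2, h3, h4, h5⟩ := climb_rep hS A l kp hA hkp htop hlow (kp - v) v
    (le_refl _) hvkp hSv
  refine ⟨v', hhv.trans h1, h2, h3, ⟨m, seg w h v, ?_, seg w v v', h4, ?_⟩, h5⟩
  · apply mem_U hS hhv (hvkp.trans hkp)
    · rw [hSv, hSh]
      have : ((2 * A - 1 : ℕ) : ℤ) = 2 * (A : ℤ) - 1 := by omega
      rw [this]; ring
    · intro d hd1 hd2; rw [hSv]; exact hvmin d hd1 hd2
    · intro d hd1 hd2
      rw [hSh]
      have := hlow d (by omega)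
      push_cast
      linarith
  · rw [seg_append w hhv h1]

/-- the descent through one window -/
lemma window (K Q l kp : ℕ) (hend : S w.length ≤ -(l : ℤ))
    (hlab : ∀ k, kp < k → k ≤ w.length → ∀ m : ℤ,
      (∀ k', kp < k' → k' ≤ k → m ≤ S k') → (∃ k', kp < k' ∧ k' ≤ k ∧ S k' = m) →
      -(l : ℤ) + Q + 1 ≤ m → m ≤ -(l : ℤ) + 2 * Q - 1 → S k - m ≤ 2 * K * Q) :
    ∀ (n : ℕ) (e : ℕ) , (n : ℤ) + 4 ≤ Q → kp < e → e ≤ w.length →
      S e = -(l : ℤ) + Q + 2 + n →
      (∀ c, kp < c → c < e → S e < S c) →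
      ∃ e', e ≤ e' ∧ e' ≤ w.length ∧ S e' = -(l : ℤ) + Q + 2 ∧
        seg w e e' ∈ rep n (Dn (2 * K * Q + 2) 1) ∧ (∀ c, kp < c → c < e' → S e' < S c) := by
  intro n
  induction n with
  | zero =>
    intro e _ hkpe hew hSe hmin
    refine ⟨e, le_refl _, hew, by rw [hSe]; simp, ?_, hmin⟩
    rw [seg_self]; rfl
  | succ n ih =>
    intro e hn hkpe hew hSe hmin
    push_cast at hn hSe
    have hn0 : (0 : ℤ) ≤ n := Int.natCast_nonneg n
    have hQ0 : (0 : ℤ) ≤ Q := Int.natCast_nonneg Q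
    obtain ⟨x, hex, hxw, hSx, hxmin⟩ := first_down hS (t := -(l : ℤ) + Q + 2 + n) hew
      (by rw [hSe]; linarith) (by linarith)
    have hex' : e < x := by
      rcases eq_or_lt_of_le hex with h | h
      · rw [h, hSx] at hSe; exfalso; linarith
      · exact h
    have hminx : ∀ c, kp < c → c < x → S x < S c := by
      intro c hc1 hc2
      rcases Nat.lt_or_ge c e with h | h
      · have := hmin c hc1 h
        rw [hSe] at this
        rw [hSx]; linarith
      · rw [hSx]; exact hxmin c h hc2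
    obtain ⟨e', h1, h2, h3, h4, h5⟩ := ih x (by linarith) (by omega) hxw hSx hminx
    refine ⟨e', by omega, h2, h3, ?_, h5⟩
    refine ⟨seg w e x, ?_, seg w x e', h4, ?_⟩
    · apply mem_Dn hS hex hxw
      · rw [hSx, hSe]; push_cast; ring
      · intro d hd1 hd2; rw [hSx]; exact hxmin d hd1 hd2
      · intro d hd1 hd2
        have := hlab d (by omega) (by omega) (S e) (by
          intro k' hk1 hk2
          rcases Nat.lt_or_ge k' e with h | h
          · exact (hmin k' hk1 h).le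
          · have := hxmin k' h (by omega)
            rw [hSe]; linarith) ⟨e, hkpe, hd1, rfl⟩ (by rw [hSe]; linarith)
            (by rw [hSe]; linarith)
        push_cast
        linarith
    · rw [seg_append w hex h1]

/-- the descent through all windows -/
lemma desc_ex (K l kp : ℕ) (hend : S w.length ≤ -(l : ℤ)) :
    ∀ (Qs : List ℕ) (cur e : ℕ),
    (∀ Q ∈ Qs, 16 ≤ Q) → Qs.Pairwise (fun Q Q' => 4 * Q' ≤ Q) →
    (∀ Q ∈ Qs, ∀ k, kp < k → k ≤ w.length → ∀ m : ℤ,
      (∀ k', kp < k' → k' ≤ k → m ≤ S k') → (∃ k', kp < k' ∧ k' ≤ k ∧ S k' = m) →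
      -(l : ℤ) + Q + 1 ≤ m → m ≤ -(l : ℤ) + 2 * Q - 1 → S k - m ≤ 2 * K * Q) →
    e ≤ w.length → S e = -(l : ℤ) + cur → (∀ c, kp < c → c < e → -(l : ℤ) + cur ≤ S c) →
    (∀ Q ∈ Qs, ∀ c, e ≤ c → c ≤ kp → -(l : ℤ) + 2 * Q - 2 < S c) →
    (∀ Q ∈ Qs, 2 * Q - 2 < cur) → 0 < cur →
    ∃ e', e ≤ e' ∧ e' ≤ w.length ∧ seg w e e' ∈ desc K cur Qs ∧
      S e' = -(l : ℤ) + endp cur Qs ∧ (∀ c, kp < c → c < e' → -(l : ℤ) < S c) := by
  intro Qs
  induction Qs with
  | nil =>
    intro cur e _ _ _ hew hSe hmin _ _ hcur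
    have hcur' : (0 : ℤ) < cur := by exact_mod_cast hcur
    refine ⟨e, le_refl _, hew, ?_, hSe, ?_⟩
    · rw [seg_self]; rfl
    · intro c h1 h2
      have := hmin c h1 h2
      linarith
  | cons Q Qs ih =>
    intro cur e h16 hpw hlab hew hSe hmin hkp hQcur hcur
    have hQ16 : 16 ≤ Q := h16 Q List.mem_cons_self
    have hQc : 2 * Q - 2 < cur := hQcur Q List.mem_cons_self
    have hQ16' : (16 : ℤ) ≤ Q := by exact_mod_cast hQ16
    have hQc' : 2 * (Q : ℤ) - 2 < cur := by omega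
    obtain ⟨x, hex, hxw, hSx, hxmin⟩ := first_down hS (t := -(l : ℤ) + 2 * Q - 2) hew
      (by rw [hSe]; linarith) (by linarith)
    have hkpx : kp < x := by
      by_contra hcon
      have := hkp Q List.mem_cons_self x hex (not_lt.1 hcon)
      rw [hSx] at this
      exact lt_irrefl _ this
    have hminx : ∀ c, kp < c → c < x → S x < S c := by
      intro c hc1 hc2
      rcases Nat.lt_or_ge c e with h | h
      · have := hmin c hc1 h
        rw [hSx]; linarith
      · rw [hSx]; exact hxmin c h hc2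
    obtain ⟨y, hxy, hyw, hSy, hseg, hminy⟩ := window hS K Q l kp hend
      (hlab Q List.mem_cons_self) (Q - 4) x (by omega) hkpx hxw (by rw [hSx]; omega) hminx
    rw [List.pairwise_cons] at hpw
    obtain ⟨z, hyz, hzw, hsegz, hSz, hminz⟩ := ih (Q + 2) y
      (fun Q' h => h16 Q' (List.mem_cons_of_mem _ h)) hpw.2
      (fun Q' h => hlab Q' (List.mem_cons_of_mem _ h)) hyw
      (by rw [hSy]; push_cast; ring)
      (by
        intro c hc1 hc2
        have := hminy c hc1 hc2
        rw [hSy] at this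
        push_cast; linarith)
      (by
        intro Q' hQ' c hc1 hc2
        omega)
      (by
        intro Q' hQ'
        have := hpw.1 Q' hQ'
        omega)
      (by omega)
    refine ⟨z, by omega, hzw, ?_, hSz, hminz⟩
    refine ⟨seg w e x, ?_, seg w x z, ⟨seg w x y, hseg, seg w y z, hsegz, ?_⟩, ?_⟩
    · apply mem_FP hS hex hxw
      · rw [hSx, hSe]
        have : ((cur - (2 * Q - 2) : ℕ) : ℤ) = (cur : ℤ) - (2 * Q - 2) := by omega
        rw [this]; ring
      · intro d hd1 hd2; rw [hSx]; exact hxmin d hd1 hd2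
    · rw [seg_append w hxy hyz]
    · rw [seg_append w hex (hxy.trans hyz)]

end

end TPC

open TPC in
theorem pr_TPcomb : S_TPcomb := by
  intro K A w idx l et kp Qs S hS hK hA hidx hpw
  suffices H : ∀ (idx : List ℕ) (n0 : ℕ) (cur : ℤ), n0 ≤ w.length → S n0 = cur →
      (∀ i ∈ idx, n0 ≤ et i) →
      (∀ i ∈ idx, et i ≤ kp i ∧ kp i ≤ w.length ∧ S (et i) = -(l i : ℤ) ∧
    -(l i : ℤ) + 2 * A - 1 ≤ S (kp i) ∧ (∀ k ≤ kp i, -(l i : ℤ) ≤ S k) ∧
    S w.length ≤ -(l i : ℤ) ∧
    (∀ Q ∈ Qs i, 16 ≤ Q ∧ 2 * Q ≤ A) ∧ (Qs i).Pairwise (fun Q Q' => 4 * Q' ≤ Q) ∧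
    (∀ Q ∈ Qs i, ∀ k, kp i < k → k ≤ w.length → ∀ m : ℤ,
      (∀ k', kp i < k' → k' ≤ k → m ≤ S k') → (∃ k', kp i < k' ∧ k' ≤ k ∧ S k' = m) →
      -(l i : ℤ) + Q + 1 ≤ m → m ≤ -(l i : ℤ) + 2 * Q - 1 → S k - m ≤ 2 * K * Q)) →
      idx.Pairwise (fun i j => l i ≤ l j ∧ kp i < et j) →
      ∃ n1, n0 ≤ n1 ∧ n1 ≤ w.length ∧
        seg w n0 n1 ∈ chain K A cur (idx.map fun i => (l i, Qs i)) by
    have hS0 : S 0 = 0 := by rw [hS]; simp [ht]
    obtain ⟨n1, _, h2, h3⟩ := H idx 0 0 (Nat.zero_le _) hS0 (fun _ _ => Nat.zero_le _) hidx hpw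
    refine ⟨seg w 0 n1, h3, ?_⟩
    unfold seg
    rw [List.drop_zero]
    exact List.take_prefix _ _
  intro idx
  induction idx with
  | nil =>
    intro n0 cur hn0 _ _ _ _
    refine ⟨n0, le_refl _, hn0, ?_⟩
    rw [seg_self]; rfl
  | cons i rest ih =>
    intro n0 cur hn0 hcur hn0et hh hpw
    obtain ⟨a1, a2, a3, a4, a5, a6, a7, a8, a9⟩ := hh i List.mem_cons_self
    rw [List.pairwise_cons] at hpw
    have hA' : (0 : ℤ) < A := by exact_mod_cast hA
    have hn0i := hn0et i List.mem_cons_self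
    have hcurl : -(l i : ℤ) ≤ cur := by rw [← hcur]; exact a5 n0 (by omega)
    obtain ⟨h, hn0h, het, hSh, hhmin⟩ := first_down hS (t := -(l i : ℤ)) hn0i
      (by rw [hcur]; exact hcurl) (by rw [a3])
    obtain ⟨v, hhv, hvkp, hSv, hsegv, hvmin⟩ := climb_ex hS A (l i) h (kp i) hA a2 a4 a5
      (by omega) hSh
    have hcast : ((2 * A - 1 : ℕ) : ℤ) = 2 * (A : ℤ) - 1 := by omega
    obtain ⟨e, hve, hew, hsege, hSe, hemin⟩ := desc_ex hS K (l i) (kp i) a6 (Qs i) (2 * A - 1) v
      (fun Q hQ => (a7 Q hQ).1) a8 a9 (by omega) (by rw [hSv, hcast]; ring)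
      (by intro c hc1 hc2; omega)
      (by
        intro Q hQ c hc1 hc2
        have h1 := hvmin c hc1 hc2
        have h2 := (a7 Q hQ).2
        have h3 : 2 * (Q : ℤ) ≤ A := by exact_mod_cast h2
        linarith)
      (by
        intro Q hQ
        have h2 := (a7 Q hQ).2
        omega)
      (by omega)
    obtain ⟨n1, hen1, hn1w, hseg1⟩ := ih e ((endp (2 * A - 1) (Qs i) : ℤ) - l i) hew
      (by rw [hSe]; ring)
      (by
        intro j hj
        by_contra hcon
        have b1 := hpw.1 j hj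
        have b2 := (hh j (List.mem_cons_of_mem _ hj)).2.2.1
        have b3 := hemin (et j) b1.2 (not_le.1 hcon)
        rw [b2] at b3
        have : (l i : ℤ) ≤ l j := by exact_mod_cast b1.1
        linarith)
      (fun j hj => hh j (List.mem_cons_of_mem _ hj)) hpw.2
    refine ⟨n1, by omega, hn1w, ?_⟩
    rw [List.map_cons]
    refine ⟨seg w n0 h, ?_, seg w h n1, ⟨seg w h v, hsegv, seg w v n1,
      ⟨seg w v e, hsege, seg w e n1, hseg1, ?_⟩, ?_⟩, ?_⟩
    · apply mem_FP hS hn0h (by omega)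
      · rw [hSh, hcur, Int.toNat_of_nonneg (by linarith)]; ring
      · intro d hd1 hd2; rw [hSh]; exact hhmin d hd1 hd2
    · rw [seg_append w hve hen1]
    · rw [seg_append w hhv (hve.trans hen1)]
    · rw [seg_append w hn0h (hhv.trans (hve.trans hen1))]

end MP3e01

end

section

/-!
# T1: heights along a followed word
-/

open Set MeasureTheory ProbabilityTheory
open scoped ENNReal NNReal

namespace MP3e01

theorem folHt_ht_append (l : List Bool) (b : Bool) : ht (l ++ [b]) = ht l + stp b := by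
  simp [ht]

theorem pr_folHt : S_folHt := by
  intro ε u v σ _ h
  have h1 : ∀ i ≤ v.length, u (σ i) = u 0 + (ht (v.take i) : ℝ) * ε := by
    intro i
    induction i with
    | zero =>
      intro _
      rw [h.zero]
      simp [ht]
    | succ i ih =>
      intro hi
      have hi' : i < v.length := hi
      rw [h.step i hi', ih hi'.le, ← List.take_concat_get' v i hi', folHt_ht_append]
      have : ((stp v[i] : ℤ) : ℝ) * ε = if v[i] then ε else -ε := by
        unfold stp
        split_ifs <;> simp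
      push_cast
      rw [add_mul, this]
      ring
  have h2 : ∀ i j, i ≤ j → j ≤ v.length → σ i ≤ σ j := by
    intro i j hij
    induction j, hij using Nat.le_induction with
    | base => intro _; exact le_rfl
    | succ j hij ih =>
      intro hj
      exact (ih (by omega)).trans (h.lt j hj).le
  refine ⟨h1, h2, ?_⟩
  have h3 : ∀ n ≤ v.length, ∀ t, 0 ≤ t → t < σ n → ∃ i < n, σ i ≤ t ∧ t < σ (i + 1) := by
    intro n
    induction n with
    | zero =>
      intro _ t h0 ht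
      rw [h.zero] at ht
      exact absurd ht (not_lt.mpr h0)
    | succ n ih =>
      intro hn t h0 ht
      by_cases hc : t < σ n
      · obtain ⟨i, hi, h4⟩ := ih (by omega) t h0 hc
        exact ⟨i, by omega, h4⟩
      · exact ⟨n, by omega, not_lt.mp hc, ht⟩
  intro t h0 ht'
  obtain ⟨i, hi, h4, h5⟩ := h3 v.length le_rfl t h0 ht'
  refine ⟨i, hi, h4, h5, ?_⟩
  rw [← h1 i hi.le]
  exact h.inside i hi t ⟨h4, h5⟩

end MP3e01

end

section

/-! T2 (folSplit), helper27 -/

open Set MeasureTheory ProbabilityTheory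
open scoped ENNReal NNReal

namespace MP3e01

theorem pr_folSplit : S_folSplit := by
  intro ε u v w σ hε h
  refine ⟨⟨h.zero, ?_, ?_, ?_⟩, ⟨by simp, ?_, ?_, ?_⟩⟩
  · intro i hi
    exact h.lt i (by rw [List.length_append]; omega)
  · intro i hi
    have hh := h.step i (by rw [List.length_append]; omega)
    rw [List.getElem_append_left hi] at hh
    exact hh
  · intro i hi
    exact h.inside i (by rw [List.length_append]; omega)
  · intro i hi
    have hh := h.lt (v.length + i) (by rw [List.length_append]; omega)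
    show σ (v.length + i) - σ v.length < σ (v.length + (i + 1)) - σ v.length
    have e : v.length + (i + 1) = v.length + i + 1 := by omega
    rw [e]
    linarith
  · intro i hi
    have hlt : v.length + i < (v ++ w).length := by rw [List.length_append]; omega
    have hh := h.step (v.length + i) hlt
    have hg : (v ++ w)[v.length + i] = w[i] := by
      rw [List.getElem_append_right (by omega)]
      simp
    rw [hg] at hh
    show u (σ v.length + (σ (v.length + (i + 1)) - σ v.length)) =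
      u (σ v.length + (σ (v.length + i) - σ v.length)) + _
    have e1 : σ v.length + (σ (v.length + (i + 1)) - σ v.length) = σ (v.length + i + 1) := by
      rw [show v.length + (i + 1) = v.length + i + 1 by omega]; ring
    have e2 : σ v.length + (σ (v.length + i) - σ v.length) = σ (v.length + i) := by ring
    rw [e1, e2]
    exact hh
  · intro i hi s hs
    have hlt : v.length + i < (v ++ w).length := by rw [List.length_append]; omega
    have hs1 : σ (v.length + i) - σ v.length ≤ s := hs.1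
    have hs2 : s < σ (v.length + (i + 1)) - σ v.length := hs.2
    have hh := h.inside (v.length + i) hlt (σ v.length + s) ⟨by linarith, by
      rw [show v.length + i + 1 = v.length + (i + 1) by omega]; linarith⟩
    show |u (σ v.length + s) - u (σ v.length + (σ (v.length + i) - σ v.length))| < ε
    have e2 : σ v.length + (σ (v.length + i) - σ v.length) = σ (v.length + i) := by ring
    rw [e2]
    exact hh

end MP3e01

end

section

/-!
# MP_3e01db_pr, item T5 (pageComb): combinatorial structure of a page word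
-/

set_option autoImplicit false

namespace MP3e01

namespace PageComb

lemma ht_take_append (u v : List Bool) (i : ℕ) :
    ht ((u ++ v).take i) = ht (u.take i) + ht (v.take (i - u.length)) := by
  rw [List.take_append]; exact labSub_ht_append _ _

lemma ht_nil : ht [] = 0 := by simp [ht]

lemma seg (P q rest : List Bool) (i : ℕ) (h1 : P.length ≤ i) (h2 : i ≤ P.length + q.length) :
    ht ((P ++ (q ++ rest)).take i) = ht P + ht (q.take (i - P.length)) := by
  rw [ht_take_append, List.take_of_length_le h1, ht_take_append]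
  have h3 : i - P.length - q.length = 0 := by omega
  rw [h3]
  simp [ht_nil]

lemma U_take {a b : ℕ} {v : List Bool} (hv : v ∈ U a b) (i : ℕ) :
    (i < v.length ∧ -(b : ℤ) < ht (v.take i) ∧ ht (v.take i) < a) ∨
      (v.length ≤ i ∧ ht (v.take i) = a) := by
  rcases lt_or_ge i v.length with h | h
  · left
    refine ⟨h, hv.2 (v.take i) (List.take_prefix i v) ?_⟩
    intro he
    have := congrArg List.length he
    rw [List.length_take] at this
    omega
  · right
    refine ⟨h, ?_⟩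
    rw [List.take_of_length_le h]; exact hv.1

lemma Dn_take {a b : ℕ} {v : List Bool} (hv : v ∈ Dn a b) (i : ℕ) :
    (i < v.length ∧ -(b : ℤ) < ht (v.take i) ∧ ht (v.take i) < a) ∨
      (v.length ≤ i ∧ ht (v.take i) = -(b : ℤ)) := by
  rcases lt_or_ge i v.length with h | h
  · left
    refine ⟨h, hv.2 (v.take i) (List.take_prefix i v) ?_⟩
    intro he
    have := congrArg List.length he
    rw [List.length_take] at this
    omega
  · right
    refine ⟨h, ?_⟩
    rw [List.take_of_length_le h]; exact hv.1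

lemma ht_zero {v : List Bool} (h : v.length = 0) : ht v = 0 := by
  rw [List.length_eq_zero_iff.1 h]; exact ht_nil

lemma repU_drop (b : ℕ) : ∀ (m : ℕ) (v : List Bool), v ∈ rep m (U 1 b) →
    ∀ i i', i ≤ i' → ht (v.take i) - ht (v.take i') ≤ b := by
  intro m
  induction m with
  | zero =>
    intro v hv i i' _
    have : v = [] := hv
    subst this
    simp
  | succ m ih =>
    rintro v ⟨x, hx, y, hy, rfl⟩ i i' hii
    rw [ht_take_append, ht_take_append]
    have h1 := ih y hy (i - x.length) (i' - x.length) (by omega)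
    have h0 := ih y hy 0 (i' - x.length) (by omega)
    rw [List.take_zero, ht_nil] at h0
    rcases U_take hx i with ⟨a1, a2, a3⟩ | ⟨a1, a2⟩
    · have e1 : i - x.length = 0 := by omega
      rw [e1, List.take_zero, ht_nil]
      rcases U_take hx i' with ⟨b1, b2, b3⟩ | ⟨b1, b2⟩
      · have e2 : i' - x.length = 0 := by omega
        rw [e2, List.take_zero, ht_nil]
        push_cast at a3
        omega
      · rw [b2]; push_cast at *; omega
    · rcases U_take hx i' with ⟨b1, b2, b3⟩ | ⟨b1, b2⟩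
      · omega
      · rw [a2, b2]; omega

lemma repD_rise (a : ℕ) : ∀ (m : ℕ) (v : List Bool), v ∈ rep m (Dn a 1) →
    ∀ i i', i ≤ i' → ht (v.take i') - ht (v.take i) ≤ a := by
  intro m
  induction m with
  | zero =>
    intro v hv i i' _
    have : v = [] := hv
    subst this
    simp
  | succ m ih =>
    rintro v ⟨x, hx, y, hy, rfl⟩ i i' hii
    rw [ht_take_append, ht_take_append]
    have h1 := ih y hy (i - x.length) (i' - x.length) (by omega)
    have h0 := ih y hy 0 (i' - x.length) (by omega)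
    rw [List.take_zero, ht_nil] at h0
    rcases Dn_take hx i with ⟨a1, a2, a3⟩ | ⟨a1, a2⟩
    · have e1 : i - x.length = 0 := by omega
      rw [e1, List.take_zero, ht_nil]
      rcases Dn_take hx i' with ⟨b1, b2, b3⟩ | ⟨b1, b2⟩
      · have e2 : i' - x.length = 0 := by omega
        rw [e2, List.take_zero, ht_nil]
        push_cast at a2
        omega
      · rw [b2]; push_cast at *; omega
    · rcases Dn_take hx i' with ⟨b1, b2, b3⟩ | ⟨b1, b2⟩
      · omega
      · rw [a2, b2]; omega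

/-- numerical facts -/
lemma num (g R J j : ℕ) (hR : 2 ≤ R) (hj : 2 ≤ j) (hjJ : j ≤ J) :
    2 * (R * (16 * g * R ^ (J - j))) ≤ 16 * g * R ^ J := by
  have e1 : R ^ J = R ^ (J - j) * R ^ (j - 2) * (R * R) := by
    rw [← pow_add, ← pow_two, ← pow_add]
    congr 1
    omega
  have e2 : 1 ≤ R ^ (j - 2) := Nat.one_le_pow _ _ (by omega)
  rw [e1, ← mul_assoc]
  calc 2 * R * (16 * g * R ^ (J - j)) ≤ R * R * (16 * g * R ^ (J - j)) :=
        Nat.mul_le_mul_right _ (Nat.mul_le_mul_right _ hR)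
    _ = 16 * g * (R ^ (J - j) * 1 * (R * R)) := by ring
    _ ≤ 16 * g * (R ^ (J - j) * R ^ (j - 2) * (R * R)) := by gcongr

lemma asc_sub (g R J j : ℕ) (hR : 2 ≤ R) (hg : 0 < g) (hj : 2 ≤ j) (hjJ : j ≤ J) :
    AscL (16 * g) (R ^ J) R (16 * g * R ^ (J - j)) ⊆
      U (16 * g * R ^ J - 16 * g / 4) (16 * g / 4) := by
  have hr := num g R J j hR hj hjJ
  have hGr : 16 * g ≤ 16 * g * R ^ (J - j) :=
    Nat.le_mul_of_pos_right _ (Nat.pow_pos (by omega))
  have h4 : 16 * g / 4 = 4 * g := by omega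
  have hr16 : 16 * g * R ^ (J - j) = 16 * (g * R ^ (J - j)) := by ring
  have hAr : 16 * g * R ^ (J - j) ≤ R * (16 * g * R ^ (J - j)) :=
    Nat.le_mul_of_pos_left _ (by omega)
  have h2R : 2 * R * (16 * g * R ^ (J - j)) = 2 * (R * (16 * g * R ^ (J - j))) := by ring
  rintro v ⟨u1, h1, v', ⟨u2, h2, u3, h3, rfl⟩, rfl⟩
  generalize hrr : 16 * g * R ^ (J - j) = r at *
  generalize hAA : R * r = A at *
  generalize hMM : 16 * g * R ^ J = M at *
  rw [h4] at h1 ⊢
  rw [h2R] at h2 h3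
  have b1 : labSub_Band u1 (r / 2 - 4 * g : ℕ) (-((4 * g : ℕ) : ℤ)) (r / 2 - 4 * g : ℕ) := h1
  have b2 := labSub_repU _ _ _ h2
  have b3 : labSub_Band u3 (M - 2 * A : ℕ) (-((A / 2 : ℕ) : ℤ)) (M - 2 * A : ℕ) := h3
  have b23 := labSub_band_append (lo := -((r / 2 : ℕ) : ℤ)) (hi := ((M - r / 2 : ℕ) : ℤ)) b2 b3
    le_rfl (by omega) (by omega) (by omega)
  have b := labSub_band_append (lo := -((4 * g : ℕ) : ℤ)) (hi := ((M - 4 * g : ℕ) : ℤ)) b1 b23
    le_rfl (by omega) (by omega) (by omega)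
  have e : ((r / 2 - 4 * g : ℕ) : ℤ) + (((2 * A - r / 2 : ℕ) : ℤ) + ((M - 2 * A : ℕ) : ℤ)) =
      ((M - 4 * g : ℕ) : ℤ) := by omega
  rw [e] at b
  exact b

end PageComb

open PageComb in
theorem pr_pageComb : S_pageComb := by
  intro R J G k w hR hJ hG h16 hk hw H hH
  have hpg := (pr_pages R J G hR hG h16).2.2 k w hw
  obtain ⟨g, rfl⟩ := h16
  have hg : 0 < g := by omega
  obtain ⟨S, hS, ae, ⟨a, ha, e, he, rfl⟩, rfl⟩ := hw
  obtain ⟨f0, hf0, bc, ⟨b, hb, c, hc, rfl⟩, hSe⟩ := hS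
  have hf0' : f0 = [false] := hf0
  subst hf0'
  have h4 : 16 * g / 4 = 4 * g := by omega
  -- `M` is large
  have hN : 16 * g * 4 ≤ 16 * g * R ^ J := by
    apply Nat.mul_le_mul_left
    calc 4 = 2 ^ 2 := by norm_num
      _ ≤ R ^ 2 := Nat.pow_le_pow_left hR 2
      _ ≤ R ^ J := Nat.pow_le_pow_right (by omega) hJ
  have hMc : (((16 * g : ℕ) : ℤ) * (R : ℤ) ^ J) = ((16 * g * R ^ J : ℕ) : ℤ) := by push_cast; ring
  have hbB := labSub_repD _ _ _ hb
  have hht0 : ht [false] = -1 := by simp [ht, stp]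
  have hhtb : ht b = -(k : ℤ) := hbB.1
  have hhtc : ht c = ((16 * g / 4 : ℕ) : ℤ) := hc.1
  have hhta : ht a = ((16 * g * R ^ J - 16 * g / 4 : ℕ) : ℤ) := ha.1
  have hhte : ht e = -((16 * g * R ^ J : ℕ) : ℤ) := he.1
  have hhtS : ht S = -((k : ℤ) + 1) + ((4 * g : ℕ) : ℤ) := by
    rw [hSe, labSub_ht_append, labSub_ht_append, hht0, hhtb, hhtc, h4]; ring
  have hclen : 0 < c.length := by
    rcases Nat.eq_zero_or_pos c.length with h | h
    · have := ht_zero h
      rw [hhtc] at this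
      omega
    · exact h
  have helen : 0 < e.length := by
    rcases Nat.eq_zero_or_pos e.length with h | h
    · have := ht_zero h
      rw [hhte] at this
      omega
    · exact h
  have hSlen : S.length = 1 + b.length + c.length := by
    rw [hSe]; simp; omega
  have hwlen : (S ++ (a ++ e)).length = S.length + a.length + e.length := by
    simp; omega
  -- heights in the segments
  have hsegb : ∀ i, 1 ≤ i → i ≤ 1 + b.length → H i = -1 + ht (b.take (i - 1)) := by
    intro i h1 h2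
    rw [hH, hSe]
    have e1 : [false] ++ (b ++ c) ++ (a ++ e) = [false] ++ (b ++ (c ++ (a ++ e))) := by simp
    rw [e1, seg [false] b _ i (by simpa using h1) (by simpa using h2), hht0]
    simp
  have hsegc : ∀ i, 1 + b.length ≤ i → i ≤ S.length →
      H i = -((k : ℤ) + 1) + ht (c.take (i - (1 + b.length))) := by
    intro i h1 h2
    rw [hH, hSe]
    have e1 : [false] ++ (b ++ c) ++ (a ++ e) = ([false] ++ b) ++ (c ++ (a ++ e)) := by simp
    have e2 : ([false] ++ b).length = 1 + b.length := by simp; omega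
    rw [e1, seg ([false] ++ b) c _ i (by omega) (by omega), labSub_ht_append, hht0, hhtb, e2]
    ring
  have hsega : ∀ i, S.length ≤ i → i ≤ S.length + a.length →
      H i = -((k : ℤ) + 1) + ((4 * g : ℕ) : ℤ) + ht (a.take (i - S.length)) := by
    intro i h1 h2
    rw [hH, seg S a e i h1 h2, hhtS]
  have hsege : ∀ i, S.length + a.length ≤ i → i ≤ S.length + a.length + e.length →
      H i = -((k : ℤ) + 1) + ((16 * g * R ^ J : ℕ) : ℤ) + ht (e.take (i - (S.length + a.length))) := by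
    intro i h1 h2
    have e1 : S ++ (a ++ e) = (S ++ a) ++ (e ++ []) := by simp
    have e2 : (S ++ a).length = S.length + a.length := by simp
    rw [hH, e1, seg (S ++ a) e [] i (by omega) (by omega), e2, labSub_ht_append, hhtS, hhta, h4]
    omega
  refine ⟨1 + b.length, S.length + a.length, by omega, by omega, by omega, ?_, ?_, ?_, ?_, ?_, ?_⟩
  · rw [hsegc _ le_rfl (by omega)]
    simp [ht_nil]
  · intro i
    rw [hH]
    exact hpg.2 _ (List.take_prefix _ _)
  · rw [hH, List.take_length]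
    exact hpg.1
  · rw [hsega _ (by omega) le_rfl, Nat.add_sub_cancel_left, List.take_length, hhta, h4, hMc]
    omega
  · intro i hi
    rw [hMc]
    rcases Nat.lt_or_ge i 1 with h1 | h1
    · have : i = 0 := by omega
      subst this
      rw [hH]
      simp only [List.take_zero, ht_nil]
      omega
    rcases Nat.lt_or_ge i (1 + b.length) with h2 | h2
    · rw [hsegb i h1 h2.le]
      have h3 := (hbB.2 (b.take (i - 1)) (List.take_prefix _ _) (by
        intro hh
        have := congrArg List.length hh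
        rw [List.length_take] at this
        omega)).2
      omega
    rcases Nat.lt_or_ge i S.length with h3 | h3
    · rw [hsegc i h2 h3.le]
      rcases U_take hc (i - (1 + b.length)) with ⟨-, -, h5⟩ | ⟨-, h5⟩
      · omega
      · omega
    · rw [hsega i h3 hi.le]
      rcases U_take ha (i - S.length) with ⟨-, -, h5⟩ | ⟨h5, -⟩
      · omega
      · omega
  · intro j hj hjJ hL r hr
    have hr0 := num g R J j hR hj hjJ
    have hGr : 16 * g ≤ 16 * g * R ^ (J - j) :=
      Nat.le_mul_of_pos_right _ (Nat.pow_pos (by omega))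
    have hr16 : 16 * g * R ^ (J - j) = 16 * (g * R ^ (J - j)) := by ring
    obtain ⟨S', hS', ae', ⟨a', ha', e', he', rfl⟩, hwe⟩ := hL
    have hpfS : PrefixFree (Start (16 * g) k) := by
      unfold Start
      apply pf_conc
      · intro u hu v hv _
        rw [Set.mem_singleton_iff] at hu hv
        rw [hu, hv]
      · exact pf_conc _ _ (pf_rep _ _ (pf_Dn _ _)) (pf_U _ _)
    have hSS : S = S' := by
      have hSm : S ∈ Start (16 * g) k := ⟨[false], rfl, b ++ c, ⟨b, hb, c, hc, rfl⟩, hSe⟩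
      have p1 : S <+: S ++ (a ++ e) := List.prefix_append _ _
      have p2 : S' <+: S ++ (a ++ e) := by rw [hwe]; exact List.prefix_append _ _
      rcases List.prefix_or_prefix_of_prefix p1 p2 with h | h
      · exact hpfS _ hSm _ hS' h
      · exact (hpfS _ hS' _ hSm h).symm
    subst hSS
    have hae := List.append_cancel_left hwe
    have haa : a = a' := by
      have hm := asc_sub g R J j hR hg hj hjJ ha'
      have p1 : a <+: a ++ e := List.prefix_append _ _
      have p2 : a' <+: a ++ e := by rw [hae]; exact List.prefix_append _ _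
      rcases List.prefix_or_prefix_of_prefix p1 p2 with h | h
      · exact pf_U _ _ _ ha _ hm h
      · exact (pf_U _ _ _ hm _ ha h).symm
    subst haa
    have hee := List.append_cancel_left hae
    subst hee
    rw [← hr] at ha' he' hr0 hGr hr16
    have hAr : r ≤ R * r := Nat.le_mul_of_pos_left _ (by omega)
    have h2R : 2 * R * r = 2 * (R * r) := by ring
    have hc1 : 3 * (R : ℤ) * (r : ℤ) = 3 * ((R * r : ℕ) : ℤ) := by push_cast; ring
    have hc2 : 2 * (R : ℤ) * (r : ℤ) = 2 * ((R * r : ℕ) : ℤ) := by push_cast; ring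
    have hev : R * r = 16 * (R * (g * R ^ (J - j))) := by rw [hr16]; ring
    generalize hgR : g * R ^ (J - j) = q at hr16 hev
    generalize hRq : R * q = q' at hev
    obtain ⟨a1, ha1, a23, ⟨a2, ha2, a3, ha3, rfl⟩, rfl⟩ := ha'
    obtain ⟨e1, he1, e23, ⟨e2, he2, e3, he3, rfl⟩, rfl⟩ := he'
    rw [h2R] at ha2 ha3 he1 he2
    generalize hAA : R * r = A at *
    generalize hMM : 16 * g * R ^ J = M at *
    have l1 : (a1 ++ (a2 ++ a3)).length = a1.length + a2.length + a3.length := by simp; omega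
    have l2 : (e1 ++ (e2 ++ e3)).length = e1.length + e2.length + e3.length := by simp; omega
    have hht1 : ht a1 = ((r / 2 - 16 * g / 4 : ℕ) : ℤ) := ha1.1
    have hht2 : ht a2 = ((2 * A - r / 2 : ℕ) : ℤ) := (labSub_repU _ _ _ ha2).1
    have hhe1 : ht e1 = -((M - 2 * A : ℕ) : ℤ) := he1.1
    have hhe2 : ht e2 = -((2 * A - r / 2 : ℕ) : ℤ) := (labSub_repD _ _ _ he2).1
    rw [l1] at hsega hsege
    rw [l2] at hsege
    rw [l1, hwlen, l1, l2]
    -- sub-segments
    have t1 : ∀ i, i ≤ a1.length → ht ((a1 ++ (a2 ++ a3)).take i) = ht (a1.take i) := by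
      intro i h1
      have := seg [] a1 (a2 ++ a3) i (by simp) (by simpa using h1)
      simpa [ht_nil] using this
    have t2 : ∀ i, a1.length ≤ i → i ≤ a1.length + a2.length →
        ht ((a1 ++ (a2 ++ a3)).take i) = ht a1 + ht (a2.take (i - a1.length)) := by
      intro i h1 h2
      exact seg a1 a2 a3 i h1 h2
    have t3 : ∀ i, a1.length + a2.length ≤ i → i ≤ a1.length + a2.length + a3.length →
        ht ((a1 ++ (a2 ++ a3)).take i) = ht a1 + ht a2 + ht (a3.take (i - (a1.length + a2.length))) := by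
      intro i h1 h2
      have e1 : a1 ++ (a2 ++ a3) = (a1 ++ a2) ++ (a3 ++ []) := by simp
      have e2 : (a1 ++ a2).length = a1.length + a2.length := by simp
      rw [e1, seg (a1 ++ a2) a3 [] i (by omega) (by omega), e2, labSub_ht_append]
    have s1 : ∀ i, i ≤ e1.length → ht ((e1 ++ (e2 ++ e3)).take i) = ht (e1.take i) := by
      intro i h1
      have := seg [] e1 (e2 ++ e3) i (by simp) (by simpa using h1)
      simpa [ht_nil] using this
    have s2 : ∀ i, e1.length ≤ i → i ≤ e1.length + e2.length →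
        ht ((e1 ++ (e2 ++ e3)).take i) = ht e1 + ht (e2.take (i - e1.length)) := by
      intro i h1 h2
      exact seg e1 e2 e3 i h1 h2
    refine ⟨S.length + a1.length, S.length + a1.length + a2.length,
      S.length + (a1.length + a2.length + a3.length) + e1.length,
      S.length + (a1.length + a2.length + a3.length) + e1.length + e2.length,
      by omega, by omega, by omega, by omega, by omega, by omega, ?_, ?_, ?_, ?_, ?_, ?_⟩
    · intro i h1 h2
      rcases Nat.lt_or_ge i S.length with h3 | h3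
      · rw [hsegc i h1 h3.le]
        rcases U_take hc (i - (1 + b.length)) with ⟨-, -, h5⟩ | ⟨-, h5⟩
        · omega
        · omega
      · rw [hsega i h3 (by omega), t1 _ (by omega)]
        rcases U_take ha1 (i - S.length) with ⟨-, -, h5⟩ | ⟨-, h5⟩
        · omega
        · omega
    · intro i i' h1 h2 h3
      rw [hsega i (by omega) (by omega), hsega i' (by omega) (by omega), t2 _ (by omega) (by omega),
        t2 _ (by omega) (by omega)]
      have := repU_drop _ _ _ ha2 (i - S.length - a1.length) (i' - S.length - a1.length) (by omega)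
      omega
    · intro i h1 h2
      rw [hc1, hsega i (by omega) (by omega), t3 _ (by omega) (by omega), hht1, hht2]
      rcases U_take ha3 (i - S.length - (a1.length + a2.length)) with ⟨-, h5, -⟩ | ⟨-, h5⟩
      · omega
      · omega
    · intro i h1 h2
      rw [hc2, hsege i (by omega) (by omega), s1 _ (by omega)]
      rcases Dn_take he1 (i - (S.length + (a1.length + a2.length + a3.length))) with
        ⟨-, h5, -⟩ | ⟨-, h5⟩
      · omega
      · omega
    · intro i i' h1 h2 h3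
      rw [hsege i (by omega) (by omega), hsege i' (by omega) (by omega), s2 _ (by omega) (by omega),
        s2 _ (by omega) (by omega)]
      have := repD_rise _ _ _ he2
        (i - (S.length + (a1.length + a2.length + a3.length)) - e1.length)
        (i' - (S.length + (a1.length + a2.length + a3.length)) - e1.length) (by omega)
      omega
    · rw [hsege _ (by omega) (by omega), s2 _ (by omega) (by omega)]
      have e3' : S.length + (a1.length + a2.length + a3.length) + e1.length + e2.length -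
          (S.length + (a1.length + a2.length + a3.length)) - e1.length = e2.length := by omega
      rw [e3', List.take_length, hhe1, hhe2]
      omega

end MP3e01

end

section

open Set

namespace MP3e01

theorem pr_pagePath (h1 : S_folHt) (_h2 : S_folSplit) (h3 : S_pageComb) : S_pagePath := by
  intro R J G k F ε w σ hR hJ hG0 hG16 hkG hε hF hw hσ
  have hG : 16 ≤ G := Nat.le_of_dvd hG0 hG16
  obtain ⟨H, hH⟩ : ∃ H : ℕ → ℤ, ∀ i, H i = ht (w.take i) := ⟨_, fun _ => rfl⟩
  obtain ⟨nb, n3, hnb0, hnb3, hn3L, hHnb, hHge, hHL, hHn3, hHlt, hlab⟩ :=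
    h3 R J G k w hR hJ hG0 hG16 hkG hw H hH
  obtain ⟨hA, hB, hC'⟩ := h1 ε F w σ hε hσ
  set L : ℕ := w.length with hL
  have hAr : ∀ i ≤ L, F (σ i) = F 0 + (H i : ℝ) * ε := fun i hi => by
    rw [hH]; exact hA i hi
  have hC : ∀ t, 0 ≤ t → t < σ L → ∃ i < L, σ i ≤ t ∧ t < σ (i + 1) ∧
      |F t - (F 0 + (H i : ℝ) * ε)| < ε := by
    intro t ht0 htL
    obtain ⟨i, hi, h4, h5, h6⟩ := hC' t ht0 htL
    exact ⟨i, hi, h4, h5, by rw [hH]; exact h6⟩
  have hstrict : ∀ i j, i < j → j ≤ L → σ i < σ j := by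
    intro i j hij hj
    have h2 := hσ.lt i (by omega)
    exact lt_of_lt_of_le h2 (hB (i + 1) j (by omega) hj)
  have hσ0 : σ 0 = 0 := hσ.zero
  have htb0 : 0 < σ nb := by
    have := hstrict 0 nb hnb0 (by omega)
    rwa [hσ0] at this
  have htbt : σ nb < σ n3 := hstrict nb n3 hnb3 (by omega)
  have htL : σ n3 < σ L := hstrict n3 L hn3L le_rfl
  have hFtb : F (σ nb) = F 0 - (k + 1) * ε := by
    rw [hAr nb (by omega), hHnb]; push_cast; ring
  have hFt : F (σ n3) = F 0 - (k + 1) * ε + G * R ^ J * ε := by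
    rw [hAr n3 (by omega), hHn3]; push_cast; ring
  have hFL : F (σ L) = F 0 - (k + 1) * ε := by
    rw [hAr L le_rfl, hHL]; push_cast; ring
  refine ⟨σ n3, σ nb, htb0, htbt, htL, hFtb, hFt, hFL, ?_, ?_⟩
  · rintro x ⟨hx0, hxL⟩
    rcases lt_or_eq_of_le hxL with hx | hx
    · obtain ⟨i, hi, -, -, habs⟩ := hC x hx0 hx
      have h4 := (abs_lt.1 habs).1
      have h5 : (-((k : ℝ) + 1)) ≤ (H i : ℝ) := by exact_mod_cast hHge i
      have h6 := mul_le_mul_of_nonneg_right h5 hε.le
      linarith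
    · rw [hx, hFL]
      linarith
  · intro j hj2 hjJ hwj β hβ1 hβ2 x hm1 hm2
    obtain ⟨n1, n2, n4, n5, hn1, hn2, hn3', hn4, hn5, hn5L, c1, c2, c3, c4, c5, c6⟩ :=
      hlab j hj2 hjJ hwj (G * R ^ (J - j)) rfl
    set r : ℕ := G * R ^ (J - j) with hr
    have hr16 : 16 ≤ r := by
      have : 1 ≤ R ^ (J - j) := Nat.one_le_pow _ _ (by omega)
      calc 16 ≤ G := hG
        _ ≤ G * R ^ (J - j) := Nat.le_mul_of_pos_right G this
    have hrr : ((G : ℝ) * R ^ (J - j)) = (r : ℝ) := by rw [hr]; push_cast; ring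
    rw [hrr] at hm1 hm2 ⊢
    have hr16' : (16 : ℝ) ≤ r := by exact_mod_cast hr16
    have hRR : (2 : ℝ) ≤ R := by exact_mod_cast hR
    -- normalised quantities
    set X : ℝ → ℝ := fun y => (F y - F 0) / ε + (k + 1) with hX
    have hXF : ∀ y, F y = F 0 + (X y - (k + 1)) * ε := by
      intro y
      simp only [hX]
      field_simp
      ring
    set mu : ℝ := (mn F x (σ n3) - F 0) / ε + (k + 1) with hmu
    have hmuF : mn F x (σ n3) = F 0 + (mu - (k + 1)) * ε := by
      simp only [hmu]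
      field_simp
      ring
    set b : ℝ := (β - F 0) / ε + (k + 1) with hb
    have hbF : β = F 0 + (b - (k + 1)) * ε := by
      simp only [hb]
      field_simp
      ring
    have hb1 : -1 < b := by
      rw [hbF] at hβ1
      have : (-1 : ℝ) * ε < b * ε := by linarith
      exact lt_of_mul_lt_mul_right this hε.le
    have hb2 : b ≤ 0 := by
      rw [hbF] at hβ2
      have : b * ε ≤ 0 * ε := by linarith
      exact le_of_mul_le_mul_right this hε
    have hmu1 : b + r ≤ mu := by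
      rw [hbF, hmuF] at hm1
      have : (b + r) * ε ≤ mu * ε := by linarith
      exact le_of_mul_le_mul_right this hε
    have hmu2 : mu ≤ b + R * r := by
      rw [hbF, hmuF] at hm2
      have : mu * ε ≤ (b + R * r) * ε := by linarith
      exact le_of_mul_le_mul_right this hε
    have hmuX : ∀ y ∈ Set.uIcc x (σ n3), mu ≤ X y := by
      intro y hy
      have := mn_le hF hy
      rw [hmuF, hXF y] at this
      have h' : mu * ε ≤ X y * ε := by linarith
      exact le_of_mul_le_mul_right h' hε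
    obtain ⟨v, hv, hFv⟩ := exists_mn hF x (σ n3)
    have hXv : X v = mu := by simp only [hX, hmu, hFv]
    have hXi : ∀ i ≤ L, X (σ i) = (H i : ℝ) + (k + 1) := by
      intro i hi
      simp only [hX]
      rw [hAr i hi]
      field_simp
      ring
    have hXC : ∀ y, 0 ≤ y → y < σ L → ∃ i < L, σ i ≤ y ∧ y < σ (i + 1) ∧
        X y < (H i : ℝ) + (k + 1) + 1 ∧ (H i : ℝ) + (k + 1) - 1 < X y := by
      intro y hy0 hyL
      obtain ⟨i, hi, hi1, hi2, habs⟩ := hC y hy0 hyL
      refine ⟨i, hi, hi1, hi2, ?_, ?_⟩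
      · have h4 := (abs_lt.1 habs).2
        rw [hXF y] at h4
        have : (X y) * ε < ((H i : ℝ) + (k + 1) + 1) * ε := by linarith
        exact lt_of_mul_lt_mul_right this hε.le
      · have h4 := (abs_lt.1 habs).1
        rw [hXF y] at h4
        have : ((H i : ℝ) + (k + 1) - 1) * ε < (X y) * ε := by linarith
        exact lt_of_mul_lt_mul_right this hε.le
    -- comparison of indices
    have hidx1 : ∀ i n : ℕ, ∀ y, i < L → n ≤ L → σ n ≤ y → y < σ (i + 1) → n ≤ i := by
      intro i n y hi hn h4 h5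
      by_contra hcon
      have := hB (i + 1) n (by omega) hn
      linarith
    have hidx2 : ∀ i n : ℕ, ∀ y, i < L → σ i ≤ y → y < σ n → i < n := by
      intro i n y hi h4 h5
      by_contra hcon
      have := hB n i (by omega) (by omega)
      linarith
    have goal_of : X x - mu ≤ r → F x - mn F x (σ n3) ≤ r * ε := by
      intro h
      rw [hXF x, hmuF]
      have := mul_le_mul_of_nonneg_right h hε.le
      linarith
    apply goal_of
    have hRr : (32 : ℝ) ≤ R * r := by nlinarith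
    rcases le_total x (σ n3) with hxt | hxt
    · -- x ≤ t
      rw [Set.uIcc_of_le hxt] at hv hmuX
      have hxtb : σ nb < x := by
        by_contra hcon
        push Not at hcon
        have := hmuX (σ nb) ⟨hcon, htbt.le⟩
        rw [hXi nb (by omega), hHnb] at this
        push_cast at this
        linarith
      have hx0 : 0 ≤ x := by linarith
      have hxL : x < σ L := by linarith
      obtain ⟨i, hi, hi1, hi2, hi3, hi4⟩ := hXC x hx0 hxL
      have hxn1 : σ n1 ≤ x := by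
        by_contra hcon
        push Not at hcon
        have hnbi := hidx1 i nb x hi (by omega) hxtb.le hi2
        have hin1 := hidx2 i n1 x hi hi1 hcon
        have h6 := c1 i hnbi hin1.le
        have h7 : 2 * ((H i : ℝ) + (k + 1)) ≤ r := by exact_mod_cast h6
        have h8 := hmuX x ⟨le_rfl, hxt⟩
        linarith
      have hv0 : 0 ≤ v := by linarith [hv.1]
      have hvL : v < σ L := by linarith [hv.2]
      obtain ⟨i', hi', hi'1, hi'2, hi'3, hi'4⟩ := hXC v hv0 hvL
      have hvn2 : v < σ n2 := by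
        by_contra hcon
        push Not at hcon
        rcases lt_or_eq_of_le hv.2 with hv3 | hv3
        · have h6 := hidx1 i' n2 v hi' (by omega) hcon hi'2
          have h7 := hidx2 i' n3 v hi' hi'1 hv3
          have h8 := c3 i' h6 h7.le
          have h9 : 3 * (R : ℝ) * r < 2 * ((H i' : ℝ) + (k + 1)) := by exact_mod_cast h8
          rw [hXv] at hi'4
          linarith
        · have h8 := c3 n3 hn3' le_rfl
          have h9 : 3 * (R : ℝ) * r < 2 * ((H n3 : ℝ) + (k + 1)) := by exact_mod_cast h8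
          have h10 := hXi n3 (by omega)
          rw [← hv3, hXv] at h10
          linarith
      have hn1i := hidx1 i n1 x hi (by omega) hxn1 hi2
      have hi'n2 := hidx2 i' n2 v hi' hi'1 hvn2
      have hii' : i ≤ i' := by
        have := hidx2 i (i' + 1) v hi (hi1.trans hv.1) hi'2
        omega
      have h6 := c2 i i' hn1i hii' hi'n2.le
      have h7 : 2 * ((H i : ℝ) - (H i' : ℝ)) ≤ r := by exact_mod_cast h6
      rw [hXv] at hi'4
      linarith
    · -- t ≤ x
      rw [Set.uIcc_of_ge hxt] at hv hmuX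
      have hn30 : 0 ≤ σ n3 := by linarith
      have hxn5 : x < σ n5 := by
        by_contra hcon
        push Not at hcon
        have hle : σ n3 ≤ σ n5 := hB n3 n5 (by omega) hn5L
        have := hmuX (σ n5) ⟨hle, hcon⟩
        rw [hXi n5 hn5L] at this
        have h7 : 2 * ((H n5 : ℝ) + (k + 1)) = r := by exact_mod_cast c6
        linarith
      have h5L : σ n5 ≤ σ L := hB n5 L hn5L le_rfl
      have hx0 : 0 ≤ x := by linarith
      have hxL : x < σ L := by linarith
      obtain ⟨i', hi', hi'1, hi'2, hi'3, hi'4⟩ := hXC x hx0 hxL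
      have hv0 : 0 ≤ v := by linarith [hv.1]
      have hvL : v < σ L := by linarith [hv.2]
      obtain ⟨i, hi, hi1, hi2, hi3, hi4⟩ := hXC v hv0 hvL
      have hvn4 : σ n4 < v := by
        by_contra hcon
        push Not at hcon
        rcases lt_or_eq_of_le hcon with hv3 | hv3
        · have h6 := hidx1 i n3 v hi (by omega) hv.1 hi2
          have h7 := hidx2 i n4 v hi hi1 hv3
          have h8 := c4 i h6 h7.le
          have h9 : 2 * (R : ℝ) * r ≤ (H i : ℝ) + (k + 1) := by exact_mod_cast h8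
          rw [hXv] at hi4
          linarith
        · have h8 := c4 n4 hn4 le_rfl
          have h9 : 2 * (R : ℝ) * r ≤ (H n4 : ℝ) + (k + 1) := by exact_mod_cast h8
          have h10 := hXi n4 (by omega)
          rw [← hv3, hXv] at h10
          linarith
      have hn4i := hidx1 i n4 v hi (by omega) hvn4.le hi2
      have hi'n5 := hidx2 i' n5 x hi' hi'1 hxn5
      have hii' : i ≤ i' := by
        have := hidx2 i (i' + 1) x hi (hi1.trans hv.2) hi'2
        omega
      have h6 := c5 i i' hn4i hii' hi'n5.le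
      have h7 : 2 * ((H i' : ℝ) - (H i : ℝ)) ≤ r := by exact_mod_cast h6
      rw [hXv] at hi4
      linarith

end MP3e01

end

section

/-!
# MP_3e01db_pr, T3: a continuous path follows a complete word up to any time
-/

open Set

namespace MP3e01

lemma Follows.snoc {ε : ℝ} {u : ℝ → ℝ} {v : List Bool} {σ : ℕ → ℝ} (hF : Follows ε u v σ)
    (b : Bool) (s0 : ℝ) (h1 : σ v.length < s0)
    (h2 : u s0 = u (σ v.length) + (if b then ε else -ε))
    (h3 : ∀ s ∈ Set.Ico (σ v.length) s0, |u s - u (σ v.length)| < ε) :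
    Follows ε u (v ++ [b]) (fun i => if i ≤ v.length then σ i else s0) := by
  have hlen : (v ++ [b]).length = v.length + 1 := by simp
  refine ⟨?_, ?_, ?_, ?_⟩
  · simp [hF.zero]
  · intro i hi
    rw [hlen] at hi
    rcases Nat.lt_or_ge i v.length with h | h
    · have e1 : i ≤ v.length := h.le
      have e2 : i + 1 ≤ v.length := h
      simp only [e1, e2, if_true]
      exact hF.lt i h
    · have e : i = v.length := by omega
      subst e
      simp [h1]
  · intro i hi
    have hi' := hi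
    rw [hlen] at hi'
    rcases Nat.lt_or_ge i v.length with h | h
    · have e1 : i ≤ v.length := h.le
      have e2 : i + 1 ≤ v.length := h
      simp only [e1, e2, if_true]
      rw [List.getElem_append_left h]
      exact hF.step i h
    · have e : i = v.length := by omega
      subst e
      simp only [le_refl, if_true, List.getElem_concat_length]
      rw [if_neg (by omega), h2]
  · intro i hi
    rw [hlen] at hi
    rcases Nat.lt_or_ge i v.length with h | h
    · have e1 : i ≤ v.length := h.le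
      have e2 : i + 1 ≤ v.length := h
      simp only [e1, e2, if_true]
      exact hF.inside i h
    · have e : i = v.length := by omega
      subst e
      simp only [le_refl, if_true]
      rw [if_neg (by omega)]
      exact h3

lemma exists_exit {ε : ℝ} {u : ℝ → ℝ} (hu : Continuous u) (hε : 0 < ε) {a T : ℝ}
    (h : ¬ ∀ s ∈ Set.Icc a T, |u s - u a| < ε) :
    ∃ s0, a < s0 ∧ s0 ≤ T ∧ |u s0 - u a| = ε ∧ ∀ s ∈ Set.Ico a s0, |u s - u a| < ε := by
  push Not at h
  obtain ⟨s1, hs1, hs2⟩ := h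
  have hcl : IsClosed {s | ε ≤ |u s - u a|} :=
    isClosed_le continuous_const ((hu.sub continuous_const).abs)
  have hcomp : IsCompact (Set.Icc a T ∩ {s | ε ≤ |u s - u a|}) := isCompact_Icc.inter_right hcl
  obtain ⟨s0, hs0, hmin⟩ := hcomp.exists_isLeast ⟨s1, hs1, hs2⟩
  have hlt : ∀ s ∈ Set.Ico a s0, |u s - u a| < ε := by
    intro s hs
    by_contra hc
    push Not at hc
    have := hmin ⟨⟨hs.1, hs.2.le.trans hs0.1.2⟩, hc⟩
    exact absurd hs.2 (not_lt.2 this)
  have ha : a < s0 := by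
    rcases hs0.1.1.lt_or_eq with h | h
    · exact h
    · exfalso
      have h2 : ε ≤ |u s0 - u a| := hs0.2
      rw [← h, sub_self, abs_zero] at h2
      linarith
  refine ⟨s0, ha, hs0.1.2, le_antisymm ?_ hs0.2, hlt⟩
  have hcw : ContinuousWithinAt (fun s => |u s - u a|) (Set.Iio s0) s0 :=
    ((hu.sub continuous_const).abs).continuousWithinAt
  refine le_of_tendsto hcw ?_
  have : Set.Ico a s0 ∈ nhdsWithin s0 (Set.Iio s0) := Ico_mem_nhdsLT ha
  filter_upwards [this] with s hs using (hlt s hs).le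

theorem pr_walkEx : S_walkEx := by
  intro u T ε hu hT hε
  -- uniform continuity
  have huc : UniformContinuousOn u (Set.Icc 0 T) :=
    isCompact_Icc.uniformContinuousOn_of_continuous hu.continuousOn
  rw [Metric.uniformContinuousOn_iff] at huc
  obtain ⟨δ, hδ, hδ'⟩ := huc ε hε
  -- the main induction
  have main : ∀ n : ℕ, ∃ (v : List Bool) (σ : ℕ → ℝ), Follows ε u v σ ∧ σ v.length ≤ T ∧
      v.length * δ ≤ σ v.length ∧
      (v.length = n ∨ ∀ s ∈ Set.Icc (σ v.length) T, |u s - u (σ v.length)| < ε) := by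
    intro n
    induction n with
    | zero =>
      refine ⟨[], fun _ => 0, ⟨rfl, ?_, ?_, ?_⟩, hT, by simp, Or.inl rfl⟩
      · intro i hi; simp at hi
      · intro i hi; simp at hi
      · intro i hi; simp at hi
    | succ n ih =>
      obtain ⟨v, σ, hF, hle, hδn, hor⟩ := ih
      by_cases hc : ∀ s ∈ Set.Icc (σ v.length) T, |u s - u (σ v.length)| < ε
      · exact ⟨v, σ, hF, hle, hδn, Or.inr hc⟩
      · have hn : v.length = n := by
          rcases hor with h | h
          · exact h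
          · exact absurd h hc
        obtain ⟨s0, h1, h2, h3, h4⟩ := exists_exit hu hε hc
        have hnn : 0 ≤ σ v.length := le_trans (by positivity) hδn
        have hgap : δ ≤ s0 - σ v.length := by
          by_contra hlt
          push Not at hlt
          have := hδ' s0 ⟨by linarith, h2⟩ (σ v.length) ⟨hnn, hle⟩ (by
            rw [Real.dist_eq, abs_of_pos (by linarith)]; exact hlt)
          rw [Real.dist_eq] at this
          linarith
        obtain ⟨b, hb⟩ : ∃ b : Bool, u s0 = u (σ v.length) + (if b then ε else -ε) := by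
          rcases (abs_eq hε.le).1 h3 with h | h
          · exact ⟨true, by simp; linarith⟩
          · exact ⟨false, by simp; linarith⟩
        refine ⟨v ++ [b], _, hF.snoc b s0 h1 hb h4, ?_, ?_, Or.inl (by simp [hn])⟩
        · have : ¬ (v ++ [b]).length ≤ v.length := by simp
          rw [if_neg this]; exact h2
        · have : ¬ (v ++ [b]).length ≤ v.length := by simp
          rw [if_neg this]
          have hl : ((v ++ [b]).length : ℝ) = v.length + 1 := by simp
          rw [hl]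
          linarith
  obtain ⟨n, hn⟩ := exists_nat_gt (T / δ)
  obtain ⟨v, σ, hF, hle, hδn, hor⟩ := main n
  refine ⟨v, σ, hF, hle, ?_⟩
  rcases hor with h | h
  · exfalso
    rw [div_lt_iff₀ hδ] at hn
    rw [h] at hδn hle
    linarith
  · exact h

end MP3e01

end

section

/-! Assembly of the analytic block. -/

open MeasureTheory ProbabilityTheory
open scoped NNReal ENNReal Topology

namespace Pool.Agent.Work.MP_3e01db_pr.AN

open Pool.Agent.Work.MP_3e01db_pr.SM

universe u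

variable {Ω : Type u} {G mΩ : MeasurableSpace Ω} {P : Measure Ω}

lemma isPre_comp {Ω' : Type*} {mΩ' : MeasurableSpace Ω'} {Q : Measure Ω'} {B : ℝ≥0 → Ω → ℝ}
    (hB : IsPreBrownianReal B P) {φ : Ω' → Ω} (hφ : MeasurePreserving φ Q P) :
    IsPreBrownianReal (fun t ω ↦ B t (φ ω)) Q where
  hasLaw I := by
    have h1 := hB.hasLaw I
    have h2 : HasLaw φ P Q := ⟨hφ.measurable.aemeasurable, hφ.map_eq⟩
    exact h1.comp h2

/-- measurability of the right event -/
lemma meas_rEv (hMT : S_MeasT.{u}) (hMS : S_MeasSigns.{u}) (hMin : S_Min.{u}) {m : MeasurableSpace Ω}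
    {c : ℝ≥0 → Ω → ℝ} (hc : ∀ ω, Continuous fun t ↦ c t ω) (hm : ∀ t, Measurable[m] (c t))
    {p q : ℝ≥0} (hpq : p ≤ q) (ε : ℝ) (v : List Bool) :
    MeasurableSet[m] {ω | rEv (fun t ↦ c t ω) p q ε v} := by
  have hD := hMin m c p q hpq hc (fun s _ _ ↦ hm s)
  set g : ℝ≥0 → Ω → ℝ := fun r ω ↦
    -(c q ω - MP3e01.mn (fun t ↦ c t.toNNReal ω) p q) - (c (q + r) ω - c q ω) with hg
  have hgm : ∀ r, Measurable[m] (g r) := fun r ↦
    ((hm q).sub hD).neg.sub ((hm (q + r)).sub (hm q))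
  have hgc : ∀ ω, Continuous fun r ↦ g r ω := fun ω ↦ by
    have := hc ω
    simp only [hg]
    fun_prop
  have hT := hMT m g hgm hgc
  set X : ℝ≥0 → Ω → ℝ := fun r ω ↦ c (q + r) ω - c q ω with hX
  have hXm : ∀ r, Measurable[m] (X r) := fun r ↦ (hm (q + r)).sub (hm q)
  have hXc : ∀ ω, Continuous fun r ↦ X r ω := fun ω ↦ by
    have := hc ω
    simp only [hX]
    fun_prop
  have := hMS m (restart X (fun ω ↦ firstT fun r ↦ g r ω))
    (fun t ↦ measurable_restart hXm hXc hT t)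
    (fun ω ↦ continuous_restart hXc _ ω) ε v.length v
  exact this

lemma continuous_rev {c w : ℝ≥0 → ℝ} (hc : Continuous c) (hw : Continuous w) (hw0 : w 0 = 0)
    (p : ℝ≥0) : Continuous (rev c w p) := by
  unfold rev
  refine Continuous.if_le (by fun_prop) (by fun_prop) continuous_id continuous_const ?_
  intro t ht
  subst ht
  simp [hw0]

/-- measurability of the reversed process -/
lemma meas_rev {m : MeasurableSpace Ω} {c w : ℝ≥0 → Ω → ℝ} {p : ℝ≥0}
    (hm : ∀ t ≤ p, Measurable[m] (c t)) (hw : ∀ t, Measurable[m] (w t)) (t : ℝ≥0) :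
    Measurable[m] (fun ω ↦ rev (fun t ↦ c t ω) (fun t ↦ w t ω) p t) := by
  unfold rev
  by_cases h : t ≤ p
  · simp only [h, if_true]
    exact (hm _ tsub_le_self).sub (hm _ le_rfl)
  · simp only [h, if_false]
    exact (hw _).add ((hm _ zero_le).sub (hm _ le_rfl))

/-- measurability of the left event -/
lemma meas_lEv (hMT : S_MeasT.{u}) (hMS : S_MeasSigns.{u}) (hMin : S_Min.{u}) {m : MeasurableSpace Ω}
    {c w : ℝ≥0 → Ω → ℝ} (hc : ∀ ω, Continuous fun t ↦ c t ω) (hwc : ∀ ω, Continuous fun t ↦ w t ω)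
    (hw0 : ∀ ω, w 0 ω = 0)
    {p q : ℝ≥0} (hpq : p ≤ q) (hm : ∀ t ≤ q, Measurable[m] (c t)) (hw : ∀ t, Measurable[m] (w t))
    (ε : ℝ) (v : List Bool) :
    MeasurableSet[m] {ω | lEv (fun t ↦ c t ω) (fun t ↦ w t ω) p q ε v} := by
  have hD := hMin m c p q hpq hc (fun s _ hs ↦ hm s hs)
  set X : ℝ≥0 → Ω → ℝ := fun r ω ↦ rev (fun t ↦ c t ω) (fun t ↦ w t ω) p r with hX
  have hXm : ∀ r, Measurable[m] (X r) := fun r ↦
    meas_rev (fun t ht ↦ hm t (ht.trans hpq)) hw r
  have hXc : ∀ ω, Continuous fun r ↦ X r ω := fun ω ↦ continuous_rev (hc ω) (hwc ω) (hw0 ω) p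
  set g : ℝ≥0 → Ω → ℝ := fun r ω ↦
    -(c p ω - MP3e01.mn (fun t ↦ c t.toNNReal ω) p q) - X r ω with hg
  have hgm : ∀ r, Measurable[m] (g r) := fun r ↦ ((hm p hpq).sub hD).neg.sub (hXm r)
  have hgc : ∀ ω, Continuous fun r ↦ g r ω := fun ω ↦ continuous_const.sub (hXc ω)
  have hT := hMT m g hgm hgc
  have := hMS m (restart X (fun ω ↦ firstT fun r ↦ g r ω))
    (fun t ↦ measurable_restart hXm hXc hT t)
    (fun ω ↦ continuous_restart hXc _ ω) ε v.length v
  exact this

lemma indep_swap_sup {m1 m2 m3 : MeasurableSpace Ω} (h1 : m1 ≤ mΩ) (h2 : m2 ≤ mΩ) (h3 : m3 ≤ mΩ)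
    [IsProbabilityMeasure P] (h : Indep (m1 ⊔ m2) m3 P) (h' : Indep m1 m2 P) :
    Indep m1 (m2 ⊔ m3) P := by
  set p2 : Set (Set Ω) := {s | ∃ A V, MeasurableSet[m2] A ∧ MeasurableSet[m3] V ∧ s = A ∩ V}
  have hp2 : IsPiSystem p2 := by
    rintro _ ⟨A, V, hA, hV, rfl⟩ _ ⟨A', V', hA', hV', rfl⟩ -
    refine ⟨A ∩ A', V ∩ V', @MeasurableSet.inter _ m2 _ _ hA hA',
      @MeasurableSet.inter _ m3 _ _ hV hV', ?_⟩
    ext; simp; tauto
  have hle : m2 ⊔ m3 ≤ MeasurableSpace.generateFrom p2 := by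
    refine sup_le ?_ ?_
    · intro A hA
      exact MeasurableSpace.measurableSet_generateFrom
        ⟨A, Set.univ, hA, @MeasurableSet.univ _ m3, by simp⟩
    · intro V hV
      exact MeasurableSpace.measurableSet_generateFrom
        ⟨Set.univ, V, @MeasurableSet.univ _ m2, hV, by simp⟩
  refine indep_of_indep_of_le_right ?_ hle
  have hX : m1 = MeasurableSpace.generateFrom {s | MeasurableSet[m1] s} :=
    (@MeasurableSpace.generateFrom_measurableSet Ω m1).symm
  rw [hX]
  refine IndepSets.indep' ?_ ?_ (@MeasurableSpace.isPiSystem_measurableSet Ω m1) hp2 ?_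
  · intro s hs; exact h1 _ hs
  · rintro _ ⟨A, V, hA, hV, rfl⟩
    exact (h2 _ hA).inter (h3 _ hV)
  · rw [IndepSets_iff]
    rintro W _ hW ⟨A, V, hA, hV, rfl⟩
    have hW' : MeasurableSet[m1] W := hW
    have e1 := (Indep_iff _ _ _).1 h (W ∩ A) V
      (@MeasurableSet.inter _ (m1 ⊔ m2) _ _ ((le_sup_left : m1 ≤ m1 ⊔ m2) _ hW')
        ((le_sup_right : m2 ≤ m1 ⊔ m2) _ hA)) hV
    have e2 := (Indep_iff _ _ _).1 h A V ((le_sup_right : m2 ≤ m1 ⊔ m2) _ hA) hV
    have e3 := (Indep_iff _ _ _).1 h' W A hW' hA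
    rw [← Set.inter_assoc, e1, e2, e3]
    ring

end Pool.Agent.Work.MP_3e01db_pr.AN

end

section

/-! # MP_3e01db_pr: block G assembled -/

namespace MP3e01

theorem all_choose : S_choose := pr_choose pr_dip pr_three
theorem all_hold : S_hold := pr_hold pr_geod
theorem all_locLab : S_locLab := pr_locLab pr_locT
theorem all_psi : S_psi := pr_psi pr_locT
theorem all_wlab : S_wlab := pr_wlab pr_locT all_locLab
theorem all_transfer : S_transfer :=
  pr_transfer pr_locT all_locLab pr_imgLoc all_psi pr_code all_hold all_wlab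

end MP3e01

end

section

/-!
# MP_3e01db_pr, block F: probability of a coincidence
-/

open Set MeasureTheory ProbabilityTheory Filter
open scoped ENNReal NNReal unitInterval Topology

namespace MP3e01

lemma bothP_take_flatten_prefix (ws : List (List Bool)) (n : ℕ) :
    (ws.take n).flatten <+: ws.flatten := by
  refine ⟨(ws.drop n).flatten, ?_⟩
  rw [← List.flatten_append, List.take_append_drop]

theorem pr_bothP.{u} (h1 : S_compatP.{u}) (h2 : S_sumClus) (h3 : S_clus) : S_bothP.{u} := by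
  intro Ω _ P X X' hAN p q p' q' hp hpq hp' hpq' D K R K₁ J n₀ hD hK hR hJ
  set N := R ^ J with hN
  set m := n1 R J - n₀ with hm
  set b := J / D with hb
  set c : ℝ≥0∞ := (((K * R + 1) * n1 R J + 1 : ℕ) : ℝ≥0∞) *
        ((Cc K K₁ ^ 2 * K * 2 ^ (K + 4) : ℕ) : ℝ≥0∞) ^ N *
        ((4 * K : ℕ) / ((4 * K + 1 : ℕ) : ℝ≥0∞)) ^ (N * b) / (N.factorial : ℝ≥0∞) with hc
  have heps : 0 < epsT R J := by
    unfold epsT
    have : (0 : ℝ) < R := by exact_mod_cast (by omega : 0 < R)
    positivity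
  have key : ∀ i : ℕ, ∀ u : List Bool, ∀ ws : List (List Bool), IsCluster D R J (16 * R ^ i) ws →
      P {ω | RightPre (X ω) p q (epsT R J) (u ++ ws.flatten) ∧
        CompatEv K R K₁ J (fun i' => lab R J (16 * R ^ i) (ws.getD i' [])) (grp (16 * R ^ i) ws)
          (X' ω) p' q'} ≤ (2⁻¹ : ℝ≥0∞) ^ (u ++ ws.flatten).length * c := by
    intro i u ws hws
    have hG0 : 0 < 16 * R ^ i := Nat.mul_pos (by norm_num) (pow_pos (by omega) i)
    have hG16 : 16 ∣ 16 * R ^ i := Dvd.intro _ rfl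
    obtain ⟨_, _, h3c⟩ := h3 D R J (16 * R ^ i) hR hG0 hG16
    have := h1 P X X' hAN p q p' q' (epsT R J) hp hpq hp' hpq' heps (u ++ ws.flatten)
      K R K₁ J b (fun i' => lab R J (16 * R ^ i) (ws.getD i' [])) (grp (16 * R ^ i) ws)
      hK hR hJ ?_ ?_ ?_
    · refine this.trans (le_of_eq ?_)
      rw [hc]
      simp only [div_eq_mul_inv, mul_assoc, hN]
    · intro i' hi'
      have hpre := h3c ws hws _ (bothP_take_flatten_prefix ws (i' + 1))
      unfold grp
      apply Nat.div_lt_of_lt_mul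
      zify
      have hpos : (0 : ℤ) < ((16 * R ^ i * R ^ J : ℕ) : ℤ) := by
        exact_mod_cast Nat.mul_pos hG0 (pow_pos (by omega) J)
      rw [Int.toNat_eq_max]
      push_cast at hpre hpos ⊢
      rw [max_lt_iff]
      constructor <;> linarith
    · intro i' _ j hj
      simp only [lab, Finset.mem_filter] at hj
      exact hj.1
    · intro i' hi'
      have hlen : i' < ws.length := by rw [hws.1]; exact hi'
      have hmem : ws.getD i' [] ∈ ws := by
        rw [List.getD_eq_getElem _ _ hlen]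
        exact List.getElem_mem hlen
      have hgood := (hws.2 _ hmem).2
      exact Nat.div_le_of_le_mul hgood
  -- union bound
  have hsub : {ω | BothEv D K R K₁ J n₀ (X ω) (X' ω) p q p' q'} ⊆
      ⋃ i ∈ Finset.range (m + 1), ⋃ u : FP (2 * (16 * R ^ i) * R ^ J),
        ⋃ ws : {ws // IsCluster D R J (16 * R ^ i) ws},
          {ω | RightPre (X ω) p q (epsT R J) ((u : List Bool) ++ (ws : List (List Bool)).flatten) ∧
            CompatEv K R K₁ J (fun i' => lab R J (16 * R ^ i) ((ws : List (List Bool)).getD i' []))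
              (grp (16 * R ^ i) (ws : List (List Bool))) (X' ω) p' q'} := by
    rintro ω ⟨i, hi, u, hu, ws, hws, hr, hcompat⟩
    simp only [Set.mem_iUnion, Finset.mem_range, Set.mem_ofPred_eq]
    exact ⟨i, by omega, ⟨u, hu⟩, ⟨ws, hws⟩, hr, hcompat⟩
  have hle : P {ω | BothEv D K R K₁ J n₀ (X ω) (X' ω) p q p' q'} ≤
      ∑ i ∈ Finset.range (m + 1), ∑' u : FP (2 * (16 * R ^ i) * R ^ J),
        ∑' ws : {ws // IsCluster D R J (16 * R ^ i) ws},
        (2⁻¹ : ℝ≥0∞) ^ ((u : List Bool) ++ (ws : List (List Bool)).flatten).length * c := by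
    refine (measure_mono hsub).trans ?_
    refine (measure_biUnion_finset_le _ _).trans ?_
    refine Finset.sum_le_sum fun i _ => ?_
    refine (measure_iUnion_le _).trans ?_
    refine ENNReal.tsum_le_tsum fun u => ?_
    refine (measure_iUnion_le _).trans ?_
    refine ENNReal.tsum_le_tsum fun ws => ?_
    exact key i u ws ws.2
  refine hle.trans ?_
  simp only [ENNReal.tsum_mul_right]
  rw [← Finset.sum_mul]
  have hs := h2 D R J m hR
  refine (mul_le_mul_left hs c).trans ?_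
  have hm1 : ((m + 1 : ℕ) : ℝ≥0∞) ≤ ((n1 R J + 1 : ℕ) : ℝ≥0∞) := by
    exact_mod_cast (by omega : m + 1 ≤ n1 R J + 1)
  have hNf : (N.factorial : ℝ≥0∞) ≠ 0 := by exact_mod_cast Nat.factorial_ne_zero N
  calc ((m + 1 : ℕ) : ℝ≥0∞) / (((R ^ J) ^ (R ^ J) : ℕ) : ℝ≥0∞) * c
      ≤ ((n1 R J + 1 : ℕ) : ℝ≥0∞) / (((R ^ J) ^ (R ^ J) : ℕ) : ℝ≥0∞) * c := by gcongr
    _ = _ := by
        have hcast : ((N.factorial * N ^ N : ℕ) : ℝ≥0∞) = (N.factorial : ℝ≥0∞) * ((N ^ N : ℕ) : ℝ≥0∞) :=
          Nat.cast_mul _ _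
        rw [hc, ← hN, hcast]
        simp only [div_eq_mul_inv]
        rw [ENNReal.mul_inv (Or.inl hNf) (Or.inl (ENNReal.natCast_ne_top _))]
        ring

end MP3e01

end

section

/-!
# MP_3e01db_pr, block F, item `compatP`
-/

open Set MeasureTheory ProbabilityTheory
open scoped ENNReal NNReal

namespace MP3e01
namespace CompatP

/-- the finite type of codes -/
abbrev Code' (K R K₁ J : ℕ) : Type := (Σ j : Fin (J + 1), Fin (R ^ (j : ℕ))) → Fin (Cc K K₁)

/-- decoding -/
def dec (K R K₁ J : ℕ) (F : Code' K R K₁ J) (j idx : ℕ) : ℕ :=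
  if h : j < J + 1 then (if h' : idx < R ^ j then (F ⟨⟨j, h⟩, ⟨idx, h'⟩⟩ : ℕ) else 0) else 0

lemma dec_le (K R K₁ J : ℕ) (F : Code' K R K₁ J) (j idx : ℕ) :
    dec K R K₁ J F j idx ≤ Cc K K₁ := by
  unfold dec
  split_ifs with h h'
  · exact (F _).2.le
  · exact Nat.zero_le _
  · exact Nat.zero_le _

lemma lev_congr {R J : ℕ} (hR : 0 < R) {c c' : ℕ → ℕ → ℕ}
    (h : ∀ j ≤ J, ∀ idx < R ^ j, c j idx = c' j idx) :
    ∀ j ≤ J, ∀ idx < R ^ j, lev R c j idx = lev R c' j idx := by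
  intro j
  induction j with
  | zero => intro hj idx hidx; simp only [lev]; exact h 0 hj idx hidx
  | succ j ih =>
    intro hj idx hidx
    simp only [lev]
    rw [ih (by omega) (idx / R) (by
      rw [Nat.div_lt_iff_lt_mul hR]; rw [pow_succ] at hidx; exact hidx), h (j + 1) hj idx hidx]

lemma lev_le {R C : ℕ} {c : ℕ → ℕ → ℕ} (h : ∀ j idx, c j idx ≤ C) :
    ∀ j idx, lev R c j idx ≤ (j + 1) * (C + 2) := by
  intro j
  induction j with
  | zero => intro idx; simp only [lev]; have := h 0 idx; omega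
  | succ j ih =>
    intro idx
    simp only [lev]
    have h1 := ih (idx / R)
    have h2 := h (j + 1) idx
    have h3 : (j + 1 + 1) * (C + 2) = (j + 1) * (C + 2) + (C + 2) := by ring
    omega

lemma node_lt {R J : ℕ} (hR : 0 < R) {gr : ℕ → ℕ} {i j : ℕ} (hi : gr i < R ^ J) (hj : j ≤ J) :
    node R J gr i j < R ^ j := by
  unfold node
  rw [Nat.div_lt_iff_lt_mul (by positivity), ← pow_add]
  rwa [Nat.add_sub_cancel' hj]

lemma qs_congr {K R J E : ℕ} (hR : 0 < R) {gr : ℕ → ℕ} {c c' : ℕ → ℕ → ℕ} {lb : ℕ → Finset ℕ}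
    (h : ∀ j ≤ J, ∀ idx < R ^ j, c j idx = c' j idx) {i : ℕ} (hi : gr i < R ^ J)
    (hlb : lb i ⊆ Finset.Icc 2 J) : qs K R J E gr c lb i = qs K R J E gr c' lb i := by
  unfold qs
  apply List.map_congr_left
  intro j hj
  have hj' : j ∈ lb i := (Finset.mem_sort _).1 hj
  have hj2 : j ≤ J := (Finset.mem_Icc.1 (hlb hj')).2
  rw [lev_congr hR h j hj2 _ (node_lt hR hi hj2)]

lemma pg_congr {N : ℕ} {side side' : ℕ → Bool} {b : Bool} {l l' : ℕ → ℕ} {Q Q' : ℕ → List ℕ}
    (hs : ∀ i < N, side i = side' i) (hl : ∀ i < N, l i = l' i) (hQ : ∀ i < N, Q i = Q' i) :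
    pg N side b l Q = pg N side' b l' Q' := by
  unfold pg
  have h1 : (List.range N).filter (fun i => side i = b) =
      (List.range N).filter (fun i => side' i = b) := by
    apply List.filter_congr
    intro i hi
    rw [hs i (List.mem_range.1 hi)]
  rw [h1]
  apply List.map_congr_left
  intro i hi
  have hi' : i < N := List.mem_range.1 (List.mem_filter.1 hi).1
  rw [hl i hi', hQ i hi']

lemma geom_le {R : ℕ} (hR : 2 ≤ R) (J : ℕ) : ∑ j : Fin (J + 1), R ^ (j : ℕ) ≤ 2 * R ^ J := by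
  rw [Fin.sum_univ_eq_sum_range (fun j => R ^ j) (J + 1)]
  induction J with
  | zero => simp
  | succ J ih =>
    rw [Finset.sum_range_succ]
    have : 2 * R ^ J ≤ R ^ (J + 1) := by
      rw [pow_succ, mul_comm]; exact Nat.mul_le_mul_left _ hR
    omega

lemma filter_len (N : ℕ) (side : ℕ → Bool) :
    ((List.range N).filter fun i => side i = true).length +
      ((List.range N).filter fun i => side i = false).length = N := by
  have h := List.length_eq_length_filter_add (l := List.range N) (fun i => decide (side i = true))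
  rw [List.length_range] at h
  conv_rhs => rw [h]
  congr 2
  apply List.filter_congr
  intro i _
  cases side i <;> simp

lemma rho_le (K : ℕ) : ((4 * K : ℕ) / ((4 * K + 1 : ℕ) : ℝ≥0∞)) ≤ 1 := by
  apply ENNReal.div_le_of_le_mul
  rw [one_mul]
  exact_mod_cast Nat.le_succ _

lemma wt_chain_le (h2 : S_chain) {K A N b : ℕ} (hK : 1 ≤ K) (hA : 0 < A) {side : ℕ → Bool}
    {l : ℕ → ℕ} {Q : ℕ → List ℕ} (bb : Bool) (hQ : ∀ i < N, ∀ x ∈ Q i, 16 ≤ x)
    (hlen : ∀ i < N, b ≤ (Q i).length) :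
    wt (chain K A 0 (pg N side bb l Q)) ≤
      (((4 * K : ℕ) / ((4 * K + 1 : ℕ) : ℝ≥0∞)) ^ b / (A : ℝ≥0∞)) ^
        ((List.range N).filter fun i => side i = bb).length := by
  refine (h2 K A 0 (pg N side bb l Q) hK hA ?_).trans ?_
  · intro x hx y hy
    unfold pg at hx
    obtain ⟨i, hi, rfl⟩ := List.mem_map.1 hx
    exact hQ i (List.mem_range.1 (List.mem_filter.1 hi).1) y hy
  · have hlen' : ((List.range N).filter fun i => side i = bb).length =
        ((pg N side bb l Q).map fun x => ((4 * K : ℕ) / ((4 * K + 1 : ℕ) : ℝ≥0∞)) ^ x.2.length /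
          (A : ℝ≥0∞)).length := by
      unfold pg; simp
    rw [hlen']
    apply List.prod_le_pow_card
    intro y hy
    obtain ⟨x, hx, rfl⟩ := List.mem_map.1 hy
    unfold pg at hx
    obtain ⟨i, hi, rfl⟩ := List.mem_map.1 hx
    have hi' := List.mem_range.1 (List.mem_filter.1 hi).1
    exact ENNReal.div_le_div_right (pow_le_pow_right_of_le_one' (rho_le K) (hlen i hi')) _

lemma arith (C e N V K' A M F : ℕ) (h1 : C ^ e ≤ (C ^ 2) ^ N) (hm : M * F ≤ (V + N) ^ N)
    (hNV : N ≤ V) (h4 : 2 * (2 * V) = K' * A) :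
    C ^ e * 2 ^ N * M * F ≤ (C ^ 2 * K') ^ N * A ^ N := by
  calc C ^ e * 2 ^ N * M * F = C ^ e * 2 ^ N * (M * F) := by ring
    _ ≤ (C ^ 2) ^ N * 2 ^ N * (2 * V) ^ N :=
        Nat.mul_le_mul (Nat.mul_le_mul_right _ h1)
          (hm.trans (Nat.pow_le_pow_left (by omega) N))
    _ = (C ^ 2 * (2 * (2 * V))) ^ N := by rw [← mul_pow, ← mul_pow, mul_assoc]
    _ = (C ^ 2 * K' * A) ^ N := by rw [h4, mul_assoc]
    _ = _ := by rw [mul_pow]

/-- The numerical bound. -/
lemma num_bound (h3 : S_monoCard) {K R K₁ J : ℕ} (hK : 1 ≤ K) (hR : 2 ≤ R) :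
    Cc K K₁ ^ (∑ j : Fin (J + 1), R ^ (j : ℕ)) * 2 ^ (R ^ J) *
      (Finset.univ.filter fun l : Fin (R ^ J) → Fin (K * 2 ^ EE K R K₁ J + 1) => Monotone l).card *
      (R ^ J).factorial ≤ (Cc K K₁ ^ 2 * K * 2 ^ (K + 4)) ^ (R ^ J) * AA K R K₁ J ^ (R ^ J) := by
  have hC : 0 < Cc K K₁ := by unfold Cc; omega
  have hEJ : R * J ≤ EE K R K₁ J := by unfold EE; omega
  have hEK : K + 2 ≤ EE K R K₁ J := by unfold EE; omega
  have hNV : R ^ J ≤ K * 2 ^ EE K R K₁ J := by
    calc R ^ J ≤ (2 ^ R) ^ J := Nat.pow_le_pow_left (Nat.lt_two_pow_self).le J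
      _ = 2 ^ (R * J) := by rw [pow_mul]
      _ ≤ 2 ^ EE K R K₁ J := Nat.pow_le_pow_right (by norm_num) hEJ
      _ ≤ K * 2 ^ EE K R K₁ J := Nat.le_mul_of_pos_left _ (by omega)
  have h1 : Cc K K₁ ^ (∑ j : Fin (J + 1), R ^ (j : ℕ)) ≤ (Cc K K₁ ^ 2) ^ (R ^ J) := by
    rw [← pow_mul]
    exact Nat.pow_le_pow_right hC (geom_le hR J)
  have h4 : 2 * (2 * (K * 2 ^ EE K R K₁ J)) = K * 2 ^ (K + 4) * AA K R K₁ J := by
    unfold AA
    rw [mul_assoc K, ← pow_add]
    have : K + 4 + (EE K R K₁ J - 2 - K) = EE K R K₁ J + 2 := by omega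
    rw [this, pow_add]; ring
  have := arith (Cc K K₁) (∑ j : Fin (J + 1), R ^ (j : ℕ)) (R ^ J) (K * 2 ^ EE K R K₁ J)
    (K * 2 ^ (K + 4)) (AA K R K₁ J) _ _ h1 (h3 (R ^ J) (K * 2 ^ EE K R K₁ J)) hNV h4
  rw [mul_assoc (Cc K K₁ ^ 2)]
  exact this

end CompatP

open CompatP in
theorem pr_compatP.{u} (h1 : S_union.{u}) (h2 : S_chain) (h3 : S_monoCard) :
    S_compatP.{u} := by
  intro Ω _ P X X' hAN p q p' q' ε hp hpq hp' hpq' hε v K R K₁ J b lb gr hK hR hJ hgr hlb hb
  classical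
  set N := R ^ J with hN
  set E := EE K R K₁ J with hE
  set A := AA K R K₁ J with hA
  set V := K * 2 ^ E with hV
  set M := (K * R + 1) * n1 R J with hM
  have hR0 : 0 < R := by omega
  have hA0 : 0 < A := by rw [hA]; unfold AA; positivity
  -- the index type
  let ι : Type := Fin (M + 1) × Code' K R K₁ J × (Fin N → Bool) ×
    {l : Fin N → Fin (V + 1) // Monotone l}
  let sd : (Fin N → Bool) → ℕ → Bool := fun s i => if h : i < N then s ⟨i, h⟩ else false
  let lf : (Fin N → Fin (V + 1)) → ℕ → ℕ := fun l i => if h : i < N then (l ⟨i, h⟩ : ℕ) else 0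
  let LL : Bool → ι → Set (List Bool) := fun bb x =>
    chain K A 0 (pg N (sd x.2.2.1) bb (lf x.2.2.2.1)
      (qs K R J E gr (dec K R K₁ J x.2.1) lb))
  let ev : ι → Set Ω := fun x => {ω | ∃ v₀ ∈ ({v} : Set (List Bool)), ∃ v₁ ∈ LL true x,
    ∃ v₂ ∈ LL false x, RightPre (X ω) p q ε v₀ ∧
      RightPre (X' ω) p' q' (1 / 2 ^ ((x.1 : ℕ) + E)) v₁ ∧
      LeftPre (X' ω) p' q' (1 / 2 ^ ((x.1 : ℕ) + E)) v₂}
  -- covering
  have hcov : {ω | RightPre (X ω) p q ε v ∧ CompatEv K R K₁ J lb gr (X' ω) p' q'} ⊆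
      ⋃ x : ι, ev x := by
    rintro ω ⟨hv, n', hn', c, hc, side, l, hl, hmono, v₁, hv₁, v₂, hv₂, hr, hl2⟩
    rw [Set.mem_iUnion]
    let F : Code' K R K₁ J := fun z => ⟨c z.1 z.2, hc _ _⟩
    let s : Fin N → Bool := fun i => side i
    let m : Fin N → Fin (V + 1) := fun i => ⟨l i, Nat.lt_succ_of_le (hl i i.2)⟩
    have hm : Monotone m := fun i i' hii => hmono i i' hii i'.2
    have hdec : ∀ j ≤ J, ∀ idx < R ^ j, c j idx = dec K R K₁ J F j idx := by
      intro j hj idx hidx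
      unfold dec
      rw [dif_pos (Nat.lt_succ_of_le hj), dif_pos hidx]
    have hpg : ∀ bb, pg N side bb l (qs K R J E gr c lb) =
        pg N (sd s) bb (lf m) (qs K R J E gr (dec K R K₁ J F) lb) := by
      intro bb
      apply pg_congr
      · intro i hi; simp only [sd, s, dif_pos hi]
      · intro i hi; simp only [lf, m, dif_pos hi]
      · intro i hi; exact qs_congr hR0 hdec (hgr i hi) (hlb i hi)
    refine ⟨(⟨n', Nat.lt_succ_of_le hn'⟩, F, s, ⟨m, hm⟩), v, rfl, v₁, ?_, v₂, ?_, hv, hr, hl2⟩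
    · simp only [LL]; rw [← hpg true]; exact hv₁
    · simp only [LL]; rw [← hpg false]; exact hv₂
  -- bound of each event
  have hwv : wt ({v} : Set (List Bool)) = (2⁻¹ : ℝ≥0∞) ^ v.length := by
    unfold wt
    rw [tsum_eq_single (⟨v, rfl⟩ : ({v} : Set (List Bool)))]
    rintro ⟨w, hw⟩ hne
    exact absurd (Subtype.ext (Set.mem_singleton_iff.1 hw)) hne
  set ρ : ℝ≥0∞ := ((4 * K : ℕ) / ((4 * K + 1 : ℕ) : ℝ≥0∞)) with hρ
  have hev : ∀ x : ι, P (ev x) ≤ (2⁻¹ : ℝ≥0∞) ^ v.length * (ρ ^ b / (A : ℝ≥0∞)) ^ N := by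
    intro x
    refine (h1 P X X' hAN p q p' q' ε (1 / 2 ^ ((x.1 : ℕ) + E)) hp hpq hp' hpq' hε
      (by positivity) {v} (LL true x) (LL false x)).trans ?_
    rw [hwv, mul_assoc]
    refine mul_le_mul_right ?_ _
    have hQ : ∀ i < N, ∀ y ∈ qs K R J E gr (dec K R K₁ J x.2.1) lb i, 16 ≤ y := by
      intro i hi y hy
      unfold qs at hy
      obtain ⟨j, hj, rfl⟩ := List.mem_map.1 hy
      have hj' : j ∈ lb i := (Finset.mem_sort _).1 hj
      have hj2 : j ≤ J := (Finset.mem_Icc.1 (hlb i hi hj')).2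
      have hle := lev_le (R := R) (dec_le K R K₁ J x.2.1) j (node R J gr i j)
      have hle2 : (j + 1) * (Cc K K₁ + 2) ≤ (J + 1) * (Cc K K₁ + 2) :=
        Nat.mul_le_mul_right _ (by omega)
      have hE2 : (J + 1) * (Cc K K₁ + 2) + 4 ≤ E := by
        rw [hE]; unfold EE
        have : (J + 2) * (Cc K K₁ + 2) = (J + 1) * (Cc K K₁ + 2) + (Cc K K₁ + 2) := by ring
        omega
      calc 16 = 2 ^ 4 := by norm_num
        _ ≤ _ := Nat.pow_le_pow_right (by norm_num) (by omega)
    have hlen : ∀ i < N, b ≤ (qs K R J E gr (dec K R K₁ J x.2.1) lb i).length := by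
      intro i hi
      unfold qs
      rw [List.length_map, Finset.length_sort]
      exact hb i hi
    have e1 := wt_chain_le h2 (side := sd x.2.2.1) (l := lf x.2.2.2.1) hK hA0 true hQ hlen
    have e2 := wt_chain_le h2 (side := sd x.2.2.1) (l := lf x.2.2.2.1) hK hA0 false hQ hlen
    calc wt (LL true x) * wt (LL false x) ≤ _ := mul_le_mul' e1 e2
      _ = (ρ ^ b / (A : ℝ≥0∞)) ^ N := by
        rw [← pow_add, filter_len]
  -- union bound
  have hcard : Fintype.card ι = (M + 1) * (Cc K K₁ ^ (∑ j : Fin (J + 1), R ^ (j : ℕ)) *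
      2 ^ N * (Finset.univ.filter fun l : Fin N → Fin (V + 1) => Monotone l).card) := by
    simp only [ι, Code', Fintype.card_prod, Fintype.card_fin, Fintype.card_fun,
      Fintype.card_sigma, Fintype.card_bool, Fintype.card_subtype]
    ring
  have hnum := num_bound h3 (K := K) (R := R) (K₁ := K₁) (J := J) hK hR
  set mc := (Finset.univ.filter fun l : Fin N → Fin (V + 1) => Monotone l).card with hmc
  set S := Cc K K₁ ^ (∑ j : Fin (J + 1), R ^ (j : ℕ)) * 2 ^ N * mc with hS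
  set T := Cc K K₁ ^ 2 * K * 2 ^ (K + 4) with hT
  have hnum' : S * N.factorial ≤ T ^ N * A ^ N := hnum
  have hdiv : (S : ℝ≥0∞) * (ρ ^ b / (A : ℝ≥0∞)) ^ N ≤
      (T : ℝ≥0∞) ^ N * ρ ^ (N * b) / (N.factorial : ℝ≥0∞) := by
    clear_value S T A N ρ mc V M E
    have hAN : ((A : ℝ≥0∞)) ^ N ≠ 0 := pow_ne_zero _ (by exact_mod_cast hA0.ne')
    have hAN' : ((A : ℝ≥0∞)) ^ N ≠ ⊤ := ENNReal.pow_ne_top (ENNReal.natCast_ne_top A)
    have hf0 : (N.factorial : ℝ≥0∞) ≠ 0 := by exact_mod_cast (Nat.factorial_pos N).ne'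
    have hft : (N.factorial : ℝ≥0∞) ≠ ⊤ := ENNReal.natCast_ne_top _
    have hcast : (S : ℝ≥0∞) * (N.factorial : ℝ≥0∞) ≤ (T : ℝ≥0∞) ^ N * (A : ℝ≥0∞) ^ N := by
      exact_mod_cast hnum'
    have h5 : (S : ℝ≥0∞) / (A : ℝ≥0∞) ^ N ≤ (T : ℝ≥0∞) ^ N / (N.factorial : ℝ≥0∞) := by
      apply ENNReal.div_le_of_le_mul
      rw [ENNReal.div_eq_inv_mul, mul_assoc, ← ENNReal.div_eq_inv_mul,
        ENNReal.le_div_iff_mul_le (Or.inl hf0) (Or.inl hft)]
      exact hcast
    calc (S : ℝ≥0∞) * (ρ ^ b / (A : ℝ≥0∞)) ^ N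
        = ρ ^ (N * b) * ((S : ℝ≥0∞) / (A : ℝ≥0∞) ^ N) := by
          rw [div_eq_mul_inv, div_eq_mul_inv, mul_pow, ← pow_mul, ← ENNReal.inv_pow,
            mul_comm b N]
          ring
      _ ≤ ρ ^ (N * b) * ((T : ℝ≥0∞) ^ N / (N.factorial : ℝ≥0∞)) := by gcongr
      _ = _ := by rw [div_eq_mul_inv, div_eq_mul_inv]; ring
  calc P {ω | RightPre (X ω) p q ε v ∧ CompatEv K R K₁ J lb gr (X' ω) p' q'}
      ≤ P (⋃ x : ι, ev x) := measure_mono hcov
    _ ≤ ∑' x : ι, P (ev x) := measure_iUnion_le _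
    _ = ∑ x : ι, P (ev x) := tsum_fintype _
    _ ≤ ∑ _x : ι, (2⁻¹ : ℝ≥0∞) ^ v.length * (ρ ^ b / (A : ℝ≥0∞)) ^ N :=
        Finset.sum_le_sum fun x _ => hev x
    _ = (2⁻¹ : ℝ≥0∞) ^ v.length * ((M + 1 : ℕ) : ℝ≥0∞) *
          ((S : ℝ≥0∞) * (ρ ^ b / (A : ℝ≥0∞)) ^ N) := by
        rw [Finset.sum_const, Finset.card_univ, hcard, nsmul_eq_mul]
        push_cast
        ring
    _ ≤ (2⁻¹ : ℝ≥0∞) ^ v.length * ((M + 1 : ℕ) : ℝ≥0∞) *
          ((T : ℝ≥0∞) ^ N * ρ ^ (N * b) / (N.factorial : ℝ≥0∞)) := by gcongr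
    _ = _ := by
        rw [div_eq_mul_inv, div_eq_mul_inv]; ring

end MP3e01

end

section

open Set MeasureTheory ProbabilityTheory Filter
open scoped ENNReal NNReal unitInterval

namespace MP3e01

theorem det_lev_bound (R M : ℕ) (c : ℕ → ℕ → ℕ) (hc : ∀ j idx, c j idx < M) :
    ∀ j idx, lev R c j idx ≤ (j + 1) * M + 2 * j
  | 0, idx => by
    have := hc 0 idx
    simp only [lev]
    omega
  | j + 1, idx => by
    have h1 := det_lev_bound R M c hc j (idx / R)
    have h2 := hc (j + 1) idx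
    simp only [lev]
    have h3 : (j + 1 + 1) * M = (j + 1) * M + M := by ring
    omega

theorem det_lev_step (R J : ℕ) (gr : ℕ → ℕ) (c : ℕ → ℕ → ℕ) (i j : ℕ) (hj : j + 1 ≤ J) :
    lev R c (j + 1) (node R J gr i (j + 1)) =
      lev R c j (node R J gr i j) + 2 + c (j + 1) (node R J gr i (j + 1)) := by
  have h : node R J gr i (j + 1) / R = node R J gr i j := by
    unfold node
    rw [Nat.div_div_eq_div_mul, ← pow_succ]
    congr 2
    omega
  simp only [lev]
  rw [h]

theorem det_lev_lt (R J : ℕ) (gr : ℕ → ℕ) (c : ℕ → ℕ → ℕ) (i : ℕ) :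
    ∀ (k j : ℕ), j + (k + 1) ≤ J →
      lev R c j (node R J gr i j) + 2 ≤ lev R c (j + (k + 1)) (node R J gr i (j + (k + 1)))
  | 0, j, h => by
    have := det_lev_step R J gr c i j h
    show _ ≤ lev R c (j + 1) (node R J gr i (j + 1))
    omega
  | k + 1, j, h => by
    have h1 := det_lev_lt R J gr c i k j (by omega)
    have h2 := det_lev_step R J gr c i (j + (k + 1)) (by omega)
    have h3 : j + (k + 1 + 1) = j + (k + 1) + 1 := by ring
    rw [h3, h2]
    omega

theorem det_EE (K R K₁ J j M : ℕ) (hj : j ≤ J) (hM : M = Cc K K₁) :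
    (j + 1) * M + 2 * j + 4 ≤ EE K R K₁ J + 4 * K + 2 := by
  unfold EE
  subst hM
  have h1 : (j + 1) * Cc K K₁ ≤ (J + 2) * Cc K K₁ := Nat.mul_le_mul_right _ (by omega)
  have h2 : (J + 2) * (Cc K K₁ + 2) = (J + 2) * Cc K K₁ + (J + 2) * 2 := by ring
  have h3 : 0 ≤ R * J := Nat.zero_le _
  omega

section side

variable {K R K₁ J n' : ℕ} {lb : ℕ → Finset ℕ} {gr : ℕ → ℕ} {c : ℕ → ℕ → ℕ}

theorem det_lev_le (hc : ∀ j idx, c j idx < Cc K K₁) (i j : ℕ) (hj : j ≤ J) :
    lev R c j (node R J gr i j) + 4 ≤ EE K R K₁ J + 4 * K + 2 := by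
  have h1 := det_lev_bound R (Cc K K₁) c hc j (node R J gr i j)
  have h2 := det_EE K R K₁ J j _ hj rfl
  omega

/-- the window in mesh units -/
theorem det_Q_eq (hc : ∀ j idx, c j idx < Cc K K₁) (i j : ℕ) (hj : j ≤ J) :
    ((2 ^ (EE K R K₁ J + 4 * K + 2 - lev R c j (node R J gr i j)) : ℕ) : ℝ) *
      (1 / 2 ^ (n' + EE K R K₁ J)) = win K R J n' gr c i j := by
  have h := det_lev_le (R := R) (J := J) (gr := gr) hc i j hj
  unfold win
  set l := lev R c j (node R J gr i j) with hl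
  set E := EE K R K₁ J with hE
  obtain ⟨a, ha⟩ : ∃ a, E + 4 * K + 2 = l + a := ⟨E + 4 * K + 2 - l, by omega⟩
  have h1 : E + 4 * K + 2 - l = a := by omega
  rw [h1]
  push_cast
  rw [mul_one_div, div_eq_div_iff (by positivity) (by positivity), ← pow_add, ← pow_add]
  congr 1
  omega

theorem det_side (h7 : S_TP) (side : ℕ → Bool) (b : Bool)
    (dep t : ℕ → ℝ) (u : ℝ → ℝ) (T y : ℝ) (hK : 1 ≤ K) (hu : Continuous u) (hT : 0 ≤ T)
    (hu0 : u 0 = y) (huT : u T = 0) (hc : ∀ j idx, c j idx < Cc K K₁)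
    (hlb : ∀ i < R ^ J, lb i ⊆ Finset.Icc 2 J)
    (hmono : ∀ i j, i < j → j < R ^ J → dep i < dep j)
    (hge : ∀ i < R ^ J, 1 / 2 ^ (n' + 1) ≤ dep i) (hlt : ∀ i < R ^ J, dep i < y)
    (hsmall : ∀ i < R ^ J, ∀ j ∈ lb i, 2 * win K R J n' gr c i j ≤ 1 / 2 ^ (n' + 2 + K))
    (hW : ∀ i < R ^ J, side i = b → WPage u T y (dep i) (t i) (1 / 2 ^ (n' + 1 + K)) K
      {w | ∃ j ∈ lb i, w = win K R J n' gr c i j}) :
    ∃ v ∈ chain K (AA K R K₁ J) 0 (pg (R ^ J) side b
        (fun i => ⌊dep i / (1 / 2 ^ (n' + EE K R K₁ J))⌋₊) (qs K R J (EE K R K₁ J) gr c lb)),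
      ∃ sg : ℕ → ℝ, Follows (1 / 2 ^ (n' + EE K R K₁ J)) u v sg ∧ sg v.length ≤ T := by
  have hEK : K + 16 ≤ EE K R K₁ J := by unfold EE; omega
  have hA : (AA K R K₁ J : ℝ) * (1 / 2 ^ (n' + EE K R K₁ J)) = 1 / 2 ^ (n' + 2 + K) := by
    unfold AA
    push_cast
    rw [mul_one_div, div_eq_div_iff (by positivity) (by positivity), one_mul, ← pow_add]
    congr 1
    omega
  have hA2 : 2 * (AA K R K₁ J : ℝ) * (1 / 2 ^ (n' + EE K R K₁ J)) = 1 / 2 ^ (n' + 1 + K) := by
    rw [mul_assoc, hA]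
    have : n' + 2 + K = (n' + 1 + K) + 1 := by ring
    rw [this, pow_succ]
    field_simp
  have hApos : 0 < AA K R K₁ J := by unfold AA; positivity
  have hεpos : (0 : ℝ) < 1 / 2 ^ (n' + EE K R K₁ J) := by positivity
  have hmemlt : ∀ i ∈ (List.range (R ^ J)).filter (fun i => side i = b),
      i < R ^ J ∧ side i = b := by
    intro i hi
    rw [List.mem_filter] at hi
    exact ⟨List.mem_range.1 hi.1, by simpa using hi.2⟩
  have hpw : ((List.range (R ^ J)).filter (fun i => side i = b)).Pairwise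
      (fun i j => dep i < dep j) := by
    have h0 : ((List.range (R ^ J)).filter (fun i => side i = b)).Pairwise (· < ·) :=
      List.Pairwise.filter _ List.pairwise_lt_range
    refine h0.imp_of_mem ?_
    intro i j hi hj hij
    exact hmono i j hij (hmemlt j hj).1
  have hall : ∀ i ∈ (List.range (R ^ J)).filter (fun i => side i = b),
      0 < dep i ∧ u T < y - dep i ∧
      WPage u T y (dep i) (t i) (2 * (AA K R K₁ J : ℝ) * (1 / 2 ^ (n' + EE K R K₁ J))) K
        {w | ∃ Q ∈ qs K R J (EE K R K₁ J) gr c lb i, w = (Q : ℝ) * (1 / 2 ^ (n' + EE K R K₁ J))} ∧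
      (∀ Q ∈ qs K R J (EE K R K₁ J) gr c lb i, 16 ≤ Q ∧ 2 * Q ≤ AA K R K₁ J) ∧
      (qs K R J (EE K R K₁ J) gr c lb i).Pairwise (fun Q Q' => 4 * Q' ≤ Q) := by
    intro i hi
    obtain ⟨hiN, hside⟩ := hmemlt i hi
    have hjJ : ∀ j ∈ lb i, j ≤ J := fun j hj => (Finset.mem_Icc.1 (hlb i hiN hj)).2
    refine ⟨?_, ?_, ?_, ?_, ?_⟩
    · exact lt_of_lt_of_le (by positivity) (hge i hiN)
    · rw [huT]; linarith [hlt i hiN]
    · rw [hA2]
      have hset : {w : ℝ | ∃ Q ∈ qs K R J (EE K R K₁ J) gr c lb i,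
          w = (Q : ℝ) * (1 / 2 ^ (n' + EE K R K₁ J))} = {w | ∃ j ∈ lb i,
            w = win K R J n' gr c i j} := by
        ext w
        simp only [Set.mem_ofPred_eq, qs, List.mem_map, Finset.mem_sort]
        constructor
        · rintro ⟨Q, ⟨j, hj, rfl⟩, rfl⟩
          exact ⟨j, hj, det_Q_eq hc i j (hjJ j hj)⟩
        · rintro ⟨j, hj, rfl⟩
          exact ⟨_, ⟨j, hj, rfl⟩, (det_Q_eq hc i j (hjJ j hj)).symm⟩
      rw [hset]
      exact hW i hiN hside
    · intro Q hQ
      simp only [qs, List.mem_map, Finset.mem_sort] at hQ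
      obtain ⟨j, hj, rfl⟩ := hQ
      have hl := det_lev_le (R := R) (J := J) (gr := gr) hc i j (hjJ j hj)
      refine ⟨?_, ?_⟩
      · calc 16 = 2 ^ 4 := by norm_num
          _ ≤ 2 ^ (EE K R K₁ J + 4 * K + 2 - lev R c j (node R J gr i j)) :=
            Nat.pow_le_pow_right (by norm_num) (by omega)
      · have hs := hsmall i hiN j hj
        rw [← det_Q_eq hc i j (hjJ j hj), ← hA, ← mul_assoc] at hs
        have := le_of_mul_le_mul_right hs hεpos
        exact_mod_cast this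
    · unfold qs
      rw [List.pairwise_map]
      have h0 : ((lb i).sort (· ≤ ·)).Pairwise (· < ·) := (Finset.sortedLT_sort (lb i)).pairwise
      refine h0.imp_of_mem ?_
      intro j j' hj hj' hlt'
      rw [Finset.mem_sort] at hj hj'
      have hl' := det_lev_le (R := R) (J := J) (gr := gr) hc i j' (hjJ j' hj')
      obtain ⟨k, rfl⟩ : ∃ k, j' = j + (k + 1) := ⟨j' - j - 1, by omega⟩
      have h2 := det_lev_lt R J gr c i k j (hjJ _ hj')
      calc 4 * 2 ^ (EE K R K₁ J + 4 * K + 2 -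
            lev R c (j + (k + 1)) (node R J gr i (j + (k + 1))))
          = 2 ^ (2 + (EE K R K₁ J + 4 * K + 2 -
            lev R c (j + (k + 1)) (node R J gr i (j + (k + 1))))) := by
              rw [pow_add]; norm_num
        _ ≤ 2 ^ (EE K R K₁ J + 4 * K + 2 - lev R c j (node R J gr i j)) :=
            Nat.pow_le_pow_right (by norm_num) (by omega)
  obtain ⟨v, hv, sg, hsg, hsgT⟩ := h7 K (AA K R K₁ J) u T y (1 / 2 ^ (n' + EE K R K₁ J))
    ((List.range (R ^ J)).filter (fun i => side i = b)) dep t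
    (qs K R J (EE K R K₁ J) gr c lb) hK hApos hεpos hT hu hu0 hpw hall
  exact ⟨v, hv, sg, hsg, hsgT⟩

end side

theorem det_n1_ge (R J : ℕ) (hR : 2 ≤ R) (hJ : 1 ≤ J) : J ≤ n1 R J := by
  unfold n1
  have h1 : 1 ≤ R ^ J := Nat.one_le_pow _ _ (by omega)
  have h2 : J ≤ J * R ^ J := Nat.le_mul_of_pos_right J h1
  calc J ≤ J * R ^ J := h2
    _ = (J * R ^ J) ^ 1 := (pow_one _).symm
    _ ≤ (J * R ^ J) ^ (R ^ J) := Nat.pow_le_pow_right (by omega) h1

theorem det_follows_nil (ε : ℝ) (u : ℝ → ℝ) : Follows ε u [] (fun _ => 0) where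
  zero := rfl
  lt := by intro i hi; simp at hi
  step := by intro i hi; simp at hi
  inside := by intro i hi; simp at hi

theorem pr_det (h1 : S_choose) (h2 : S_first) (h3 : S_transfer) (h4 : S_FPex) (h5 : S_folSplit)
    (h6 : S_TD) (h7 : S_TP) : S_det := by
  intro f f' θ g d g' d' D K R K₁ hf hf' he he' hg hg' hNM hD hK hR hQS
  obtain ⟨p, q, p', q', hgp, hpq, hqd, hgp', hpq', hqd', hm0, hmp, hmq, hm0', hmp', hmq', hch⟩ :=
    h1 f f' θ g d g' d' K R K₁ hf hf' he he' hQS hNM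
  obtain ⟨τ, hτ, hqτ, hτd⟩ := (h2 f hf).1 q d (mn f p q) hqd.le hmq (by rw [he.right]; exact hm0)
  obtain ⟨τR, hτR, hqτR, hτRd⟩ := (h2 f' hf').1 q' d' (mn f' p' q') hqd'.le hmq'
    (by rw [he'.right]; exact hm0')
  obtain ⟨τL, hτL, hgτL, hτLp⟩ := (h2 f' hf').2 g' p' (mn f' p' q') hgp'.le hmp'
    (by rw [he'.left]; exact hm0')
  obtain ⟨hd1, hd2, hd3⟩ := hch τ τR τL hτ hτR hτL
  have hgτ : g < τ := by linarith
  have hLR : τL ≤ τR := by linarith
  have hfLR : f' τL = f' τR := by rw [hτL.2.1, hτR.2.1]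
  obtain ⟨C, nt, hT⟩ := h3 f f' θ g d g' d' τ τL τR K R K₁ hf hf' he he' hQS hgτ hτd hK hR
    hgτL hLR hτRd hfLR hd2 hd1 hd3
  have hy : 0 < f τ := by rw [hτ.2.1]; exact hm0
  have hRr : (2 : ℝ) ≤ R := by exact_mod_cast hR
  have hR0 : (0 : ℝ) < R := by linarith
  obtain ⟨m, hm⟩ : ∃ m : ℕ, (1 / (R : ℝ)) ^ m < f τ / (2 * R) :=
    exists_pow_lt_of_lt_one (by positivity) (by rw [div_lt_one hR0]; linarith)
  set n₀ : ℕ := max (max nt 1) m with hn₀
  have hn₀nt : nt ≤ n₀ := le_trans (le_max_left _ _) (le_max_left _ _)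
  have hn₀m : m ≤ n₀ := le_max_right _ _
  have hsmallR : 2 * (R : ℝ) * (1 / (R : ℝ)) ^ n₀ ≤ f τ := by
    have hle : (1 / (R : ℝ)) ^ n₀ ≤ (1 / (R : ℝ)) ^ m :=
      pow_le_pow_of_le_one (by positivity) (by rw [div_le_one hR0]; linarith) hn₀m
    have : (1 / (R : ℝ)) ^ n₀ ≤ f τ / (2 * R) := hle.trans hm.le
    rw [le_div_iff₀ (by positivity)] at this
    linarith
  have hRP0 : RightPre f' p' q' 1 [] :=
    ⟨τR, fun _ => 0, hτR.1, hτR.2.1, hτR.2.2, det_follows_nil _ _⟩
  have hLP0 : LeftPre f' p' q' 1 [] :=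
    ⟨τL, fun _ => 0, by linarith, hτL.1, hτL.2.1, hτL.2.2, det_follows_nil _ _, by linarith⟩
  refine ⟨p, q, p', q', by linarith, hpq, by linarith, hpq', hRP0, hLP0, n₀, ?_⟩
  filter_upwards [eventually_ge_atTop (max (max n₀ C) 2)] with J hJ
  have hJ2 : 2 ≤ J := le_trans (le_max_right _ _) hJ
  have hJn₀ : n₀ ≤ J := le_trans (le_trans (le_max_left _ _) (le_max_left _ _)) hJ
  have hJC : C ≤ J := le_trans (le_trans (le_max_right _ _) (le_max_left _ _)) hJ
  have hn1J : J ≤ n1 R J := det_n1_ge R J hR (by omega)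
  have hn1n₀ : n₀ ≤ n1 R J := hJn₀.trans hn1J
  have hn1C : C ≤ n1 R J := hJC.trans hn1J
  obtain ⟨I₀, hI₀⟩ : ∃ I₀, n1 R J = I₀ + n₀ := ⟨n1 R J - n₀, by omega⟩
  have hI₀' : n1 R J - n₀ = I₀ := by omega
  have hεpos : 0 < epsT R J := by unfold epsT; positivity
  have hk : ((2 * (16 * R ^ (I₀ + 1)) * R ^ J : ℕ) : ℝ) * epsT R J =
      2 * (R : ℝ) * (1 / (R : ℝ)) ^ n₀ := by
    unfold epsT
    rw [hI₀]
    push_cast
    rw [one_div_pow]
    field_simp
    ring
  -- the first passage word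
  obtain ⟨v, hvFP, sg, hsg, hsgT⟩ := h4 (fun x => f (τ + x)) (d - τ) (epsT R J)
    (2 * (16 * R ^ (I₀ + 1)) * R ^ J) (hf.comp (continuous_const.add continuous_id))
    (by linarith) hεpos (by
      rw [hk]
      have e1 : τ + (d - τ) = d := by ring
      simp only [e1, add_zero, he.right]
      linarith)
  by_cases hvF : v ∈ Fail D R J (n1 R J - n₀)
  · exact Or.inl ⟨v, hvF, τ, sg, hτ.1, hτ.2.1, hτ.2.2, hsg⟩
  right
  have hex : ∃ i ≤ I₀, ∃ u ∈ FP (2 * (16 * R ^ i) * R ^ J), ∃ ws,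
      IsCluster D R J (16 * R ^ i) ws ∧ (u ++ ws.flatten) <+: v := by
    by_contra hcon
    apply hvF
    rw [hI₀']
    refine ⟨hvFP, fun i hi => fun hu => hcon ?_⟩
    obtain ⟨u, hu, ws, hws, hpre⟩ := hu
    exact ⟨i, hi, u, hu, ws, hws, hpre⟩
  obtain ⟨i, hi, u, hu, ws, hws, hpre⟩ := hex
  obtain ⟨rest, hrest⟩ := hpre
  have hsg' : Follows (epsT R J) (fun x => f (τ + x)) (u ++ ws.flatten) sg := by
    rw [← hrest] at hsg
    exact (h5 (epsT R J) _ _ _ sg hεpos hsg).1
  refine ⟨i, by omega, u, hu, ws, hws, ⟨τ, sg, hτ.1, hτ.2.1, hτ.2.2, hsg'⟩, ?_⟩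
  have hGpos : 0 < 16 * R ^ i := by positivity
  obtain ⟨β, t, hSP⟩ := h6 D R J (16 * R ^ i) f τ (epsT R J) u ws sg hR hJ2 hGpos
    (Dvd.intro _ rfl) hεpos hf hu hws hsg'
  obtain ⟨n, hn⟩ : ∃ n, n1 R J = n + i := ⟨n1 R J - i, by omega⟩
  have hs : ((16 * R ^ i * R ^ J : ℕ) : ℝ) * epsT R J = 1 / (R : ℝ) ^ n := by
    unfold epsT
    rw [hn]
    push_cast
    field_simp
    ring
  rw [hs] at hSP
  have hnn₀ : n₀ ≤ n := by omega
  obtain ⟨n', hn', c, hc, side, dep, t', hWP, hdep⟩ := hT n (by omega) J hJ2 _ _ β t hSP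
  have hnn1 : n ≤ n1 R J := by omega
  have hdepmono : ∀ a b, a < b → b < R ^ J → dep a < dep b := by
    intro a b hab
    induction b with
    | zero => omega
    | succ b ih =>
      intro hb
      have hstep := hWP.mono b hb
      rcases Nat.lt_succ_iff_lt_or_eq.1 hab with h | h
      · exact (ih h (by omega)).trans hstep
      · rw [h]; exact hstep
  have hεp : (0 : ℝ) < 1 / 2 ^ (n' + EE K R K₁ J) := by positivity
  obtain ⟨v₁, hv₁, sg₁, hsg₁, hsg₁T⟩ := det_side (K₁ := K₁) h7 side true dep t'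
    (fun x => f' (τR + x)) (d' - τR) (f' τR) hK
    (hf'.comp (continuous_const.add continuous_id)) (by linarith) (by simp)
    (by
      have e1 : τR + (d' - τR) = d' := by ring
      simp only [e1, he'.right]) hc hSP.lab_sub hdepmono hWP.dep_ge hdep hWP.small hWP.right
  obtain ⟨v₂, hv₂, sg₂, hsg₂, hsg₂T⟩ := det_side (K₁ := K₁) h7 side false dep t'
    (fun x => f' (τL - x)) (τL - g') (f' τR) hK
    (hf'.comp (continuous_const.sub continuous_id)) (by linarith) (by simp [hfLR])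
    (by
      have e1 : τL - (τL - g') = g' := by ring
      simp only [e1, he'.left]) hc hSP.lab_sub hdepmono hWP.dep_ge hdep hWP.small hWP.left
  refine ⟨n', ?_, c, hc, side, fun i => ⌊dep i / (1 / 2 ^ (n' + EE K R K₁ J))⌋₊, ?_, ?_,
    v₁, hv₁, v₂, hv₂, ⟨τR, sg₁, hτR.1, hτR.2.1, hτR.2.2, hsg₁⟩,
    ⟨τL, sg₂, by linarith, hτL.1, hτL.2.1, hτL.2.2, hsg₂, by linarith⟩⟩
  · calc n' ≤ K * R * n + C := hn'
      _ ≤ K * R * n1 R J + n1 R J := by
        have := Nat.mul_le_mul_left (K * R) hnn1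
        omega
      _ = (K * R + 1) * n1 R J := by ring
  · intro a ha
    have h := hWP.dep_le a ha
    have h2 : dep a / (1 / 2 ^ (n' + EE K R K₁ J)) ≤ ((K * 2 ^ EE K R K₁ J : ℕ) : ℝ) := by
      rw [div_le_iff₀ hεp]
      refine h.trans (le_of_eq ?_)
      push_cast
      rw [pow_add]
      field_simp
    exact Nat.floor_le_of_le h2
  · intro a b hab hb
    apply Nat.floor_le_floor
    rcases Nat.eq_or_lt_of_le hab with h | h
    · rw [h]
    · exact div_le_div_of_nonneg_right (hdepmono a b h hb).le hεp.le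

end MP3e01

end

section

open Set MeasureTheory ProbabilityTheory Filter
open scoped ENNReal NNReal unitInterval

namespace MP3e01

namespace ExcPath

/-- the positive case -/
lemma pos_case (u : ℝ≥0 → ℝ) (v : ℝ → ℝ) (s : ℝ) (hs : s = 1 ∨ s = -1)
    (hvu : ∀ t, v t = s * u t.toNNReal) (hvc : Continuous v)
    (hg : 0 ≤ lastZero u) (hgd : lastZero u < firstZero u)
    (hvg : v (lastZero u) = 0) (hvd : v (firstZero u) = 0)
    (hpos : ∀ t, lastZero u < t → t < firstZero u → 0 < v t) :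
    ∃ (g d : ℝ) (f : ℝ → ℝ), 0 ≤ g ∧ Continuous f ∧ IsExc f g d ∧
    ((∀ t, f t = u t.toNNReal) ∨ (∀ t, f t = -u t.toNNReal)) ∧
    ∀ t : I, excursion u t = f (g + t * (d - g)) / √(d - g) := by
  refine ⟨lastZero u, firstZero u, v, hg, hvc, ⟨hgd, hvc.continuousOn, hvg, hvd,
    fun t ht => hpos t ht.1 ht.2⟩, ?_, ?_⟩
  · rcases hs with rfl | rfl
    · exact Or.inl fun t => by rw [hvu]; ring
    · exact Or.inr fun t => by rw [hvu]; ring
  · intro t
    have hnn : 0 ≤ v (lastZero u + t * (firstZero u - lastZero u)) := by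
      rcases eq_or_lt_of_le t.2.1 with h | h
      · rw [← h]; simp [hvg]
      · rcases eq_or_lt_of_le t.2.2 with h' | h'
        · rw [h']; simp [hvd]
        · refine (hpos _ ?_ ?_).le
          · have := mul_pos h (sub_pos.2 hgd); linarith
          · have := mul_lt_mul_of_pos_right h' (sub_pos.2 hgd); linarith
    have habs : |u (lastZero u + t * (firstZero u - lastZero u)).toNNReal| =
        v (lastZero u + t * (firstZero u - lastZero u)) := by
      rw [← abs_of_nonneg hnn, hvu, abs_mul]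
      rcases hs with rfl | rfl <;> simp
    rw [excursion, habs]

end ExcPath

theorem pr_excPath : S_excPath := by
  intro u hu h0 h1 hT
  obtain ⟨T, hT1, hT0⟩ := hT
  set v : ℝ → ℝ := fun t => u t.toNNReal with hv
  have hvc : Continuous v := hu.comp continuous_real_toNNReal
  have hv0 : v 0 = 0 := by simp [hv, h0]
  have hv1 : v 1 ≠ 0 := by simpa [hv] using h1
  have hAc : IsClosed {t : ℝ | 0 ≤ t ∧ t ≤ 1 ∧ v t = 0} :=
    (isClosed_Ici.inter (isClosed_Iic.inter (isClosed_eq hvc continuous_const)))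
  have hAne : {t : ℝ | 0 ≤ t ∧ t ≤ 1 ∧ v t = 0}.Nonempty := ⟨0, le_refl _, zero_le_one, hv0⟩
  have hAb : BddAbove {t : ℝ | 0 ≤ t ∧ t ≤ 1 ∧ v t = 0} := ⟨1, fun t ht => ht.2.1⟩
  have hg : lastZero u ∈ {t : ℝ | 0 ≤ t ∧ t ≤ 1 ∧ v t = 0} := hAc.csSup_mem hAne hAb
  have hCc : IsClosed {t : ℝ | 1 ≤ t ∧ v t = 0} :=
    isClosed_Ici.inter (isClosed_eq hvc continuous_const)
  have hCne : {t : ℝ | 1 ≤ t ∧ v t = 0}.Nonempty :=
    ⟨T, by exact_mod_cast hT1, by simp [hv, hT0]⟩
  have hCb : BddBelow {t : ℝ | 1 ≤ t ∧ v t = 0} := ⟨1, fun t ht => ht.1⟩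
  have hd : firstZero u ∈ {t : ℝ | 1 ≤ t ∧ v t = 0} := hCc.csInf_mem hCne hCb
  have hg1 : lastZero u < 1 := lt_of_le_of_ne hg.2.1 (fun h => hv1 (h ▸ hg.2.2))
  have hd1 : 1 < firstZero u := lt_of_le_of_ne hd.1 (fun h => hv1 (h ▸ hd.2))
  have hne : ∀ t, lastZero u < t → t < firstZero u → v t ≠ 0 := by
    intro t ht1 ht2 h
    rcases le_total t 1 with h' | h'
    · have : t ≤ lastZero u := le_csSup hAb ⟨hg.1.trans ht1.le, h', h⟩
      linarith
    · have : firstZero u ≤ t := csInf_le hCb ⟨h', h⟩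
      linarith
  -- constant sign
  have hsign : ∀ t, lastZero u < t → t < firstZero u → 0 < v 1 * v t := by
    intro t ht1 ht2
    by_contra hc
    have hle : v 1 * v t ≤ 0 := not_lt.1 hc
    have hcon : ContinuousOn v (Set.uIcc 1 t) := hvc.continuousOn
    have h0mem : (0 : ℝ) ∈ Set.uIcc (v 1) (v t) := by
      rw [Set.mem_uIcc]
      rcases mul_nonpos_iff.1 hle with h | h
      · exact Or.inr ⟨h.2, h.1⟩
      · exact Or.inl ⟨h.1, h.2⟩
    obtain ⟨s, hs, hs0⟩ := intermediate_value_uIcc hcon h0mem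
    rw [Set.mem_uIcc] at hs
    refine hne s ?_ ?_ hs0
    · rcases hs with h | h <;> linarith [h.1]
    · rcases hs with h | h <;> linarith [h.2]
  rcases lt_or_gt_of_ne hv1 with hneg | hpos
  · refine ExcPath.pos_case u (fun t => -v t) (-1) (Or.inr rfl) (fun t => by simp [hv]) hvc.neg
      hg.1 (hg1.trans hd1) (by simpa using hg.2.2) (by simpa using hd.2) ?_
    intro t ht1 ht2
    have := hsign t ht1 ht2
    have : v t < 0 := by
      by_contra hc
      have := mul_nonpos_of_nonpos_of_nonneg hneg.le (not_lt.1 hc)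
      linarith
    simpa using this
  · refine ExcPath.pos_case u v 1 (Or.inl rfl) (fun t => by simp [hv]) hvc
      hg.1 (hg1.trans hd1) hg.2.2 hd.2 ?_
    intro t ht1 ht2
    exact (mul_pos_iff_of_pos_left hpos).1 (hsign t ht1 ht2)

end MP3e01
end
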