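import Mathlib
import Pool.Agent.Work.MP_3e01db_pr.Bd.B05
import Pool.Agent.Work.MP_3e01db_pr.Bd.B01
import Pool.Agent.Work.MP_3e01db_pr.Bd.B03

/-! Bundle of small proof modules (one section per former module). -/

section

/-!
# Item failP (block F): probability of the failing event
-/

open Set MeasureTheory ProbabilityTheory Filter
open scoped ENNReal NNReal unitInterval

namespace MP3e01

lemma failP_wt_nil : wt {([] : List Bool)} = 1 := by
  unfold wt
  rw [tsum_fintype]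
  simp

theorem pr_failP.{u} (h1 : S_union.{u}) (h2 : S_fail) (h3 : S_clus) : S_failP.{u} := by
  intro Ω _ P X X' hAN p q p' q' hp hpq hp' hpq' D R J n₀ hD hR hJ hG
  have heps : 0 < epsT R J := by
    unfold epsT
    have : (0 : ℝ) < R := by exact_mod_cast (by omega : 0 < R)
    positivity
  have hu := h1 P X X' hAN p q p' q' (epsT R J) 1 hp hpq hp' hpq' heps one_pos
    (Fail D R J (n1 R J - n₀)) {[]} {[]}
  have hsub : {ω | FailEv D R J n₀ (X ω) p q ∧ RightPre (X' ω) p' q' 1 [] ∧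
      LeftPre (X' ω) p' q' 1 []} ⊆
      {ω | ∃ v ∈ Fail D R J (n1 R J - n₀), ∃ v₁ ∈ ({[]} : Set (List Bool)),
        ∃ v₂ ∈ ({[]} : Set (List Bool)), RightPre (X ω) p q (epsT R J) v ∧
          RightPre (X' ω) p' q' 1 v₁ ∧ LeftPre (X' ω) p' q' 1 v₂} := by
    rintro ω ⟨⟨v, hv, hv2⟩, h5, h6⟩
    exact ⟨v, hv, [], rfl, [], rfl, hv2, h5, h6⟩
  refine (measure_mono hsub).trans (hu.trans ?_)
  rw [failP_wt_nil, mul_one, mul_one]
  refine h2 D R J (n1 R J - n₀) _ hR ?_
  intro i _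
  have hG0 : 0 < 16 * R ^ i := by positivity
  have h16 : 16 ∣ 16 * R ^ i := Dvd.intro _ rfl
  rw [(h3 D R J (16 * R ^ i) hR hG0 h16).2.1]
  exact pow_le_pow_left' (hG (16 * R ^ i) hG0 h16) _

end MP3e01

end

section

/-!
# MP_3e01db_pr, item F10: assembly of the main theorem for two Brownian motions
-/

open Set MeasureTheory ProbabilityTheory Filter
open scoped ENNReal NNReal unitInterval

universe u

namespace MP3e01

/-- at late stages neither event happens (Borel-Cantelli) -/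
lemma main_ev {Ω : Type u} [MeasurableSpace Ω] (P : Measure Ω) (X X' : Ω → ℝ → ℝ)
    (h2 : S_failP.{u}) (h3 : S_bothP.{u}) (h4 : S_num1) (h5 : S_num2)
    (hA : HAN P X X') (D R : ℕ) (hD : 1 ≤ D) (hR : 2 ≤ R)
    (hg : ∀ J G : ℕ, 2 ≤ J → 0 < G → 16 ∣ G →
      1 / ((D * R ^ J : ℕ) : ℝ≥0∞) ≤ wt (GoodPages D R J G))
    (p q p' q' : ℝ) (hp : 0 < p) (hpq : p < q) (hp' : 0 < p') (hpq' : p' < q') (K K₁ n₀ : ℕ)
    (hK : 1 ≤ K) :
    ∀ᵐ ω ∂P, ∀ᶠ J in atTop,
      ¬ (FailEv D R J n₀ (X ω) p q ∧ RightPre (X' ω) p' q' 1 [] ∧ LeftPre (X' ω) p' q' 1 []) ∧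
      ¬ BothEv D K R K₁ J n₀ (X ω) (X' ω) p q p' q' := by
  have e1 : ∑' J : ℕ, P (if 2 ≤ J then {ω | FailEv D R J n₀ (X ω) p q ∧
      RightPre (X' ω) p' q' 1 [] ∧ LeftPre (X' ω) p' q' 1 []} else ∅) ≠ ⊤ := by
    refine ne_top_of_le_ne_top (h4 D R n₀ hD hR) (ENNReal.tsum_le_tsum fun J => ?_)
    split_ifs with h
    · exact h2 P X X' hA p q p' q' hp hpq hp' hpq' D R J n₀ hD hR h (fun G => hg J G h)
    · simp
  have e2 : ∑' J : ℕ, P (if 2 ≤ J then {ω | BothEv D K R K₁ J n₀ (X ω) (X' ω) p q p' q'}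
      else ∅) ≠ ⊤ := by
    refine ne_top_of_le_ne_top (h5 D K R K₁ hD hK hR) (ENNReal.tsum_le_tsum fun J => ?_)
    split_ifs with h
    · exact h3 P X X' hA p q p' q' hp hpq hp' hpq' D K R K₁ J n₀ hD hK hR h
    · simp
  filter_upwards [ae_eventually_notMem e1, ae_eventually_notMem e2] with ω a1 a2
  filter_upwards [a1, a2, eventually_ge_atTop 2] with J b1 b2 hJ
  rw [if_pos hJ] at b1 b2
  exact ⟨b1, b2⟩

/-- a process or its negative -/
def sgP {Ω : Type*} (s : Bool) (B : ℝ≥0 → Ω → ℝ) : ℝ≥0 → Ω → ℝ := if s then B else -B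

lemma sgP_brownian {Ω : Type*} [MeasurableSpace Ω] {P : Measure Ω} {B : ℝ≥0 → Ω → ℝ} (s : Bool)
    (h : IsBrownianReal B P) : IsBrownianReal (sgP s B) P := by
  cases s
  · exact h.neg
  · exact h

lemma sgP_indep {Ω : Type*} [MeasurableSpace Ω] {P : Measure Ω} {B B' : ℝ≥0 → Ω → ℝ}
    (s s' : Bool) (h : IndepFun (fun ω t => B t ω) (fun ω t => B' t ω) P) :
    IndepFun (fun ω t => sgP s B t ω) (fun ω t => sgP s' B' t ω) P := by
  have hm : ∀ b : Bool, Measurable (fun (x : ℝ≥0 → ℝ) => if b then x else -x) := by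
    intro b
    cases b
    · exact measurable_pi_lambda _ fun t => (measurable_pi_apply t).neg
    · exact measurable_id
  have key := h.comp (hm s) (hm s')
  have e : ∀ (b : Bool) (C : ℝ≥0 → Ω → ℝ), (fun ω t => sgP b C t ω) =
      (fun (x : ℝ≥0 → ℝ) => if b then x else -x) ∘ (fun ω t => C t ω) := by
    intro b C
    funext ω t
    cases b <;> simp [sgP]
  rw [e s B, e s' B']
  exact key

lemma pathR_sgP {Ω : Type*} {B : ℝ≥0 → Ω → ℝ} {ω : Ω} {f : ℝ → ℝ}
    (h : (∀ t, f t = B t.toNNReal ω) ∨ (∀ t, f t = -B t.toNNReal ω)) :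
    ∃ s : Bool, f = pathR (sgP s B) ω := by
  rcases h with h | h
  · refine ⟨true, funext fun t => ?_⟩
    rw [h t]
    simp [pathR, sgP]
  · refine ⟨false, funext fun t => ?_⟩
    rw [h t]
    simp [pathR, sgP]

theorem pr_main (h0 : ∀ {Ω : Type u} [MeasurableSpace Ω] (P : Measure Ω) (B B' : ℝ≥0 → Ω → ℝ),
      IsBrownianReal B P → IsBrownianReal B' P →
      IndepFun (fun ω t => B t ω) (fun ω t => B' t ω) P →
      HAN P (fun ω => pathR B ω) (fun ω => pathR B' ω))
    (h1 : S_good) (h2 : S_failP.{u}) (h3 : S_bothP.{u}) (h4 : S_num1) (h5 : S_num2)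
    (h6 : S_det) (h7 : S_Z.{u}) (h8 : S_NM.{u}) (h9 : S_excPath) (h10 : S_red) :
    S_main.{u} := by
  intro Ω _ P B B' hB hB' hind
  choose! D hD using h1
  have hall : ∀ᵐ ω ∂P, ∀ (s s' : Bool) (p q p' q' : ℚ) (K R K₁ n₀ : ℕ), 0 < (p : ℝ) →
      (p : ℝ) < q → 0 < (p' : ℝ) → (p' : ℝ) < q' → 1 ≤ K → 2 ≤ R → ∀ᶠ J in atTop,
      ¬ (FailEv (D R) R J n₀ (pathR (sgP s B) ω) p q ∧
        RightPre (pathR (sgP s' B') ω) p' q' 1 [] ∧ LeftPre (pathR (sgP s' B') ω) p' q' 1 []) ∧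
      ¬ BothEv (D R) K R K₁ J n₀ (pathR (sgP s B) ω) (pathR (sgP s' B') ω) p q p' q' := by
    simp only [ae_all_iff]
    intro s s' p q p' q' K R K₁ n₀ a1 a2 a3 a4 a5 a6
    exact main_ev P (fun ω => pathR (sgP s B) ω) (fun ω => pathR (sgP s' B') ω) h2 h3 h4 h5
      (h0 P (sgP s B) (sgP s' B') (sgP_brownian s hB) (sgP_brownian s' hB')
        (sgP_indep s s' hind)) (D R) R (hD R a6).1 a6 (hD R a6).2 p q p' q' a1 a2 a3 a4 K K₁ n₀ a5
  filter_upwards [hall, h7 P B hB, h7 P B' hB', h8 P B' hB'] with ω hω hz hz' hnm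
  intro w w' hw hw' hqs
  obtain ⟨c1, c2, c3, c4⟩ := hz
  obtain ⟨c1', c2', c3', c4'⟩ := hz'
  obtain ⟨g, d, f, hg0, hfc, hexc, hf, hex⟩ := h9 (fun s => B s ω) c1 c2 c3 c4
  obtain ⟨g', d', f', hg0', hfc', hexc', hf', hex'⟩ := h9 (fun s => B' s ω) c1' c2' c3' c4'
  obtain ⟨K, R, K₁, θ, hK, hR, hqc⟩ := h10 w w' f f' g d g' d' (√(d - g)) (√(d' - g')) hfc hfc'
    hexc hexc' (Real.sqrt_pos.2 (sub_pos.2 hexc.lt)) (Real.sqrt_pos.2 (sub_pos.2 hexc'.lt))
    (fun t => by rw [hw t]; exact hex t) (fun t => by rw [hw' t]; exact hex' t) hqs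
  have hNM : NonMono f' g' d' := by
    intro x y hx hxy hy
    have hm := hnm x y (hg0'.trans hx.le) hxy
    rcases hf' with h | h
    · have e : f' = pathR B' ω := funext fun t => h t
      rw [e]
      exact hm
    · have e : f' = fun t => -pathR B' ω t := funext fun t => h t
      rw [e]
      constructor
      · intro h'
        apply hm.2
        intro a ha b hb hab
        have := h' ha hb hab
        simpa using this
      · intro h'
        apply hm.1
        intro a ha b hb hab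
        have := h' ha hb hab
        simpa using this
  obtain ⟨p, q, p', q', hp, hpq, hp', hpq', hr, hl, n₀, hev⟩ := h6 f f' θ g d g' d' (D R) K R K₁
    hfc hfc' hexc hexc' hg0 hg0' hNM (hD R hR).1 hK hR hqc
  obtain ⟨s, rfl⟩ := pathR_sgP hf
  obtain ⟨s', rfl⟩ := pathR_sgP hf'
  have hfin := hω s s' p q p' q' K R K₁ n₀ hp hpq hp' hpq' hK hR
  obtain ⟨J, hJ1, hJ2⟩ := (hev.and hfin).exists
  rcases hJ1 with h | h
  · exact hJ2.1 ⟨h, hr, hl⟩
  · exact hJ2.2 h

end MP3e01

end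

section

/-!
# MP_3e01db_pr, block F: summability of the failing bounds
-/

open Set MeasureTheory ProbabilityTheory Filter
open scoped ENNReal NNReal unitInterval

namespace MP3e01

theorem pr_num1 : S_num1 := by
  intro D R n₀ hD hR
  have hDR : (1 : ℝ) ≤ D := by exact_mod_cast hD
  have hDpos : (0 : ℝ) < D := by linarith
  -- real version of the probability
  set x : ℕ → ℝ := fun J => (1 / ((D * R ^ J : ℕ) : ℝ)) ^ (R ^ J) with hx
  have hbase : ∀ J, (1 : ℝ) ≤ ((D * R ^ J : ℕ) : ℝ) := by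
    intro J
    have : 1 ≤ D * R ^ J := Nat.mul_pos hD (pow_pos (by omega) J)
    exact_mod_cast this
  have hx0 : ∀ J, 0 ≤ x J := fun J => by
    rw [hx]; have := hbase J; positivity
  have hx1 : ∀ J, x J ≤ 1 := fun J => by
    rw [hx]
    apply pow_le_one₀
    · have := hbase J; positivity
    · rw [div_le_one (by linarith [hbase J])]; exact hbase J
  have hterm : ∀ J : ℕ,
      (1 - (1 / ((D * R ^ J : ℕ) : ℝ≥0∞)) ^ (R ^ J)) ^ (n1 R J - n₀ + 1) =
        ENNReal.ofReal ((1 - x J) ^ (n1 R J - n₀ + 1)) := by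
    intro J
    have e1 : (1 / ((D * R ^ J : ℕ) : ℝ≥0∞)) = ENNReal.ofReal (1 / ((D * R ^ J : ℕ) : ℝ)) := by
      rw [ENNReal.ofReal_div_of_pos (by linarith [hbase J]), ENNReal.ofReal_one,
        ENNReal.ofReal_natCast]
    have e2 : (1 / ((D * R ^ J : ℕ) : ℝ≥0∞)) ^ (R ^ J) = ENNReal.ofReal (x J) := by
      rw [e1, hx]
      simp only
      rw [ENNReal.ofReal_pow (by have := hbase J; positivity)]
    rw [e2, ← ENNReal.ofReal_one, ← ENNReal.ofReal_sub _ (hx0 J), ENNReal.ofReal_pow]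
    linarith [hx1 J]
  -- the bound
  have hbound : ∀ J : ℕ, (1 - x J) ^ (n1 R J - n₀ + 1) ≤
      Real.exp (n₀ + 2 * D) * Real.exp (-(J : ℝ)) := by
    intro J
    rw [← Real.exp_add]
    by_cases hJ : J < 2 * D
    · have h1 : (1 - x J) ^ (n1 R J - n₀ + 1) ≤ 1 :=
        pow_le_one₀ (by linarith [hx1 J]) (by linarith [hx0 J])
      have hJ' : (J : ℝ) ≤ 2 * D := by exact_mod_cast hJ.le
      have hn : (0 : ℝ) ≤ n₀ := Nat.cast_nonneg _
      refine h1.trans ?_
      rw [← Real.exp_zero]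
      exact Real.exp_le_exp.2 (by linarith)
    · push Not at hJ
      have hJ' : (2 : ℝ) * D ≤ J := by exact_mod_cast hJ
      have h0 : (1 - x J) ≤ Real.exp (-(x J)) := by
        have := Real.add_one_le_exp (-(x J))
        linarith
      have h1 : (1 - x J) ^ (n1 R J - n₀ + 1) ≤ Real.exp (-(x J)) ^ (n1 R J - n₀ + 1) :=
        pow_le_pow_left₀ (by linarith [hx1 J]) h0 _
      rw [← Real.exp_nat_mul] at h1
      refine h1.trans (Real.exp_le_exp.2 ?_)
      -- count
      have hcount : (n1 R J : ℝ) - n₀ ≤ ((n1 R J - n₀ + 1 : ℕ) : ℝ) := by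
        have : n1 R J ≤ (n1 R J - n₀ + 1) + n₀ := by omega
        have : (n1 R J : ℝ) ≤ ((n1 R J - n₀ + 1 : ℕ) : ℝ) + n₀ := by exact_mod_cast this
        linarith
      have hxn : x J * (n1 R J : ℝ) = ((J : ℝ) / D) ^ (R ^ J) := by
        have hRJ : (0 : ℝ) < (R : ℝ) ^ J := by positivity
        rw [hx]
        simp only
        unfold n1
        push_cast
        rw [← mul_pow]
        congr 1
        field_simp
      have h2 : (2 : ℝ) ≤ (J : ℝ) / D := by
        rw [le_div_iff₀ hDpos]; exact hJ'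
      have h3 : (2 : ℝ) ^ (R ^ J) ≤ ((J : ℝ) / D) ^ (R ^ J) :=
        pow_le_pow_left₀ (by norm_num) h2 _
      have h4 : (J : ℝ) ≤ (2 : ℝ) ^ (R ^ J) := by
        have a1 : J < 2 ^ J := Nat.lt_two_pow_self
        have a2 : 2 ^ J ≤ R ^ J := Nat.pow_le_pow_left hR J
        have a3 : R ^ J < 2 ^ (R ^ J) := Nat.lt_two_pow_self
        have a4 : J ≤ 2 ^ (R ^ J) := by omega
        exact_mod_cast a4
      have h5 : x J * n₀ ≤ n₀ := by
        have hn : (0 : ℝ) ≤ n₀ := Nat.cast_nonneg _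
        nlinarith [hx1 J]
      have h6 : x J * ((n1 R J : ℝ) - n₀) ≤ x J * ((n1 R J - n₀ + 1 : ℕ) : ℝ) :=
        mul_le_mul_of_nonneg_left hcount (hx0 J)
      have h7 : x J * ((n1 R J : ℝ) - n₀) = ((J : ℝ) / D) ^ (R ^ J) - x J * n₀ := by
        rw [← hxn]; ring
      nlinarith
  have hsum : Summable (fun J : ℕ => (1 - x J) ^ (n1 R J - n₀ + 1)) := by
    refine Summable.of_nonneg_of_le (fun J => ?_) hbound
      (Real.summable_exp_neg_nat.mul_left _)
    exact pow_nonneg (by linarith [hx1 J]) _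
  have := hsum.tsum_ofReal_ne_top
  simpa only [hterm] using this

end MP3e01

end

section

/-!
# MP_3e01db_pr, block F: summability of the coincidence bounds
-/

open Set MeasureTheory ProbabilityTheory Filter
open scoped ENNReal NNReal unitInterval Topology

namespace MP3e01

lemma num2_pow_le_factorial (N : ℕ) : (N : ℝ) ^ N ≤ (N.factorial : ℝ) * 3 ^ N := by
  have h := Real.pow_div_factorial_le_exp (N : ℝ) (Nat.cast_nonneg _) N
  have h1 : Real.exp (N : ℝ) ≤ 3 ^ N := by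
    have : Real.exp (N : ℝ) = Real.exp 1 ^ N := by
      rw [← Real.exp_nat_mul, mul_one]
    rw [this]
    exact pow_le_pow_left₀ (Real.exp_pos _).le Real.exp_one_lt_three.le _
  have hf : (0 : ℝ) < N.factorial := by exact_mod_cast Nat.factorial_pos N
  rw [div_le_iff₀ hf] at h
  nlinarith

lemma num2_tendsto (C : ℝ) (D : ℕ) (hD : 1 ≤ D) (ρ : ℝ) (h0 : 0 < ρ) (h1 : ρ < 1) :
    Tendsto (fun J : ℕ => C * (J : ℝ) ^ 2 * ρ ^ (J / D)) atTop (𝓝 0) := by
  have ht : Tendsto (fun n : ℕ => (n : ℝ) ^ 2 * ρ ^ n) atTop (𝓝 0) :=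
    tendsto_pow_const_mul_const_pow_of_abs_lt_one 2 (by rw [abs_of_pos h0]; exact h1)
  have hq : Tendsto (fun J : ℕ => J / D + 1) atTop atTop :=
    tendsto_atTop_mono (fun J => Nat.le_succ (J / D)) (Nat.tendsto_div_const_atTop (by omega))
  have ht2 := ht.comp hq
  have ht3 : Tendsto (fun J : ℕ => |C| * (D : ℝ) ^ 2 * ρ⁻¹ *
      (((J / D + 1 : ℕ) : ℝ) ^ 2 * ρ ^ (J / D + 1))) atTop (𝓝 0) := by
    have := ht2.const_mul (|C| * (D : ℝ) ^ 2 * ρ⁻¹)
    simpa using this
  refine squeeze_zero_norm (fun J => ?_) ht3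
  rw [Real.norm_eq_abs, abs_mul, abs_mul, abs_of_nonneg (by positivity : (0 : ℝ) ≤ (J : ℝ) ^ 2),
    abs_of_nonneg (by positivity : (0 : ℝ) ≤ ρ ^ (J / D))]
  have hJ : (J : ℝ) ≤ D * ((J / D + 1 : ℕ) : ℝ) := by
    have : J < D * (J / D + 1) := Nat.lt_mul_div_succ J (by omega)
    exact_mod_cast this.le
  have hJ2 : (J : ℝ) ^ 2 ≤ (D : ℝ) ^ 2 * ((J / D + 1 : ℕ) : ℝ) ^ 2 := by
    rw [← mul_pow]
    exact pow_le_pow_left₀ (Nat.cast_nonneg _) hJ 2
  have e : |C| * (D : ℝ) ^ 2 * ρ⁻¹ * (((J / D + 1 : ℕ) : ℝ) ^ 2 * ρ ^ (J / D + 1)) =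
      |C| * ((D : ℝ) ^ 2 * ((J / D + 1 : ℕ) : ℝ) ^ 2) * ρ ^ (J / D) := by
    rw [pow_succ ρ]
    field_simp
  rw [e]
  gcongr

theorem pr_num2 : S_num2 := by
  intro D K R K₁ hD hK hR
  set F : ℕ → ℝ≥0∞ := fun J => ((n1 R J + 1 : ℕ) : ℝ≥0∞) * (((K * R + 1) * n1 R J + 1 : ℕ) : ℝ≥0∞) *
        ((Cc K K₁ ^ 2 * K * 2 ^ (K + 4) : ℕ) : ℝ≥0∞) ^ (R ^ J) *
        ((4 * K : ℕ) / ((4 * K + 1 : ℕ) : ℝ≥0∞)) ^ (R ^ J * (J / D)) /
        (((R ^ J).factorial * (R ^ J) ^ (R ^ J) : ℕ) : ℝ≥0∞) with hF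
  set C₀ : ℝ := ((Cc K K₁ ^ 2 * K * 2 ^ (K + 4) : ℕ) : ℝ) with hC₀
  set ρ : ℝ := ((4 * K : ℕ) : ℝ) / ((4 * K + 1 : ℕ) : ℝ) with hρ
  have hρ0 : 0 < ρ := by
    rw [hρ]; have : (0 : ℝ) < K := by exact_mod_cast hK
    positivity
  have hρ1 : ρ < 1 := by
    rw [hρ, div_lt_one (by positivity)]; push_cast; linarith
  have hC0 : 0 ≤ C₀ := by rw [hC₀]; positivity
  have hNpos : ∀ J, 0 < R ^ J := fun J => pow_pos (by omega) J
  have hden : ∀ J, ((R ^ J).factorial * (R ^ J) ^ (R ^ J)) ≠ 0 := fun J =>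
    Nat.mul_ne_zero (Nat.factorial_ne_zero _) (pow_ne_zero _ (hNpos J).ne')
  have hFtop : ∀ J, F J ≠ ⊤ := by
    intro J
    rw [hF]
    simp only
    apply ENNReal.div_ne_top
    · apply ENNReal.mul_ne_top
      · apply ENNReal.mul_ne_top
        · exact ENNReal.mul_ne_top (ENNReal.natCast_ne_top _) (ENNReal.natCast_ne_top _)
        · exact ENNReal.pow_ne_top (ENNReal.natCast_ne_top _)
      · apply ENNReal.pow_ne_top
        apply ENNReal.div_ne_top (ENNReal.natCast_ne_top _)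
        exact_mod_cast (by omega : 4 * K + 1 ≠ 0)
    · exact_mod_cast hden J
  have hFreal : ∀ J, (F J).toReal = ((n1 R J + 1 : ℕ) : ℝ) * (((K * R + 1) * n1 R J + 1 : ℕ) : ℝ) *
        C₀ ^ (R ^ J) * ρ ^ (R ^ J * (J / D)) /
        (((R ^ J).factorial * (R ^ J) ^ (R ^ J) : ℕ) : ℝ) := by
    intro J
    rw [hF, hC₀, hρ]
    simp only [ENNReal.toReal_mul, ENNReal.toReal_div, ENNReal.toReal_pow, ENNReal.toReal_natCast]
  -- the bound for `1 ≤ J`
  have hbound : ∀ J, 1 ≤ J → (F J).toReal ≤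
      4 * ((K : ℝ) * R + 1) * (3 * C₀ * (J : ℝ) ^ 2 * ρ ^ (J / D)) ^ (R ^ J) := by
    intro J hJ
    rw [hFreal]
    set N := R ^ J with hN
    have hNp : 0 < N := hNpos J
    have hNr : (0 : ℝ) < N := by exact_mod_cast hNp
    have hn1 : n1 R J = (J * N) ^ N := rfl
    have hn1pos : 1 ≤ n1 R J := by
      rw [hn1]; exact pow_pos (Nat.mul_pos hJ hNp) N
    have b1 : ((n1 R J + 1 : ℕ) : ℝ) ≤ 2 * ((J : ℝ) * N) ^ N := by
      have : n1 R J + 1 ≤ 2 * (J * N) ^ N := by rw [← hn1]; omega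
      exact_mod_cast this
    have b2 : (((K * R + 1) * n1 R J + 1 : ℕ) : ℝ) ≤ 2 * ((K : ℝ) * R + 1) * ((J : ℝ) * N) ^ N := by
      have : (K * R + 1) * n1 R J + 1 ≤ 2 * (K * R + 1) * (J * N) ^ N := by
        rw [← hn1]
        have h1 : 1 ≤ (K * R + 1) * n1 R J := Nat.mul_pos (Nat.succ_pos _) hn1pos
        calc (K * R + 1) * n1 R J + 1 ≤ (K * R + 1) * n1 R J + (K * R + 1) * n1 R J := by omega
          _ = 2 * (K * R + 1) * n1 R J := by ring
      exact_mod_cast this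
    have b3 : (N : ℝ) ^ N ≤ (N.factorial : ℝ) * 3 ^ N := num2_pow_le_factorial N
    have hf : (0 : ℝ) < N.factorial := by exact_mod_cast Nat.factorial_pos N
    have hNN : (0 : ℝ) < (N : ℝ) ^ N := by positivity
    have hdenr : (((N.factorial * N ^ N : ℕ)) : ℝ) = (N.factorial : ℝ) * (N : ℝ) ^ N := by push_cast; ring
    rw [hdenr, div_le_iff₀ (by positivity)]
    have hJr : (0 : ℝ) ≤ J := Nat.cast_nonneg _
    have hA : (0 : ℝ) ≤ ((J : ℝ) * N) ^ N := by positivity
    have hρN : 0 ≤ ρ ^ (N * (J / D)) := by positivity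
    have hCN : 0 ≤ C₀ ^ N := by positivity
    have hKR : (0 : ℝ) ≤ (K : ℝ) * R + 1 := by positivity
    have s1 : ((n1 R J + 1 : ℕ) : ℝ) * (((K * R + 1) * n1 R J + 1 : ℕ) : ℝ) * C₀ ^ N *
        ρ ^ (N * (J / D)) ≤ (2 * ((J : ℝ) * N) ^ N) * (2 * ((K : ℝ) * R + 1) * ((J : ℝ) * N) ^ N) *
        C₀ ^ N * ρ ^ (N * (J / D)) := by
      gcongr
    refine s1.trans ?_
    have e1 : (2 * ((J : ℝ) * N) ^ N) * (2 * ((K : ℝ) * R + 1) * ((J : ℝ) * N) ^ N) *
        C₀ ^ N * ρ ^ (N * (J / D)) =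
        (4 * ((K : ℝ) * R + 1) * (C₀ * (J : ℝ) ^ 2 * ρ ^ (J / D)) ^ N) * ((N : ℝ) ^ N * (N : ℝ) ^ N) := by
      rw [mul_pow (J : ℝ) (N : ℝ) N, mul_pow (C₀ * (J : ℝ) ^ 2), mul_pow C₀, ← pow_mul ρ,
        mul_comm (J / D) N, ← pow_mul (J : ℝ) 2 N, mul_comm 2 N, pow_mul (J : ℝ) N 2]
      ring
    have e2 : 4 * ((K : ℝ) * R + 1) * (3 * C₀ * (J : ℝ) ^ 2 * ρ ^ (J / D)) ^ N *
        ((N.factorial : ℝ) * (N : ℝ) ^ N) =
        (4 * ((K : ℝ) * R + 1) * (C₀ * (J : ℝ) ^ 2 * ρ ^ (J / D)) ^ N) *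
          (((N.factorial : ℝ) * 3 ^ N) * (N : ℝ) ^ N) := by
      rw [show 3 * C₀ * (J : ℝ) ^ 2 * ρ ^ (J / D) = 3 * (C₀ * (J : ℝ) ^ 2 * ρ ^ (J / D)) by ring,
        mul_pow 3]
      ring
    rw [e1, e2]
    apply mul_le_mul_of_nonneg_left _ (by positivity)
    exact mul_le_mul_of_nonneg_right b3 hNN.le
  -- eventually the base is at most one half
  have hev : ∀ᶠ J : ℕ in atTop, ‖(F J).toReal‖ ≤ 4 * ((K : ℝ) * R + 1) * (1 / 2 : ℝ) ^ J := by
    have ht := num2_tendsto (3 * C₀) D hD ρ hρ0 hρ1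
    have h2 : ∀ᶠ J : ℕ in atTop, 3 * C₀ * (J : ℝ) ^ 2 * ρ ^ (J / D) < 1 / 2 :=
      ht.eventually (gt_mem_nhds (by norm_num))
    filter_upwards [h2, eventually_ge_atTop 1] with J hJ1 hJ2
    rw [Real.norm_eq_abs, abs_of_nonneg ENNReal.toReal_nonneg]
    refine (hbound J hJ2).trans ?_
    have hb0 : 0 ≤ 3 * C₀ * (J : ℝ) ^ 2 * ρ ^ (J / D) := by positivity
    have s1 : (3 * C₀ * (J : ℝ) ^ 2 * ρ ^ (J / D)) ^ (R ^ J) ≤ (1 / 2 : ℝ) ^ (R ^ J) :=
      pow_le_pow_left₀ hb0 hJ1.le _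
    have s2 : (1 / 2 : ℝ) ^ (R ^ J) ≤ (1 / 2 : ℝ) ^ J := by
      apply pow_le_pow_of_le_one (by norm_num) (by norm_num)
      have a1 : J < 2 ^ J := Nat.lt_two_pow_self
      have a2 : 2 ^ J ≤ R ^ J := Nat.pow_le_pow_left hR J
      omega
    exact mul_le_mul_of_nonneg_left (s1.trans s2) (by positivity)
  have hsum : Summable (fun J => (F J).toReal) := by
    refine Summable.of_norm_bounded_eventually_nat
      (g := fun J => 4 * ((K : ℝ) * R + 1) * (1 / 2 : ℝ) ^ J) ?_ hev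
    exact (summable_geometric_of_lt_one (by norm_num) (by norm_num)).mul_left _
  have := hsum.tsum_ofReal_ne_top
  simpa only [ENNReal.ofReal_toReal (hFtop _)] using this

end MP3e01

end

section

/-!
# MP_3e01db_pr, item F (red): from a quasisymmetric equivalence to a correspondence of times
-/

open Set MeasureTheory ProbabilityTheory
open scoped ENNReal NNReal unitInterval

namespace MP3e01

namespace Red

/-- the time change -/
noncomputable def al (g d : ℝ) (s : I) : ℝ := g + s * (d - g)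

/-- the inverse time change -/
noncomputable def be (g d : ℝ) (x : ℝ) : I := Set.projIcc 0 1 zero_le_one ((x - g) / (d - g))

lemma al_mem {g d : ℝ} (h : g < d) (s : I) : al g d s ∈ Set.Icc g d := by
  have h0 := s.2.1
  have h1 := s.2.2
  unfold al
  constructor
  · nlinarith
  · nlinarith

lemma be_al {g d : ℝ} (h : g < d) (s : I) : be g d (al g d s) = s := by
  unfold be al
  have : (g + (s : ℝ) * (d - g) - g) / (d - g) = (s : ℝ) := by
    have h0 : d - g ≠ 0 := by intro h0; linarith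
    field_simp
    ring
  rw [this]
  exact Set.projIcc_val zero_le_one s

lemma al_be {g d : ℝ} (h : g < d) {x : ℝ} (hx : x ∈ Set.Icc g d) : al g d (be g d x) = x := by
  have h0 : 0 < d - g := by linarith
  have hm : (x - g) / (d - g) ∈ Set.Icc (0 : ℝ) 1 := by
    constructor
    · exact div_nonneg (by linarith [hx.1]) h0.le
    · rw [div_le_one h0]; linarith [hx.2]
  unfold al be
  rw [Set.projIcc_of_mem zero_le_one hm]
  simp only
  field_simp
  ring

lemma al_mono {g d : ℝ} (h : g < d) {s t : I} (hst : s ≤ t) : al g d s ≤ al g d t := by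
  unfold al
  have : (s : ℝ) ≤ t := hst
  nlinarith

lemma be_mono {g d : ℝ} (h : g < d) {x y : ℝ} (hxy : x ≤ y) : be g d x ≤ be g d y := by
  unfold be
  apply Set.monotone_projIcc
  have h0 : 0 < d - g := by linarith
  gcongr

lemma minC_eq {w : C(I, ℝ)} {f : ℝ → ℝ} {g d lam : ℝ} (hf : Continuous f) (h : g < d)
    (hl : 0 < lam) (hw : ∀ t : I, w t = f (g + t * (d - g)) / lam) (s t : I) :
    minC w s t = mn f (al g d s) (al g d t) / lam := by
  apply le_antisymm
  · obtain ⟨x, hx, hx2⟩ := exists_mn hf (al g d s) (al g d t)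
    have hxm : x ∈ Set.Icc g d :=
      (Set.uIcc_subset_Icc (al_mem h s) (al_mem h t)) hx
    have hr : be g d x ∈ Set.uIcc s t := by
      have h1 := be_mono h hx.1
      have h2 := be_mono h hx.2
      have e1 := be_al h s
      have e2 := be_al h t
      rcases le_total s t with hst | hst
      · have := al_mono h hst
        rw [inf_eq_left.2 this] at h1
        rw [sup_eq_right.2 this] at h2
        rw [e1] at h1
        rw [e2] at h2
        rw [Set.uIcc_of_le hst]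
        exact ⟨h1, h2⟩
      · have := al_mono h hst
        rw [inf_eq_right.2 this] at h1
        rw [sup_eq_left.2 this] at h2
        rw [e2] at h1
        rw [e1] at h2
        rw [Set.uIcc_of_ge hst]
        exact ⟨h1, h2⟩
    have := minC_le w hr
    rw [hw] at this
    have e3 : g + (be g d x : ℝ) * (d - g) = x := al_be h hxm
    rw [e3, hx2] at this
    exact this
  · apply le_minC
    intro r hr
    rw [hw]
    have hm : al g d r ∈ Set.uIcc (al g d s) (al g d t) := by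
      rcases le_total s t with hst | hst
      · rw [Set.uIcc_of_le hst] at hr
        rw [Set.uIcc_of_le (al_mono h hst)]
        exact ⟨al_mono h hr.1, al_mono h hr.2⟩
      · rw [Set.uIcc_of_ge hst] at hr
        rw [Set.uIcc_of_ge (al_mono h hst)]
        exact ⟨al_mono h hr.1, al_mono h hr.2⟩
    have h5 := mn_le hf hm
    have : f (g + (r : ℝ) * (d - g)) = f (al g d r) := rfl
    rw [this]
    gcongr

/-- the point of the tree at time `x` -/
noncomputable def pt (w : C(I, ℝ)) (g d : ℝ) (x : ℝ) : CRTree w :=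
  SeparationQuotient.mk (⟨be g d x⟩ : Code w)

lemma dist_pt {w : C(I, ℝ)} {f : ℝ → ℝ} {g d lam : ℝ} (hf : Continuous f) (h : g < d)
    (hl : 0 < lam) (hw : ∀ t : I, w t = f (g + t * (d - g)) / lam) {x y : ℝ}
    (hx : x ∈ Set.Icc g d) (hy : y ∈ Set.Icc g d) :
    dist (pt w g d x) (pt w g d y) = dT f x y / lam := by
  unfold pt
  rw [SeparationQuotient.dist_mk]
  have e : dist (⟨be g d x⟩ : Code w) (⟨be g d y⟩ : Code w) =
      w (be g d x) + w (be g d y) - 2 * minC w (be g d x) (be g d y) := rfl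
  rw [e, minC_eq hf h hl hw, hw, hw]
  have e1 : g + (be g d x : ℝ) * (d - g) = x := al_be h hx
  have e2 : g + (be g d y : ℝ) * (d - g) = y := al_be h hy
  rw [e1, e2, al_be h hx, al_be h hy]
  unfold dT
  ring

lemma exists_pt {w : C(I, ℝ)} {g d : ℝ} (h : g < d) (q : CRTree w) :
    ∃ x ∈ Set.Icc g d, pt w g d x = q := by
  obtain ⟨c, hc⟩ := SeparationQuotient.surjective_mk q
  refine ⟨al g d c.time, al_mem h _, ?_⟩
  unfold pt
  rw [be_al h]
  exact hc

lemma eta_zero (η : ℝ≥0 ≃ₜ ℝ≥0) : η 0 = 0 := by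
  rcases Continuous.strictMono_of_inj η.continuous η.injective with h | h
  · obtain ⟨x, hx⟩ := η.surjective 0
    rcases eq_or_lt_of_le (zero_le (a := x)) with h0 | h0
    · rw [← h0] at hx; exact hx
    · have := h h0
      rw [hx] at this
      exact absurd this (not_lt.2 zero_le)
  · obtain ⟨x, hx⟩ := η.surjective (η 0 + 1)
    have h1 : η x ≤ η 0 := h.antitone (zero_le (a := x))
    rw [hx] at h1
    exact absurd h1 (not_le.2 (lt_add_of_pos_right _ one_pos))

end Red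

open Red in
theorem pr_red (h1 : S_btwHomeo) : S_red := by
  intro w w' f f' g d g' d' lam lam' hf hf' hE hE' hl hl' hw hw' hQ
  obtain ⟨F, η, hη⟩ := hQ
  have hgd := hE.lt
  have hgd' := hE'.lt
  -- the constants
  obtain ⟨K, hK⟩ : ∃ K : ℕ, max 1 (max (η 1) (η 4)) ≤ (K : ℝ≥0) :=
    ⟨_, Nat.le_ceil _⟩
  have hK1 : 1 ≤ K := by
    have : (1 : ℝ≥0) ≤ (K : ℝ≥0) := le_trans (le_max_left _ _) hK
    exact_mod_cast this
  have hKa : η 1 ≤ (K : ℝ≥0) := le_trans (le_trans (le_max_left _ _) (le_max_right _ _)) hK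
  have hKb : η 4 ≤ (K : ℝ≥0) := le_trans (le_trans (le_max_right _ _) (le_max_right _ _)) hK
  obtain ⟨R, hR2, hR⟩ : ∃ R : ℕ, 2 ≤ R ∧ η (1 / (R : ℝ≥0)) * 2 ^ (8 * K + 8) ≤ 1 := by
    have h0 : Filter.Tendsto η (nhds 0) (nhds 0) := by
      have := η.continuous.tendsto 0
      rwa [eta_zero] at this
    have h2 : Filter.Tendsto (fun n : ℕ => η (1 / (n : ℝ≥0))) Filter.atTop (nhds 0) :=
      h0.comp tendsto_one_div_atTop_nhds_zero_nat
    have h3 : (0 : ℝ≥0) < 1 / 2 ^ (8 * K + 8) := by positivity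
    have h4 := (h2.eventually (gt_mem_nhds h3)).and (Filter.eventually_ge_atTop 2)
    obtain ⟨R, hR, hR2⟩ := h4.exists
    refine ⟨R, hR2, ?_⟩
    rw [lt_div_iff₀ (by positivity)] at hR
    exact hR.le
  obtain ⟨K₁, hK₁⟩ : ∃ K₁ : ℕ, η (R : ℝ≥0) ≤ (K₁ : ℝ≥0) := ⟨_, Nat.le_ceil _⟩
  -- the correspondence
  have hθex : ∀ x : ℝ, ∃ x' ∈ Set.Icc g' d', pt w' g' d' x' = F (pt w g d x) :=
    fun x => exists_pt hgd' _
  choose θ hθm hθ using hθex
  have hd : ∀ x ∈ Set.Icc g d, ∀ y ∈ Set.Icc g d,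
      dist (pt w g d x) (pt w g d y) = dT f x y / lam :=
    fun x hx y hy => dist_pt hf hgd hl hw hx hy
  have hd' : ∀ x y : ℝ, dist (F (pt w g d x)) (F (pt w g d y)) = dT f' (θ x) (θ y) / lam' := by
    intro x y
    rw [← hθ, ← hθ]
    exact dist_pt hf' hgd' hl' hw' (hθm x) (hθm y)
  -- the main estimate
  have hmain : ∀ (t : ℝ≥0) (c : ℝ), (η t : ℝ) ≤ c → ∀ x ∈ Set.Icc g d, ∀ y ∈ Set.Icc g d,
      ∀ z ∈ Set.Icc g d, dT f x y ≤ t * dT f x z →
      dT f' (θ x) (θ y) ≤ c * dT f' (θ x) (θ z) := by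
    intro t c hc x hx y hy z hz h
    have h2 : dist (pt w g d x) (pt w g d y) ≤ t * dist (pt w g d x) (pt w g d z) := by
      rw [hd x hx y hy, hd x hx z hz]
      rw [← mul_div_assoc]
      gcongr
    have h3 := hη _ _ _ t h2
    rw [hd', hd', ← mul_div_assoc, div_le_div_iff_of_pos_right hl'] at h3
    have h4 := dT_nonneg hf' (θ x) (θ z)
    exact le_trans h3 (by gcongr)
  refine ⟨K, R, K₁, θ, hK1, hR2, ?_⟩
  constructor
  · intro x _
    exact hθm x
  · intro x' hx'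
    obtain ⟨x, hx, hxe⟩ := exists_pt (w := w) hgd (F.symm (pt w' g' d' x'))
    refine ⟨x, hx, ?_⟩
    have e1 : pt w' g' d' (θ x) = pt w' g' d' x' := by
      rw [hθ, hxe]
      exact F.apply_symm_apply _
    have e2 := dist_pt hf' hgd' hl' hw' (hθm x) hx'
    rw [e1, dist_self] at e2
    have e3 : dT f' (θ x) x' / lam' = 0 := e2.symm
    rcases div_eq_zero_iff.1 e3 with h | h
    · exact h
    · exact absurd h hl'.ne'
  · intro x hx y hy
    have e1 := hd x hx y hy
    have e2 := hd' x y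
    constructor
    · intro h
      rw [h, zero_div, dist_eq_zero] at e1
      rw [e1, dist_self] at e2
      rcases div_eq_zero_iff.1 e2.symm with h | h
      · exact h
      · exact absurd h hl'.ne'
    · intro h
      rw [h, zero_div, dist_eq_zero] at e2
      have e3 := F.injective e2
      rw [e3, dist_self] at e1
      rcases div_eq_zero_iff.1 e1.symm with h | h
      · exact h
      · exact absurd h hl.ne'
  · intro x hx z hz y hy
    unfold Btw
    constructor
    · intro h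
      have e1 : dist (pt w g d x) (pt w g d z) + dist (pt w g d z) (pt w g d y) =
          dist (pt w g d x) (pt w g d y) := by
        rw [hd x hx z hz, hd z hz y hy, hd x hx y hy, ← add_div, h]
      have e2 := h1 w w' F _ _ _ e1
      rw [hd', hd', hd', ← add_div, div_left_inj' hl'.ne'] at e2
      exact e2
    · intro h
      have e1 : dist (F (pt w g d x)) (F (pt w g d z)) + dist (F (pt w g d z)) (F (pt w g d y)) =
          dist (F (pt w g d x)) (F (pt w g d y)) := by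
        rw [hd', hd', hd', ← add_div, h]
      have e2 := h1 w' w F.symm _ _ _ e1
      simp only [Homeomorph.symm_apply_apply] at e2
      rw [hd x hx z hz, hd z hz y hy, hd x hx y hy, ← add_div, div_left_inj' hl.ne'] at e2
      exact e2
  · intro x hx y hy z hz h
    exact hmain 1 K (by exact_mod_cast hKa) x hx y hy z hz (by simpa using h)
  · intro x hx y hy z hz h
    exact hmain 4 K (by exact_mod_cast hKb) x hx y hy z hz (by simpa using h)
  · intro x hx y hy z hz h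
    have hR0 : (0 : ℝ) < (R : ℝ) := by
      have : 0 < R := by omega
      exact_mod_cast this
    have e1 := hmain (1 / (R : ℝ≥0)) (1 / 2 ^ (8 * K + 8)) (by
      rw [le_div_iff₀ (by positivity)]
      exact_mod_cast hR) x hx y hy z hz (by
        push_cast
        rw [one_div, inv_mul_eq_div, le_div_iff₀ hR0]
        linarith)
    have e2 : (0 : ℝ) < 2 ^ (8 * K + 8) := by positivity
    calc (2 : ℝ) ^ (8 * K + 8) * dT f' (θ x) (θ y)
        ≤ 2 ^ (8 * K + 8) * (1 / 2 ^ (8 * K + 8) * dT f' (θ x) (θ z)) := by gcongr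
      _ = dT f' (θ x) (θ z) := by field_simp
  · intro x hx y hy z hz h
    exact hmain R K₁ (by exact_mod_cast hK₁) x hx y hy z hz (by simpa using h)

end MP3e01

end

section

/-!
# sumClus: total weight of clusters with their first passages (helper19)
-/

open Set MeasureTheory ProbabilityTheory
open scoped ENNReal NNReal

namespace MP3e01

namespace SumClus

theorem list_le (L : Set (List Bool)) (k : ℕ) :
    ∑' ws : {ws : List (List Bool) // ws.length = k ∧ ∀ w ∈ ws, w ∈ L},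
      (2⁻¹ : ℝ≥0∞) ^ (ws : List (List Bool)).flatten.length ≤ wt L ^ k := by
  induction k with
  | zero =>
    have hs : Subsingleton {ws : List (List Bool) // ws.length = 0 ∧ ∀ w ∈ ws, w ∈ L} :=
      ⟨fun a b => by
        apply Subtype.ext
        rw [List.length_eq_zero_iff.1 a.2.1, List.length_eq_zero_iff.1 b.2.1]⟩
    rw [pow_zero, tsum_eq_single (⟨[], rfl, fun w hw => absurd hw List.not_mem_nil⟩ :
      {ws : List (List Bool) // ws.length = 0 ∧ ∀ w ∈ ws, w ∈ L})
      (fun b hb => absurd (Subsingleton.elim _ _) hb)]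
    simp
  | succ k ih =>
    set f : L × {ws : List (List Bool) // ws.length = k ∧ ∀ w ∈ ws, w ∈ L} →
      {ws : List (List Bool) // ws.length = k + 1 ∧ ∀ w ∈ ws, w ∈ L} := fun p =>
      ⟨(p.1 : List Bool) :: p.2.1, by rw [List.length_cons, p.2.2.1], fun w hw => by
        rcases List.mem_cons.1 hw with h | h
        · rw [h]; exact p.1.2
        · exact p.2.2.2 w h⟩ with hf
    have hsurj : Function.Surjective f := by
      rintro ⟨ws, h1, h2⟩
      cases ws with
      | nil => exact absurd h1 (by simp)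
      | cons u ws =>
        refine ⟨(⟨u, h2 u List.mem_cons_self⟩, ⟨ws, ?_, fun w hw =>
          h2 w (List.mem_cons_of_mem _ hw)⟩), rfl⟩
        rw [List.length_cons] at h1
        omega
    refine (ENNReal.tsum_le_tsum_comp_of_surjective hsurj _).trans ?_
    have h3 : ∀ x : L × {ws : List (List Bool) // ws.length = k ∧ ∀ w ∈ ws, w ∈ L},
        (2⁻¹ : ℝ≥0∞) ^ ((f x : List (List Bool)).flatten.length) =
          (2⁻¹ : ℝ≥0∞) ^ (x.1 : List Bool).length *
            (2⁻¹ : ℝ≥0∞) ^ (x.2 : List (List Bool)).flatten.length := by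
      rintro ⟨a, b⟩
      rw [← pow_add]
      show (2⁻¹ : ℝ≥0∞) ^ (((a : List Bool) :: (b : List (List Bool))).flatten.length) = _
      rw [List.flatten_cons, List.length_append]
    calc ∑' x : L × {ws : List (List Bool) // ws.length = k ∧ ∀ w ∈ ws, w ∈ L},
          (2⁻¹ : ℝ≥0∞) ^ ((f x : List (List Bool)).flatten.length)
        = ∑' x : L × {ws : List (List Bool) // ws.length = k ∧ ∀ w ∈ ws, w ∈ L},
          (2⁻¹ : ℝ≥0∞) ^ (x.1 : List Bool).length *
            (2⁻¹ : ℝ≥0∞) ^ (x.2 : List (List Bool)).flatten.length := tsum_congr h3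
      _ = ∑' (a : L) (b : {ws : List (List Bool) // ws.length = k ∧ ∀ w ∈ ws, w ∈ L}),
          (2⁻¹ : ℝ≥0∞) ^ (a : List Bool).length *
            (2⁻¹ : ℝ≥0∞) ^ (b : List (List Bool)).flatten.length :=
          ENNReal.tsum_prod (f := fun (a : L)
            (b : {ws : List (List Bool) // ws.length = k ∧ ∀ w ∈ ws, w ∈ L}) =>
            (2⁻¹ : ℝ≥0∞) ^ (a : List Bool).length *
            (2⁻¹ : ℝ≥0∞) ^ (b : List (List Bool)).flatten.length)
      _ = wt L * ∑' b : {ws : List (List Bool) // ws.length = k ∧ ∀ w ∈ ws, w ∈ L},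
            (2⁻¹ : ℝ≥0∞) ^ (b : List (List Bool)).flatten.length := by
          rw [wt, ← ENNReal.tsum_mul_right]
          refine tsum_congr fun a => ENNReal.tsum_mul_left
      _ ≤ wt L * wt L ^ k := mul_le_mul_right ih _
      _ = wt L ^ (k + 1) := by rw [pow_succ, mul_comm]

end SumClus

theorem pr_sumClus (_h1 : S_clus) (h2 : S_wtFP) (h3 : S_wtPages) : S_sumClus := by
  intro D R J m hR
  have hterm : ∀ i ∈ Finset.range (m + 1), ∑' u : FP (2 * (16 * R ^ i) * R ^ J),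
      ∑' ws : {ws // IsCluster D R J (16 * R ^ i) ws},
        (2⁻¹ : ℝ≥0∞) ^ ((u : List Bool) ++ (ws : List (List Bool)).flatten).length ≤
      1 / (((R ^ J) ^ (R ^ J) : ℕ) : ℝ≥0∞) := by
    intro i _
    have hG : 0 < 16 * R ^ i := Nat.mul_pos (by norm_num) (pow_pos (by omega) i)
    have hsplit : ∑' u : FP (2 * (16 * R ^ i) * R ^ J),
        ∑' ws : {ws // IsCluster D R J (16 * R ^ i) ws},
          (2⁻¹ : ℝ≥0∞) ^ ((u : List Bool) ++ (ws : List (List Bool)).flatten).length =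
        wt (FP (2 * (16 * R ^ i) * R ^ J)) *
          ∑' ws : {ws // IsCluster D R J (16 * R ^ i) ws},
            (2⁻¹ : ℝ≥0∞) ^ (ws : List (List Bool)).flatten.length := by
      rw [wt, ← ENNReal.tsum_mul_right]
      refine tsum_congr fun u => ?_
      rw [← ENNReal.tsum_mul_left]
      refine tsum_congr fun ws => ?_
      rw [List.length_append, pow_add]
    rw [hsplit]
    have h4 : ∑' ws : {ws // IsCluster D R J (16 * R ^ i) ws},
        (2⁻¹ : ℝ≥0∞) ^ (ws : List (List Bool)).flatten.length ≤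
        wt (GoodPages D R J (16 * R ^ i)) ^ (R ^ J) :=
      SumClus.list_le (GoodPages D R J (16 * R ^ i)) (R ^ J)
    have h5 : wt (GoodPages D R J (16 * R ^ i)) ≤ wt (Pages R J (16 * R ^ i)) :=
      ENNReal.tsum_mono_subtype (fun v : List Bool => (2⁻¹ : ℝ≥0∞) ^ v.length) fun v hv => hv.1
    have h6 := h3 R J (16 * R ^ i) hR hG (dvd_mul_right _ _)
    calc wt (FP (2 * (16 * R ^ i) * R ^ J)) *
          ∑' ws : {ws // IsCluster D R J (16 * R ^ i) ws},
            (2⁻¹ : ℝ≥0∞) ^ (ws : List (List Bool)).flatten.length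
        ≤ 1 * (1 / ((R ^ J : ℕ) : ℝ≥0∞)) ^ (R ^ J) :=
          mul_le_mul' (h2 _) (h4.trans (pow_le_pow_left' (h5.trans h6) _))
      _ = 1 / (((R ^ J) ^ (R ^ J) : ℕ) : ℝ≥0∞) := by
          rw [one_mul, one_div, one_div, ← ENNReal.inv_pow, Nat.cast_pow (R ^ J) (R ^ J)]
  refine (Finset.sum_le_sum hterm).trans ?_
  rw [Finset.sum_const, Finset.card_range, nsmul_eq_mul, mul_one_div]

end MP3e01

end

section

open Set MeasureTheory ProbabilityTheory Filter
open scoped ENNReal NNReal unitInterval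

namespace MP3e01

theorem pr_union.{u} : S_union.{u} := by
  intro Ω _ P X X' hAN p q p' q' ε ε' hp hq hp' hq' hε hε' L L₁ L₂
  have hsub : {ω | ∃ v ∈ L, ∃ v₁ ∈ L₁, ∃ v₂ ∈ L₂, RightPre (X ω) p q ε v ∧
      RightPre (X' ω) p' q' ε' v₁ ∧ LeftPre (X' ω) p' q' ε' v₂} ⊆
      ⋃ (v : L), ⋃ (v₁ : L₁), ⋃ (v₂ : L₂), {ω | RightPre (X ω) p q ε v ∧
        RightPre (X' ω) p' q' ε' v₁ ∧ LeftPre (X' ω) p' q' ε' v₂} := by
    rintro ω ⟨v, hv, v₁, hv₁, v₂, hv₂, h⟩
    simp only [mem_iUnion]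
    exact ⟨⟨v, hv⟩, ⟨v₁, hv₁⟩, ⟨v₂, hv₂⟩, h⟩
  refine (measure_mono hsub).trans ?_
  have h1 : P (⋃ (v : L), ⋃ (v₁ : L₁), ⋃ (v₂ : L₂), {ω | RightPre (X ω) p q ε v ∧
        RightPre (X' ω) p' q' ε' v₁ ∧ LeftPre (X' ω) p' q' ε' v₂}) ≤
      ∑' (v : L), ∑' (v₁ : L₁), ∑' (v₂ : L₂), (2⁻¹ : ℝ≥0∞) ^ (v.1.length + v₁.1.length +
        v₂.1.length) := by
    refine (measure_iUnion_le _).trans (ENNReal.tsum_le_tsum fun v => ?_)
    refine (measure_iUnion_le _).trans (ENNReal.tsum_le_tsum fun v₁ => ?_)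
    refine (measure_iUnion_le _).trans (ENNReal.tsum_le_tsum fun v₂ => ?_)
    exact hAN p q p' q' ε ε' hp hq hp' hq' hε hε' v.1 v₁.1 v₂.1
  refine h1.trans (le_of_eq ?_)
  simp only [wt, pow_add, ENNReal.tsum_mul_left, ENNReal.tsum_mul_right]

end MP3e01

end

section

/-!
# MP_3e01db_pr, block L: from Brownian motions to arbitrary Brownian excursions (statements)
-/

open Set MeasureTheory ProbabilityTheory Filter
open scoped ENNReal NNReal unitInterval

namespace MP3e01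

/-- extension to `ℝ≥0` of a function on the nonnegative rationals, along dyadic approximations -/
noncomputable def ext (y : ℚ≥0 → ℝ) (t : ℝ≥0) : ℝ :=
  limsup (fun n : ℕ => y ((⌊(2 : ℝ≥0) ^ n * t⌋₊ : ℚ≥0) / 2 ^ n)) atTop

/-- L1: measurability of the extension, and correctness on continuous functions -/
def S_ext : Prop := (∀ t, Measurable (fun y : ℚ≥0 → ℝ => ext y t)) ∧
  (∀ u : ℝ≥0 → ℝ, Continuous u → ext (fun r : ℚ≥0 => u (r : ℝ≥0)) = u)

/-- L2: null sets and images (disintegration) -/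
def S_fiber : Prop := ∀ {X Y : Type} [MeasurableSpace X] [MeasurableSpace Y]
  [StandardBorelSpace X] [StandardBorelSpace Y] (μ : Measure Y) [IsProbabilityMeasure μ]
  (E : Y → X), Measurable E → ∀ Q : Set X, μ (E ⁻¹' Q) = 0 → (μ.map E) Q = 0

/-- L3: Brownian motion on the canonical space -/
def S_canon : Prop := ∀ {Ω : Type} [MeasurableSpace Ω] (P : Measure Ω) (B : ℝ≥0 → Ω → ℝ),
  IsBrownianReal B P →
  AEMeasurable (fun ω (r : ℚ≥0) => B (r : ℝ≥0) ω) P ∧
  IsBrownianReal (fun t (y : ℚ≥0 → ℝ) => ext y t) (P.map (fun ω (r : ℚ≥0) => B (r : ℝ≥0) ω)) ∧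
  ∀ᵐ ω ∂P, ∀ t, ext (fun r : ℚ≥0 => B (r : ℝ≥0) ω) t = B t ω

/-- L4: measurability of the excursion functional -/
def S_excMeas : Prop := ∀ {Ω : Type} [MeasurableSpace Ω] (P : Measure Ω) (B : ℝ≥0 → Ω → ℝ),
  IsBrownianReal B P → ∀ t : I, AEMeasurable (fun ω => excursion (fun s => B s ω) t) P

/-- L5: almost surely the normalised excursion is continuous -/
def S_excCont : Prop := ∀ {Ω : Type} [MeasurableSpace Ω] (P : Measure Ω) (B : ℝ≥0 → Ω → ℝ),
  IsBrownianReal B P → ∀ᵐ ω ∂P, Continuous (fun t : I => excursion (fun s => B s ω) t)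

/-- L6: two independent Brownian motions on the product of the canonical spaces -/
def S_canonPair : Prop := ∀ (μ μ' : Measure (ℚ≥0 → ℝ)),
  IsBrownianReal (fun t (y : ℚ≥0 → ℝ) => ext y t) μ →
  IsBrownianReal (fun t (y : ℚ≥0 → ℝ) => ext y t) μ' →
  IsBrownianReal (fun t (z : (ℚ≥0 → ℝ) × (ℚ≥0 → ℝ)) => ext z.1 t) (μ.prod μ') ∧
  IsBrownianReal (fun t (z : (ℚ≥0 → ℝ) × (ℚ≥0 → ℝ)) => ext z.2 t) (μ.prod μ') ∧
  IndepFun (fun (z : (ℚ≥0 → ℝ) × (ℚ≥0 → ℝ)) t => ext z.1 t)
    (fun (z : (ℚ≥0 → ℝ) × (ℚ≥0 → ℝ)) t => ext z.2 t) (μ.prod μ')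

/-- The final theorem. -/
def S_result.{u} : Prop := ∀ {Ω : Type u} [MeasurableSpace Ω] (P : Measure Ω)
  [IsProbabilityMeasure P] (e e' : Ω → C(I, ℝ)),
  IsBrownianExcursion e P → IsBrownianExcursion e' P →
  IndepFun (fun ω (t : I) => e ω t) (fun ω (t : I) => e' ω t) P →
  ∀ᵐ ω ∂P, ¬ QSEquiv (CRTree (e ω)) (CRTree (e' ω))

end MP3e01

end

section

/-! Independence on the product space `Ω × Ω`, and small facts about minima. -/

open MeasureTheory ProbabilityTheory
open scoped NNReal ENNReal Topology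

namespace Pool.Agent.Work.MP_3e01db_pr.AN

open Pool.Agent.Work.MP_3e01db_pr.SM

universe u

variable {Ω : Type u} {m1 m2 mΩ : MeasurableSpace Ω} {P : Measure Ω}

lemma mn_sub_const {h : ℝ → ℝ} (hh : Continuous h) (a s t : ℝ) :
    MP3e01.mn (fun r ↦ h r - a) s t = MP3e01.mn h s t - a := by
  have hc : IsCompact (h '' Set.uIcc s t) := isCompact_uIcc.image hh
  have hne : (h '' Set.uIcc s t).Nonempty := Set.nonempty_uIcc.image h
  have hleast := hc.isLeast_sInf hne
  have : IsLeast ((fun r ↦ h r - a) '' Set.uIcc s t) (sInf (h '' Set.uIcc s t) - a) := by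
    constructor
    · obtain ⟨r, hr, he⟩ := hleast.1
      exact ⟨r, hr, by simp only [he]⟩
    · rintro _ ⟨r, hr, rfl⟩
      have := hleast.2 ⟨r, hr, rfl⟩
      simp only
      linarith
  rw [MP3e01.mn, MP3e01.mn, this.csInf_eq]

lemma indep_fst (h1 : m1 ≤ mΩ) (h2 : m2 ≤ mΩ) [IsProbabilityMeasure P]
    (h : Indep m1 m2 P) :
    Indep (m1.comap (Prod.fst : Ω × Ω → Ω)) (m2.comap (Prod.fst : Ω × Ω → Ω)) (P.prod P) := by
  rw [Indep_iff] at h ⊢
  rintro _ _ ⟨S, hS, rfl⟩ ⟨T, hT, rfl⟩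
  have hf : MeasurePreserving (Prod.fst : Ω × Ω → Ω) (P.prod P) P := measurePreserving_fst
  rw [← Set.preimage_inter, hf.measure_preimage (((h1 _ hS).inter (h2 _ hT))).nullMeasurableSet,
    hf.measure_preimage (h1 _ hS).nullMeasurableSet,
    hf.measure_preimage (h2 _ hT).nullMeasurableSet]
  exact h S T hS hT

lemma indep_fst_snd [IsProbabilityMeasure P] :
    Indep (mΩ.comap (Prod.fst : Ω × Ω → Ω)) (mΩ.comap (Prod.snd : Ω × Ω → Ω)) (P.prod P) := by
  rw [Indep_iff]
  rintro _ _ ⟨S, hS, rfl⟩ ⟨T, hT, rfl⟩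
  have e : (Prod.fst ⁻¹' S ∩ Prod.snd ⁻¹' T : Set (Ω × Ω)) = S ×ˢ T := by
    ext ⟨a, b⟩; simp
  have e1 : (Prod.fst ⁻¹' S : Set (Ω × Ω)) = S ×ˢ Set.univ := by
    ext ⟨a, b⟩; simp
  have e2 : (Prod.snd ⁻¹' T : Set (Ω × Ω)) = Set.univ ×ˢ T := by
    ext ⟨a, b⟩; simp
  rw [e, e1, e2, Measure.prod_prod, Measure.prod_prod, Measure.prod_prod]
  simp

lemma procσ_comp_fst (B : ℝ≥0 → Ω → ℝ) :
    procσ (fun t (ω : Ω × Ω) ↦ B t ω.1) = (procσ B).comap (Prod.fst : Ω × Ω → Ω) := by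
  rw [procσ, procσ, MeasurableSpace.comap_comp]
  rfl

lemma procσ_comp_snd (B : ℝ≥0 → Ω → ℝ) :
    procσ (fun t (ω : Ω × Ω) ↦ B t ω.2) = (procσ B).comap (Prod.snd : Ω × Ω → Ω) := by
  rw [procσ, procσ, MeasurableSpace.comap_comp]
  rfl

lemma measurable_proc (B : ℝ≥0 → Ω → ℝ) (t : ℝ≥0) : Measurable[procσ B] (B t) := by
  have h1 : Measurable[procσ B] (fun ω (s : ℝ≥0) ↦ B s ω) := comap_measurable _
  exact (measurable_pi_apply t).comp h1

end Pool.Agent.Work.MP_3e01db_pr.AN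

end

section

/-!
# MP_3e01db_pr: Brownian motion on the canonical space
-/

open Set MeasureTheory ProbabilityTheory Filter
open scoped ENNReal NNReal unitInterval Topology

namespace MP3e01

namespace Canon

/-- functions on the nonnegative rationals which are uniformly continuous on bounded sets -/
def G : Set (ℚ≥0 → ℝ) := {y | ∀ N n : ℕ, ∃ m : ℕ, ∀ r s : ℚ≥0, (r : ℝ) ≤ N → (s : ℝ) ≤ N →
  |(r : ℝ) - s| ≤ 1 / (m + 1) → |y r - y s| ≤ 1 / (n + 1)}

lemma measurableSet_G : MeasurableSet G := by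
  unfold G
  simp only [ofPred_forall, ofPred_exists]
  refine MeasurableSet.iInter fun N => MeasurableSet.iInter fun n => MeasurableSet.iUnion fun m =>
    MeasurableSet.iInter fun r => MeasurableSet.iInter fun s => MeasurableSet.iInter fun _ =>
    MeasurableSet.iInter fun _ => MeasurableSet.iInter fun _ => ?_
  exact measurableSet_le (((measurable_pi_apply r).sub (measurable_pi_apply s)).abs)
    measurable_const

lemma isometry_coe : Isometry (fun r : ℚ≥0 => (r : ℝ≥0)) := by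
  refine Isometry.of_dist_eq fun p q => ?_
  have h : ∀ r : ℚ≥0, (((r : ℝ≥0) : ℝ)) = ((r : ℚ) : ℝ) := by
    intro r
    have h1 : (((r : ℝ≥0) : ℝ)) = (r : ℝ) := rfl
    rw [h1]
    norm_cast
  rw [NNReal.dist_eq, NNRat.dist_eq, Rat.dist_eq, h, h]

lemma denseRange_coe : DenseRange (fun r : ℚ≥0 => (r : ℝ≥0)) := by
  rw [Metric.denseRange_iff]
  intro x ε hε
  obtain ⟨q, hq1, hq2⟩ := exists_rat_btwn (show (x : ℝ) < x + ε by linarith)
  have hq0 : (0 : ℚ) ≤ q := by
    have : (0 : ℝ) ≤ q := x.2.trans hq1.le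
    exact_mod_cast this
  refine ⟨q.toNNRat, ?_⟩
  rw [NNReal.dist_eq]
  have h1 : (((q.toNNRat : ℝ≥0) : ℝ)) = (q : ℝ) := by
    have h2 : ((q.toNNRat : ℚ) : ℝ) = (q : ℝ) := by rw [Rat.coe_toNNRat q hq0]
    have h3 : (((q.toNNRat : ℝ≥0) : ℝ)) = (q.toNNRat : ℝ) := rfl
    rw [← h2, h3]
    norm_cast
  rw [h1, abs_sub_comm, abs_of_pos (by linarith)]
  linarith

lemma isDenseInducing_coe : IsDenseInducing (fun r : ℚ≥0 => (r : ℝ≥0)) :=
  isometry_coe.isUniformInducing.isDenseInducing denseRange_coe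

lemma exists_cont {y : ℚ≥0 → ℝ} (hy : y ∈ G) :
    ∃ u : ℝ≥0 → ℝ, Continuous u ∧ y = fun r : ℚ≥0 => u (r : ℝ≥0) := by
  have di := isDenseInducing_coe
  have hlim : ∀ t : ℝ≥0, ∃ c, Tendsto y (comap (fun r : ℚ≥0 => (r : ℝ≥0)) (𝓝 t)) (𝓝 c) := by
    intro t
    have : NeBot (comap (fun r : ℚ≥0 => (r : ℝ≥0)) (𝓝 t)) := di.comap_nhds_neBot t
    rw [← cauchy_map_iff_exists_tendsto, Metric.cauchy_iff]
    refine ⟨inferInstance, fun ε hε => ?_⟩
    obtain ⟨n, hn⟩ := exists_nat_one_div_lt hε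
    obtain ⟨N, hN⟩ := exists_nat_ge ((t : ℝ) + 1)
    obtain ⟨m, hm⟩ := hy N n
    set δ : ℝ := min 1 (1 / (2 * (m + 1))) with hδ
    have hδ0 : 0 < δ := by
      rw [hδ]; positivity
    have hδ1 : δ ≤ 1 := min_le_left _ _
    have hδ2 : δ ≤ 1 / (2 * (m + 1)) := min_le_right _ _
    refine ⟨y '' ((fun r : ℚ≥0 => (r : ℝ≥0)) ⁻¹' Metric.ball t δ),
      image_mem_map (preimage_mem_comap (Metric.ball_mem_nhds t hδ0)), ?_⟩
    rintro _ ⟨r, hr, rfl⟩ _ ⟨s, hs, rfl⟩
    have hr' : |((r : ℝ≥0) : ℝ) - t| < δ := by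
      have := hr
      rwa [mem_preimage, Metric.mem_ball, NNReal.dist_eq] at this
    have hs' : |((s : ℝ≥0) : ℝ) - t| < δ := by
      have := hs
      rwa [mem_preimage, Metric.mem_ball, NNReal.dist_eq] at this
    have er : ((r : ℝ≥0) : ℝ) = (r : ℝ) := rfl
    have es : ((s : ℝ≥0) : ℝ) = (s : ℝ) := rfl
    rw [er] at hr'
    rw [es] at hs'
    rw [abs_lt] at hr' hs'
    rw [Real.dist_eq]
    refine lt_of_le_of_lt (hm r s (by linarith) (by linarith) ?_) hn
    have h3 : (1 : ℝ) / (2 * (m + 1)) + 1 / (2 * (m + 1)) = 1 / (m + 1) := by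
      field_simp
      norm_num
    rw [abs_le]
    constructor <;> linarith
  refine ⟨di.extend y, di.continuous_extend hlim, ?_⟩
  funext r
  obtain ⟨c, hc⟩ := hlim (r : ℝ≥0)
  have h1 : Tendsto y (𝓝 r) (𝓝 c) := by
    rwa [di.isInducing.nhds_eq_comap]
  exact (di.extend_eq_at (continuousAt_of_tendsto_nhds h1)).symm

lemma mem_G {u : ℝ≥0 → ℝ} (hu : Continuous u) : (fun r : ℚ≥0 => u (r : ℝ≥0)) ∈ G := by
  intro N n
  have hK : IsCompact (Icc (0 : ℝ≥0) N) := isCompact_Icc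
  have hU := hK.uniformContinuousOn_of_continuous hu.continuousOn
  rw [Metric.uniformContinuousOn_iff] at hU
  obtain ⟨δ, hδ, h⟩ := hU (1 / ((n : ℝ) + 1)) (by positivity)
  obtain ⟨m, hm⟩ := exists_nat_one_div_lt hδ
  refine ⟨m, fun r s hr hs hrs => ?_⟩
  have er : ((r : ℝ≥0) : ℝ) = (r : ℝ) := rfl
  have es : ((s : ℝ≥0) : ℝ) = (s : ℝ) := rfl
  have hr' : (r : ℝ≥0) ∈ Icc (0 : ℝ≥0) N := by
    refine ⟨zero_le, ?_⟩
    rw [← NNReal.coe_le_coe, er]
    simpa using hr
  have hs' : (s : ℝ≥0) ∈ Icc (0 : ℝ≥0) N := by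
    refine ⟨zero_le, ?_⟩
    rw [← NNReal.coe_le_coe, es]
    simpa using hs
  have hd : dist (r : ℝ≥0) (s : ℝ≥0) < δ := by
    rw [NNReal.dist_eq, er, es]
    exact lt_of_le_of_lt hrs hm
  have := h _ hr' _ hs' hd
  rw [Real.dist_eq] at this
  exact this.le

end Canon

open Canon in
theorem pr_canon (h : S_ext) : S_canon := by
  obtain ⟨hmeas, hext⟩ := h
  intro Ω _ P B hB
  have hpre : IsPreBrownianReal B P := hB.toIsPreBrownianReal
  have hΦ : AEMeasurable (fun ω (r : ℚ≥0) => B (r : ℝ≥0) ω) P :=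
    aemeasurable_pi_lambda _ fun r => hpre.aemeasurable _
  have hae : ∀ᵐ ω ∂P, ∀ t, ext (fun r : ℚ≥0 => B (r : ℝ≥0) ω) t = B t ω := by
    filter_upwards [hB.cont] with ω hω t
    exact congrFun (hext (fun t => B t ω) hω) t
  refine ⟨hΦ, ?_, hae⟩
  refine { hasLaw := fun F => ?_, cont := ?_ }
  · have hg : Measurable fun y : ℚ≥0 → ℝ => F.restrict (fun t => ext y t) :=
      measurable_pi_lambda _ fun t => hmeas t
    refine ⟨hg.aemeasurable, ?_⟩
    rw [AEMeasurable.map_map_of_aemeasurable hg.aemeasurable hΦ, ← (hpre.hasLaw F).map_eq]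
    refine Measure.map_congr ?_
    filter_upwards [hae] with ω hω
    funext t
    exact hω t
  · have h1 : ∀ᵐ y ∂(P.map (fun ω (r : ℚ≥0) => B (r : ℝ≥0) ω)), y ∈ G := by
      have h2 := ae_map_iff (p := fun y => y ∈ G) hΦ measurableSet_G
      rw [h2]
      filter_upwards [hB.cont] with ω hω
      exact mem_G hω
    filter_upwards [h1] with y hy
    obtain ⟨u, hu, hyu⟩ := exists_cont hy
    have h2 : (fun t => ext y t) = u := by
      rw [hyu]
      exact hext u hu
    rw [h2]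
    exact hu

end MP3e01

end

section

/-!
# MP_3e01db_pr, L6: two independent Brownian motions on the product of the canonical spaces
-/

open Set MeasureTheory ProbabilityTheory Filter
open scoped ENNReal NNReal unitInterval

namespace MP3e01

theorem pr_canonPair (h : S_ext) : S_canonPair := by
  intro μ μ' hB hB'
  have i1 : IsProbabilityMeasure μ := hB.isGaussianProcess.isProbabilityMeasure
  have i2 : IsProbabilityMeasure μ' := hB'.isGaussianProcess.isProbabilityMeasure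
  have m1 : MeasurePreserving Prod.fst (μ.prod μ') μ := measurePreserving_fst
  have m2 : MeasurePreserving Prod.snd (μ.prod μ') μ' := measurePreserving_snd
  have hm : Measurable (fun (y : ℚ≥0 → ℝ) (t : ℝ≥0) => ext y t) :=
    measurable_pi_iff.mpr h.1
  refine ⟨⟨⟨fun J => ?_⟩, ?_⟩, ⟨⟨fun J => ?_⟩, ?_⟩, ?_⟩
  · exact (hB.hasLaw J).comp m1.hasLaw
  · exact m1.quasiMeasurePreserving.ae hB.cont
  · exact (hB'.hasLaw J).comp m2.hasLaw
  · exact m2.quasiMeasurePreserving.ae hB'.cont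
  · exact indepFun_prod hm hm

end MP3e01

end

section

/-!
# L5: continuity of the normalised excursion
-/

open Set MeasureTheory ProbabilityTheory Filter
open scoped ENNReal NNReal unitInterval

namespace MP3e01

theorem pr_excCont (h1 : S_Z.{0}) (h2 : S_excPath) : S_excCont := by
  intro Ω _ P B hB
  filter_upwards [h1 P B hB] with ω hω
  obtain ⟨hc, h0, hone, hz⟩ := hω
  obtain ⟨g, d, f, _, hf, _, _, hex⟩ := h2 (fun t => B t ω) hc h0 hone hz
  have h3 : (fun t : I => excursion (fun s => B s ω) t) =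
      fun t : I => f (g + t * (d - g)) / √(d - g) := funext hex
  rw [h3]
  exact (hf.comp (continuous_const.add
    (continuous_subtype_val.mul continuous_const))).div_const _

end MP3e01

end

section

/-!
# L4: measurability of the excursion functional
-/

open Set MeasureTheory ProbabilityTheory Filter
open scoped ENNReal NNReal unitInterval

namespace MP3e01

open Pool.Agent.Work.MP_3e01db_pr.SM

theorem excMeas_first {u : ℝ≥0 → ℝ} (hu : Continuous u) (h : ∃ t : ℝ≥0, 1 ≤ t ∧ u t = 0) :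
    firstZero u = ((1 + firstT (fun s => -|u (1 + s)|) : ℝ≥0) : ℝ) := by
  have hf : Continuous (fun s : ℝ≥0 => -|u (1 + s)|) :=
    (hu.comp (continuous_const.add continuous_id)).abs.neg
  have hex : ∃ s : ℝ≥0, 0 ≤ (fun s : ℝ≥0 => -|u (1 + s)|) s := by
    obtain ⟨t, ht, h0⟩ := h
    refine ⟨t - 1, ?_⟩
    show 0 ≤ -|u (1 + (t - 1))|
    rw [add_tsub_cancel_of_le ht, h0, abs_zero, neg_zero]
  have hmem := firstT_mem hf hex
  have h0 : u (1 + firstT (fun s => -|u (1 + s)|)) = 0 := by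
    have h1 : 0 ≤ -|u (1 + firstT (fun s => -|u (1 + s)|))| := hmem
    have h2 := abs_nonneg (u (1 + firstT (fun s => -|u (1 + s)|)))
    exact abs_eq_zero.1 (le_antisymm (by linarith) h2)
  unfold firstZero
  apply IsLeast.csInf_eq
  constructor
  · refine ⟨?_, ?_⟩
    · rw [NNReal.coe_add, NNReal.coe_one]
      linarith [NNReal.coe_nonneg (firstT (fun s => -|u (1 + s)|))]
    · rw [Real.toNNReal_coe]
      exact h0
  · rintro t ⟨ht1, ht2⟩
    have h3 : (1 : ℝ≥0) + (t - 1).toNNReal = t.toNNReal := by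
      apply NNReal.coe_injective
      rw [NNReal.coe_add, NNReal.coe_one, Real.coe_toNNReal _ (by linarith),
        Real.coe_toNNReal _ (by linarith)]
      ring
    have h4 : firstT (fun s => -|u (1 + s)|) ≤ (t - 1).toNNReal := by
      apply firstT_le
      rw [h3, ht2, abs_zero, neg_zero]
    have h5 : ((firstT (fun s => -|u (1 + s)|) : ℝ≥0) : ℝ) ≤ t - 1 := by
      have h6 := NNReal.coe_le_coe.2 h4
      rwa [Real.coe_toNNReal _ (by linarith)] at h6
    rw [NNReal.coe_add, NNReal.coe_one]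
    linarith

theorem excMeas_last {u : ℝ≥0 → ℝ} (hu : Continuous u) (hz : u 0 = 0) :
    lastZero u = ((1 - firstT (fun s => -|u (1 - s)|) : ℝ≥0) : ℝ) := by
  have hf : Continuous (fun s : ℝ≥0 => -|u (1 - s)|) :=
    (hu.comp (continuous_const.sub continuous_id)).abs.neg
  have hone : 0 ≤ (fun s : ℝ≥0 => -|u (1 - s)|) 1 := by
    show 0 ≤ -|u (1 - 1)|
    rw [tsub_self, hz, abs_zero, neg_zero]
  have hle : firstT (fun s => -|u (1 - s)|) ≤ 1 := firstT_le hone
  have hmem := firstT_mem hf ⟨1, hone⟩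
  have h0 : u (1 - firstT (fun s => -|u (1 - s)|)) = 0 := by
    have h1 : 0 ≤ -|u (1 - firstT (fun s => -|u (1 - s)|))| := hmem
    have h2 := abs_nonneg (u (1 - firstT (fun s => -|u (1 - s)|)))
    exact abs_eq_zero.1 (le_antisymm (by linarith) h2)
  unfold lastZero
  apply IsGreatest.csSup_eq
  constructor
  · refine ⟨NNReal.coe_nonneg _, ?_, ?_⟩
    · rw [NNReal.coe_sub hle, NNReal.coe_one]
      linarith [NNReal.coe_nonneg (firstT (fun s => -|u (1 - s)|))]
    · rw [Real.toNNReal_coe]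
      exact h0
  · rintro t ⟨ht0, ht1, ht2⟩
    have h3 : (1 : ℝ≥0) - (1 - t).toNNReal = t.toNNReal := by
      apply NNReal.coe_injective
      rw [NNReal.coe_sub, NNReal.coe_one, Real.coe_toNNReal _ (by linarith),
        Real.coe_toNNReal _ ht0]
      · ring
      · apply NNReal.coe_le_coe.1
        rw [NNReal.coe_one, Real.coe_toNNReal _ (by linarith)]
        linarith
    have h4 : firstT (fun s => -|u (1 - s)|) ≤ (1 - t).toNNReal := by
      apply firstT_le
      rw [h3, ht2, abs_zero, neg_zero]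
    have h5 : ((firstT (fun s => -|u (1 - s)|) : ℝ≥0) : ℝ) ≤ 1 - t := by
      have h6 := NNReal.coe_le_coe.2 h4
      rwa [Real.coe_toNNReal _ (by linarith)] at h6
    rw [NNReal.coe_sub hle, NNReal.coe_one]
    linarith

theorem pr_excMeas (hZ : S_Z.{0}) : S_excMeas := by
  intro Ω _ P B hB t
  obtain ⟨C, hm, hc, h0, _, hae⟩ := Pool.Agent.Work.MP_3e01db_pr.AN.pr_Reg P B hB
  let d : Ω → ℝ≥0 := fun ω => 1 + firstT (fun s => -|C (1 + s) ω|)
  let g : Ω → ℝ≥0 := fun ω => 1 - firstT (fun s => -|C (1 - s) ω|)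
  have hd : Measurable d := by
    refine Measurable.const_add ?_ 1
    exact Pool.Agent.Work.MP_3e01db_pr.AN.pr_MeasT _ (fun s ω => -|C (1 + s) ω|)
      (fun s => (hm (1 + s)).abs.neg)
      (fun ω => ((hc ω).comp (continuous_const.add continuous_id)).abs.neg)
  have hg : Measurable g := by
    refine Measurable.const_sub ?_ 1
    exact Pool.Agent.Work.MP_3e01db_pr.AN.pr_MeasT _ (fun s ω => -|C (1 - s) ω|)
      (fun s => (hm (1 - s)).abs.neg)
      (fun ω => ((hc ω).comp (continuous_const.sub continuous_id)).abs.neg)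
  have hjoint : Measurable (Function.uncurry C) :=
    measurable_uncurry_of_continuous_of_measurable hc hm
  let τ : Ω → ℝ≥0 := fun ω => ((g ω : ℝ) + (t : ℝ) * ((d ω : ℝ) - (g ω : ℝ))).toNNReal
  have hτ : Measurable τ := by
    apply Measurable.real_toNNReal
    exact hg.coe_nnreal_real.add ((hd.coe_nnreal_real.sub hg.coe_nnreal_real).const_mul _)
  have hmain : Measurable (fun ω => |C (τ ω) ω| / √((d ω : ℝ) - (g ω : ℝ))) := by
    have h1 : Measurable (fun ω => C (τ ω) ω) := hjoint.comp (hτ.prodMk measurable_id)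
    exact h1.abs.div (Real.continuous_sqrt.measurable.comp
      (hd.coe_nnreal_real.sub hg.coe_nnreal_real))
  refine hmain.aemeasurable.congr ?_
  filter_upwards [hae, hZ P B hB] with ω h1 h2
  have hBC : (fun s => B s ω) = fun s => C s ω := funext h1
  rw [hBC]
  have hzero : ∃ s : ℝ≥0, 1 ≤ s ∧ C s ω = 0 := by
    obtain ⟨_, _, _, s, hs, hs0⟩ := h2
    exact ⟨s, hs, by rw [← h1]; exact hs0⟩
  have hF := excMeas_first (hc ω) hzero
  have hL := excMeas_last (hc ω) (h0 ω)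
  unfold excursion
  rw [hF, hL]

end MP3e01

end

section

/-!
# Extension from the nonnegative rationals along dyadic approximations
-/

open Set MeasureTheory ProbabilityTheory Filter
open scoped ENNReal NNReal unitInterval Topology

namespace MP3e01

theorem ext_floor_aux (x : ℝ≥0) : ⌊(x : ℝ)⌋₊ = ⌊x⌋₊ := by
  have h1 := Nat.floor_le (zero_le (a := x))
  have h2 := Nat.lt_floor_add_one x
  refine (Nat.floor_eq_iff (NNReal.coe_nonneg x)).2 ⟨?_, ?_⟩
  · exact_mod_cast h1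
  · exact_mod_cast h2

theorem ext_tendsto_aux (t : ℝ≥0) :
    Tendsto (fun n : ℕ => (((⌊(2 : ℝ≥0) ^ n * t⌋₊ : ℚ≥0) / 2 ^ n : ℚ≥0) : ℝ≥0)) atTop (𝓝 t) := by
  rw [← NNReal.tendsto_coe]
  have h1 : Tendsto (fun n : ℕ => (2 : ℝ) ^ n) atTop atTop :=
    tendsto_pow_atTop_atTop_of_one_lt (by norm_num)
  have h2 := (tendsto_nat_floor_mul_div_atTop (R := ℝ) (a := (t : ℝ)) t.2).comp h1
  refine h2.congr fun n => ?_
  have h3 : ⌊(t : ℝ) * 2 ^ n⌋₊ = ⌊(2 : ℝ≥0) ^ n * t⌋₊ := by
    rw [← ext_floor_aux]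
    push_cast
    rw [mul_comm]
  simp only [Function.comp_apply]
  rw [h3]
  push_cast
  rfl

theorem pr_ext : S_ext := by
  refine ⟨fun t => ?_, fun u hu => ?_⟩
  · unfold ext
    exact Measurable.limsup fun n => measurable_pi_apply _
  · funext t
    unfold ext
    exact ((hu.tendsto t).comp (ext_tendsto_aux t)).limsup_eq

end MP3e01

end

section

/-!
# L2: null sets and images (disintegration)
-/

open MeasureTheory ProbabilityTheory

namespace MP3e01

theorem pr_fiber : S_fiber := by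
  intro X Y _ _ _ _ μ _ E hE Q hQ
  classical
  have hne : Nonempty Y := by
    by_contra hc
    rw [not_nonempty_iff] at hc
    have h1 : μ Set.univ = 1 := measure_univ
    rw [Set.univ_eq_empty_iff.mpr hc, measure_empty] at h1
    exact zero_ne_one h1
  set N : Set Y := toMeasurable μ (E ⁻¹' Q) with hN
  have hNm : MeasurableSet N := measurableSet_toMeasurable _ _
  have hN0 : μ N = 0 := by rw [hN, measure_toMeasurable, hQ]
  have hg : Measurable (fun y => (E y, y)) := hE.prodMk measurable_id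
  set ρ : Measure (X × Y) := μ.map (fun y => (E y, y)) with hρ
  have : IsProbabilityMeasure ρ := Measure.isProbabilityMeasure_map hg.aemeasurable
  have hfst : ρ.fst = μ.map E := by
    rw [hρ]
    exact Measure.fst_map_prodMk (X := E) (Y := fun y => y) measurable_id
  have hdis : ρ.fst ⊗ₘ ρ.condKernel = ρ := Measure.disintegrate ρ ρ.condKernel
  -- the complement of the graph
  have hS : MeasurableSet {p : X × Y | E p.2 = p.1} :=
    measurableSet_eq_fun (hE.comp measurable_snd) measurable_fst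
  have hS0 : ρ {p : X × Y | E p.2 = p.1}ᶜ = 0 := by
    rw [hρ, Measure.map_apply hg hS.compl]
    have : (fun y => (E y, y)) ⁻¹' {p : X × Y | E p.2 = p.1}ᶜ = ∅ := by
      ext y; simp
    rw [this, measure_empty]
  have hT : MeasurableSet (Prod.snd ⁻¹' N : Set (X × Y)) := measurable_snd hNm
  have hT0 : ρ (Prod.snd ⁻¹' N : Set (X × Y)) = 0 := by
    rw [hρ, Measure.map_apply hg hT]
    exact hN0
  rw [← hdis, Measure.compProd_apply hS.compl] at hS0
  rw [← hdis, Measure.compProd_apply hT] at hT0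
  have e1 := (lintegral_eq_zero_iff
    (Kernel.measurable_kernel_prodMk_left (κ := ρ.condKernel) hS.compl)).mp hS0
  have e2 := (lintegral_eq_zero_iff
    (Kernel.measurable_kernel_prodMk_left (κ := ρ.condKernel) hT)).mp hT0
  rw [← hfst]
  have hall : ∀ᵐ x ∂ρ.fst, x ∉ Q := by
    filter_upwards [e1, e2] with x h1 h2 hx
    have h1' : ρ.condKernel x (Prod.mk x ⁻¹' {p : X × Y | E p.2 = p.1}ᶜ) = 0 := h1
    have h2' : ρ.condKernel x (Prod.mk x ⁻¹' (Prod.snd ⁻¹' N : Set (X × Y))) = 0 := h2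
    have huniv : (Set.univ : Set Y) ⊆
        (Prod.mk x ⁻¹' {p : X × Y | E p.2 = p.1}ᶜ) ∪
          (Prod.mk x ⁻¹' (Prod.snd ⁻¹' N : Set (X × Y))) := by
      intro y _
      by_cases hy : E y = x
      · right
        change y ∈ N
        apply subset_toMeasurable
        change E y ∈ Q
        rw [hy]
        exact hx
      · left
        exact hy
    have h3 : ρ.condKernel x Set.univ ≤ 0 := by
      calc ρ.condKernel x Set.univ ≤ _ := measure_mono huniv
        _ ≤ _ := measure_union_le _ _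
        _ = 0 := by rw [h1', h2', add_zero]
    rw [measure_univ] at h3
    exact absurd h3 (by simp)
  have := ae_iff.mp hall
  simpa using this

end MP3e01

end

section

/-!
# MP_3e01db_pr, block L: the final theorem
-/

open Set MeasureTheory ProbabilityTheory Filter
open scoped ENNReal NNReal unitInterval

namespace MP3e01

namespace Res

/-- the law of a Brownian excursion along a dense sequence of times, on the canonical space -/
theorem law_eq.{u} {Ω : Type u} [MeasurableSpace Ω] (P : Measure Ω) [IsProbabilityMeasure P]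
    (e : Ω → C(I, ℝ)) (h : IsBrownianExcursion e P) (h3 : S_canon) (h4 : S_excMeas)
    (q : ℕ → I) :
    ∃ (μ : Measure (ℚ≥0 → ℝ)) (E : (ℚ≥0 → ℝ) → ℕ → ℝ), IsProbabilityMeasure μ ∧
      IsBrownianReal (fun t (y : ℚ≥0 → ℝ) => ext y t) μ ∧ Measurable E ∧
      (∀ᵐ y ∂μ, ∀ n, E y n = excursion (fun s => ext y s) (q n)) ∧
      AEMeasurable (fun ω (n : ℕ) => e ω (q n)) P ∧
      P.map (fun ω (n : ℕ) => e ω (q n)) = μ.map E := by
  obtain ⟨Ω', _, P', B, hB, hlaw⟩ := h
  have hP' : IsProbabilityMeasure P' := hB.toIsPreBrownianReal.isGaussianProcess.isProbabilityMeasure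
  obtain ⟨hΦ, hBr, hae⟩ := h3 P' B hB
  set Φ : Ω' → ℚ≥0 → ℝ := fun ω r => B (r : ℝ≥0) ω with hΦdef
  have hμ : IsProbabilityMeasure (P'.map Φ) := Measure.isProbabilityMeasure_map hΦ
  set E0 : (ℚ≥0 → ℝ) → ℕ → ℝ := fun y n => excursion (fun s => ext y s) (q n) with hE0def
  have hE0 : AEMeasurable E0 (P'.map Φ) := aemeasurable_pi_lambda _ (fun n => h4 _ _ hBr (q n))
  -- the finite marginals of `e` are a.e. measurable
  have hfin : ∀ S : Finset I, AEMeasurable (fun ω (i : S) => e ω i) P := by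
    intro S
    by_contra hcon
    have h1 := hlaw S
    rw [Measure.map_of_not_aemeasurable hcon] at h1
    have h2 : AEMeasurable (fun ω' (i : S) => excursion (fun t => B t ω') i) P' :=
      aemeasurable_pi_lambda _ (fun i => h4 P' B hB i)
    have h3 : IsProbabilityMeasure (P'.map (fun ω' (i : S) => excursion (fun t => B t ω') i)) :=
      Measure.isProbabilityMeasure_map h2
    rw [← h1] at h3
    exact IsProbabilityMeasure.ne_zero (0 : Measure (S → ℝ)) rfl
  have het : ∀ t : I, AEMeasurable (fun ω => e ω t) P := by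
    intro t
    have h1 := hfin {t}
    exact (measurable_pi_apply (⟨t, Finset.mem_singleton_self t⟩ : ({t} : Finset I))).comp_aemeasurable
      h1
  have hΨ : AEMeasurable (fun ω (n : ℕ) => e ω (q n)) P :=
    aemeasurable_pi_lambda _ (fun n => het (q n))
  set Ξ : Ω' → ℕ → ℝ := fun ω' n => excursion (fun t => B t ω') (q n) with hΞdef
  have hΞ : AEMeasurable Ξ P' := aemeasurable_pi_lambda _ (fun n => h4 P' B hB (q n))
  have hlaw1 : P.map (fun ω (n : ℕ) => e ω (q n)) = P'.map Ξ := by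
    have hp2 : IsProbabilityMeasure (P'.map Ξ) := Measure.isProbabilityMeasure_map hΞ
    refine IsProjectiveLimit.unique (P := fun S : Finset ℕ => (P'.map Ξ).map S.restrict) ?_ ?_
    · intro S
      have hr : Measurable (S.restrict : (ℕ → ℝ) → (S → ℝ)) := Finset.measurable_restrict S
      show (P.map (fun ω (n : ℕ) => e ω (q n))).map S.restrict = (P'.map Ξ).map S.restrict
      rw [AEMeasurable.map_map_of_aemeasurable hr.aemeasurable hΨ,
        AEMeasurable.map_map_of_aemeasurable hr.aemeasurable hΞ]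
      classical
      set T : Finset I := S.image q with hT
      let ρ : (T → ℝ) → (S → ℝ) := fun z n => z ⟨q n, Finset.mem_image_of_mem q n.2⟩
      have hρ : Measurable ρ := measurable_pi_lambda _ (fun n => measurable_pi_apply _)
      have h2 : AEMeasurable (fun ω' (i : T) => excursion (fun t => B t ω') i) P' :=
        aemeasurable_pi_lambda _ (fun i => h4 P' B hB i)
      have e1 : P.map (S.restrict ∘ fun ω (n : ℕ) => e ω (q n)) =
          (P.map (fun ω (i : T) => e ω i)).map ρ := by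
        rw [AEMeasurable.map_map_of_aemeasurable hρ.aemeasurable (hfin T)]
        rfl
      have e2 : P'.map (S.restrict ∘ Ξ) =
          (P'.map (fun ω' (i : T) => excursion (fun t => B t ω') i)).map ρ := by
        rw [AEMeasurable.map_map_of_aemeasurable hρ.aemeasurable h2]
        rfl
      rw [e1, e2, hlaw T]
    · intro S
      rfl
  refine ⟨P'.map Φ, hE0.mk E0, hμ, hBr, hE0.measurable_mk, ?_, hΨ, ?_⟩
  · filter_upwards [hE0.ae_eq_mk] with y hy n
    rw [← hy]
  · rw [hlaw1, AEMeasurable.map_map_of_aemeasurable hE0.measurable_mk.aemeasurable hΦ]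
    apply Measure.map_congr
    have h1 : ∀ᵐ ω ∂P', E0 (Φ ω) = hE0.mk E0 (Φ ω) := ae_of_ae_map hΦ hE0.ae_eq_mk
    filter_upwards [h1, hae] with ω h1 h2
    rw [Function.comp_apply, ← h1]
    have h3 : (fun s => ext (Φ ω) s) = fun t => B t ω := funext h2
    simp only [hΞdef, hE0def, h3]

end Res

theorem pr_result.{u} (h1 : S_main.{0}) (h2 : S_fiber) (h3 : S_canon) (h4 : S_excMeas)
    (h5 : S_excCont) (h6 : S_canonPair) (_h7 : S_ext) : S_result.{u} := by
  intro Ω _ P _ e e' he he' hind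
  set q : ℕ → I := TopologicalSpace.denseSeq I with hq
  have hdense : DenseRange q := TopologicalSpace.denseRange_denseSeq I
  obtain ⟨μ, E, hμ, hBr, hE, hEae, hΨ, hlaw⟩ := Res.law_eq P e he h3 h4 q
  obtain ⟨μ', E', hμ', hBr', hE', hEae', hΨ', hlaw'⟩ := Res.law_eq P e' he' h3 h4 q
  obtain ⟨b1, b2, ind⟩ := h6 μ μ' hBr hBr'
  let Q : Set ((ℕ → ℝ) × (ℕ → ℝ)) := {x | ∃ w w' : C(I, ℝ), (∀ n, w (q n) = x.1 n) ∧
    (∀ n, w' (q n) = x.2 n) ∧ QSEquiv (CRTree w) (CRTree w')}
  -- (a)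
  have ha : (μ.prod μ') ((Prod.map E E') ⁻¹' Q) = 0 := by
    have a1 := h1 (μ.prod μ') _ _ b1 b2 ind
    have a2 := h5 (μ.prod μ') _ b1
    have a3 := h5 (μ.prod μ') _ b2
    have a4 : ∀ᵐ z ∂(μ.prod μ'), ∀ n, E z.1 n = excursion (fun s => ext z.1 s) (q n) :=
      Measure.quasiMeasurePreserving_fst.ae hEae
    have a5 : ∀ᵐ z ∂(μ.prod μ'), ∀ n, E' z.2 n = excursion (fun s => ext z.2 s) (q n) :=
      Measure.quasiMeasurePreserving_snd.ae hEae'
    have : ∀ᵐ z ∂(μ.prod μ'), ¬ (Prod.map E E' z ∈ Q) := by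
      filter_upwards [a1, a2, a3, a4, a5] with z a1 a2 a3 a4 a5
      rintro ⟨w, w', hw, hw', hQS⟩
      refine a1 w w' ?_ ?_ hQS
      · have : (w : I → ℝ) = fun t : I => excursion (fun s => ext z.1 s) t := by
          refine hdense.equalizer w.continuous a2 ?_
          funext n
          simp only [Function.comp_apply]
          rw [hw n, ← a4 n]
          rfl
        exact fun t => congrFun this t
      · have : (w' : I → ℝ) = fun t : I => excursion (fun s => ext z.2 s) t := by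
          refine hdense.equalizer w'.continuous a3 ?_
          funext n
          simp only [Function.comp_apply]
          rw [hw' n, ← a5 n]
          rfl
        exact fun t => congrFun this t
    rw [ae_iff] at this
    refine measure_mono_null ?_ this
    intro z hz
    exact fun hn => hn hz
  -- (b)
  have hb : ((μ.prod μ').map (Prod.map E E')) Q = 0 := h2 (μ.prod μ') (Prod.map E E')
    (hE.prodMap hE') Q ha
  -- (c)
  have hφ : Measurable (fun (y : I → ℝ) (n : ℕ) => y (q n)) :=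
    measurable_pi_lambda _ (fun n => measurable_pi_apply _)
  have hind2 : IndepFun (fun ω (n : ℕ) => e ω (q n)) (fun ω (n : ℕ) => e' ω (q n)) P :=
    hind.comp hφ hφ
  have hc : P.map (fun ω => ((fun n : ℕ => e ω (q n)), (fun n : ℕ => e' ω (q n)))) =
      (μ.prod μ').map (Prod.map E E') := by
    rw [(indepFun_iff_map_prod_eq_prod_map_map hΨ hΨ').mp hind2, hlaw, hlaw',
      Measure.map_prod_map μ μ' hE hE']
  -- (d)
  have hd : P ((fun ω => ((fun n : ℕ => e ω (q n)), (fun n : ℕ => e' ω (q n)))) ⁻¹' Q) = 0 := by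
    have := Measure.le_map_apply (hΨ.prodMk hΨ') Q
    rw [hc, hb] at this
    exact nonpos_iff_eq_zero.mp this
  rw [ae_iff]
  refine measure_mono_null ?_ hd
  intro ω hω
  simp only [Set.mem_setOf_eq, not_not] at hω
  exact ⟨e ω, e' ω, fun n => rfl, fun n => rfl, hω⟩

end MP3e01

end
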