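import Pool.Agent.Work.MP_3e01db_pr.Bd.B06
import Pool.Agent.Work.MP_3e01db_pr.Bd.B03
import Pool.Agent.Work.MP_3e01db_pr.Bd.B04
import Pool.Agent.Work.MP_3e01db_pr.Bd.B05

/-! Bundle of small proof modules (one section per former module). -/

section

/-! The only probabilistic input `MP3e01.S_AN`, from the items. -/

open MeasureTheory ProbabilityTheory
open scoped NNReal ENNReal Topology

namespace Pool.Agent.Work.MP_3e01db_pr.AN

open Pool.Agent.Work.MP_3e01db_pr.SM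

universe u

variable {Ω : Type u} {m1 m2 mΩ : MeasurableSpace Ω} {P : Measure Ω}

/-- Right side: one more independent fair word. -/
lemma right_step (hCpl : S_Cpl.{u}) (hHit : S_Hit.{u}) (hMin : S_Min.{u}) (hle : m1 ≤ mΩ)
    {X : ℝ≥0 → Ω → ℝ} (hXm : ∀ t, Measurable[mΩ] (X t)) (hXc : ∀ ω, Continuous fun t ↦ X t ω)
    (hX0 : ∀ ω, X 0 ω = 0) (hXb : IsPreBrownianReal X P) (hind : Indep m1 (procσ X) P)
    {p q : ℝ≥0} (hpq : p ≤ q) {ε : ℝ} (hε : 0 < ε) (v : List Bool) {A : Set Ω}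
    (hA : MeasurableSet[m1 ⊔ uptoσ X q] A) :
    P (A ∩ {ω | rEv (fun t ↦ X t ω) p q ε v}) = P A * 2⁻¹ ^ v.length := by
  obtain ⟨hb, hle1⟩ := hCpl P m1 X hle hXm hXc hX0 hXb hind
  have hpi := hb.past_indep q
  have hpast : past (cpl P m1) X q ≤ mΩ := sup_le hb.le (uptoσ_le hXm q)
  obtain ⟨hb2, hle2⟩ := hCpl P (past (cpl P m1) X q) (incr X q) hpast
    (fun t ↦ (hXm _).sub (hXm _)) (fun ω ↦ by have := hXc ω; unfold incr; fun_prop)
    (fun ω ↦ by simp [incr]) (hXb.shift q) hpi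
  have hup : uptoσ X q ≤ cpl P (past (cpl P m1) X q) := le_sup_right.trans hle2
  have hD : Measurable[cpl P (past (cpl P m1) X q)]
      (fun ω ↦ X q ω - MP3e01.mn (fun t ↦ X t.toNNReal ω) p q) := by
    refine Measurable.sub (m := cpl P (past (cpl P m1) X q)) ?_ ?_
    · exact (measurable_upto X le_rfl).mono hup le_rfl
    · exact hMin _ X p q hpq hXc fun s _ hs ↦ (measurable_upto X hs).mono hup le_rfl
  have hA' : MeasurableSet[cpl P (past (cpl P m1) X q)] A := by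
    refine hle2 _ ?_
    have : m1 ⊔ uptoσ X q ≤ past (cpl P m1) X q := sup_le_sup_right hle1 _
    exact this _ hA
  exact hHit P _ (incr X q) hb2 _ hD ε hε A hA' v

/-- Left side. -/
lemma left_step (hCpl : S_Cpl.{u}) (hHit : S_Hit.{u}) (hMin : S_Min.{u}) (hRev : S_Rev.{u})
    [IsProbabilityMeasure P]
    {Y W : ℝ≥0 → Ω → ℝ} (hYm : ∀ t, Measurable[mΩ] (Y t)) (hYc : ∀ ω, Continuous fun t ↦ Y t ω)
    (hYb : IsPreBrownianReal Y P)
    (hWm : ∀ t, Measurable[mΩ] (W t)) (hWc : ∀ ω, Continuous fun t ↦ W t ω)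
    (hW0 : ∀ ω, W 0 ω = 0) (hWb : IsPreBrownianReal W P)
    (hind : IndepFun (fun ω t ↦ Y t ω) (fun ω t ↦ W t ω) P)
    {p q : ℝ≥0} (hpq : p ≤ q) {ε : ℝ} (hε : 0 < ε) (v : List Bool) :
    P {ω | lEv (fun t ↦ Y t ω) (fun t ↦ W t ω) p q ε v} = 2⁻¹ ^ v.length := by
  obtain ⟨hZb, hZi⟩ := hRev P Y W p hYm hWm hYb hWb hind
  set Z : ℝ≥0 → Ω → ℝ := fun t ω ↦ rev (fun t ↦ Y t ω) (fun t ↦ W t ω) p t with hZ
  have hZeq : (fun t ω ↦ if t ≤ p then Y (p - t) ω - Y p ω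
      else W (t - p) ω + (Y 0 ω - Y p ω)) = Z := by
    ext t ω
    simp only [hZ, rev]
  rw [hZeq] at hZb hZi
  have hZm : ∀ t, Measurable[mΩ] (Z t) := fun t ↦ meas_rev (fun s _ ↦ hYm s) hWm t
  have hZc : ∀ ω, Continuous fun t ↦ Z t ω := fun ω ↦ continuous_rev (hYc ω) (hWc ω) (hW0 ω) p
  have hZ0 : ∀ ω, Z 0 ω = 0 := fun ω ↦ by
    simp only [hZ, rev, zero_le, if_true, tsub_zero, sub_self]
  have hle : procσ (incr Y p) ≤ mΩ := procσ_le fun t ↦ (hYm _).sub (hYm _)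
  obtain ⟨hb, hle1⟩ := hCpl P (procσ (incr Y p)) Z hle hZm hZc hZ0 hZb hZi
  have hD : Measurable[cpl P (procσ (incr Y p))]
      (fun ω ↦ Y p ω - MP3e01.mn (fun t ↦ Y t.toNNReal ω) p q) := by
    have h1 : Measurable[procσ (incr Y p)]
        (fun ω ↦ MP3e01.mn (fun t ↦ Y t.toNNReal ω - Y p ω) p q) := by
      refine hMin _ (fun t ω ↦ Y t ω - Y p ω) p q hpq
        (fun ω ↦ (hYc ω).sub continuous_const) fun s hs _ ↦ ?_
      have h2 := measurable_proc (incr Y p) (s - p)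
      have h3 : incr Y p (s - p) = fun ω ↦ Y s ω - Y p ω := by
        ext ω
        simp only [incr, add_tsub_cancel_of_le hs]
      rwa [h3] at h2
    have h4 : (fun ω ↦ Y p ω - MP3e01.mn (fun t ↦ Y t.toNNReal ω) p q) =
        fun ω ↦ -(MP3e01.mn (fun t ↦ Y t.toNNReal ω - Y p ω) p q) := by
      ext ω
      have hcc : Continuous (fun t : ℝ ↦ Y t.toNNReal ω) :=
        (hYc ω).comp continuous_real_toNNReal
      have h5 := mn_sub_const hcc (Y p ω) p q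
      rw [h5]
      ring
    rw [h4]
    exact (h1.mono hle1 le_rfl).neg
  have := hHit P _ Z hb _ hD ε hε Set.univ (@MeasurableSet.univ _ (cpl P (procσ (incr Y p)))) v
  rw [measure_univ, one_mul, Set.univ_inter] at this
  exact this

/-- **The analytic input.** -/
theorem an_of_items (hReg : S_Reg.{u}) (hCpl : S_Cpl.{u}) (hHit : S_Hit.{u}) (hMin : S_Min.{u})
    (hRev : S_Rev.{u}) (hDet : S_DetR) (hMT : S_MeasT.{u}) (hMS : S_MeasSigns.{u}) :
    MP3e01.S_AN.{u} := by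
  intro Ω mΩ P B B' hB hB' hind p q p' q' ε ε' hp hpq hp' hpq' hε hε' v v₁ v₂
  obtain ⟨C, hCm, hCc, hC0, hCb, hCae⟩ := hReg P B hB
  obtain ⟨C', hCm', hCc', hC0', hCb', hCae'⟩ := hReg P B' hB'
  have hprob : IsProbabilityMeasure P := hCb.isGaussianProcess.isProbabilityMeasure
  have hindC : IndepFun (fun ω t ↦ C t ω) (fun ω t ↦ C' t ω) P := by
    refine hind.process_congr (fun t ↦ ?_) (fun t ↦ ?_)
    · filter_upwards [hCae] with ω h using h t
    · filter_upwards [hCae'] with ω h using h t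
  -- nonnegative versions of the times
  obtain ⟨pp, rfl⟩ : ∃ x : ℝ≥0, (x : ℝ) = p := ⟨⟨p, hp.le⟩, rfl⟩
  obtain ⟨qq, rfl⟩ : ∃ x : ℝ≥0, (x : ℝ) = q := ⟨⟨q, (hp.trans hpq).le⟩, rfl⟩
  obtain ⟨pp', rfl⟩ : ∃ x : ℝ≥0, (x : ℝ) = p' := ⟨⟨p', hp'.le⟩, rfl⟩
  obtain ⟨qq', rfl⟩ : ∃ x : ℝ≥0, (x : ℝ) = q' := ⟨⟨q', (hp'.trans hpq').le⟩, rfl⟩
  have hpq1 : pp ≤ qq := by exact_mod_cast hpq.le
  have hpq1' : pp' ≤ qq' := by exact_mod_cast hpq'.le
  -- the product space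
  set Q : Measure (Ω × Ω) := P.prod P with hQ
  set X : ℝ≥0 → Ω × Ω → ℝ := fun t ω ↦ C t ω.1 with hX
  set Y : ℝ≥0 → Ω × Ω → ℝ := fun t ω ↦ C' t ω.1 with hY
  set W : ℝ≥0 → Ω × Ω → ℝ := fun t ω ↦ C t ω.2 with hW
  have hfst : MeasurePreserving (Prod.fst : Ω × Ω → Ω) Q P := measurePreserving_fst
  have hsnd : MeasurePreserving (Prod.snd : Ω × Ω → Ω) Q P := measurePreserving_snd
  have hXb : IsPreBrownianReal X Q := isPre_comp hCb hfst
  have hYb : IsPreBrownianReal Y Q := isPre_comp hCb' hfst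
  have hWb : IsPreBrownianReal W Q := isPre_comp hCb hsnd
  have hXm : ∀ t, Measurable (X t) := fun t ↦ (hCm t).comp measurable_fst
  have hYm : ∀ t, Measurable (Y t) := fun t ↦ (hCm' t).comp measurable_fst
  have hWm : ∀ t, Measurable (W t) := fun t ↦ (hCm t).comp measurable_snd
  have hXc : ∀ ω, Continuous fun t ↦ X t ω := fun ω ↦ hCc ω.1
  have hYc : ∀ ω, Continuous fun t ↦ Y t ω := fun ω ↦ hCc' ω.1
  have hWc : ∀ ω, Continuous fun t ↦ W t ω := fun ω ↦ hCc ω.2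
  have hX0 : ∀ ω, X 0 ω = 0 := fun ω ↦ hC0 ω.1
  have hY0 : ∀ ω, Y 0 ω = 0 := fun ω ↦ hC0' ω.1
  have hW0 : ∀ ω, W 0 ω = 0 := fun ω ↦ hC0 ω.2
  -- independence
  have hXle : procσ X ≤ (inferInstance : MeasurableSpace (Ω × Ω)) := procσ_le hXm
  have hYle : procσ Y ≤ (inferInstance : MeasurableSpace (Ω × Ω)) := procσ_le hYm
  have hWle : procσ W ≤ (inferInstance : MeasurableSpace (Ω × Ω)) := procσ_le hWm
  have hXle1 : procσ X ≤ mΩ.comap (Prod.fst : Ω × Ω → Ω) := by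
    rw [hX, procσ_comp_fst]; exact MeasurableSpace.comap_mono (procσ_le hCm)
  have hYle1 : procσ Y ≤ mΩ.comap (Prod.fst : Ω × Ω → Ω) := by
    rw [hY, procσ_comp_fst]; exact MeasurableSpace.comap_mono (procσ_le hCm')
  have hWle2 : procσ W ≤ mΩ.comap (Prod.snd : Ω × Ω → Ω) := by
    rw [hW, procσ_comp_snd]; exact MeasurableSpace.comap_mono (procσ_le hCm)
  have hfs : Indep (mΩ.comap (Prod.fst : Ω × Ω → Ω)) (mΩ.comap (Prod.snd : Ω × Ω → Ω)) Q :=
    indep_fst_snd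
  have hXY_W : Indep (procσ X ⊔ procσ Y) (procσ W) Q :=
    indep_of_indep_of_le_left (indep_of_indep_of_le_right hfs hWle2) (sup_le hXle1 hYle1)
  have hX_Y : Indep (procσ X) (procσ Y) Q := by
    rw [hX, hY, procσ_comp_fst, procσ_comp_fst]
    rw [IndepFun_iff_Indep] at hindC
    exact indep_fst (procσ_le hCm) (procσ_le hCm') hindC
  have hX_YW : Indep (procσ X) (procσ Y ⊔ procσ W) Q :=
    indep_swap_sup hXle hYle hWle hXY_W hX_Y
  have hY_W : Indep (procσ Y) (procσ W) Q :=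
    indep_of_indep_of_le_left hXY_W le_sup_right
  have hYWf : IndepFun (fun ω t ↦ Y t ω) (fun ω t ↦ W t ω) Q := by
    rw [IndepFun_iff_Indep]; exact hY_W
  -- the three events
  set AX : Set (Ω × Ω) := {ω | rEv (fun t ↦ X t ω) pp qq ε v} with hAX
  set AY : Set (Ω × Ω) := {ω | rEv (fun t ↦ Y t ω) pp' qq' ε' v₁} with hAY
  set AZ : Set (Ω × Ω) := {ω | lEv (fun t ↦ Y t ω) (fun t ↦ W t ω) pp' qq' ε' v₂} with hAZ
  have hQZ : Q AZ = 2⁻¹ ^ v₂.length :=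
    left_step hCpl hHit hMin hRev hYm hYc hYb hWm hWc hW0 hWb hYWf hpq1' hε' v₂
  have hQZY : Q (AZ ∩ AY) = Q AZ * 2⁻¹ ^ v₁.length := by
    refine right_step (m1 := procσ W) hCpl hHit hMin hWle hYm hYc hY0 hYb hY_W.symm hpq1' hε' v₁ ?_
    refine meas_lEv hMT hMS hMin hYc hWc hW0 hpq1' ?_ ?_ ε' v₂
    · intro t ht
      exact (measurable_upto Y ht).mono le_sup_right le_rfl
    · intro t
      exact (measurable_proc W t).mono le_sup_left le_rfl
  have hQZYX : Q ((AZ ∩ AY) ∩ AX) = Q (AZ ∩ AY) * 2⁻¹ ^ v.length := by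
    refine right_step (m1 := procσ Y ⊔ procσ W) hCpl hHit hMin (sup_le hYle hWle) hXm hXc hX0 hXb
      hX_YW.symm hpq1 hε v ?_
    have hYm' : ∀ t, Measurable[procσ Y ⊔ procσ W ⊔ uptoσ X qq] (Y t) := fun t ↦
      (measurable_proc Y t).mono (le_sup_left.trans le_sup_left) le_rfl
    have hWm' : ∀ t, Measurable[procσ Y ⊔ procσ W ⊔ uptoσ X qq] (W t) := fun t ↦
      (measurable_proc W t).mono (le_sup_right.trans le_sup_left) le_rfl
    refine @MeasurableSet.inter _ (procσ Y ⊔ procσ W ⊔ uptoσ X qq) _ _ ?_ ?_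
    · exact meas_lEv hMT hMS hMin hYc hWc hW0 hpq1' (fun t _ ↦ hYm' t) hWm' ε' v₂
    · exact meas_rEv hMT hMS hMin hYc hYm' hpq1' ε' v₁
  -- comparison
  set E : Set Ω := {ω | MP3e01.RightPre (MP3e01.pathR C ω) pp qq ε v ∧
    MP3e01.RightPre (MP3e01.pathR C' ω) pp' qq' ε' v₁ ∧
    MP3e01.LeftPre (MP3e01.pathR C' ω) pp' qq' ε' v₂} with hE
  have h1 : P {ω | MP3e01.RightPre (MP3e01.pathR B ω) pp qq ε v ∧
      MP3e01.RightPre (MP3e01.pathR B' ω) pp' qq' ε' v₁ ∧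
      MP3e01.LeftPre (MP3e01.pathR B' ω) pp' qq' ε' v₂} ≤ P E := by
    refine measure_mono_ae ?_
    filter_upwards [hCae, hCae'] with ω h1 h2 h3
    have e1 : MP3e01.pathR B ω = MP3e01.pathR C ω := by
      ext t; exact h1 _
    have e2 : MP3e01.pathR B' ω = MP3e01.pathR C' ω := by
      ext t; exact h2 _
    have h3' : MP3e01.RightPre (MP3e01.pathR B ω) pp qq ε v ∧
      MP3e01.RightPre (MP3e01.pathR B' ω) pp' qq' ε' v₁ ∧
      MP3e01.LeftPre (MP3e01.pathR B' ω) pp' qq' ε' v₂ := h3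
    rw [e1, e2] at h3'
    exact h3'
  have h2 : P E = Q (E ×ˢ Set.univ) := by
    rw [hQ, Measure.prod_prod, measure_univ, mul_one]
  have h3 : E ×ˢ Set.univ ⊆ (AZ ∩ AY) ∩ AX := by
    rintro ⟨ω, ω'⟩ ⟨⟨ha, hb, hc⟩, -⟩
    refine ⟨⟨?_, ?_⟩, ?_⟩
    · exact left_imp (c := fun t ↦ C' t ω) (w := fun t ↦ C t ω') hDet hε' hc
    · exact right_imp (c := fun t ↦ C' t ω) hDet hε' hb
    · exact right_imp (c := fun t ↦ C t ω) hDet hε ha
  calc P _ ≤ P E := h1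
    _ = Q (E ×ˢ Set.univ) := h2
    _ ≤ Q ((AZ ∩ AY) ∩ AX) := measure_mono h3
    _ = 2⁻¹ ^ (v.length + v₁.length + v₂.length) := by
      rw [hQZYX, hQZY, hQZ, ← pow_add, ← pow_add]
      congr 1
      ring

end Pool.Agent.Work.MP_3e01db_pr.AN

end

section

/-! The analytic block is complete. -/

namespace Pool.Agent.Work.MP_3e01db_pr.AN

universe u

/-- The only probabilistic input. -/
theorem S_AN_proved : MP3e01.S_AN.{u} := by
  have hE : S_Exit.{u} := pr_Exit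
  have hS : S_Sgn.{u} := pr_Sgn hE
  have hSA : S_SgnAt.{u} := pr_SgnAt
  have hSrw : S_Srw.{u} := pr_Srw hE hS hSA
  have hL : S_Level.{u} := pr_Level hE hS hSA
  have hHit : S_Hit.{u} := pr_Hit hSrw hL
  have hReg : S_Reg.{u} := pr_Reg
  have hCpl : S_Cpl.{u} := pr_Cpl
  have hMin : S_Min.{u} := pr_Min
  have hRev : S_Rev.{u} := pr_Rev
  have hMT : S_MeasT.{u} := pr_MeasT
  have hMS : S_MeasSigns.{u} := pr_MeasSigns hMT
  intro Ω mΩ
  exact an_of_items hReg hCpl hHit hMin hRev pr_DetR hMT hMS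

/-- Brownian paths are nowhere monotone. -/
theorem S_NM_proved : S_NM.{u} := pr_NM

/-- Zero after time one. -/
theorem S_Z_proved : S_Z.{u} := pr_Z pr_Reg pr_Cpl (pr_Level pr_Exit (pr_Sgn pr_Exit) pr_SgnAt)

end Pool.Agent.Work.MP_3e01db_pr.AN

end

section

/-! # MP_3e01db_pr: block AN in the form used by block F -/

open Set MeasureTheory ProbabilityTheory Filter
open scoped ENNReal NNReal unitInterval

namespace MP3e01

universe u

theorem all_HAN {Ω : Type u} [MeasurableSpace Ω] (P : Measure Ω) (B B' : ℝ≥0 → Ω → ℝ)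
    (hB : IsBrownianReal B P) (hB' : IsBrownianReal B' P)
    (hi : IndepFun (fun ω t => B t ω) (fun ω t => B' t ω) P) :
    HAN P (fun ω => pathR B ω) (fun ω => pathR B' ω) := by
  intro p q p' q' ε ε' hp hpq hp' hpq' hε hε' v v₁ v₂
  exact Pool.Agent.Work.MP_3e01db_pr.AN.S_AN_proved P B B' hB hB' hi p q p' q' ε ε' hp hpq hp'
    hpq' hε hε' v v₁ v₂

theorem all_Z : S_Z.{u} := by
  intro Ω _ P B hB
  filter_upwards [hB.cont, Pool.Agent.Work.MP_3e01db_pr.AN.S_Z_proved P B hB] with ω h1 h2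
  obtain ⟨h3, h4, t, h5, h6⟩ := h2
  exact ⟨h1, h3, h4, t, h5.le, h6⟩

theorem all_NM : S_NM.{u} := by
  intro Ω _ P B hB
  filter_upwards [Pool.Agent.Work.MP_3e01db_pr.AN.S_NM_proved P B hB] with ω h a b ha hab
  have hb : 0 ≤ b := ha.trans hab.le
  obtain ⟨h1, h2⟩ := h ⟨a, ha⟩ ⟨b, hb⟩ (by exact_mod_cast hab)
  constructor
  · intro hm
    apply h1
    intro s hs t ht hst
    have := @hm (s : ℝ) ⟨by exact_mod_cast hs.1, by exact_mod_cast hs.2⟩ (t : ℝ)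
      ⟨by exact_mod_cast ht.1, by exact_mod_cast ht.2⟩ (by exact_mod_cast hst)
    simpa [pathR] using this
  · intro hm
    apply h2
    intro s hs t ht hst
    have := @hm (s : ℝ) ⟨by exact_mod_cast hs.1, by exact_mod_cast hs.2⟩ (t : ℝ)
      ⟨by exact_mod_cast ht.1, by exact_mod_cast ht.2⟩ (by exact_mod_cast hst)
    simpa [pathR] using this

end MP3e01

end
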